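import Mathlib

/-!
# Etale fundamental groups of smooth curves, in terms of function fields

`K` is a field, `F/K` a function field of one variable, `S` a finite set of places of `F/K`.
The curve `X` is the complement of `S` in the regular proper model of `F/K`; its etale
fundamental group is the Galois group of the maximal extension of `F` (in a separable closure
`Ω` of `F`) that is unramified over `X`, i.e. the quotient of `Gal(Ω/F)` by the closed normal
subgroup generated by the inertia groups of the places of `Ω` above `X`.
-/

universe u

namespace PiCurve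

variable (K : Type u) [Field K]

/-- A place of the field extension `E/K`: a valuation ring of `E` containing `K`, not `E`. -/
def IsPlace {E : Type u} [Field E] [Algebra K E] (W : ValuationSubring E) : Prop :=
  (∀ a : K, algebraMap K E a ∈ W) ∧ W ≠ ⊤

/-- `F/K` is a function field of one variable. -/
def IsFunctionField (F : Type u) [Field F] [Algebra K F] : Prop :=
  ∃ t : F, Transcendental K t ∧
    FiniteDimensional (IntermediateField.adjoin K {t}) F

/-- A place of degree one: every element of the valuation ring is congruent to a constant. -/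
def IsRational {E : Type u} [Field E] [Algebra K E] (W : ValuationSubring E) : Prop :=
  IsPlace K W ∧ ∀ f ∈ W, ∃ a : K, ∃ g : E, f - algebraMap K E a = g ∧ W.valuation g < 1

variable {F Ω : Type u} [Field F] [Algebra K F] [Field Ω] [Algebra F Ω] [Algebra K Ω]
  [IsScalarTower K F Ω]

/-- The elements of `Gal(Ω/F)` that lie in the inertia group of the valuation ring `W`. -/
def inertia (W : ValuationSubring Ω) : Set (Ω ≃ₐ[F] Ω) :=
  {σ | ∀ f ∈ W, W.valuation (σ f - f) < 1}

/-- The decomposition group of the valuation ring `W`. -/
def decomp (W : ValuationSubring Ω) : Set (Ω ≃ₐ[F] Ω) :=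
  {σ | ∀ f, σ f ∈ W ↔ f ∈ W}

/-- The closed normal subgroup of `Gal(Ω/F)` generated by the inertia groups of all places
above `X`: those whose restriction to `F` is not in `S`. -/
noncomputable def ramSubgroup (Ω : Type u) [Field Ω] [Algebra F Ω] [Algebra K Ω]
    [IsScalarTower K F Ω] (S : Finset (ValuationSubring F)) : Subgroup (Ω ≃ₐ[F] Ω) :=
  (Subgroup.normalClosure (⋃ W ∈ {W : ValuationSubring Ω | IsPlace K W ∧
    W.comap (algebraMap F Ω) ∉ S}, inertia (F := F) W)).topologicalClosure

/-- The full statement for the curve given by `F/K` and `S`. -/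
def NoFixed (Ω : Type u) [Field Ω] [Algebra F Ω] [Algebra K Ω]
    [IsScalarTower K F Ω] (S : Finset (ValuationSubring F)) : Prop :=
  ∀ W : ValuationSubring Ω, IsPlace K W → W.comap (algebraMap F Ω) ∉ S →
    IsRational K (W.comap (algebraMap F Ω)) →
    ∀ γ : Ω ≃ₐ[F] Ω, (∀ a : Ω, IsAlgebraic K a → γ a = a) →
      (∀ δ ∈ decomp (F := F) W, γ * δ * γ⁻¹ * δ⁻¹ ∈ ramSubgroup K Ω S) →
      γ ∈ ramSubgroup K Ω S

end PiCurve
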