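import Mathlib

/-! (CLG) The class of an ideal and functoriality of class groups. -/

namespace PiCurve

/-- The class of an ideal. -/
noncomputable def cl {B : Type*} [CommRing B] [IsDedekindDomain B] (I : Ideal B) :
    ClassGroup B := by
  classical
  exact if h : I ≠ ⊥ then ClassGroup.mk0 ⟨I, mem_nonZeroDivisors_of_ne_zero h⟩ else 1

section

variable {B B' B'' : Type*} [CommRing B] [IsDedekindDomain B] [CommRing B'] [IsDedekindDomain B']
  [CommRing B''] [IsDedekindDomain B'']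

theorem cl_of_ne {I : Ideal B} (h : I ≠ ⊥) :
    cl I = ClassGroup.mk0 ⟨I, mem_nonZeroDivisors_of_ne_zero h⟩ := by
  unfold cl
  rw [dif_pos h]

theorem mul_ne_bot' {I J : Ideal B} (hI : I ≠ ⊥) (hJ : J ≠ ⊥) : I * J ≠ ⊥ := by
  intro h
  rcases Ideal.mul_eq_bot.1 h with h | h
  · exact hI h
  · exact hJ h

theorem cl_mul {I J : Ideal B} (hI : I ≠ ⊥) (hJ : J ≠ ⊥) : cl (I * J) = cl I * cl J := by
  rw [cl_of_ne hI, cl_of_ne hJ, cl_of_ne (mul_ne_bot' hI hJ), ← map_mul]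
  rfl

theorem cl_top : cl (⊤ : Ideal B) = 1 := by
  rw [cl_of_ne top_ne_bot, ← map_one (ClassGroup.mk0 (R := B))]
  congr 1
  exact Subtype.ext Ideal.one_eq_top.symm

theorem cl_surjective (c : ClassGroup B) : ∃ I : Ideal B, I ≠ ⊥ ∧ cl I = c := by
  obtain ⟨⟨I, hI⟩, rfl⟩ := ClassGroup.mk0_surjective c
  have h : I ≠ ⊥ := nonZeroDivisors.ne_zero hI
  exact ⟨I, h, cl_of_ne h⟩

theorem cl_eq_iff {I J : Ideal B} (hI : I ≠ ⊥) (hJ : J ≠ ⊥) :
    cl I = cl J ↔ ∃ x y : B, x ≠ 0 ∧ y ≠ 0 ∧ Ideal.span {x} * I = Ideal.span {y} * J := by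
  rw [cl_of_ne hI, cl_of_ne hJ, ClassGroup.mk0_eq_mk0_iff]
  constructor
  · rintro ⟨x, y, hx, hy, h⟩
    exact ⟨x, y, hx, hy, h⟩
  · rintro ⟨x, y, hx, hy, h⟩
    exact ⟨x, y, hx, hy, h⟩

theorem cl_eq_one_iff {I : Ideal B} (hI : I ≠ ⊥) :
    cl I = 1 ↔ ∃ x : B, x ≠ 0 ∧ I = Ideal.span {x} := by
  rw [cl_of_ne hI, ClassGroup.mk0_eq_one_iff]
  constructor
  · rintro ⟨x, hx⟩
    refine ⟨x, ?_, hx⟩
    rintro rfl
    apply hI
    change I = _ at hx
    rw [hx]
    simp
  · rintro ⟨x, -, hx⟩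
    exact ⟨x, hx⟩

omit [IsDedekindDomain B] in
theorem span_singleton_ne_bot {x : B} (hx : x ≠ 0) : Ideal.span {x} ≠ ⊥ := by
  rwa [Ne, Ideal.span_singleton_eq_bot]

/-- If `cl I = cl J` and `x ∈ J`, `x ≠ 0`, then `x I = y J` for some `y ∈ I`. -/
theorem cl_eq_dvd {I J : Ideal B} (hI : I ≠ ⊥) (hJ : J ≠ ⊥) (h : cl I = cl J) {x : B}
    (hx : x ∈ J) (hx0 : x ≠ 0) :
    ∃ y ∈ I, y ≠ 0 ∧ Ideal.span {x} * I = Ideal.span {y} * J := by
  obtain ⟨a, b, ha, hb, hab⟩ := (cl_eq_iff hI hJ).1 h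
  have h1 : b * x ∈ Ideal.span {a} * I := by
    rw [hab]
    exact Ideal.mul_mem_mul (Ideal.mem_span_singleton_self b) hx
  obtain ⟨y, hy, hyx⟩ := Ideal.mem_span_singleton_mul.1 h1
  refine ⟨y, hy, ?_, ?_⟩
  · rintro rfl
    rw [mul_zero] at hyx
    exact mul_ne_zero hb hx0 hyx.symm
  · have h2 : Ideal.span {a} * (Ideal.span {x} * I) = Ideal.span {a} * (Ideal.span {y} * J) := by
      calc Ideal.span {a} * (Ideal.span {x} * I) = Ideal.span {x} * (Ideal.span {a} * I) := by ring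
        _ = Ideal.span {x} * (Ideal.span {b} * J) := by rw [hab]
        _ = (Ideal.span {b} * Ideal.span {x}) * J := by ring
        _ = Ideal.span {b * x} * J := by rw [Ideal.span_singleton_mul_span_singleton]
        _ = Ideal.span {a * y} * J := by rw [hyx]
        _ = (Ideal.span {a} * Ideal.span {y}) * J := by
          rw [Ideal.span_singleton_mul_span_singleton]
        _ = _ := by ring
    exact mul_left_cancel₀ (span_singleton_ne_bot ha) h2

/-- Inverse: for `x ∈ I` there is `J` with `I J = (x)`. -/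
theorem exists_mul_eq_span {I : Ideal B} {x : B} (hx : x ∈ I) (hx0 : x ≠ 0) :
    ∃ J : Ideal B, J ≠ ⊥ ∧ I * J = Ideal.span {x} := by
  have h1 : I ∣ Ideal.span {x} := Ideal.dvd_iff_le.2 ((Ideal.span_singleton_le_iff_mem I).2 hx)
  obtain ⟨J, hJ⟩ := h1
  refine ⟨J, ?_, hJ.symm⟩
  rintro rfl
  rw [Ideal.mul_bot] at hJ
  exact span_singleton_ne_bot hx0 hJ

omit [IsDedekindDomain B] [IsDedekindDomain B'] in
theorem map_ne_bot_of_injective (f : B →+* B') (hf : Function.Injective f) {I : Ideal B}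
    (hI : I ≠ ⊥) : I.map f ≠ ⊥ := by
  rwa [Ne, Ideal.map_eq_bot_iff_of_injective hf]

theorem cl_map_congr (f : B →+* B') (hf : Function.Injective f) {I J : Ideal B} (hI : I ≠ ⊥)
    (hJ : J ≠ ⊥) (h : cl I = cl J) : cl (I.map f) = cl (J.map f) := by
  obtain ⟨a, b, ha, hb, hab⟩ := (cl_eq_iff hI hJ).1 h
  refine (cl_eq_iff (map_ne_bot_of_injective f hf hI) (map_ne_bot_of_injective f hf hJ)).2
    ⟨f a, f b, ?_, ?_, ?_⟩
  · rwa [Ne, map_eq_zero_iff f hf]
  · rwa [Ne, map_eq_zero_iff f hf]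
  · have h1 := congrArg (Ideal.map f) hab
    rw [Ideal.map_mul, Ideal.map_mul, Ideal.map_span, Ideal.map_span, Set.image_singleton,
      Set.image_singleton] at h1
    exact h1

theorem exists_cmap (f : B →+* B') (hf : Function.Injective f) :
    ∃ φ : ClassGroup B →* ClassGroup B', ∀ I : Ideal B, I ≠ ⊥ → φ (cl I) = cl (I.map f) := by
  have key : ∀ I : Ideal B, I ≠ ⊥ →
      cl ((cl_surjective (cl I)).choose.map f) = cl (I.map f) := by
    intro I hI
    obtain ⟨h1, h2⟩ := (cl_surjective (cl I)).choose_spec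
    exact cl_map_congr f hf h1 hI h2
  refine ⟨MonoidHom.mk' (fun c => cl ((cl_surjective c).choose.map f)) ?_, fun I hI => key I hI⟩
  intro c d
  obtain ⟨I, hI, rfl⟩ := cl_surjective c
  obtain ⟨J, hJ, rfl⟩ := cl_surjective d
  rw [← cl_mul hI hJ, key _ (mul_ne_bot' hI hJ), key I hI, key J hJ, Ideal.map_mul,
    cl_mul (map_ne_bot_of_injective f hf hI) (map_ne_bot_of_injective f hf hJ)]

/-- The homomorphism of class groups induced by an injective ring homomorphism. -/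
noncomputable def cmap (f : B →+* B') (hf : Function.Injective f) :
    ClassGroup B →* ClassGroup B' := (exists_cmap f hf).choose

theorem cmap_cl (f : B →+* B') (hf : Function.Injective f) {I : Ideal B} (hI : I ≠ ⊥) :
    cmap f hf (cl I) = cl (I.map f) := (exists_cmap f hf).choose_spec I hI

theorem cmap_comp (f : B →+* B') (hf : Function.Injective f) (g : B' →+* B'')
    (hg : Function.Injective g) (c : ClassGroup B) :
    cmap g hg (cmap f hf c) = cmap (g.comp f) (hg.comp hf) c := by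
  obtain ⟨I, hI, rfl⟩ := cl_surjective c
  rw [cmap_cl f hf hI, cmap_cl g hg (map_ne_bot_of_injective f hf hI), cmap_cl _ _ hI,
    Ideal.map_map]

theorem cmap_id (c : ClassGroup B) : cmap (RingHom.id B) Function.injective_id c = c := by
  obtain ⟨I, hI, rfl⟩ := cl_surjective c
  rw [cmap_cl _ _ hI, Ideal.map_id]

end

end PiCurve
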