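import Pool.Agent.Pi2.GamR
import Pool.Agent.Helper99.PiP.Gen

/-!
# Gamma-algebras: integrality over `R[u]`, points of `M ⊗ A`, fields of definition
-/

open Polynomial Module TensorProduct

open scoped nonZeroDivisors

namespace PiCurve

section int

variable {G : AddSubmonoid ℕ} {R A : Type*} [CommRing R] [CommRing A] [Algebra R A]

theorem GamAlg.finite_aeval (D : GamAlg G R A) {u : A} {n : G} (hn : 0 < (n : ℕ))
    (hu : Lead R D.B u n) : (aeval u : R[X] →ₐ[R] A).toRingHom.Finite := by
  obtain ⟨r, e, he⟩ := exists_freeOn_of_lead D.B D.cofin D.mul D.one hn hu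
  let _ := (aeval u : R[X] →ₐ[R] A).toRingHom.toAlgebra
  obtain ⟨B, -⟩ := he.exists_basis
  exact Module.Finite.of_basis B

theorem GamAlg.isIntegral_aeval (D : GamAlg G R A) {u : A} {n : G} (hn : 0 < (n : ℕ))
    (hu : Lead R D.B u n) : (aeval u : R[X] →ₐ[R] A).toRingHom.IsIntegral :=
  (D.finite_aeval hn hu).to_isIntegral

end int

section field

variable {G : AddSubmonoid ℕ} {L A : Type*} [Field L] [CommRing A] [Algebra L A]

theorem GamAlg.transcendental (D : GamAlg G L A) {u : A} {n : G} (hn : 0 < (n : ℕ))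
    (hu : Lead L D.B u n) : Transcendental L u := by
  rintro ⟨p, hp, hp0⟩
  have h1 : Lead L D.B (u ^ p.natDegree) (p.natDegree • n) := hu.pow D.mul D.one _
  have h2 : aeval u p ≠ 0 := by
    apply D.lead_ne_zero (c := p.natDegree • n)
    rw [aeval_eq_sum_range, Finset.sum_range_succ]
    obtain ⟨r, hr⟩ := h1
    refine ⟨Units.mk0 _ (mul_ne_zero (leadingCoeff_ne_zero.2 hp) r.ne_zero), ?_⟩
    have h3 : ∑ i ∈ Finset.range p.natDegree, p.coeff i • u ^ i ∈
        ltSpan (R := L) (G := (G : Set ℕ)) D.B ((p.natDegree • n : G) : ℕ) := by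
      refine Submodule.sum_mem _ fun i hi => Submodule.smul_mem _ _ ?_
      refine (hu.pow D.mul D.one i).mem_ltSpan ?_
      have h4 : ((i • n : G) : ℕ) = i * n := by simp
      have h5 : ((p.natDegree • n : G) : ℕ) = p.natDegree * n := by simp
      rw [h4, h5]
      exact Nat.mul_lt_mul_of_pos_right (Finset.mem_range.1 hi) hn
    have h4 : ∑ x ∈ Finset.range p.natDegree, p.coeff x • u ^ x + p.coeff p.natDegree •
        u ^ p.natDegree - (Units.mk0 _ (mul_ne_zero (leadingCoeff_ne_zero.2 hp) r.ne_zero) : L) •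
          D.B (p.natDegree • n) = ∑ x ∈ Finset.range p.natDegree, p.coeff x • u ^ x +
        p.leadingCoeff • (u ^ p.natDegree - (r : L) • D.B (p.natDegree • n)) := by
      rw [Units.val_mk0, smul_sub, smul_smul]
      unfold Polynomial.leadingCoeff
      abel
    rw [h4]
    exact Submodule.add_mem _ h3 (Submodule.smul_mem _ _ hr)
  exact h2 hp0

/-- A nonzero ideal contains a nonzero polynomial in `u`. -/
theorem GamAlg.exists_poly_mem (D : GamAlg G L A) {u : A} {n : G} (hn : 0 < (n : ℕ))
    (hu : Lead L D.B u n) {h : A} (hh : h ≠ 0) :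
    ∃ p : L[X], p ≠ 0 ∧ ∃ z, aeval u p = z * h := by
  have hdom := D.isDomain
  let _ : Algebra L[X] A := (aeval u : L[X] →ₐ[L] A).toAlgebra
  have h1 : Ideal.comap (algebraMap L[X] A) (Ideal.span {h}) ≠ ⊥ :=
    Ideal.comap_ne_bot_of_integral_mem (x := h) hh (Ideal.mem_span_singleton_self h)
      (D.isIntegral_aeval hn hu h)
  obtain ⟨p, hp, hp0⟩ := Submodule.exists_mem_ne_zero_of_ne_bot h1
  obtain ⟨z, hz⟩ := Ideal.mem_span_singleton'.1 (Ideal.mem_comap.1 hp)
  exact ⟨p, hp0, z, hz.symm⟩

end field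

section tensor

universe u

variable {k A : Type u} [Field k] [CommRing A] [Algebra k A]

/-- Evaluation of `M ⊗ A` at a point with values in `M`. -/
noncomputable def ptHom {M : Type u} [Field M] [Algebra k M] (R : A →ₐ[k] M) :
    M ⊗[k] A →ₐ[M] M :=
  Algebra.TensorProduct.lift (AlgHom.id M M) R (fun _ _ => Commute.all _ _)

@[simp]
theorem ptHom_tmul {M : Type u} [Field M] [Algebra k M] (R : A →ₐ[k] M) (m : M) (a : A) :
    ptHom R (m ⊗ₜ a) = m * R a := by
  unfold ptHom
  rw [Algebra.TensorProduct.lift_tmul, AlgHom.id_apply]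

/-- The maximal ideal of a point. -/
noncomputable def ptIdeal {M : Type u} [Field M] [Algebra k M] (R : A →ₐ[k] M) :
    Ideal (M ⊗[k] A) := RingHom.ker (ptHom R)

theorem mem_ptIdeal {M : Type u} [Field M] [Algebra k M] {R : A →ₐ[k] M} {x : M ⊗[k] A} :
    x ∈ ptIdeal R ↔ ptHom R x = 0 := RingHom.mem_ker

theorem exists_ptHom {M : Type u} [Field M] [Algebra k M] (S : M ⊗[k] A →ₐ[M] M) :
    ∃ R : A →ₐ[k] M, S = ptHom R := by
  refine ⟨(S.restrictScalars k).comp Algebra.TensorProduct.includeRight, ?_⟩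
  apply Algebra.TensorProduct.ext
  · exact Subsingleton.elim _ _
  · ext a
    simp

/-- Base change of the constants. -/
noncomputable def bcHom {M N : Type u} [Field M] [Algebra k M] [Field N] [Algebra k N]
    (f : M →ₐ[k] N) : M ⊗[k] A →ₐ[k] N ⊗[k] A :=
  Algebra.TensorProduct.map f (AlgHom.id k A)

@[simp]
theorem bcHom_tmul {M N : Type u} [Field M] [Algebra k M] [Field N] [Algebra k N]
    (f : M →ₐ[k] N) (m : M) (a : A) : bcHom f (m ⊗ₜ[k] a) = f m ⊗ₜ a := by
  unfold bcHom
  rw [Algebra.TensorProduct.map_tmul, AlgHom.id_apply]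

theorem bcHom_smul {M N : Type u} [Field M] [Algebra k M] [Field N] [Algebra k N]
    (f : M →ₐ[k] N) (m : M) (x : M ⊗[k] A) : bcHom f (m • x) = f m • bcHom f x := by
  induction x using TensorProduct.induction_on with
  | zero => simp
  | tmul m' a => rw [TensorProduct.smul_tmul', bcHom_tmul, bcHom_tmul, TensorProduct.smul_tmul',
      smul_eq_mul, map_mul, smul_eq_mul]
  | add x y hx hy => rw [smul_add, map_add, map_add, smul_add, hx, hy]

theorem bcHom_algebraMap {M N : Type u} [Field M] [Algebra k M] [Field N] [Algebra k N]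
    (f : M →ₐ[k] N) (m : M) :
    bcHom f (algebraMap M (M ⊗[k] A) m) = algebraMap N (N ⊗[k] A) (f m) := by
  rw [Algebra.algebraMap_eq_smul_one, bcHom_smul, map_one, Algebra.algebraMap_eq_smul_one]

theorem ptHom_bcHom {M N : Type u} [Field M] [Algebra k M] [Field N] [Algebra k N]
    (f : M →ₐ[k] N) (R : A →ₐ[k] M) (x : M ⊗[k] A) :
    ptHom (f.comp R) (bcHom f x) = f (ptHom R x) := by
  induction x using TensorProduct.induction_on with
  | zero => simp
  | tmul m' a => simp
  | add x y hx hy => rw [map_add, map_add, map_add, map_add, hx, hy]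

theorem bcHom_comp {M N N' : Type u} [Field M] [Algebra k M] [Field N] [Algebra k N] [Field N']
    [Algebra k N'] (f : M →ₐ[k] N) (f' : N →ₐ[k] N') (x : M ⊗[k] A) :
    bcHom f' (bcHom f x) = bcHom (f'.comp f) x := by
  induction x using TensorProduct.induction_on with
  | zero => simp
  | tmul m' a => simp
  | add x y hx hy => rw [map_add, map_add, map_add, hx, hy]

theorem map_ptIdeal_le {M N : Type u} [Field M] [Algebra k M] [Field N] [Algebra k N]
    (f : M →ₐ[k] N) (R : A →ₐ[k] M) :
    (ptIdeal R).map (bcHom f) ≤ ptIdeal (f.comp R) := by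
  rw [Ideal.map_le_iff_le_comap]
  intro x hx
  rw [Ideal.mem_comap, mem_ptIdeal, ptHom_bcHom, mem_ptIdeal.1 hx, map_zero]

variable {G : AddSubmonoid ℕ}

theorem baseChange_B_apply (D : GamAlg G k A) (M : Type u) [Field M] [Algebra k M] (c : G) :
    (D.baseChange M).B c = 1 ⊗ₜ D.B c :=
  Module.Basis.baseChange_apply _ _ _

theorem lead_baseChange (D : GamAlg G k A) (M : Type u) [Field M] [Algebra k M] {x : A} {c : G}
    (hx : Lead k D.B x c) : Lead M (D.baseChange M).B ((1 : M) ⊗ₜ[k] x) c := by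
  have h := Lead.map (algebraMap k M)
      (Algebra.TensorProduct.includeRight : A →ₐ[k] TensorProduct k M A).toRingHom
      (fun r => by
        rw [AlgHom.toRingHom_eq_coe, RingHom.coe_coe, AlgHom.commutes,
          IsScalarTower.algebraMap_apply k M (TensorProduct k M A)])
      (b' := (D.baseChange M).B) (fun c => by
        rw [baseChange_B_apply]
        rfl) hx
  exact h

theorem lead_bcHom (D : GamAlg G k A) {M N : Type u} [Field M] [Algebra k M] [Field N]
    [Algebra k N] (f : M →ₐ[k] N) {x : M ⊗[k] A} {c : G}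
    (hx : Lead M (D.baseChange M).B x c) : Lead N (D.baseChange N).B (bcHom f x) c :=
  Lead.map f.toRingHom (bcHom f).toRingHom (fun r => bcHom_algebraMap f r)
    (fun c => by
      change bcHom f _ = _
      rw [baseChange_B_apply, baseChange_B_apply, bcHom_tmul, map_one]) hx

theorem mem_lt_bcHom (D : GamAlg G k A) {M N : Type u} [Field M] [Algebra k M] [Field N]
    [Algebra k N] (f : M →ₐ[k] N) {x : M ⊗[k] A} {n : ℕ}
    (hx : x ∈ (D.baseChange M).lt n) : bcHom f x ∈ (D.baseChange N).lt n :=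
  mem_ltSpan_map f.toRingHom (bcHom f).toRingHom (fun r => bcHom_algebraMap f r)
    (fun c => by
      change bcHom f _ = _
      rw [baseChange_B_apply, baseChange_B_apply, bcHom_tmul, map_one]) hx

theorem bcHom_injective {M N : Type u} [Field M] [Algebra k M] [Field N] [Algebra k N]
    (f : M →ₐ[k] N) : Function.Injective (bcHom f : M ⊗[k] A →ₐ[k] N ⊗[k] A) :=
  Module.Flat.rTensor_preserves_injective_linearMap (M := A) f.toLinearMap f.toRingHom.injective

/-- The value of `u` at a zero of an element defined over `E` is algebraic over `E`. -/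
theorem isAlgebraic_of_zero (D : GamAlg G k A) {u : A} {n : G} (hn : 0 < (n : ℕ))
    (hu : Lead k D.B u n) {N : Type u} [Field N] [Algebra k N] (E : IntermediateField k N)
    {h : E ⊗[k] A} (hh : h ≠ 0) (η : A →ₐ[k] N) (h0 : ptHom η (bcHom E.val h) = 0) :
    IsAlgebraic E (η u) := by
  obtain ⟨p, hp, z, hz⟩ := (D.baseChange E).exists_poly_mem hn (lead_baseChange D E hu) hh
  let χ : E ⊗[k] A →ₐ[E] N :=
    Algebra.TensorProduct.lift (Algebra.ofId E N) η (fun _ _ => Commute.all _ _)
  have hχ : ∀ x, χ x = ptHom η (bcHom E.val x) := by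
    intro x
    induction x using TensorProduct.induction_on with
    | zero => simp
    | tmul m a => simp [χ]
    | add x y hx hy => rw [map_add, map_add, map_add, hx, hy]
  refine ⟨p, hp, ?_⟩
  have h1 := congrArg χ hz
  rw [map_mul, hχ h, h0, mul_zero, ← Polynomial.aeval_algHom_apply] at h1
  have h2 : χ ((1 : E) ⊗ₜ[k] u) = η u := by simp [χ]
  rwa [h2] at h1

theorem isDomain_tensor (D : GamAlg G k A) (M : Type u) [Field M] [Algebra k M] :
    IsDomain (M ⊗[k] A) := (D.baseChange M).isDomain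

theorem isDedekindDomain_tensor (D : GamAlg G k A) (hc : Cert k A) (M : Type u) [Field M]
    [Algebra k M] : IsDedekindDomain (M ⊗[k] A) := by
  have := isDomain_tensor D M
  exact (hc.tensor M).isDedekindDomain

theorem linearIndependent_bcHom {M N : Type u} [Field M] [Algebra k M] [Field N] [Algebra k N]
    (f : M →ₐ[k] N) {ι : Type*} {v : ι → M ⊗[k] A} (hv : LinearIndependent M v) :
    LinearIndependent N (fun i => bcHom f (v i)) := by
  let _ : Algebra M N := f.toAlgebra
  have _ : IsScalarTower k M N := IsScalarTower.of_algebraMap_eq (fun x => (f.commutes x).symm)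
  have h1 : LinearIndependent N (fun i => (1 : N) ⊗ₜ[M] v i) :=
    Module.Flat.linearIndependent_one_tmul hv
  have h2 := h1.map' (TensorProduct.AlgebraTensorModule.cancelBaseChange k M N N A).toLinearMap
    (LinearEquiv.ker _)
  have h3 : ∀ x : M ⊗[k] A, bcHom f x =
      (TensorProduct.AlgebraTensorModule.cancelBaseChange k M N N A) ((1 : N) ⊗ₜ[M] x) := by
    intro x
    induction x using TensorProduct.induction_on with
    | zero => simp
    | tmul m a =>
      rw [TensorProduct.AlgebraTensorModule.cancelBaseChange_tmul, bcHom_tmul, Algebra.smul_def,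
        mul_one]
      rfl
    | add x y hx hy => rw [map_add, TensorProduct.tmul_add, map_add, hx, hy]
  have h4 : (fun i => bcHom f (v i)) =
      (TensorProduct.AlgebraTensorModule.cancelBaseChange k M N N A).toLinearMap ∘
        fun i => (1 : N) ⊗ₜ[M] v i := funext fun i => h3 (v i)
  rw [h4]
  exact h2

theorem map_prod_ptIdeal_le {M N : Type u} [Field M] [Algebra k M] [Field N] [Algebra k N]
    (f : M →ₐ[k] N) {ι : Type*} (s : Finset ι) (R : ι → A →ₐ[k] M) {x : M ⊗[k] A}
    (hx : x ∈ ∏ j ∈ s, ptIdeal (R j)) : bcHom f x ∈ ∏ j ∈ s, ptIdeal (f.comp (R j)) := by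
  have h1 : (∏ j ∈ s, ptIdeal (R j)).map (bcHom f) ≤ ∏ j ∈ s, ptIdeal (f.comp (R j)) := by
    classical
    clear hx
    induction s using Finset.induction_on with
    | empty => simp
    | insert a s ha ih =>
      rw [Finset.prod_insert ha, Finset.prod_insert ha, Ideal.map_mul]
      exact Ideal.mul_mono (map_ptIdeal_le f (R a)) ih
  exact h1 (Ideal.mem_map_of_mem _ hx)

theorem finrank_ptIdeal {M : Type u} [Field M] [Algebra k M] (R : A →ₐ[k] M) :
    finrank M (M ⊗[k] A ⧸ ptIdeal R) = 1 := finrank_quot_ker (ptHom R)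

theorem ptIdeal_ne_bot (D : GamAlg G k A) {M : Type u} [Field M] [Algebra k M] (R : A →ₐ[k] M) :
    ptIdeal R ≠ ⊥ := ker_ne_bot (D.baseChange M) (ptHom R)

theorem prod_ptIdeal_ne_bot (D : GamAlg G k A) {M : Type u} [Field M] [Algebra k M] {ι : Type*}
    (s : Finset ι) (R : ι → A →ₐ[k] M) : ∏ j ∈ s, ptIdeal (R j) ≠ ⊥ := by
  have := isDomain_tensor D M
  rw [← Ideal.zero_eq_bot, Finset.prod_ne_zero_iff]
  exact fun j _ => ptIdeal_ne_bot D (R j)

theorem finrank_prod_ptIdeal (D : GamAlg G k A) (hc : Cert k A) {M : Type u} [Field M]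
    [Algebra k M] {ι : Type*} (s : Finset ι) (R : ι → A →ₐ[k] M) :
    finrank M (M ⊗[k] A ⧸ ∏ j ∈ s, ptIdeal (R j)) = s.card := by
  have := isDedekindDomain_tensor D hc M
  rw [finrank_quot_prod (D.baseChange M) s _ (fun j _ => ptIdeal_ne_bot D (R j))]
  simp only [finrank_ptIdeal, Finset.sum_const, smul_eq_mul, mul_one]

theorem level_field (D : GamAlg G k A) (hc : Cert k A) {u : A} {n : G} (hn : 0 < (n : ℕ))
    (hu : Lead k D.B u n) {M N : Type u} [Field M] [Algebra k M] [Field N] [Algebra k N]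
    (f : M →ₐ[k] N) {r m : ℕ} (hm : 3 * genus G ≤ m) (R : Fin r → A →ₐ[k] M)
    (η : Fin m → A →ₐ[k] N) (f0 : N ⊗[k] A)
    (h : (∏ i, ptIdeal (η i)) * ∏ j, ptIdeal (f.comp (R j)) = Ideal.span {f0}) :
    ∃ T : Finset N, T.card ≤ m - genus G ∧
      ∀ i, η i u ∈ PiP.algCl k (Set.range f ∪ (T : Set N)) := by
  classical
  have dM := isDedekindDomain_tensor D hc M
  have dN := isDedekindDomain_tensor D hc N
  set I : Ideal (M ⊗[k] A) := ∏ j, ptIdeal (R j) with hI
  set IN : Ideal (N ⊗[k] A) := ∏ j, ptIdeal (f.comp (R j)) with hIN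
  have hI0 : I ≠ ⊥ := prod_ptIdeal_ne_bot D _ _
  have hIN0 : IN ≠ ⊥ := prod_ptIdeal_ne_bot D _ _
  have hη0 : ∏ i, ptIdeal (η i) ≠ ⊥ := prod_ptIdeal_ne_bot D _ _
  have fdI := (D.baseChange M).finite_quot hI0
  have fdIN := (D.baseChange N).finite_quot hIN0
  have h1 : finrank M (M ⊗[k] A ⧸ I) = r := by
    rw [hI, finrank_prod_ptIdeal D hc, Finset.card_univ, Fintype.card_fin]
  have h2 : finrank N (N ⊗[k] A ⧸ IN) = r := by
    rw [hIN, finrank_prod_ptIdeal D hc, Finset.card_univ, Fintype.card_fin]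
  have hf00 : f0 ≠ 0 := by
    rintro rfl
    rw [Ideal.span_singleton_eq_bot.2 rfl] at h
    exact mul_ne_zero hη0 hIN0 h
  obtain ⟨c, hcl⟩ := (D.baseChange N).exists_lead hf00
  have h3 : (c : ℕ) = m + r := by
    rw [← (D.baseChange N).finrank_quot_span hcl, ← h,
      finrank_quot_mul (D.baseChange N) hη0 hIN0, h2, finrank_prod_ptIdeal D hc,
      Finset.card_univ, Fintype.card_fin]
  have hf0lt : f0 ∈ (D.baseChange N).lt (m + r + 1) := hcl.mem_ltSpan (by omega)
  have hf0mem : f0 ∈ (∏ i, ptIdeal (η i)) * IN := by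
    rw [h]
    exact Ideal.mem_span_singleton_self f0
  have hf0IN : f0 ∈ IN := Ideal.mul_le_right hf0mem
  have h4 := (D.baseChange M).finrank_cut_eq (I := I) (N := m + r + 1) (by omega)
  have h5 := (D.baseChange N).finrank_cut_eq (I := IN) (N := m + r + 1) (by omega)
  set s := finrank M ((D.baseChange M).cut I (m + r + 1)) with hs
  let b : Basis (Fin s) M ((D.baseChange M).cut I (m + r + 1)) := Module.finBasis _ _
  let v : Fin s → N ⊗[k] A := fun j => bcHom f (b j : M ⊗[k] A)
  have hv : LinearIndependent N v := by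
    apply linearIndependent_bcHom f
    exact b.linearIndependent.map' (Submodule.subtype _) (Submodule.ker_subtype _)
  have hvmem : ∀ j, v j ∈ (D.baseChange N).cut IN (m + r + 1) := by
    intro j
    obtain ⟨h6, h7⟩ := (D.baseChange M).mem_cut.1 (b j).2
    exact (D.baseChange N).mem_cut.2 ⟨mem_lt_bcHom D f h6, map_prod_ptIdeal_le f _ R h7⟩
  have hspan : Submodule.span N (Set.range v) = (D.baseChange N).cut IN (m + r + 1) := by
    apply Submodule.eq_of_le_of_finrank_eq
    · rw [Submodule.span_le]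
      rintro _ ⟨j, rfl⟩
      exact hvmem j
    · rw [finrank_span_eq_card hv, Fintype.card_fin]
      omega
  have hf0span : f0 ∈ Submodule.span N (Set.range v) := by
    rw [hspan]
    exact (D.baseChange N).mem_cut.2 ⟨hf0lt, hf0IN⟩
  obtain ⟨x, hx⟩ := (Submodule.mem_span_range_iff_exists_fun N).1 hf0span
  obtain ⟨j0, hj0⟩ : ∃ j0, x j0 ≠ 0 := by
    by_contra hcon
    push Not at hcon
    apply hf00
    rw [← hx]
    exact Finset.sum_eq_zero fun j _ => by rw [hcon j, zero_smul]
  let T : Finset N := (Finset.univ.erase j0).image fun j => x j / x j0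
  refine ⟨T, ?_, ?_⟩
  · have h6 : T.card ≤ (Finset.univ.erase j0 : Finset (Fin s)).card := Finset.card_image_le
    rw [Finset.card_erase_of_mem (Finset.mem_univ _), Finset.card_univ, Fintype.card_fin] at h6
    omega
  · intro i
    set E := PiP.algCl k (Set.range f ∪ (T : Set N)) with hE
    have hfE : ∀ a, f a ∈ E := fun a => PiP.subset_algCl _ (Or.inl ⟨a, rfl⟩)
    let f' : M →ₐ[k] E := f.codRestrict E.toSubalgebra hfE
    have hf' : E.val.comp f' = f := by ext a; rfl
    have hy : ∀ j, x j / x j0 ∈ E := by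
      intro j
      by_cases hj : j = j0
      · rw [hj, div_self hj0]
        exact E.one_mem
      · apply PiP.subset_algCl
        right
        rw [Finset.mem_coe, Finset.mem_image]
        exact ⟨j, Finset.mem_erase.2 ⟨hj, Finset.mem_univ _⟩, rfl⟩
    let h2' : E ⊗[k] A := ∑ j, (⟨x j / x j0, hy j⟩ : E) • bcHom f' (b j : M ⊗[k] A)
    have hval : bcHom E.val h2' = (x j0)⁻¹ • f0 := by
      rw [map_sum, ← hx, Finset.smul_sum]
      refine Finset.sum_congr rfl fun j _ => ?_
      rw [bcHom_smul, bcHom_comp, hf', smul_smul]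
      congr 1
      change x j / x j0 = (x j0)⁻¹ * x j
      rw [div_eq_mul_inv, mul_comm]
    have hne : h2' ≠ 0 := by
      intro h6
      rw [h6, map_zero] at hval
      exact smul_ne_zero (inv_ne_zero hj0) hf00 hval.symm
    apply PiP.mem_algCl_of_isAlgebraic
    apply isAlgebraic_of_zero D hn hu E hne
    rw [hval, map_smul]
    have h6 : f0 ∈ ptIdeal (η i) := by
      have h7 : ∏ i, ptIdeal (η i) ≤ ptIdeal (η i) :=
        Ideal.le_of_dvd (Finset.dvd_prod_of_mem _ (Finset.mem_univ i))
      exact h7 (Ideal.mul_le_left hf0mem)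
    rw [mem_ptIdeal.1 h6, smul_zero]

end tensor

end PiCurve
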