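import Mathlib
import Pool.Agent.Pi2.GamI
import Pool.Agent.Pi2.CLG

/-!
# Base change, points and classes for Gamma-algebras over a general base ring
-/

namespace PiCurve

open TensorProduct

section

variable {R A : Type*} [CommRing R] [CommRing A] [Algebra R A]

/-- The ring homomorphism `L ⊗ A → L' ⊗ A` induced by an `R`-algebra homomorphism `L → L'`. -/
noncomputable def bcm (A : Type*) [CommRing A] [Algebra R A] {L L' : Type*} [CommRing L]
    [CommRing L'] [Algebra R L] [Algebra R L'] (τ : L →ₐ[R] L') : L ⊗[R] A →+* L' ⊗[R] A :=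
  (Algebra.TensorProduct.map τ (AlgHom.id R A)).toRingHom

/-- Evaluation at the point `P` of `Spec A` with values in `L`. -/
noncomputable def ev {L : Type*} [CommRing L] [Algebra R L] (P : A →ₐ[R] L) : L ⊗[R] A →ₐ[L] L :=
  Algebra.TensorProduct.lift (AlgHom.id L L) P (fun _ _ => Commute.all _ _)

/-- The ideal of the point `P`. -/
noncomputable def ptI {L : Type*} [CommRing L] [Algebra R L] (P : A →ₐ[R] L) :
    Ideal (L ⊗[R] A) := RingHom.ker (ev P)

end

end PiCurve
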