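import Pool.Agent.Pi2.GamF

/-!
# Gamma-algebras over a field which are Dedekind domains: small representatives, points
-/

open Polynomial Module

open scoped nonZeroDivisors

namespace PiCurve

section ded

variable {G : AddSubmonoid ℕ} {L A : Type*} [Field L] [CommRing A] [Algebra L A]
  [IsDedekindDomain A]

theorem finrank_quot_mul (D : GamAlg G L A) {I J : Ideal A} (hI : I ≠ ⊥) (hJ : J ≠ ⊥) :
    finrank L (A ⧸ I * J) = finrank L (A ⧸ I) + finrank L (A ⧸ J) := by
  have h1 := D.finite_quot hI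
  have h2 := D.finite_quot hJ
  exact PiP.finrank_quotient_mul I J hI hJ

theorem finrank_quot_prod (D : GamAlg G L A) {ι : Type*} (s : Finset ι) (I : ι → Ideal A)
    (hI : ∀ i ∈ s, I i ≠ ⊥) :
    finrank L (A ⧸ ∏ i ∈ s, I i) = ∑ i ∈ s, finrank L (A ⧸ I i) := by
  classical
  induction s using Finset.induction_on with
  | empty =>
    rw [Finset.prod_empty, Finset.sum_empty]
    have h : Subsingleton (A ⧸ (1 : Ideal A)) := by
      rw [Ideal.one_eq_top]
      infer_instance
    exact finrank_zero_of_subsingleton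
  | insert a s ha ih =>
    have h1 : ∀ i ∈ s, I i ≠ ⊥ := fun i hi => hI i (Finset.mem_insert_of_mem hi)
    have h2 : ∏ i ∈ s, I i ≠ ⊥ := by
      rw [← Ideal.zero_eq_bot, Finset.prod_ne_zero_iff]
      exact h1
    rw [Finset.prod_insert ha, Finset.sum_insert ha,
      finrank_quot_mul D (hI a (Finset.mem_insert_self _ _)) h2, ih h1]

/-- Every class is represented by an ideal of codimension at most the genus. -/
theorem exists_small_rep (D : GamAlg G L A) (x : ClassGroup A) :
    ∃ I : (Ideal A)⁰, ClassGroup.mk0 I = x ∧ finrank L (A ⧸ (I : Ideal A)) ≤ genus G := by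
  obtain ⟨J, hJ⟩ := ClassGroup.mk0_surjective x⁻¹
  have hJ0 : (J : Ideal A) ≠ ⊥ := nonZeroDivisors.coe_ne_zero J
  have h1 := D.finite_quot hJ0
  obtain ⟨f, hfJ, hf0, hf⟩ := D.exists_mem_lt_of_finrank (J : Ideal A)
  obtain ⟨n, hn⟩ := D.exists_lead hf0
  have h2 := D.lead_lt hn hf
  have h3 : (J : Ideal A) ∣ Ideal.span {f} := by
    rw [Ideal.dvd_iff_le, Ideal.span_singleton_le_iff_mem]
    exact hfJ
  obtain ⟨I, hI⟩ := h3
  have hs0 : Ideal.span {f} ≠ ⊥ := by
    rw [Ne, Ideal.span_singleton_eq_bot]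
    exact hf0
  have hI0 : I ≠ ⊥ := by
    rintro rfl
    rw [Ideal.mul_bot] at hI
    exact hs0 hI
  have hIm : I ∈ (Ideal A)⁰ := mem_nonZeroDivisors_of_ne_zero hI0
  refine ⟨⟨I, hIm⟩, ?_, ?_⟩
  · have h4 : ClassGroup.mk0 J * ClassGroup.mk0 ⟨I, hIm⟩ = 1 := by
      rw [← map_mul, ClassGroup.mk0_eq_one_iff]
      change (((J : Ideal A) * I : Ideal A)).IsPrincipal
      rw [← hI]
      exact ⟨f, rfl⟩
    rw [hJ] at h4
    exact (inv_mul_eq_one.1 h4).symm
  · have h5 := D.finrank_quot_span hn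
    rw [hI, finrank_quot_mul D hJ0 hI0] at h5
    change finrank L (A ⧸ I) ≤ genus G
    omega

end ded

section point

variable {G : AddSubmonoid ℕ} {L A : Type*} [Field L] [CommRing A] [Algebra L A]

theorem finrank_quot_ker (R : A →ₐ[L] L) : finrank L (A ⧸ RingHom.ker R) = 1 := by
  have h : Function.Surjective R := fun a => ⟨algebraMap L A a, R.commutes a⟩
  rw [(Ideal.quotientKerAlgEquivOfSurjective h).toLinearEquiv.finrank_eq, finrank_self]

theorem ker_ne_bot (D : GamAlg G L A) (R : A →ₐ[L] L) : RingHom.ker R ≠ ⊥ := by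
  intro h
  have hinj : Function.Injective R := (RingHom.injective_iff_ker_eq_bot R).2 h
  have h1 : FiniteDimensional L A := Module.Finite.of_injective R.toLinearMap hinj
  have h2 : Infinite G := by
    have h3 : (G : Set ℕ).Infinite := by
      intro h4
      have h5 := h4.union D.cofin
      rw [Set.union_compl_self] at h5
      exact Set.infinite_univ h5
    exact h3.to_subtype
  exact (not_finite_iff_infinite.2 h2) (Module.Finite.finite_basis D.B)

/-- Over an algebraically closed field the nonzero primes are points. -/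
theorem exists_point_of_isMaximal (D : GamAlg G L A) [IsAlgClosed L] (P : Ideal A)
    [P.IsMaximal] (hP : P ≠ ⊥) : ∃ R : A →ₐ[L] L, RingHom.ker R = P := by
  have h1 := D.finite_quot hP
  let _ : Field (A ⧸ P) := Ideal.Quotient.field P
  have h2 : Function.Bijective (algebraMap L (A ⧸ P)) :=
    IsAlgClosed.algebraMap_bijective_of_isIntegral
  let e : L ≃ₐ[L] (A ⧸ P) := AlgEquiv.ofBijective (Algebra.ofId L (A ⧸ P)) h2
  refine ⟨e.symm.toAlgHom.comp (Ideal.Quotient.mkₐ L P), ?_⟩
  ext x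
  rw [RingHom.mem_ker]
  change e.symm (Ideal.Quotient.mk P x) = 0 ↔ _
  rw [EmbeddingLike.map_eq_zero_iff, Ideal.Quotient.eq_zero_iff_mem]

theorem exists_prod_points (D : GamAlg G L A) [IsAlgClosed L] [IsDedekindDomain A] :
    ∀ (r : ℕ) (I : Ideal A), I ≠ ⊥ → finrank L (A ⧸ I) = r →
      ∃ R : Fin r → A →ₐ[L] L, I = ∏ i, RingHom.ker (R i) := by
  intro r
  induction r with
  | zero =>
    intro I hI h0
    have h1 := D.finite_quot hI
    have h2 : Subsingleton (A ⧸ I) := finrank_zero_iff.1 h0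
    refine ⟨Fin.elim0, ?_⟩
    rw [Finset.univ_eq_empty, Finset.prod_empty, Ideal.one_eq_top]
    exact Ideal.Quotient.subsingleton_iff.1 h2
  | succ r ih =>
    intro I hI h0
    have h1 := D.finite_quot hI
    have htop : I ≠ ⊤ := by
      rintro rfl
      have h2 : Subsingleton (A ⧸ (⊤ : Ideal A)) := inferInstance
      rw [finrank_zero_of_subsingleton] at h0
      omega
    obtain ⟨P, hP, hIP⟩ := Ideal.exists_le_maximal I htop
    have hP0 : P ≠ ⊥ := fun h => hI (le_bot_iff.1 (h ▸ hIP))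
    obtain ⟨R0, hR0⟩ := exists_point_of_isMaximal D P hP0
    obtain ⟨J, hJ⟩ := Ideal.dvd_iff_le.2 hIP
    have hJ0 : J ≠ ⊥ := by
      rintro rfl
      rw [Ideal.mul_bot] at hJ
      exact hI hJ
    have h3 := finrank_quot_mul D hP0 hJ0
    rw [← hJ, h0, ← hR0, finrank_quot_ker] at h3
    obtain ⟨R, hR⟩ := ih J hJ0 (by omega)
    refine ⟨Fin.cons R0 R, ?_⟩
    rw [Fin.prod_univ_succ, hJ, hR, Fin.cons_zero, hR0]
    rfl

end point

end PiCurve
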