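import Mathlib
import Pool.Agent.Pi2.Bas
import Pool.Agent.Pi2.GamR

/-! (GB) Gamma-algebras over a field: complements to GamF, GamR in terms of `cl`. -/

namespace PiCurve

open TensorProduct

section

variable {Γ : AddSubmonoid ℕ} {L B : Type*} [Field L] [CommRing B] [Algebra L B]
  (G : GamAlg Γ L B)

include G

theorem eq_of_le_of_finrank {I J : Ideal B} (hI : I ≠ ⊥) (hIJ : I ≤ J)
    (h : Module.finrank L (B ⧸ I) ≤ Module.finrank L (B ⧸ J)) : I = J := by
  have hfin : FiniteDimensional L (B ⧸ I) := G.finite_quot hI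
  set g := (Ideal.Quotient.factorₐ L hIJ).toLinearMap with hg
  have h1 := LinearMap.finrank_range_add_finrank_ker g
  have h2 : LinearMap.range g = ⊤ := by
    rw [LinearMap.range_eq_top]
    exact Ideal.Quotient.factor_surjective hIJ
  rw [h2, finrank_top] at h1
  have h3 : Module.finrank L (LinearMap.ker g) = 0 := by omega
  have h4 : LinearMap.ker g = ⊥ := Submodule.finrank_eq_zero.1 h3
  refine le_antisymm hIJ fun x hx => ?_
  have h5 : Ideal.Quotient.mk I x ∈ LinearMap.ker g := by
    rw [LinearMap.mem_ker]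
    exact Ideal.Quotient.eq_zero_iff_mem.2 hx
  rw [h4, Submodule.mem_bot] at h5
  exact Ideal.Quotient.eq_zero_iff_mem.1 h5

/-- inequality for all degrees -/
theorem finrank_cut_ge {I : Ideal B} (hI : I ≠ ⊥) (N : ℕ) :
    N ≤ Module.finrank L (G.cut I N) + genus Γ + Module.finrank L (B ⧸ I) := by
  have hfin : FiniteDimensional L (B ⧸ I) := G.finite_quot hI
  have h1 := LinearMap.finrank_range_add_finrank_ker (G.toQuot I N)
  have h2 : Module.finrank L (LinearMap.range (G.toQuot I N)) ≤ Module.finrank L (B ⧸ I) :=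
    Submodule.finrank_le _
  have h3 : Module.finrank L (LinearMap.ker (G.toQuot I N)) = Module.finrank L (G.cut I N) := by
    rw [← G.map_ker_toQuot I N]
    exact LinearEquiv.finrank_eq
      (Submodule.equivMapOfInjective _ (Submodule.injective_subtype _) _)
  have h4 := G.finrank_lt N
  have h5 := le_card_below G.cofin N
  omega

variable [IsDedekindDomain B]

/-- (GB6) every class contains an ideal of codimension at most the genus. -/
theorem exists_ideal (c : ClassGroup B) :
    ∃ I : Ideal B, I ≠ ⊥ ∧ cl I = c ∧ Module.finrank L (B ⧸ I) ≤ genus Γ := by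
  obtain ⟨K, hK, hc⟩ := cl_surjective c⁻¹
  have hfin : FiniteDimensional L (B ⧸ K) := G.finite_quot hK
  obtain ⟨f, hfK, hf0, hf⟩ := G.exists_mem_lt_of_finrank K
  obtain ⟨n, hn⟩ := G.exists_lead hf0
  have h1 := G.lead_lt hn hf
  obtain ⟨I, hI, hKI⟩ := exists_mul_eq_span hfK hf0
  refine ⟨I, hI, ?_, ?_⟩
  · have h2 : cl (K * I) = 1 := by
      rw [hKI]
      exact (cl_eq_one_iff (span_singleton_ne_bot hf0)).2 ⟨f, hf0, rfl⟩
    rw [cl_mul hK hI, hc, inv_mul_eq_one] at h2
    exact h2.symm
  · have h3 := finrank_quot_mul G hK hI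
    rw [hKI, G.finrank_quot_span hn] at h3
    omega

/-- (GB7) the ideal of minimal codimension in a class is unique. -/
theorem min_unique {I J : Ideal B} (hI : I ≠ ⊥) (hJ : J ≠ ⊥) (h : cl I = cl J)
    (hmin : ∀ I' : Ideal B, I' ≠ ⊥ → cl I' = cl I →
      Module.finrank L (B ⧸ I) ≤ Module.finrank L (B ⧸ I'))
    (hJI : Module.finrank L (B ⧸ J) = Module.finrank L (B ⧸ I)) : I = J := by
  obtain ⟨x, y, hx, hy, hxy⟩ := (cl_eq_iff hI hJ).1 h
  obtain ⟨c, hc⟩ := G.exists_lead hx
  obtain ⟨d, hd⟩ := G.exists_lead hy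
  have hcd : (c : ℕ) = d := by
    have h1 := finrank_quot_mul G (span_singleton_ne_bot hx) hI
    have h2 := finrank_quot_mul G (span_singleton_ne_bot hy) hJ
    rw [G.finrank_quot_span hc] at h1
    rw [G.finrank_quot_span hd] at h2
    rw [hxy] at h1
    omega
  have hcd' : c = d := Subtype.ext hcd
  subst hcd'
  obtain ⟨r, hr⟩ := hc
  obtain ⟨s, hs⟩ := hd
  obtain ⟨t, ht⟩ : ∃ t : L, t = (r : L) * ((s⁻¹ : Lˣ) : L) := ⟨_, rfl⟩
  obtain ⟨z, hz⟩ : ∃ z : B, z = x - t • y := ⟨_, rfl⟩
  have hzlt : z ∈ G.lt c := by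
    have h1 : z = (x - (r : L) • G.B c) - t • (y - (s : L) • G.B c) := by
      rw [hz, ht, smul_sub, smul_smul, mul_assoc, Units.inv_mul, mul_one]
      abel
    rw [h1]
    exact Submodule.sub_mem _ hr (Submodule.smul_mem _ _ hs)
  by_cases hz0 : z = 0
  · have h1 : x = t • y := by
      rw [hz0] at hz
      exact (sub_eq_zero.1 hz.symm)
    have ht0 : t ≠ 0 := by
      rintro rfl
      rw [zero_smul] at h1
      exact hx h1
    have h2 : Ideal.span {x} = Ideal.span {y} := by
      rw [h1, Algebra.smul_def]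
      exact Ideal.span_singleton_mul_left_unit ((IsUnit.mk0 t ht0).map (algebraMap L B)) y
    rw [h2] at hxy
    exact mul_left_cancel₀ (span_singleton_ne_bot hy) hxy
  · exfalso
    obtain ⟨e, he⟩ := G.exists_lead hz0
    have hec := G.lead_lt he hzlt
    have h1 : Ideal.span {z} * I ≤ Ideal.span {y} := by
      rw [Ideal.span_singleton_mul_le_iff]
      intro i hi
      have h2 : x * i ∈ Ideal.span {y} := by
        have h3 : x * i ∈ Ideal.span {x} * I :=
          Ideal.mul_mem_mul (Ideal.mem_span_singleton_self x) hi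
        rw [hxy] at h3
        exact Ideal.mul_le_left h3
      have h4 : z * i = x * i - (t • i) * y := by
        rw [hz, sub_mul, Algebra.smul_def, Algebra.smul_def]
        ring
      rw [h4]
      exact Ideal.sub_mem _ h2 (Ideal.mul_mem_left _ _ (Ideal.mem_span_singleton_self y))
    obtain ⟨I', hI'⟩ := Ideal.dvd_iff_le.2 h1
    have hI'0 : I' ≠ ⊥ := by
      intro h0
      rw [h0, Ideal.mul_bot, Ideal.mul_eq_bot] at hI'
      rcases hI' with h2 | h2
      · exact span_singleton_ne_bot hz0 h2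
      · exact hI h2
    have h5 : cl I' = cl I :=
      (cl_eq_iff hI'0 hI).2 ⟨y, z, hy, hz0, hI'.symm⟩
    have h6 := hmin I' hI'0 h5
    have h7 := finrank_quot_mul G (span_singleton_ne_bot hz0) hI
    have h8 := finrank_quot_mul G (span_singleton_ne_bot hy) hI'0
    rw [G.finrank_quot_span he, hI'] at h7
    rw [G.finrank_quot_span ⟨s, hs⟩] at h8
    omega

/-- (GB8) a principal ideal of codimension one. -/
theorem one_mem_of_cl {I : Ideal B} (hI : I ≠ ⊥) (h : cl I = 1)
    (h1 : Module.finrank L (B ⧸ I) = 1) : 1 ∈ Γ := by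
  obtain ⟨x, hx, rfl⟩ := (cl_eq_one_iff hI).1 h
  obtain ⟨c, hc⟩ := G.exists_lead hx
  rw [G.finrank_quot_span hc] at h1
  rw [← h1]
  exact c.2

end

end PiCurve
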