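import Mathlib
import Pool.Agent.Pi2.Bas

/-! (GA) Base change maps of Gamma-algebras. -/

namespace PiCurve

open TensorProduct

section

variable {Γ : AddSubmonoid ℕ} {R A : Type*} [CommRing R] [CommRing A] [Algebra R A]
  (G : GamAlg Γ R A) {L L' L'' : Type*} [CommRing L] [CommRing L'] [CommRing L''] [Algebra R L]
  [Algebra R L'] [Algebra R L'']

theorem bcm_tmul (τ : L →ₐ[R] L') (l : L) (a : A) : bcm A τ (l ⊗ₜ a) = τ l ⊗ₜ a := rfl

theorem bcm_algebraMap (τ : L →ₐ[R] L') (l : L) :
    bcm A τ (algebraMap L (L ⊗[R] A) l) = algebraMap L' (L' ⊗[R] A) (τ l) := by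
  rw [Algebra.TensorProduct.algebraMap_apply, Algebra.TensorProduct.algebraMap_apply, bcm_tmul]
  rfl

theorem bcm_smul (τ : L →ₐ[R] L') (l : L) (x : L ⊗[R] A) :
    bcm A τ (l • x) = τ l • bcm A τ x := by
  rw [Algebra.smul_def, map_mul, bcm_algebraMap, ← Algebra.smul_def]

theorem GamAlg.bcm_B (τ : L →ₐ[R] L') (c : Γ) :
    bcm A τ ((G.baseChange L).B c) = (G.baseChange L').B c := by
  have h1 : (G.baseChange L).B c = 1 ⊗ₜ G.B c := Module.Basis.baseChange_apply _ _ _
  have h2 : (G.baseChange L').B c = 1 ⊗ₜ G.B c := Module.Basis.baseChange_apply _ _ _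
  rw [h1, h2, bcm_tmul, map_one]

theorem GamAlg.repr_bcm (τ : L →ₐ[R] L') (f : L ⊗[R] A) (c : Γ) :
    (G.baseChange L').B.repr (bcm A τ f) c = τ ((G.baseChange L).B.repr f c) := by
  classical
  rw [← (G.baseChange L).B.linearCombination_repr f]
  generalize (G.baseChange L).B.repr f = l
  rw [Module.Basis.repr_linearCombination]
  induction l using Finsupp.induction_linear with
  | zero => simp
  | add l l' h h' => rw [map_add, map_add, map_add, Finsupp.add_apply, h, h', Finsupp.add_apply,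
      map_add]
  | single d a =>
    rw [Finsupp.linearCombination_single, bcm_smul, G.bcm_B, map_smul, Module.Basis.repr_self,
      Finsupp.smul_apply, smul_eq_mul, Finsupp.single_apply, Finsupp.single_apply]
    by_cases h : d = c
    · rw [if_pos h, if_pos h, mul_one]
    · rw [if_neg h, if_neg h, mul_zero, map_zero]

theorem GamAlg.lead_bcm (τ : L →ₐ[R] L') {f : L ⊗[R] A} {c : Γ}
    (h : Lead L (G.baseChange L).B f c) : Lead L' (G.baseChange L').B (bcm A τ f) c :=
  Lead.map τ.toRingHom (bcm A τ) (fun r => bcm_algebraMap τ r) (fun c => G.bcm_B τ c) h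

theorem GamAlg.lt_bcm (τ : L →ₐ[R] L') {f : L ⊗[R] A} {n : ℕ} (h : f ∈ (G.baseChange L).lt n) :
    bcm A τ f ∈ (G.baseChange L').lt n :=
  mem_ltSpan_map τ.toRingHom (bcm A τ) (fun r => bcm_algebraMap τ r) (fun c => G.bcm_B τ c) h

/-- injective base change does not lower degrees -/
theorem GamAlg.lt_of_bcm (τ : L →ₐ[R] L') (hτ : Function.Injective τ) {f : L ⊗[R] A} {n : ℕ}
    (h : bcm A τ f ∈ (G.baseChange L').lt n) : f ∈ (G.baseChange L).lt n := by
  rw [GamAlg.mem_lt_iff] at h ⊢
  intro c hc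
  have h1 := h c hc
  rw [G.repr_bcm] at h1
  exact (map_eq_zero_iff τ hτ).1 h1

theorem bcm_injective (G : GamAlg Γ R A) (τ : L →ₐ[R] L') (hτ : Function.Injective τ) :
    Function.Injective (bcm A τ) := by
  rw [injective_iff_map_eq_zero]
  intro f hf
  apply (G.baseChange L).B.repr.injective
  rw [map_zero]
  ext c
  have h1 := G.repr_bcm τ f c
  rw [hf, map_zero, Finsupp.zero_apply] at h1
  exact (map_eq_zero_iff τ hτ).1 h1.symm

theorem bcm_surjective (τ : L →ₐ[R] L') (hτ : Function.Surjective τ) :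
    Function.Surjective (bcm A τ) := by
  intro x
  induction x using TensorProduct.induction_on with
  | zero => exact ⟨0, map_zero _⟩
  | tmul l a =>
    obtain ⟨l, rfl⟩ := hτ l
    exact ⟨l ⊗ₜ a, rfl⟩
  | add x y hx hy =>
    obtain ⟨x, rfl⟩ := hx
    obtain ⟨y, rfl⟩ := hy
    exact ⟨x + y, map_add _ _ _⟩

theorem bcm_comp (τ : L →ₐ[R] L') (τ' : L' →ₐ[R] L'') :
    (bcm A τ').comp (bcm A τ) = bcm A (τ'.comp τ) := by
  refine RingHom.ext fun x => ?_
  rw [RingHom.comp_apply]
  induction x using TensorProduct.induction_on with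
  | zero => rw [map_zero, map_zero, map_zero]
  | tmul l a => rfl
  | add x y hx hy => rw [map_add, map_add, map_add, hx, hy]

theorem bcm_id : bcm A (AlgHom.id R L) = RingHom.id _ := by
  refine RingHom.ext fun x => ?_
  induction x using TensorProduct.induction_on with
  | zero => rw [map_zero, map_zero]
  | tmul l a => rfl
  | add x y hx hy => rw [map_add, map_add, hx, hy]

/-- Elements in the kernel of `W ⊗ A → κ ⊗ A` have all coordinates in the kernel. -/
theorem bcm_eq_zero_iff (G : GamAlg Γ R A) (τ : L →ₐ[R] L') (f : L ⊗[R] A) :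
    bcm A τ f = 0 ↔ ∀ c : Γ, τ ((G.baseChange L).B.repr f c) = 0 := by
  constructor
  · intro h c
    rw [← G.repr_bcm, h, map_zero, Finsupp.zero_apply]
  · intro h
    apply (G.baseChange L').B.repr.injective
    rw [map_zero]
    ext c
    rw [G.repr_bcm, h c, Finsupp.zero_apply]

theorem ev_tmul (P : A →ₐ[R] L) (l : L) (a : A) : ev P (l ⊗ₜ a) = l * P a := by
  unfold ev
  rw [Algebra.TensorProduct.lift_tmul, AlgHom.id_apply]

/-- evaluation commutes with base change -/
theorem ev_bcm (P : A →ₐ[R] L) (τ : L →ₐ[R] L') (x : L ⊗[R] A) :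
    ev (τ.comp P) (bcm A τ x) = τ (ev P x) := by
  induction x using TensorProduct.induction_on with
  | zero => rw [map_zero, map_zero, map_zero, map_zero]
  | tmul l a => rw [bcm_tmul, ev_tmul, ev_tmul, map_mul, AlgHom.comp_apply]
  | add x y hx hy => rw [map_add, map_add, map_add, map_add, hx, hy]

end

end PiCurve
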