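import Mathlib
import Pool.Agent.Pi2.GA

/-! (LAT) Reduction of subspaces over a valuation ring. -/

namespace PiCurve

section LatAux

open TensorProduct

/-- Splitting off a vector with a coordinate equal to one. -/
private theorem finrank_split {ι K : Type*} [Finite ι] [Field K] (V : Submodule K (ι → K))
    (j : ι) (v : ι → K) (hv : v ∈ V) (hj : v j = 1) :
    Module.finrank K V = 1 + Module.finrank K (V ⊓ LinearMap.ker (LinearMap.proj j) :
      Submodule K (ι → K)) := by
  set f : V →ₗ[K] K := (LinearMap.proj j : (ι → K) →ₗ[K] K).domRestrict V with hf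
  have h1 := LinearMap.finrank_range_add_finrank_ker f
  have h2 : LinearMap.range f = ⊤ := by
    rw [LinearMap.range_eq_top]
    intro a
    refine ⟨a • ⟨v, hv⟩, ?_⟩
    simp [hf, hj]
  rw [h2, finrank_top, Module.finrank_self] at h1
  have h3 : (V ⊓ LinearMap.ker (LinearMap.proj j) : Submodule K (ι → K)) =
      (LinearMap.ker f).map V.subtype := by
    rw [hf, LinearMap.ker_domRestrict, Submodule.map_comap_subtype]
  rw [h3, Submodule.finrank_map_subtype_eq]
  exact h1.symm

variable {ι W L κ : Type*} [Finite ι] [CommRing W] [IsDomain W] [ValuationRing W]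
    [Field L] [Algebra W L] [IsFractionRing W L] [Field κ] [Algebra W κ]

/-- The reduction of a subspace. -/
private def redV (hs : Function.Surjective (algebraMap W κ)) (V : Submodule L (ι → L)) :
    Submodule κ (ι → κ) where
  carrier := {v' | ∃ v : ι → W, (fun i => algebraMap W L (v i)) ∈ V ∧
    (fun i => algebraMap W κ (v i)) = v'}
  zero_mem' := ⟨0, by convert V.zero_mem using 1; ext i; simp, by ext i; simp⟩
  add_mem' := by
    rintro _ _ ⟨v, hv, rfl⟩ ⟨w, hw, rfl⟩
    refine ⟨v + w, ?_, by ext i; simp⟩
    have := V.add_mem hv hw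
    convert this using 1
    ext i; simp
  smul_mem' := by
    rintro c _ ⟨v, hv, rfl⟩
    obtain ⟨a, rfl⟩ := hs c
    refine ⟨a • v, ?_, by ext i; simp⟩
    have := V.smul_mem (algebraMap W L a) hv
    convert this using 1
    ext i; simp

private theorem mem_redV (hs : Function.Surjective (algebraMap W κ)) (V : Submodule L (ι → L))
    (v' : ι → κ) : v' ∈ redV hs V ↔ ∃ v : ι → W, (fun i => algebraMap W L (v i)) ∈ V ∧
    (fun i => algebraMap W κ (v i)) = v' := Iff.rfl

/-- scaling a family by its coordinate of largest value -/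
private theorem exists_scale {σ : Type*} (s : Finset σ) (u : σ → L)
    (hu : ∃ i ∈ s, u i ≠ 0) : ∃ j ∈ s, u j ≠ 0 ∧ ∀ i ∈ s, ∃ w : W, algebraMap W L w =
      (u j)⁻¹ * u i := by
  obtain ⟨i₀, hi₀, hne⟩ := hu
  obtain ⟨j, hj, hmax⟩ := s.exists_max_image (fun i => ValuationRing.valuation W L (u i))
    ⟨i₀, hi₀⟩
  have hjne : u j ≠ 0 := by
    intro h
    have h1 := hmax i₀ hi₀
    rw [h, map_zero, le_zero_iff, map_eq_zero] at h1
    exact hne h1
  refine ⟨j, hj, hjne, fun i hi => ?_⟩
  have h1 := hmax i hi
  have h2 : ValuationRing.valuation W L ((u j)⁻¹ * u i) ≤ 1 := by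
    rw [map_mul, map_inv₀]
    have h3 : ValuationRing.valuation W L (u j) ≠ 0 := by
      rw [ne_eq, map_eq_zero]; exact hjne
    calc (ValuationRing.valuation W L (u j))⁻¹ * ValuationRing.valuation W L (u i)
        ≤ (ValuationRing.valuation W L (u j))⁻¹ * ValuationRing.valuation W L (u j) := by
          gcongr
      _ = 1 := inv_mul_cancel₀ h3
  exact (ValuationRing.mem_integer_iff W L _).1 h2

private theorem finrank_redV (hs : Function.Surjective (algebraMap W κ)) (d : ℕ) :
    ∀ V : Submodule L (ι → L), Module.finrank L V = d →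
      Module.finrank κ (redV hs V) = d := by
  have := Fintype.ofFinite ι
  induction d with
  | zero =>
    intro V hV
    have hV0 : V = ⊥ := by
      rw [← Submodule.finrank_eq_zero]; exact hV
    rw [Submodule.finrank_eq_zero, eq_bot_iff]
    rintro _ ⟨v, hv, rfl⟩
    rw [hV0, Submodule.mem_bot] at hv
    rw [Submodule.mem_bot]
    ext i
    have h1 := congrFun hv i
    have h2 : v i = 0 := by
      apply IsFractionRing.injective W L
      simpa using h1
    simp [h2]
  | succ d ih =>
    intro V hV
    have hne : V ≠ ⊥ := by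
      rintro rfl
      simp at hV
    obtain ⟨u, hu, hu0⟩ := Submodule.exists_mem_ne_zero_of_ne_bot hne
    obtain ⟨i₀, hi₀⟩ := Function.ne_iff.1 hu0
    obtain ⟨j, -, hj, hw⟩ := exists_scale (W := W) Finset.univ u ⟨i₀, Finset.mem_univ _, hi₀⟩
    choose w hw using fun i => hw i (Finset.mem_univ i)
    have hv1 : (fun i => algebraMap W L (w i)) ∈ V := by
      have := V.smul_mem (u j)⁻¹ hu
      convert this using 1
      ext i; rw [hw]; simp
    have hwj : w j = 1 := by
      apply IsFractionRing.injective W L
      rw [hw, inv_mul_cancel₀ hj, map_one]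
    have hsp := finrank_split V j _ hv1 (by simp [hwj])
    have hsp' := finrank_split (redV hs V) j (fun i => algebraMap W κ (w i))
      ⟨w, hv1, rfl⟩ (by simp [hwj])
    have hker : (redV hs V ⊓ LinearMap.ker (LinearMap.proj j) : Submodule κ (ι → κ)) =
        redV hs (V ⊓ LinearMap.ker (LinearMap.proj j)) := by
      ext v'
      rw [Submodule.mem_inf, mem_redV, mem_redV, LinearMap.mem_ker, LinearMap.proj_apply]
      constructor
      · rintro ⟨⟨v, hv, rfl⟩, h0⟩
        refine ⟨fun i => v i - v j * w i, ?_, ?_⟩
        · rw [Submodule.mem_inf, LinearMap.mem_ker, LinearMap.proj_apply]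
          constructor
          · have := V.sub_mem hv (V.smul_mem (algebraMap W L (v j)) hv1)
            convert this using 1
            ext i
            simp only [map_sub, map_mul, Pi.sub_apply, Pi.smul_apply, smul_eq_mul]
          · simp [hwj]
        · ext i
          simp only at h0
          simp [h0]
      · rintro ⟨v, hv, rfl⟩
        rw [Submodule.mem_inf, LinearMap.mem_ker, LinearMap.proj_apply] at hv
        refine ⟨⟨v, hv.1, rfl⟩, ?_⟩
        have h2 : v j = 0 := by
          apply IsFractionRing.injective W L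
          simpa using hv.2
        simp [h2]
    rw [hV] at hsp
    have h5 : Module.finrank L (V ⊓ LinearMap.ker (LinearMap.proj j) :
      Submodule L (ι → L)) = d := by omega
    rw [hker, ih _ h5] at hsp'
    omega

end LatAux

/-- The reduction of a subspace `V ⊆ L^ι` over a valuation ring `W` with fraction field `L` and
residue field `κ` has the same dimension as `V`. -/
theorem lattice_reduction {ι W L κ : Type*} [Finite ι] [CommRing W] [IsDomain W] [ValuationRing W]
    [Field L] [Algebra W L] [IsFractionRing W L] [Field κ] [Algebra W κ]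
    (hs : Function.Surjective (algebraMap W κ)) (V : Submodule L (ι → L)) :
    ∃ V' : Submodule κ (ι → κ), Module.finrank κ V' = Module.finrank L V ∧
      ∀ v' : ι → κ, v' ∈ V' ↔ ∃ v : ι → W, (fun i => algebraMap W L (v i)) ∈ V ∧
        (fun i => algebraMap W κ (v i)) = v' :=
  ⟨redV hs V, finrank_redV hs _ V rfl, mem_redV hs V⟩

private theorem repr_bcm_aux {Γ : AddSubmonoid ℕ} {R A : Type*} [CommRing R] [CommRing A]
    [Algebra R A] (G : GamAlg Γ R A) {L L' : Type*} [CommRing L] [CommRing L'] [Algebra R L]
    [Algebra R L'] (τ : L →ₐ[R] L') (f : TensorProduct R L A) (c : Γ) :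
    (G.baseChange L').B.repr (bcm A τ f) c = τ ((G.baseChange L).B.repr f c) := by
  induction f using TensorProduct.induction_on with
  | zero => simp
  | add x y hx hy => rw [map_add, map_add, Finsupp.add_apply, hx, hy, map_add, Finsupp.add_apply,
      map_add]
  | tmul l a =>
    have h1 : bcm A τ (TensorProduct.tmul R l a) = TensorProduct.tmul R (τ l) a := rfl
    rw [h1]
    show (G.B.baseChange L').repr _ c = τ ((G.B.baseChange L).repr _ c)
    rw [Module.Basis.baseChange_repr_tmul, Module.Basis.baseChange_repr_tmul, map_smul]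

/-- Every nonzero element of a Gamma-algebra over the fraction field of a valuation ring can be
scaled to a primitive element. -/
theorem exists_primitive_scale {Γ : AddSubmonoid ℕ} {R A W L κ : Type*} [CommRing R] [CommRing A]
    [Algebra R A] (G : GamAlg Γ R A) [CommRing W] [IsDomain W] [ValuationRing W]
    [Field L] [Algebra W L] [IsFractionRing W L] [Field κ] [Algebra W κ]
    [Algebra R W] [Algebra R L] [Algebra R κ] [IsScalarTower R W L] [IsScalarTower R W κ]
    (hs : Function.Surjective (algebraMap W κ)) {f : TensorProduct R L A} (hf : f ≠ 0) :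
    ∃ a : L, a ≠ 0 ∧ ∃ f' : TensorProduct R W A,
      bcm A (IsScalarTower.toAlgHom R W L) f' = a • f ∧
      bcm A (IsScalarTower.toAlgHom R W κ) f' ≠ 0 := by
  classical
  set u := (G.baseChange L).B.repr f with hu
  have hu0 : u ≠ 0 := by
    rw [hu, ne_eq, LinearEquiv.map_eq_zero_iff]; exact hf
  obtain ⟨i₀, hi₀⟩ := Finsupp.support_nonempty_iff.2 hu0
  obtain ⟨j, hj, hj0, hw⟩ := exists_scale (W := W) u.support u
    ⟨i₀, hi₀, Finsupp.mem_support_iff.1 hi₀⟩
  have hw' : ∀ i, ∃ w : W, algebraMap W L w = (u j)⁻¹ * u i := by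
    intro i
    by_cases hi : i ∈ u.support
    · exact hw i hi
    · exact ⟨0, by rw [Finsupp.notMem_support_iff.1 hi]; simp⟩
  choose w hw' using hw'
  have hwz : ∀ i, i ∉ u.support → w i = 0 := by
    intro i hi
    apply IsFractionRing.injective W L
    rw [hw', Finsupp.notMem_support_iff.1 hi]
    simp
  have hwj : w j = 1 := by
    apply IsFractionRing.injective W L
    rw [hw', inv_mul_cancel₀ hj0, map_one]
  let w' : Γ →₀ W := Finsupp.onFinset u.support w fun i hi => by
    by_contra h
    exact hi (hwz i h)
  refine ⟨(u j)⁻¹, inv_ne_zero hj0, (G.baseChange W).B.repr.symm w', ?_, ?_⟩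
  · apply (G.baseChange L).B.repr.injective
    ext c
    rw [repr_bcm_aux, LinearEquiv.apply_symm_apply, map_smul, Finsupp.smul_apply, ← hu,
      smul_eq_mul, ← hw']
    rfl
  · intro h
    have h1 := congrArg (fun z => (G.baseChange κ).B.repr z j) h
    rw [repr_bcm_aux, LinearEquiv.apply_symm_apply, map_zero, Finsupp.zero_apply] at h1
    have h2 : w' j = 1 := hwj
    rw [h2, map_one] at h1
    exact one_ne_zero h1

end PiCurve
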