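import Mathlib
import Pool.Agent.Pi2.GB
import Pool.Agent.Pi2.LAT

/-! (SPa) Reduction of ideals over a valuation ring. -/

namespace PiCurve

open TensorProduct

section

variable {Γ : AddSubmonoid ℕ} {R A W L κ : Type*} [CommRing R] [CommRing A] [Algebra R A]
  (G : GamAlg Γ R A) [CommRing W] [IsDomain W] [ValuationRing W]
  [Field L] [Algebra W L] [IsFractionRing W L] [Field κ] [Algebra W κ]
  [Algebra R W] [Algebra R L] [Algebra R κ] [IsScalarTower R W L] [IsScalarTower R W κ]

/-- `W ⊗ A → L ⊗ A`. -/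
noncomputable abbrev toL (R A W L : Type*) [CommRing R] [CommRing A] [Algebra R A] [CommRing W]
    [CommRing L] [Algebra W L] [Algebra R W] [Algebra R L] [IsScalarTower R W L] :
    W ⊗[R] A →+* L ⊗[R] A := bcm A (IsScalarTower.toAlgHom R W L)

/-- The reduction of an ideal: the image in `κ ⊗ A` of its intersection with `W ⊗ A`. -/
noncomputable def redI (R A W L κ : Type*) [CommRing R] [CommRing A] [Algebra R A] [CommRing W]
    [CommRing L] [CommRing κ] [Algebra W L] [Algebra W κ] [Algebra R W] [Algebra R L] [Algebra R κ]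
    [IsScalarTower R W L] [IsScalarTower R W κ] (I : Ideal (L ⊗[R] A)) : Ideal (κ ⊗[R] A) :=
  (I.comap (toL R A W L)).map (toL R A W κ)

/-- An ideal is good if it contains an element of `W ⊗ A` with unit leading coefficient. -/
def Good (G : GamAlg Γ R A) (W : Type*) [CommRing W] [Algebra R W] [Algebra W L]
    [IsScalarTower R W L] (I : Ideal (L ⊗[R] A)) : Prop :=
  ∃ (f : W ⊗[R] A) (c : Γ), Lead W (G.baseChange W).B f c ∧ toL R A W L f ∈ I

theorem redI_mono {I J : Ideal (L ⊗[R] A)} (h : I ≤ J) :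
    redI R A W L κ I ≤ redI R A W L κ J :=
  Ideal.map_mono (Ideal.comap_mono h)

/-- An element of `redI I` lifts (surjectivity of `W → κ`). -/
theorem mem_redI (hs : Function.Surjective (algebraMap W κ)) {I : Ideal (L ⊗[R] A)}
    {x : κ ⊗[R] A} : x ∈ redI R A W L κ I ↔
      ∃ f : W ⊗[R] A, toL R A W L f ∈ I ∧ toL R A W κ f = x := by
  unfold redI
  rw [Ideal.mem_map_iff_of_surjective _ (bcm_surjective _ hs)]
  rfl

/-- The residue of a nonunit is zero. -/
theorem spaResZero (hs : Function.Surjective (algebraMap W κ)) {w : W} (hw : ¬ IsUnit w) :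
    algebraMap W κ w = 0 := by
  have h1 : (RingHom.ker (algebraMap W κ)).IsMaximal :=
    RingHom.ker_isMaximal_of_surjective _ hs
  have h2 : RingHom.ker (algebraMap W κ) = IsLocalRing.maximalIdeal W :=
    IsLocalRing.eq_maximalIdeal h1
  have h3 : w ∈ RingHom.ker (algebraMap W κ) := by
    rw [h2]
    exact hw
  exact h3

theorem spaToSmul {S S' : Type*} [CommRing S] [CommRing S'] [Algebra S S'] [Algebra R S]
    [Algebra R S'] [IsScalarTower R S S'] (w : S) (h : S ⊗[R] A) :
    toL R A S S' (w • h) = algebraMap S S' w • toL R A S S' h :=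
  bcm_smul _ w h

/-- Indices of degree less than `m`. -/
abbrev SpaIdx (Γ : AddSubmonoid ℕ) (m : ℕ) : Type := {c : Γ // (c : ℕ) < m}

instance spaIdxFinite (Γ : AddSubmonoid ℕ) (m : ℕ) : Finite (SpaIdx Γ m) := by
  have h : Function.Injective (fun c : SpaIdx Γ m => (⟨(c.1 : ℕ), c.2⟩ : Fin m)) := by
    intro c d hcd
    have h1 := congrArg Fin.val hcd
    exact Subtype.ext (Subtype.ext h1)
  exact Finite.of_injective _ h

noncomputable instance spaIdxFintype (Γ : AddSubmonoid ℕ) (m : ℕ) : Fintype (SpaIdx Γ m) :=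
  Fintype.ofFinite _

/-- The element with given coordinates of degree less than `m`. -/
noncomputable def spaE {S B : Type*} [CommRing S] [CommRing B] [Algebra S B]
    (G : GamAlg Γ S B) (m : ℕ) : (SpaIdx Γ m → S) →ₗ[S] B :=
  Fintype.linearCombination S (fun c : SpaIdx Γ m => G.B c.1)

theorem spaE_repr {S B : Type*} [CommRing S] [CommRing B] [Algebra S B]
    (G : GamAlg Γ S B) (m : ℕ) (v : SpaIdx Γ m → S) (c : Γ) :
    G.B.repr (spaE G m v) c = if h : (c : ℕ) < m then v ⟨c, h⟩ else 0 := by
  classical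
  unfold spaE
  rw [Fintype.linearCombination_apply, map_sum, Finsupp.finsetSum_apply]
  simp only [map_smul, Module.Basis.repr_self, Finsupp.smul_apply, Finsupp.single_apply,
    smul_eq_mul]
  split_ifs with h
  · rw [Finset.sum_eq_single (⟨c, h⟩ : SpaIdx Γ m)]
    · simp
    · intro d _ hd
      rw [if_neg, mul_zero]
      intro hdc
      exact hd (Subtype.ext hdc)
    · intro h1
      exact absurd (Finset.mem_univ _) h1
  · apply Finset.sum_eq_zero
    intro d _
    rw [if_neg, mul_zero]
    intro hdc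
    apply h
    rw [← hdc]
    exact d.2

theorem spaE_injective {S B : Type*} [CommRing S] [CommRing B] [Algebra S B]
    (G : GamAlg Γ S B) (m : ℕ) : Function.Injective (spaE G m) := by
  intro v w hvw
  ext c
  have h1 := spaE_repr G m v c.1
  rw [hvw, spaE_repr, dif_pos c.2, dif_pos c.2] at h1
  exact h1.symm

theorem spaE_range {S B : Type*} [CommRing S] [CommRing B] [Algebra S B]
    (G : GamAlg Γ S B) (m : ℕ) : LinearMap.range (spaE G m) = G.lt m := by
  ext f
  rw [G.mem_lt_iff]
  constructor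
  · rintro ⟨v, rfl⟩ c hc
    rw [spaE_repr, dif_neg (by omega)]
  · intro hf
    refine ⟨fun c => G.B.repr f c.1, ?_⟩
    apply G.B.repr.injective
    ext c
    rw [spaE_repr]
    split_ifs with h
    · rfl
    · exact (hf c (by omega)).symm

theorem spaE_bcm {S S' : Type*} [CommRing S] [CommRing S'] [Algebra S S'] [Algebra R S]
    [Algebra R S'] [IsScalarTower R S S'] (G : GamAlg Γ R A) (m : ℕ) (v : SpaIdx Γ m → S) :
    toL R A S S' (spaE (G.baseChange S) m v) =
      spaE (G.baseChange S') m (fun c => algebraMap S S' (v c)) := by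
  apply (G.baseChange S').B.repr.injective
  ext c
  rw [GamAlg.repr_bcm, spaE_repr, spaE_repr]
  split_ifs with h
  · rfl
  · exact map_zero _

include G

/-- the leading coefficient is a unit if the degree does not drop -/
theorem lead_of_lead_lead (hs : Function.Surjective (algebraMap W κ)) {f : W ⊗[R] A} {c : Γ}
    (h1 : Lead L (G.baseChange L).B (toL R A W L f) c)
    (h2 : Lead κ (G.baseChange κ).B (toL R A W κ f) c) : Lead W (G.baseChange W).B f c := by
  have ha : ∀ d : Γ, (c : ℕ) < d → (G.baseChange W).B.repr f d = 0 := by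
    intro d hd
    have h3 := ((G.baseChange L).lead_repr h1).2 d hd
    rw [GamAlg.repr_bcm] at h3
    exact (map_eq_zero_iff _ (IsFractionRing.injective W L)).mp h3
  have hu : IsUnit ((G.baseChange W).B.repr f c) := by
    by_contra hnu
    have h3 := ((G.baseChange κ).lead_repr h2).1
    rw [GamAlg.repr_bcm] at h3
    exact h3 (spaResZero hs hnu)
  obtain ⟨u, hu⟩ := hu
  refine ⟨u, ?_⟩
  change _ ∈ (G.baseChange W).lt c
  rw [GamAlg.mem_lt_iff]
  intro d hd
  rw [map_sub, map_smul, Module.Basis.repr_self, Finsupp.sub_apply, Finsupp.smul_apply,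
    Finsupp.single_apply]
  by_cases h : c = d
  · subst h
    rw [if_pos rfl, hu]
    simp
  · rw [if_neg h, smul_zero, sub_zero]
    exact ha d (lt_of_le_of_ne hd (fun h3 => h (Subtype.ext h3)))

/-- A principal ideal generated by a primitive element. -/
theorem redI_span (hs : Function.Surjective (algebraMap W κ)) {f : W ⊗[R] A}
    (hf : toL R A W κ f ≠ 0) :
    redI R A W L κ (Ideal.span {toL R A W L f}) = Ideal.span {toL R A W κ f} := by
  have hdom : IsDomain (κ ⊗[R] A) := (G.baseChange κ).isDomain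
  have hinj : Function.Injective (toL R A W L) :=
    bcm_injective G _ (IsFractionRing.injective W L)
  apply le_antisymm
  · intro x hx
    obtain ⟨h, hh, rfl⟩ := (mem_redI hs).mp hx
    obtain ⟨z, hz⟩ := Ideal.mem_span_singleton.mp hh
    by_cases hz0 : z = 0
    · rw [hz0, mul_zero] at hz
      have : h = 0 := hinj (by rw [hz, map_zero])
      rw [this, map_zero]
      exact Ideal.zero_mem _
    obtain ⟨a, ha, z', hz1, hz2⟩ := exists_primitive_scale (W := W) (κ := κ) G hs hz0
    by_cases hai : ∃ w : W, algebraMap W L w = a⁻¹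
    · obtain ⟨w, hw⟩ := hai
      have h1 : z = toL R A W L (w • z') := by
        rw [spaToSmul, hw]
        change z = a⁻¹ • bcm A (IsScalarTower.toAlgHom R W L) z'
        rw [hz1, smul_smul, inv_mul_cancel₀ ha, one_smul]
      have h2 : h = f * (w • z') := by
        apply hinj
        rw [hz, map_mul, ← h1]
      rw [h2, map_mul]
      exact Ideal.mul_mem_right _ _ (Ideal.mem_span_singleton_self _)
    · exfalso
      obtain ⟨w, hw⟩ : ∃ w : W, algebraMap W L w = a := by
        rcases ValuationRing.isInteger_or_isInteger W a with h1 | h1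
        · exact h1
        · exact absurd h1 hai
      have hwu : ¬ IsUnit w := by
        rintro ⟨u, rfl⟩
        apply hai
        refine ⟨((u⁻¹ : Wˣ) : W), ?_⟩
        rw [← hw]
        apply eq_inv_of_mul_eq_one_left
        rw [← map_mul, Units.inv_mul, map_one]
      have h1 : w • h = f * z' := by
        apply hinj
        rw [spaToSmul, hw, hz, map_mul]
        change a • (toL R A W L f * z) = toL R A W L f * bcm A (IsScalarTower.toAlgHom R W L) z'
        rw [hz1, mul_smul_comm]
      have h2 := congrArg (toL R A W κ) h1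
      rw [spaToSmul, spaResZero hs hwu, zero_smul, map_mul] at h2
      rcases mul_eq_zero.mp h2.symm with h3 | h3
      · exact hf h3
      · exact hz2 h3
  · rw [Ideal.span_singleton_le_iff_mem]
    exact (mem_redI hs).mpr ⟨f, Ideal.mem_span_singleton_self _, rfl⟩

theorem redI_ne_bot (hs : Function.Surjective (algebraMap W κ))
    {I : Ideal (L ⊗[R] A)} (hI : I ≠ ⊥) : redI R A W L κ I ≠ ⊥ := by
  obtain ⟨g, hg, hg0⟩ := Submodule.exists_mem_ne_zero_of_ne_bot hI
  obtain ⟨a, _, f', h1, h2⟩ := exists_primitive_scale (W := W) (κ := κ) G hs hg0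
  intro hbot
  have h3 : toL R A W κ f' ∈ redI R A W L κ I := by
    refine (mem_redI hs).mpr ⟨f', ?_, rfl⟩
    change bcm A (IsScalarTower.toAlgHom R W L) f' ∈ I
    rw [h1, Algebra.smul_def]
    exact Ideal.mul_mem_left _ _ hg
  rw [hbot, Ideal.mem_bot] at h3
  exact h2 h3

/-- Reduction of the elements of degree less than `m` of `I`. -/
theorem spaRed (hs : Function.Surjective (algebraMap W κ))
    (I : Ideal (L ⊗[R] A)) (m : ℕ) :
    ∃ V : Submodule κ (κ ⊗[R] A),
      Module.finrank κ V = Module.finrank L ↥((G.baseChange L).cut I m) ∧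
      V ≤ (G.baseChange κ).lt m ∧
      ∀ x ∈ V, ∃ f : W ⊗[R] A, toL R A W L f ∈ I ∧ toL R A W L f ∈ (G.baseChange L).lt m ∧
        toL R A W κ f = x := by
  obtain ⟨V', h1, h2⟩ := lattice_reduction (W := W) (κ := κ) hs
    ((I.restrictScalars L).comap (spaE (G.baseChange L) m))
  refine ⟨V'.map (spaE (G.baseChange κ) m), ?_, ?_, ?_⟩
  · rw [← (Submodule.equivMapOfInjective _ (spaE_injective (G.baseChange κ) m) V').finrank_eq,
      h1, (Submodule.equivMapOfInjective _ (spaE_injective (G.baseChange L) m) _).finrank_eq,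
      Submodule.map_comap_eq, spaE_range]
    rfl
  · rw [← spaE_range]
    exact LinearMap.map_le_range
  · rintro x ⟨v', hv', rfl⟩
    obtain ⟨v, hv1, rfl⟩ := (h2 v').mp hv'
    refine ⟨spaE (G.baseChange W) m v, ?_, ?_, ?_⟩
    · rw [spaE_bcm]
      exact hv1
    · rw [spaE_bcm, ← spaE_range]
      exact ⟨_, rfl⟩
    · rw [spaE_bcm]

theorem finrank_redI_le (hs : Function.Surjective (algebraMap W κ))
    {I : Ideal (L ⊗[R] A)} (hI : I ≠ ⊥) :
    Module.finrank κ (κ ⊗[R] A ⧸ redI R A W L κ I) ≤ Module.finrank L (L ⊗[R] A ⧸ I) := by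
  have hfd := (G.baseChange κ).finite_quot (redI_ne_bot (κ := κ) G hs hI)
  set N := Module.finrank κ (κ ⊗[R] A ⧸ redI R A W L κ I) + 3 * genus Γ with hN
  obtain ⟨V, hV1, hV2, hV3⟩ := spaRed (κ := κ) G hs I N
  have hle : V ≤ (G.baseChange κ).cut (redI R A W L κ I) N := by
    intro x hx
    refine ⟨hV2 hx, ?_⟩
    obtain ⟨f, hf1, _, hf3⟩ := hV3 x hx
    exact (mem_redI hs).mpr ⟨f, hf1, hf3⟩
  have h1 := Submodule.finrank_mono hle
  have h2 := finrank_cut_ge (G.baseChange L) hI N
  have h3 := (G.baseChange κ).finrank_cut_eq (I := redI R A W L κ I) (N := N) le_rfl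
  omega

/-- The key element: `f ∈ I` primitive, with `deg f - deg f̄ ≤ codim I - codim (redI I)`. -/
theorem exists_key (hs : Function.Surjective (algebraMap W κ))
    {I : Ideal (L ⊗[R] A)} (hI : I ≠ ⊥) :
    ∃ (f : W ⊗[R] A) (c c' : Γ), toL R A W L f ∈ I ∧
      Lead L (G.baseChange L).B (toL R A W L f) c ∧
      Lead κ (G.baseChange κ).B (toL R A W κ f) c' ∧
      (c : ℕ) + Module.finrank κ (κ ⊗[R] A ⧸ redI R A W L κ I) ≤
        (c' : ℕ) + Module.finrank L (L ⊗[R] A ⧸ I) := by
  have hdd := finrank_redI_le (κ := κ) G hs hI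
  have hfd := (G.baseChange κ).finite_quot (redI_ne_bot (κ := κ) G hs hI)
  obtain ⟨e, he⟩ := Nat.exists_eq_add_of_le hdd
  set N := Module.finrank κ (κ ⊗[R] A ⧸ redI R A W L κ I) + 3 * genus Γ with hN
  obtain ⟨V, hV1, hV2, hV3⟩ := spaRed (κ := κ) G hs I (N + e + 1)
  have h2 := finrank_cut_ge (G.baseChange L) hI (N + e + 1)
  have h3 := (G.baseChange κ).finrank_cut_eq (I := redI R A W L κ I) (N := N) le_rfl
  have hnot : ¬ V ≤ (G.baseChange κ).lt N := by
    intro hle0
    have hle : V ≤ (G.baseChange κ).cut (redI R A W L κ I) N := by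
      intro x hx
      refine ⟨hle0 hx, ?_⟩
      obtain ⟨f, hf1, _, hf3⟩ := hV3 x hx
      exact (mem_redI hs).mpr ⟨f, hf1, hf3⟩
    have h1 := Submodule.finrank_mono hle
    omega
  obtain ⟨x, hxV, hx⟩ := Set.not_subset.mp hnot
  obtain ⟨f, hf1, hf2, hf3⟩ := hV3 x hxV
  have hx0 : x ≠ 0 := by
    rintro rfl
    exact hx (Submodule.zero_mem _)
  have hf0 : toL R A W L f ≠ 0 := by
    intro h0
    have h4 : f = 0 := bcm_injective G _ (IsFractionRing.injective W L) (by rw [h0, map_zero])
    apply hx0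
    rw [← hf3, h4, map_zero]
  obtain ⟨c, hc⟩ := (G.baseChange L).exists_lead hf0
  obtain ⟨c', hc'⟩ := (G.baseChange κ).exists_lead hx0
  refine ⟨f, c, c', hf1, hc, by rw [hf3]; exact hc', ?_⟩
  have h4 : N ≤ (c' : ℕ) := by
    by_contra hcon
    exact hx (hc'.mem_ltSpan (not_le.mp hcon))
  have h5 : (c : ℕ) < N + e + 1 := (G.baseChange L).lead_lt hc hf2
  omega

end

end PiCurve
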