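import Mathlib
import Pool.Agent.Pi2.SPa

/-! (SP) Specialisation of ideal classes over a valuation ring. -/

namespace PiCurve

open TensorProduct

section

variable {Γ : AddSubmonoid ℕ} {R A W L κ : Type*} [CommRing R] [CommRing A] [Algebra R A]
  (G : GamAlg Γ R A) [CommRing W] [IsDomain W] [ValuationRing W]
  [Field L] [Algebra W L] [IsFractionRing W L] [Field κ] [Algebra W κ]
  [Algebra R W] [Algebra R L] [Algebra R κ] [IsScalarTower R W L] [IsScalarTower R W κ]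

omit [IsDomain W] [ValuationRing W] [IsFractionRing W L] in
/-- products of lifts -/
theorem redI_mul_le (I J : Ideal (L ⊗[R] A)) :
    redI R A W L κ I * redI R A W L κ J ≤ redI R A W L κ (I * J) := by
  unfold redI
  rw [← Ideal.map_mul]
  exact Ideal.map_mono (Ideal.le_comap_mul _)

/-- monotonicity of the codimension -/
theorem finrank_quot_anti {Γ : AddSubmonoid ℕ} {L B : Type*} [Field L] [CommRing B] [Algebra L B]
    (G : GamAlg Γ L B) {I J : Ideal B} (hI : I ≠ ⊥) (hIJ : I ≤ J) :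
    Module.finrank L (B ⧸ J) ≤ Module.finrank L (B ⧸ I) := by
  by_contra hlt
  push Not at hlt
  have h1 := eq_of_le_of_finrank G hI hIJ hlt.le
  rw [h1] at hlt
  exact lt_irrefl _ hlt

include G

omit [IsDomain W] [ValuationRing W] in
theorem lead_le_of_lead {f : W ⊗[R] A} {c c' : Γ}
    (h1 : Lead L (G.baseChange L).B (toL R A W L f) c)
    (h2 : Lead κ (G.baseChange κ).B (toL R A W κ f) c') : (c' : ℕ) ≤ c := by
  have h3 : toL R A W L f ∈ (G.baseChange L).lt ((c : ℕ) + 1) := h1.mem_ltSpan (Nat.lt_succ_self _)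
  have h4 := G.lt_of_bcm (IsScalarTower.toAlgHom R W L) (IsFractionRing.injective W L) h3
  have h5 : toL R A W κ f ∈ (G.baseChange κ).lt ((c : ℕ) + 1) :=
    G.lt_bcm (IsScalarTower.toAlgHom R W κ) h4
  have h6 := (G.baseChange κ).lead_lt h2 h5
  omega

theorem good_iff [IsDedekindDomain (L ⊗[R] A)] [IsDedekindDomain (κ ⊗[R] A)]
    (hs : Function.Surjective (algebraMap W κ)) {I : Ideal (L ⊗[R] A)} (hI : I ≠ ⊥) :
    Good G W I ↔
      Module.finrank κ (κ ⊗[R] A ⧸ redI R A W L κ I) = Module.finrank L (L ⊗[R] A ⧸ I) := by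
  constructor
  · rintro ⟨f, c, hf, hfI⟩
    have h1 : Lead κ (G.baseChange κ).B (toL R A W κ f) c := G.lead_bcm _ hf
    have h2 : Lead L (G.baseChange L).B (toL R A W L f) c := G.lead_bcm _ hf
    have h1' := (G.baseChange κ).lead_ne_zero h1
    have h2' := (G.baseChange L).lead_ne_zero h2
    obtain ⟨J, hJ, hIJ⟩ := exists_mul_eq_span hfI h2'
    have c1 := finrank_quot_mul (G.baseChange L) hI hJ
    rw [hIJ] at c1
    have c2 := (G.baseChange L).finrank_quot_span h2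
    have c4 := redI_span (L := L) G hs h1'
    have c5 := (G.baseChange κ).finrank_quot_span h1
    have c6 := redI_mul_le (W := W) (κ := κ) I J
    rw [hIJ, c4] at c6
    have c7 : redI R A W L κ I ≠ ⊥ := redI_ne_bot G hs hI
    have c8 : redI R A W L κ J ≠ ⊥ := redI_ne_bot G hs hJ
    have c9 := finrank_quot_mul (G.baseChange κ) c7 c8
    have c10 := finrank_quot_anti (G.baseChange κ) (mul_ne_zero c7 c8) c6
    have c11 := finrank_redI_le G hs hI
    have c12 := finrank_redI_le G hs hJ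
    omega
  · intro h
    obtain ⟨f, c, c', hf1, hf2, hf3, hf4⟩ := exists_key G hs hI
    have h5 := lead_le_of_lead G hf2 hf3
    have h6 : c' = c := Subtype.ext (by omega)
    subst h6
    exact ⟨f, c', lead_of_lead_lead G hs hf2 hf3, hf1⟩

omit [IsDomain W] [ValuationRing W] [IsFractionRing W L] in
theorem good_mul {I J : Ideal (L ⊗[R] A)} (hgI : Good G W I) (hgJ : Good G W J) :
    Good G W (I * J) := by
  obtain ⟨f, c, hf, hfI⟩ := hgI
  obtain ⟨g, d, hg, hgJ⟩ := hgJ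
  refine ⟨f * g, c + d, hf.mul (G.baseChange W).mul hg, ?_⟩
  rw [map_mul]
  exact Ideal.mul_mem_mul hfI hgJ

theorem redI_mul [IsDedekindDomain (L ⊗[R] A)] [IsDedekindDomain (κ ⊗[R] A)]
    (hs : Function.Surjective (algebraMap W κ)) {I J : Ideal (L ⊗[R] A)} (hI : I ≠ ⊥)
    (hJ : J ≠ ⊥) (hgI : Good G W I) (hgJ : Good G W J) :
    redI R A W L κ (I * J) = redI R A W L κ I * redI R A W L κ J := by
  have c7 : redI R A W L κ I ≠ ⊥ := redI_ne_bot G hs hI
  have c8 : redI R A W L κ J ≠ ⊥ := redI_ne_bot G hs hJ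
  have hIJ : I * J ≠ ⊥ := mul_ne_zero hI hJ
  have e1 := (good_iff G hs hI).1 hgI
  have e2 := (good_iff G hs hJ).1 hgJ
  have e3 := (good_iff G hs hIJ).1 (good_mul G hgI hgJ)
  have c1 := finrank_quot_mul (G.baseChange L) hI hJ
  have c9 := finrank_quot_mul (G.baseChange κ) c7 c8
  exact (eq_of_le_of_finrank (G.baseChange κ) (mul_ne_zero c7 c8) (redI_mul_le I J)
    (by omega)).symm

/-- Every ideal has a good complement: `I J = (f)` with `J` good and
`redI I * redI J = (f̄)`. -/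
theorem exists_good_compl [IsDedekindDomain (L ⊗[R] A)] [IsDedekindDomain (κ ⊗[R] A)]
    (hs : Function.Surjective (algebraMap W κ)) {I : Ideal (L ⊗[R] A)} (hI : I ≠ ⊥) :
    ∃ (J : Ideal (L ⊗[R] A)) (f : W ⊗[R] A), J ≠ ⊥ ∧ Good G W J ∧ toL R A W κ f ≠ 0 ∧
      I * J = Ideal.span {toL R A W L f} ∧
      redI R A W L κ I * redI R A W L κ J = Ideal.span {toL R A W κ f} := by
  obtain ⟨f, c, c', hfI, h2, h1, hf4⟩ := exists_key (κ := κ) G hs hI
  have h1' := (G.baseChange κ).lead_ne_zero h1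
  have h2' := (G.baseChange L).lead_ne_zero h2
  obtain ⟨J, hJ, hIJ⟩ := exists_mul_eq_span hfI h2'
  have c1 := finrank_quot_mul (G.baseChange L) hI hJ
  rw [hIJ] at c1
  have c2 := (G.baseChange L).finrank_quot_span h2
  have c4 := redI_span (L := L) G hs h1'
  have c5 := (G.baseChange κ).finrank_quot_span h1
  have c6 := redI_mul_le (W := W) (κ := κ) I J
  rw [hIJ, c4] at c6
  have c7 : redI R A W L κ I ≠ ⊥ := redI_ne_bot G hs hI
  have c8 : redI R A W L κ J ≠ ⊥ := redI_ne_bot G hs hJ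
  have c9 := finrank_quot_mul (G.baseChange κ) c7 c8
  have c10 := finrank_quot_anti (G.baseChange κ) (mul_ne_zero c7 c8) c6
  have c11 := finrank_redI_le G hs hI
  have c12 := finrank_redI_le G hs hJ
  refine ⟨J, f, hJ, (good_iff G hs hJ).2 (by omega), h1', hIJ, ?_⟩
  exact eq_of_le_of_finrank (G.baseChange κ) (mul_ne_zero c7 c8) c6 (by omega)

omit [IsDomain W] [ValuationRing W] in
theorem toL_ne_zero {f : W ⊗[R] A} (h1 : toL R A W κ f ≠ 0) : toL R A W L f ≠ 0 := by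
  intro h
  have hinj : Function.Injective (toL R A W L) :=
    bcm_injective G _ (IsFractionRing.injective W L)
  have hf0 : f = 0 := hinj (h.trans (map_zero _).symm)
  exact h1 (by rw [hf0, map_zero])

/-- Every class contains a good ideal. -/
theorem exists_good [IsDedekindDomain (L ⊗[R] A)] [IsDedekindDomain (κ ⊗[R] A)]
    (hs : Function.Surjective (algebraMap W κ)) (c : ClassGroup (L ⊗[R] A)) :
    ∃ I : Ideal (L ⊗[R] A), I ≠ ⊥ ∧ Good G W I ∧ cl I = c := by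
  obtain ⟨I, hI, hIc⟩ := cl_surjective c⁻¹
  obtain ⟨J, f, hJ, hgJ, h1, hIJ, -⟩ := exists_good_compl (κ := κ) G hs hI
  refine ⟨J, hJ, hgJ, ?_⟩
  have h2 : cl (I * J) = 1 :=
    (cl_eq_one_iff (mul_ne_zero hI hJ)).2 ⟨_, toL_ne_zero G h1, hIJ⟩
  rw [cl_mul hI hJ, hIc] at h2
  rw [inv_mul_eq_one] at h2
  exact h2.symm

theorem cl_redI_good_mul_eq_one [IsDedekindDomain (L ⊗[R] A)] [IsDedekindDomain (κ ⊗[R] A)]
    (hs : Function.Surjective (algebraMap W κ)) {J H : Ideal (L ⊗[R] A)} (hJ : J ≠ ⊥)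
    (hH : H ≠ ⊥) (hgJ : Good G W J) (hgH : Good G W H) (h : cl J * cl H = 1) :
    cl (redI R A W L κ J) * cl (redI R A W L κ H) = 1 := by
  rw [← cl_mul hJ hH, cl_eq_one_iff (mul_ne_zero hJ hH)] at h
  obtain ⟨x, hx0, hx⟩ := h
  obtain ⟨a, ha, f', hf1, hf2⟩ := exists_primitive_scale (W := W) (L := L) (κ := κ) G hs hx0
  have c7 : redI R A W L κ J ≠ ⊥ := redI_ne_bot G hs hJ
  have c8 : redI R A W L κ H ≠ ⊥ := redI_ne_bot G hs hH
  rw [← cl_mul c7 c8, ← redI_mul G hs hJ hH hgJ hgH, hx]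
  have hsp : Ideal.span {x} = Ideal.span {toL R A W L f'} := by
    change _ = Ideal.span {bcm A (IsScalarTower.toAlgHom R W L) f'}
    rw [hf1, Algebra.smul_def]
    have hu : IsUnit (algebraMap L (L ⊗[R] A) a) := (Ne.isUnit ha).map _
    rw [Ideal.span_singleton_mul_left_unit hu]
  rw [hsp, redI_span G hs hf2, cl_eq_one_iff]
  · exact ⟨_, hf2, rfl⟩
  · rw [Ne, Ideal.span_singleton_eq_bot]
    exact hf2

theorem cl_redI_eq [IsDedekindDomain (L ⊗[R] A)] [IsDedekindDomain (κ ⊗[R] A)]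
    (hs : Function.Surjective (algebraMap W κ)) {I I' : Ideal (L ⊗[R] A)} (hI : I ≠ ⊥)
    (hI' : I' ≠ ⊥) (h : cl I = cl I') :
    cl (redI R A W L κ I) = cl (redI R A W L κ I') := by
  have key : ∀ {I : Ideal (L ⊗[R] A)}, I ≠ ⊥ → ∃ J : Ideal (L ⊗[R] A), J ≠ ⊥ ∧ Good G W J ∧
      cl I * cl J = 1 ∧ cl (redI R A W L κ I) * cl (redI R A W L κ J) = 1 := by
    intro I hI
    obtain ⟨J, f, hJ, hgJ, h1, hIJ, h2⟩ := exists_good_compl (κ := κ) G hs hI
    refine ⟨J, hJ, hgJ, ?_, ?_⟩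
    · rw [← cl_mul hI hJ, cl_eq_one_iff (mul_ne_zero hI hJ)]
      exact ⟨_, toL_ne_zero G h1, hIJ⟩
    · have c7 : redI R A W L κ I ≠ ⊥ := redI_ne_bot G hs hI
      have c8 : redI R A W L κ J ≠ ⊥ := redI_ne_bot G hs hJ
      rw [← cl_mul c7 c8, cl_eq_one_iff (mul_ne_zero c7 c8)]
      exact ⟨_, h1, h2⟩
  obtain ⟨J, hJ, hgJ, hJ1, hJ2⟩ := key hI
  obtain ⟨J', hJ', hgJ', hJ1', hJ2'⟩ := key hI'
  obtain ⟨H, hH, hgH, hHc⟩ := exists_good (κ := κ) G hs (cl I)
  have e1 : cl J * cl H = 1 := by rw [hHc, mul_comm]; exact hJ1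
  have e2 : cl J' * cl H = 1 := by rw [hHc, mul_comm, h]; exact hJ1'
  have f1 := cl_redI_good_mul_eq_one (κ := κ) G hs hJ hH hgJ hgH e1
  have f2 := cl_redI_good_mul_eq_one (κ := κ) G hs hJ' hH hgJ' hgH e2
  have g1 : cl (redI R A W L κ J) = cl (redI R A W L κ J') := by
    rw [mul_eq_one_iff_eq_inv] at f1 f2
    rw [f1, f2]
  rw [mul_eq_one_iff_eq_inv] at hJ2 hJ2'
  rw [hJ2, hJ2', g1]

/-- (SP) The specialisation homomorphism. -/
theorem exists_sp [IsDedekindDomain (L ⊗[R] A)] [IsDedekindDomain (κ ⊗[R] A)]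
    (hs : Function.Surjective (algebraMap W κ)) :
    ∃ φ : ClassGroup (L ⊗[R] A) →* ClassGroup (κ ⊗[R] A),
      ∀ I : Ideal (L ⊗[R] A), I ≠ ⊥ → φ (cl I) = cl (redI R A W L κ I) := by
  classical
  have hch : ∀ c : ClassGroup (L ⊗[R] A), ∃ I : Ideal (L ⊗[R] A), I ≠ ⊥ ∧ cl I = c :=
    cl_surjective
  choose S hS0 hSc using hch
  have hval : ∀ I : Ideal (L ⊗[R] A), I ≠ ⊥ →
      cl (redI R A W L κ (S (cl I))) = cl (redI R A W L κ I) := fun I hI =>
    cl_redI_eq G hs (hS0 _) hI (hSc _)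
  refine ⟨MonoidHom.mk' (fun c => cl (redI R A W L κ (S c))) ?_, hval⟩
  intro c d
  obtain ⟨I, hI, hgI, rfl⟩ := exists_good (κ := κ) G hs c
  obtain ⟨J, hJ, hgJ, rfl⟩ := exists_good (κ := κ) G hs d
  have c7 : redI R A W L κ I ≠ ⊥ := redI_ne_bot G hs hI
  have c8 : redI R A W L κ J ≠ ⊥ := redI_ne_bot G hs hJ
  rw [← cl_mul hI hJ, hval _ (mul_ne_zero hI hJ), hval _ hI, hval _ hJ,
    redI_mul G hs hI hJ hgI hgJ, cl_mul c7 c8]

end

end PiCurve
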