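import Mathlib
import Pool.Agent.Pi2.SP

/-!
# Places of a field `L` with values in a field `κ`, relative to a base ring `R`, and the
specialisation of ideal classes.

Examples: `κ` an algebraically closed subfield of `L` and every element of the valuation ring
congruent to a unique constant (`Pl.ofConst`); `κ` the residue field of a valuation ring of `L`
containing the image of `R` (`Pl.ofVal`).
-/

namespace PiCurve

open TensorProduct

/-- An `R`-place of `L` with values in `κ`. -/
structure Pl (R L κ : Type*) [CommRing R] [Field L] [Field κ] [Algebra R L] [Algebra R κ] where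
  /-- the valuation ring -/
  W : ValuationSubring L
  /-- the residue map -/
  π : W →+* κ
  surj : Function.Surjective π
  alg : ∀ a : R, algebraMap R L a ∈ W
  π_alg : ∀ a : R, π ⟨algebraMap R L a, alg a⟩ = algebraMap R κ a

/-- compatibility of two places with homomorphisms of fields and residue fields -/
def Pl.Compat {R L κ L' κ' : Type*} [CommRing R] [Field L] [Field κ] [Algebra R L] [Algebra R κ]
    [Field L'] [Field κ'] [Algebra R L'] [Algebra R κ'] (P : Pl R L κ) (P' : Pl R L' κ')
    (τ : L →ₐ[R] L') (t : κ →ₐ[R] κ') : Prop :=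
  ∀ (x : L) (hx : x ∈ P.W), ∃ hx' : τ x ∈ P'.W, P'.π ⟨τ x, hx'⟩ = t (P.π ⟨x, hx⟩)

namespace Pl

section

variable {R L κ : Type*} [CommRing R] [Field L] [Field κ] [Algebra R L] [Algebra R κ]
  (P : Pl R L κ) (A : Type*) [CommRing A] [Algebra R A]

/-- the `R`-algebra structure of `W` -/
abbrev algW : Algebra R P.W :=
  RingHom.toAlgebra
    { toFun := fun a => ⟨algebraMap R L a, P.alg a⟩
      map_one' := Subtype.ext (map_one _)
      map_zero' := Subtype.ext (map_zero _)
      map_mul' := fun _ _ => Subtype.ext (map_mul _ _ _)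
      map_add' := fun _ _ => Subtype.ext (map_add _ _ _) }

/-- the residue map as an algebra structure -/
abbrev algWκ : Algebra P.W κ := P.π.toAlgebra

theorem tower1 : letI := P.algW; IsScalarTower R P.W L := by
  letI := P.algW
  exact IsScalarTower.of_algebraMap_eq fun r => rfl

theorem tower2 : letI := P.algW; letI := P.algWκ; IsScalarTower R P.W κ := by
  letI := P.algW
  letI := P.algWκ
  exact IsScalarTower.of_algebraMap_eq fun r => (P.π_alg r).symm

/-- The ring `W ⊗ A`. -/
abbrev WA : Type _ := letI := P.algW; P.W ⊗[R] A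

/-- `W ⊗ A → L ⊗ A` -/
noncomputable abbrev toLA : P.WA A →+* L ⊗[R] A :=
  letI := P.algW
  haveI := P.tower1
  toL R A P.W L

/-- `W ⊗ A → κ ⊗ A` -/
noncomputable abbrev res : P.WA A →+* κ ⊗[R] A :=
  letI := P.algW
  letI := P.algWκ
  haveI := P.tower2
  toL R A P.W κ

/-- The reduction of an ideal. -/
noncomputable def red {A : Type*} [CommRing A] [Algebra R A] (I : Ideal (L ⊗[R] A)) :
    Ideal (κ ⊗[R] A) :=
  letI := P.algW
  letI := P.algWκ
  haveI := P.tower1
  haveI := P.tower2
  redI R A P.W L κ I

theorem mem_red {A : Type*} [CommRing A] [Algebra R A] (I : Ideal (L ⊗[R] A)) (x : κ ⊗[R] A) :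
    x ∈ P.red I ↔ ∃ f : P.WA A, P.toLA A f ∈ I ∧ P.res A f = x := by
  letI := P.algW
  letI := P.algWκ
  haveI := P.tower1
  haveI := P.tower2
  exact mem_redI P.surj

variable {A} {Γ : AddSubmonoid ℕ} (G : GamAlg Γ R A)
  [IsDedekindDomain (L ⊗[R] A)] [IsDedekindDomain (κ ⊗[R] A)]

include G in
theorem exists_sp' : ∃ φ : ClassGroup (L ⊗[R] A) →* ClassGroup (κ ⊗[R] A),
      ∀ I : Ideal (L ⊗[R] A), I ≠ ⊥ → φ (cl I) = cl (P.red I) := by
  letI := P.algW
  letI := P.algWκ
  haveI := P.tower1
  haveI := P.tower2
  exact exists_sp G P.surj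

/-- The specialisation of ideal classes at a place. -/
noncomputable def sp : ClassGroup (L ⊗[R] A) →* ClassGroup (κ ⊗[R] A) :=
  (P.exists_sp' G).choose

theorem sp_cl {I : Ideal (L ⊗[R] A)} (hI : I ≠ ⊥) :
    P.sp G (cl I) = cl (P.red I) := (P.exists_sp' G).choose_spec I hI

end

/-- A valuation ring of `L ⊇ k` such that every element of it is congruent to a constant. -/
theorem exists_ofConst (R : Type*) {L k : Type*} [CommRing R] [Field L] [Field k] [Algebra k L]
    [Algebra R k] [Algebra R L] [IsScalarTower R k L] (V : ValuationSubring L)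
    (hk : ∀ a : k, algebraMap k L a ∈ V)
    (h : ∀ x ∈ V, ∃ a : k, V.valuation (x - algebraMap k L a) < 1) :
    ∃ P : Pl R L k, P.W = V ∧ ∀ (x : L) (hx : x ∈ P.W),
      V.valuation (x - algebraMap k L (P.π ⟨x, hx⟩)) < 1 := by
  classical
  -- a constant of value `< 1` is zero
  have h0 : ∀ a : k, V.valuation (algebraMap k L a) < 1 → a = 0 := by
    intro a ha
    by_contra hne
    have h1 : V.valuation (algebraMap k L a⁻¹) ≤ 1 := (V.valuation_le_one_iff _).2 (hk a⁻¹)
    have h2 : V.valuation (algebraMap k L a) * V.valuation (algebraMap k L a⁻¹) = 1 := by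
      rw [← map_mul, ← map_mul, mul_inv_cancel₀ hne, map_one, map_one]
    have h3 : V.valuation (algebraMap k L a) * V.valuation (algebraMap k L a⁻¹) < 1 :=
      lt_of_le_of_lt (mul_le_of_le_one_right' h1) ha
    rw [h2] at h3
    exact lt_irrefl _ h3
  choose g hg using h
  have huniq : ∀ (x : L) (hx : x ∈ V) (a : k), V.valuation (x - algebraMap k L a) < 1 →
      g x hx = a := by
    intro x hx a ha
    have h1 : V.valuation (algebraMap k L (g x hx - a)) < 1 := by
      rw [map_sub]
      have h2 : algebraMap k L (g x hx) - algebraMap k L a =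
        (x - algebraMap k L a) - (x - algebraMap k L (g x hx)) := by ring
      rw [h2]
      exact Valuation.map_sub_lt _ ha (hg x hx)
    exact sub_eq_zero.1 (h0 _ h1)
  let π : V →+* k :=
    { toFun := fun x => g x x.2
      map_one' := huniq _ _ _ (by simp)
      map_zero' := huniq _ _ _ (by simp)
      map_mul' := fun x y => huniq _ _ _ (by
        have h1 : ((x * y : V) : L) - algebraMap k L (g x x.2 * g y y.2) =
            ((x : L) - algebraMap k L (g x x.2)) * y +
              algebraMap k L (g x x.2) * ((y : L) - algebraMap k L (g y y.2)) := by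
          rw [map_mul]
          change (x : L) * y - _ = _
          ring
        rw [h1]
        refine Valuation.map_add_lt _ ?_ ?_
        · rw [map_mul]
          exact lt_of_le_of_lt (mul_le_of_le_one_right' (V.valuation_le_one y)) (hg x x.2)
        · rw [map_mul]
          exact lt_of_le_of_lt
            (mul_le_of_le_one_left' ((V.valuation_le_one_iff _).2 (hk _))) (hg y y.2))
      map_add' := fun x y => huniq _ _ _ (by
        have h1 : ((x + y : V) : L) - algebraMap k L (g x x.2 + g y y.2) =
            ((x : L) - algebraMap k L (g x x.2)) + ((y : L) - algebraMap k L (g y y.2)) := by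
          rw [map_add]
          change (x : L) + y - _ = _
          ring
        rw [h1]
        exact Valuation.map_add_lt _ (hg x x.2) (hg y y.2)) }
  refine ⟨⟨V, π, ?_, ?_, ?_⟩, rfl, ?_⟩
  · intro a
    exact ⟨⟨algebraMap k L a, hk a⟩, huniq _ _ _ (by simp)⟩
  · intro a
    rw [IsScalarTower.algebraMap_apply R k L]
    exact hk _
  · intro a
    apply huniq
    change V.valuation (algebraMap R L a - algebraMap k L (algebraMap R k a)) < 1
    rw [IsScalarTower.algebraMap_apply R k L, sub_self, map_zero]
    exact zero_lt_one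
  · intro x hx
    exact hg x hx

/-- The place attached to a valuation ring with residue field `k ⊆ L`. -/
noncomputable def ofConst (R : Type*) {L k : Type*} [CommRing R] [Field L] [Field k] [Algebra k L]
    [Algebra R k] [Algebra R L] [IsScalarTower R k L] (V : ValuationSubring L)
    (hk : ∀ a : k, algebraMap k L a ∈ V)
    (h : ∀ x ∈ V, ∃ a : k, V.valuation (x - algebraMap k L a) < 1) : Pl R L k :=
  (exists_ofConst R V hk h).choose

theorem ofConst_W (R : Type*) {L k : Type*} [CommRing R] [Field L] [Field k] [Algebra k L]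
    [Algebra R k] [Algebra R L] [IsScalarTower R k L] (V : ValuationSubring L)
    (hk : ∀ a : k, algebraMap k L a ∈ V)
    (h : ∀ x ∈ V, ∃ a : k, V.valuation (x - algebraMap k L a) < 1) :
    (ofConst R V hk h).W = V := (exists_ofConst R V hk h).choose_spec.1

theorem ofConst_π (R : Type*) {L k : Type*} [CommRing R] [Field L] [Field k] [Algebra k L]
    [Algebra R k] [Algebra R L] [IsScalarTower R k L] (V : ValuationSubring L)
    (hk : ∀ a : k, algebraMap k L a ∈ V)
    (h : ∀ x ∈ V, ∃ a : k, V.valuation (x - algebraMap k L a) < 1)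
    (x : L) (hx : x ∈ (ofConst R V hk h).W) :
    V.valuation (x - algebraMap k L ((ofConst R V hk h).π ⟨x, hx⟩)) < 1 :=
  (exists_ofConst R V hk h).choose_spec.2 x hx

/-- The place attached to a valuation ring containing the image of `R`, with values in its residue
field. -/
def ofVal {R L : Type*} [CommRing R] [Field L] [Algebra R L] (V : ValuationSubring L)
    (hR : ∀ a : R, algebraMap R L a ∈ V) [Algebra R (IsLocalRing.ResidueField V)]
    (h : ∀ a : R, algebraMap R (IsLocalRing.ResidueField V) a =
      IsLocalRing.residue V ⟨algebraMap R L a, hR a⟩) : Pl R L (IsLocalRing.ResidueField V) where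
  W := V
  π := IsLocalRing.residue V
  surj := IsLocalRing.residue_surjective
  alg := hR
  π_alg := fun a => (h a).symm

end Pl

/-- `k ⊗ A → L ⊗ A` -/
noncomputable abbrev kLA (R A k L : Type*) [CommRing R] [CommRing A] [Algebra R A] [Field k]
    [Field L] [Algebra k L] [Algebra R k] [Algebra R L] [IsScalarTower R k L] :
    k ⊗[R] A →+* L ⊗[R] A := bcm A (IsScalarTower.toAlgHom R k L)

end PiCurve
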