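import Mathlib
import Pool.Agent.Pi2.PL

/-! (SPFa) Functoriality of the specialisation. -/

namespace PiCurve

open TensorProduct

/-- The codimension of an ideal does not change under extension of the base field. -/
theorem finrank_map_bcm {R A L L' : Type*} [CommRing R] [CommRing A] [Algebra R A] [Field L]
    [Field L'] [Algebra R L] [Algebra R L'] (τ : L →ₐ[R] L') (I : Ideal (L ⊗[R] A)) :
    Module.finrank L' (L' ⊗[R] A ⧸ I.map (bcm A τ)) = Module.finrank L (L ⊗[R] A ⧸ I) := by
  let : Algebra L L' := τ.toRingHom.toAlgebra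
  have : IsScalarTower R L L' := IsScalarTower.of_algebraMap_eq fun r => (τ.commutes r).symm
  let e1 := Algebra.TensorProduct.tensorQuotientEquiv (R := L) L' (L ⊗[R] A) L' I
  let e2 := Algebra.TensorProduct.cancelBaseChange R L L' L' A
  have h : I.map (bcm A τ) = (I.map (Algebra.TensorProduct.includeRight :
      L ⊗[R] A →ₐ[L] L' ⊗[L] (L ⊗[R] A))).map (e2 : L' ⊗[L] (L ⊗[R] A) →+* L' ⊗[R] A) := by
    rw [AlgHom.coe_ideal_map, Ideal.map_map]
    congr 1
    apply RingHom.ext
    intro x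
    induction x using TensorProduct.induction_on with
    | zero => simp
    | tmul l a =>
      simp only [RingHom.comp_apply, bcm]
      change (τ l) ⊗ₜ[R] a = e2 ((1 : L') ⊗ₜ[L] (l ⊗ₜ[R] a))
      rw [Algebra.TensorProduct.cancelBaseChange_tmul]
      congr 1
      change τ l = τ l * 1
      rw [mul_one]
    | add x y hx hy => rw [map_add, map_add, hx, hy]
  let e3 := Ideal.quotientEquivAlg _ _ e2 h
  have h1 : Module.finrank L' (L' ⊗[L] ((L ⊗[R] A) ⧸ I)) =
      Module.finrank L' (L' ⊗[R] A ⧸ I.map (bcm A τ)) :=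
    LinearEquiv.finrank_eq (e1.trans e3).toLinearEquiv
  rw [← h1, Module.finrank_baseChange]

section

variable {R A : Type*} [CommRing R] [CommRing A] [Algebra R A]
  {Γ : AddSubmonoid ℕ} (G : GamAlg Γ R A)

theorem toL_apply_comp {W L W' L' : Type*} [CommRing W] [CommRing L] [CommRing W'] [CommRing L']
    [Algebra W L] [Algebra R W] [Algebra R L] [IsScalarTower R W L]
    [Algebra W' L'] [Algebra R W'] [Algebra R L'] [IsScalarTower R W' L']
    (σ : W →ₐ[R] W') (τ : L →ₐ[R] L')
    (h : ∀ w : W, algebraMap W' L' (σ w) = τ (algebraMap W L w)) (f : W ⊗[R] A) :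
    toL R A W' L' (bcm A σ f) = bcm A τ (toL R A W L f) := by
  have e : (bcm A (IsScalarTower.toAlgHom R W' L')).comp (bcm A σ) =
      (bcm A τ).comp (bcm A (IsScalarTower.toAlgHom R W L)) := by
    rw [bcm_comp, bcm_comp]
    congr 1
    exact AlgHom.ext h
  exact congrArg (fun g => g f) e

include G

/-- The reduction of an extended good ideal. -/
theorem redI_map {W L κ W' L' κ' : Type*}
    [CommRing W] [IsDomain W] [ValuationRing W]
    [Field L] [Algebra W L] [IsFractionRing W L] [Field κ] [Algebra W κ]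
    [Algebra R W] [Algebra R L] [Algebra R κ] [IsScalarTower R W L] [IsScalarTower R W κ]
    [CommRing W'] [IsDomain W'] [ValuationRing W']
    [Field L'] [Algebra W' L'] [IsFractionRing W' L'] [Field κ'] [Algebra W' κ']
    [Algebra R W'] [Algebra R L'] [Algebra R κ'] [IsScalarTower R W' L'] [IsScalarTower R W' κ']
    [IsDedekindDomain (L ⊗[R] A)] [IsDedekindDomain (κ ⊗[R] A)]
    [IsDedekindDomain (L' ⊗[R] A)] [IsDedekindDomain (κ' ⊗[R] A)]
    (hs : Function.Surjective (algebraMap W κ)) (hs' : Function.Surjective (algebraMap W' κ'))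
    (σ : W →ₐ[R] W') (τ : L →ₐ[R] L') (t : κ →ₐ[R] κ')
    (h1 : ∀ w : W, algebraMap W' L' (σ w) = τ (algebraMap W L w))
    (h2 : ∀ w : W, algebraMap W' κ' (σ w) = t (algebraMap W κ w))
    {I : Ideal (L ⊗[R] A)} (hI : I ≠ ⊥) (hg : Good G W I) :
    redI R A W' L' κ' (I.map (bcm A τ)) = (redI R A W L κ I).map (bcm A t) := by
  have hτi : Function.Injective (bcm A τ) := bcm_injective G τ τ.toRingHom.injective
  have hti : Function.Injective (bcm A t) := bcm_injective G t t.toRingHom.injective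
  have hI' : I.map (bcm A τ) ≠ ⊥ := fun e => hI (Ideal.map_eq_bot_iff_of_injective hτi |>.1 e)
  have hg' : Good G W' (I.map (bcm A τ)) := by
    obtain ⟨f, c, hu, hf⟩ := hg
    refine ⟨bcm A σ f, c, G.lead_bcm σ hu, ?_⟩
    rw [toL_apply_comp σ τ h1]
    exact Ideal.mem_map_of_mem _ hf
  have hr : redI R A W L κ I ≠ ⊥ := redI_ne_bot G hs hI
  have hr' : (redI R A W L κ I).map (bcm A t) ≠ ⊥ :=
    fun e => hr (Ideal.map_eq_bot_iff_of_injective hti |>.1 e)
  have hle : (redI R A W L κ I).map (bcm A t) ≤ redI R A W' L' κ' (I.map (bcm A τ)) := by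
    rw [Ideal.map_le_iff_le_comap]
    intro x hx
    obtain ⟨f, hf, rfl⟩ := (mem_redI hs).1 hx
    rw [Ideal.mem_comap, mem_redI hs']
    exact ⟨bcm A σ f, by rw [toL_apply_comp σ τ h1]; exact Ideal.mem_map_of_mem _ hf,
      toL_apply_comp σ t h2 f⟩
  symm
  refine eq_of_le_of_finrank (G.baseChange κ') hr' hle (le_of_eq ?_)
  rw [finrank_map_bcm, (good_iff G hs hI).1 hg, (good_iff G hs' hI').1 hg',
    finrank_map_bcm]

end

section

variable {R A : Type*} [CommRing R] [CommRing A] [Algebra R A]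
  {Γ : AddSubmonoid ℕ} (G : GamAlg Γ R A)

include G

/-- The reduction of the extension of an ideal over a field of constants. -/
theorem redI_map_const {k W L κ : Type*} [Field k] [Algebra R k]
    [CommRing W] [IsDomain W] [ValuationRing W]
    [Field L] [Algebra W L] [IsFractionRing W L] [Field κ] [Algebra W κ]
    [Algebra R W] [Algebra R L] [Algebra R κ] [IsScalarTower R W L] [IsScalarTower R W κ]
    [IsDedekindDomain (L ⊗[R] A)] [IsDedekindDomain (κ ⊗[R] A)]
    (hs : Function.Surjective (algebraMap W κ))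
    (σ : k →ₐ[R] W) (τ : k →ₐ[R] L) (t : k →ₐ[R] κ)
    (h1 : ∀ w : k, algebraMap W L (σ w) = τ w)
    (h2 : ∀ w : k, algebraMap W κ (σ w) = t w)
    {I : Ideal (k ⊗[R] A)} (hI : I ≠ ⊥) :
    redI R A W L κ (I.map (bcm A τ)) = I.map (bcm A t) := by
  have hτi : Function.Injective (bcm A τ) := bcm_injective G τ τ.toRingHom.injective
  have hti : Function.Injective (bcm A t) := bcm_injective G t t.toRingHom.injective
  have e1 : ∀ f : k ⊗[R] A, toL R A W L (bcm A σ f) = bcm A τ f := by
    intro f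
    have e : (bcm A (IsScalarTower.toAlgHom R W L)).comp (bcm A σ) = bcm A τ := by
      rw [bcm_comp]
      congr 1
      exact AlgHom.ext h1
    exact congrArg (fun g => g f) e
  have e2 : ∀ f : k ⊗[R] A, toL R A W κ (bcm A σ f) = bcm A t f := by
    intro f
    have e : (bcm A (IsScalarTower.toAlgHom R W κ)).comp (bcm A σ) = bcm A t := by
      rw [bcm_comp]
      congr 1
      exact AlgHom.ext h2
    exact congrArg (fun g => g f) e
  have hI' : I.map (bcm A τ) ≠ ⊥ := fun e => hI (Ideal.map_eq_bot_iff_of_injective hτi |>.1 e)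
  have hg' : Good G W (I.map (bcm A τ)) := by
    obtain ⟨f, hf, hf0⟩ := Submodule.exists_mem_ne_zero_of_ne_bot hI
    obtain ⟨c, hc⟩ := (G.baseChange k).exists_lead hf0
    refine ⟨bcm A σ f, c, G.lead_bcm σ hc, ?_⟩
    rw [e1]
    exact Ideal.mem_map_of_mem _ hf
  have hr' : I.map (bcm A t) ≠ ⊥ :=
    fun e => hI (Ideal.map_eq_bot_iff_of_injective hti |>.1 e)
  have hle : I.map (bcm A t) ≤ redI R A W L κ (I.map (bcm A τ)) := by
    rw [Ideal.map_le_iff_le_comap]
    intro x hx
    rw [Ideal.mem_comap, mem_redI hs]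
    exact ⟨bcm A σ x, by rw [e1]; exact Ideal.mem_map_of_mem _ hx, e2 x⟩
  symm
  refine eq_of_le_of_finrank (G.baseChange κ) hr' hle (le_of_eq ?_)
  rw [finrank_map_bcm, (good_iff G hs hI').1 hg', finrank_map_bcm]

end

section

variable {R A : Type*} [CommRing R] [CommRing A] [Algebra R A]
  {Γ : AddSubmonoid ℕ} (G : GamAlg Γ R A)

section

variable {L κ L' κ' : Type*} [Field L] [Field κ] [Field L'] [Field κ'] [Algebra R L] [Algebra R κ]
  [Algebra R L'] [Algebra R κ'] (P : Pl R L κ) (P' : Pl R L' κ')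

/-- (SPF1) naturality of the specialisation. -/
theorem Pl.sp_cmap [IsDedekindDomain (L ⊗[R] A)] [IsDedekindDomain (κ ⊗[R] A)]
    [IsDedekindDomain (L' ⊗[R] A)] [IsDedekindDomain (κ' ⊗[R] A)] {τ : L →ₐ[R] L'}
    {t : κ →ₐ[R] κ'} (h : P.Compat P' τ t) (c : ClassGroup (L ⊗[R] A)) :
    P'.sp G (cmap (bcm A τ) (bcm_injective G τ τ.toRingHom.injective) c) =
      cmap (bcm A t) (bcm_injective G t t.toRingHom.injective) (P.sp G c) := by
  let := P.algW
  let := P.algWκ
  have := P.tower1
  have := P.tower2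
  let := P'.algW
  let := P'.algWκ
  have := P'.tower1
  have := P'.tower2
  obtain ⟨I, hI, hg, rfl⟩ := exists_good G (W := P.W) (κ := κ) P.surj c
  let σ : P.W →ₐ[R] P'.W :=
    { toFun := fun w => ⟨τ w, (h w w.2).choose⟩
      map_one' := Subtype.ext (map_one τ)
      map_mul' := fun x y => Subtype.ext (map_mul τ _ _)
      map_zero' := Subtype.ext (map_zero τ)
      map_add' := fun x y => Subtype.ext (map_add τ _ _)
      commutes' := fun r => Subtype.ext (τ.commutes r) }
  have key := redI_map G (W := P.W) (κ := κ) (W' := P'.W) (κ' := κ') P.surj P'.surj σ τ t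
    (fun w => rfl) (fun w => (h w w.2).choose_spec) hI hg
  have hI' : I.map (bcm A τ) ≠ ⊥ := fun e => hI (Ideal.map_eq_bot_iff_of_injective
    (bcm_injective G τ τ.toRingHom.injective) |>.1 e)
  have hr : P.red I ≠ ⊥ := redI_ne_bot G (W := P.W) (κ := κ) P.surj hI
  rw [cmap_cl _ _ hI, P'.sp_cl G hI', P.sp_cl G hI, cmap_cl _ _ hr]
  exact congrArg cl key

/-- (SPF2) constants: the composition `k → L ⇢ κ` is a homomorphism `t`. -/
theorem Pl.sp_const {k : Type*} [Field k] [Algebra R k] [IsDedekindDomain (k ⊗[R] A)]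
    [IsDedekindDomain (L ⊗[R] A)] [IsDedekindDomain (κ ⊗[R] A)] (τ : k →ₐ[R] L) (t : k →ₐ[R] κ)
    (h : ∀ x : k, ∃ hx : τ x ∈ P.W, P.π ⟨τ x, hx⟩ = t x) (c : ClassGroup (k ⊗[R] A)) :
    P.sp G (cmap (bcm A τ) (bcm_injective G τ τ.toRingHom.injective) c) =
      cmap (bcm A t) (bcm_injective G t t.toRingHom.injective) c := by
  let := P.algW
  let := P.algWκ
  have := P.tower1
  have := P.tower2
  obtain ⟨I, hI, rfl⟩ := cl_surjective c
  let σ : k →ₐ[R] P.W :=
    { toFun := fun w => ⟨τ w, (h w).choose⟩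
      map_one' := Subtype.ext (map_one τ)
      map_mul' := fun x y => Subtype.ext (map_mul τ _ _)
      map_zero' := Subtype.ext (map_zero τ)
      map_add' := fun x y => Subtype.ext (map_add τ _ _)
      commutes' := fun r => Subtype.ext (τ.commutes r) }
  have key := redI_map_const G (W := P.W) (κ := κ) P.surj σ τ t
    (fun w => rfl) (fun w => (h w).choose_spec) hI
  have hI' : I.map (bcm A τ) ≠ ⊥ := fun e => hI (Ideal.map_eq_bot_iff_of_injective
    (bcm_injective G τ τ.toRingHom.injective) |>.1 e)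
  rw [cmap_cl _ _ hI, P.sp_cl G hI', cmap_cl _ _ hI]
  exact congrArg cl key

end

end

end PiCurve
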