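import Mathlib
import Pool.Agent.Pi2.SPFa

/-! (SPF) Points and their specialisation. -/

namespace PiCurve

open TensorProduct

section

variable {R A : Type*} [CommRing R] [CommRing A] [Algebra R A]
  {Γ : AddSubmonoid ℕ} (G : GamAlg Γ R A)

section

variable {L L' : Type*} [Field L] [Field L'] [Algebra R L] [Algebra R L']

theorem mem_ptI (Q : A →ₐ[R] L) (x : L ⊗[R] A) : x ∈ ptI Q ↔ ev Q x = 0 := by
  unfold ptI
  rw [RingHom.mem_ker]

theorem gen_mem_ptI (Q : A →ₐ[R] L) (a : A) :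
    (1 : L) ⊗ₜ[R] a - (Q a) ⊗ₜ[R] (1 : A) ∈ ptI Q := by
  rw [mem_ptI, map_sub, ev_tmul, ev_tmul, map_one, one_mul, mul_one, sub_self]

/-- (SPF5) the ideal of a point -/
theorem ptI_props (Q : A →ₐ[R] L) : ptI Q ≠ ⊤ ∧
    Module.finrank L (L ⊗[R] A ⧸ ptI Q) = 1 := by
  constructor
  · intro h
    have : (1 : L ⊗[R] A) ∈ ptI Q := by rw [h]; exact Submodule.mem_top
    rw [mem_ptI, map_one] at this
    exact one_ne_zero this
  · exact finrank_quot_ker (ev Q)

include G in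
theorem ptI_ne_bot (Q : A →ₐ[R] L) : ptI Q ≠ ⊥ :=
  ker_ne_bot (G.baseChange L) (ev Q)

include G in
theorem ptI_map (Q : A →ₐ[R] L) (τ : L →ₐ[R] L') :
    (ptI Q).map (bcm A τ) = ptI (τ.comp Q) := by
  apply le_antisymm
  · rw [Ideal.map_le_iff_le_comap]
    intro x hx
    rw [Ideal.mem_comap, mem_ptI, ev_bcm, (mem_ptI Q x).1 hx, map_zero]
  · intro x hx
    have key : ∀ x : L' ⊗[R] A, x - (ev (τ.comp Q) x) ⊗ₜ[R] (1 : A) ∈
        (ptI Q).map (bcm A τ) := by
      intro x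
      induction x using TensorProduct.induction_on with
      | zero => simp
      | tmul l a =>
        have h1 : l ⊗ₜ[R] a - (ev (τ.comp Q) (l ⊗ₜ[R] a)) ⊗ₜ[R] (1 : A) =
            (l ⊗ₜ[R] (1 : A)) * bcm A τ ((1 : L) ⊗ₜ[R] a - (Q a) ⊗ₜ[R] (1 : A)) := by
          rw [ev_tmul, map_sub]
          change _ = (l ⊗ₜ[R] (1 : A)) * (τ 1 ⊗ₜ[R] a - τ (Q a) ⊗ₜ[R] (1 : A))
          rw [mul_sub, Algebra.TensorProduct.tmul_mul_tmul, Algebra.TensorProduct.tmul_mul_tmul,
            map_one, mul_one, one_mul, one_mul]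
          rfl
        rw [h1]
        exact Ideal.mul_mem_left _ _ (Ideal.mem_map_of_mem _ (gen_mem_ptI Q a))
      | add x y hx hy =>
        rw [map_add, TensorProduct.add_tmul, add_sub_add_comm]
        exact Ideal.add_mem _ hx hy
    have := key x
    rw [mem_ptI] at hx
    rwa [hx, TensorProduct.zero_tmul, sub_zero] at this

theorem ptI_injective {Q Q' : A →ₐ[R] L} (h : ptI Q = ptI Q') : Q = Q' := by
  ext a
  have h1 := gen_mem_ptI Q a
  rw [h, mem_ptI, map_sub, ev_tmul, ev_tmul, map_one, one_mul, mul_one, sub_eq_zero] at h1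
  exact h1.symm

/-- every `L`-algebra homomorphism `L ⊗ A → L` is the evaluation at a point -/
theorem exists_ev (S : L ⊗[R] A →ₐ[L] L) : ∃ Q : A →ₐ[R] L, S = ev Q := by
  refine ⟨(S.restrictScalars R).comp Algebra.TensorProduct.includeRight, ?_⟩
  apply AlgHom.ext
  intro x
  induction x using TensorProduct.induction_on with
  | zero => rw [map_zero, map_zero]
  | tmul l a =>
    have h1 : l ⊗ₜ[R] a = l • ((1 : L) ⊗ₜ[R] a) := by
      rw [TensorProduct.smul_tmul', smul_eq_mul, mul_one]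
    rw [ev_tmul, h1, map_smul, smul_eq_mul]
    rfl
  | add x y hx hy => rw [map_add, map_add, hx, hy]

/-- (SPF6) over an algebraically closed field every maximal ideal is the ideal of a point. -/
theorem exists_pt [IsAlgClosed L] (G : GamAlg Γ R A)
    (I : Ideal (L ⊗[R] A)) (hI : I.IsMaximal) : ∃ Q : A →ₐ[R] L, I = ptI Q := by
  have hI0 : I ≠ ⊥ := by
    rintro rfl
    obtain ⟨c, hc⟩ : ∃ c : Γ, (c : ℕ) ≠ 0 := by
      by_contra hcon
      push Not at hcon
      have h2 : (Γ : Set ℕ) ⊆ {0} := fun x hx => hcon ⟨x, hx⟩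
      have h3 : (Γ : Set ℕ).Finite := (Set.finite_singleton 0).subset h2
      exact Set.infinite_univ
        (by rw [← Set.union_compl_self (Γ : Set ℕ)]; exact h3.union G.cofin)
    have hb0 : (G.baseChange L).B c ≠ 0 := (G.baseChange L).B.ne_zero c
    have h1 := (G.baseChange L).finrank_quot_span (Lead.self (R := L)
      (b := (G.baseChange L).B) c)
    have h2 : (⊥ : Ideal (L ⊗[R] A)) < Ideal.span {(G.baseChange L).B c} := by
      rw [bot_lt_iff_ne_bot, Ne, Ideal.span_singleton_eq_bot]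
      exact hb0
    have h3 := hI.1.2 _ h2
    rw [h3] at h1
    have h4 : Module.finrank L (L ⊗[R] A ⧸ (⊤ : Ideal (L ⊗[R] A))) = 0 := by
      have : Subsingleton (L ⊗[R] A ⧸ (⊤ : Ideal (L ⊗[R] A))) :=
        Ideal.Quotient.subsingleton_iff.2 rfl
      exact Module.finrank_zero_of_subsingleton
    omega
  obtain ⟨S, hS⟩ := exists_point_of_isMaximal (G.baseChange L) I hI0
  obtain ⟨Q, rfl⟩ := exists_ev S
  exact ⟨Q, hS.symm⟩

/-- (SPF7) every class over an algebraically closed field is represented by at most `genus`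
points. -/
theorem exists_pts [IsAlgClosed L] [IsDedekindDomain (L ⊗[R] A)] (G : GamAlg Γ R A)
    (c : ClassGroup (L ⊗[R] A)) :
    ∃ (r : ℕ) (Q : Fin r → (A →ₐ[R] L)), r ≤ genus Γ ∧ c = ∏ i, cl (ptI (Q i)) := by
  have key : ∀ (n : ℕ) (I : Ideal (L ⊗[R] A)), I ≠ ⊥ → Module.finrank L (L ⊗[R] A ⧸ I) = n →
      ∃ Q : Fin n → (A →ₐ[R] L), cl I = ∏ i, cl (ptI (Q i)) := by
    intro n
    induction n with
    | zero =>
      intro I hI h0
      have := (G.baseChange L).finite_quot hI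
      have h1 : Subsingleton (L ⊗[R] A ⧸ I) := Module.finrank_zero_iff.1 h0
      rw [Ideal.Quotient.subsingleton_iff] at h1
      refine ⟨Fin.elim0, ?_⟩
      rw [h1, cl_top, Fin.prod_univ_zero]
    | succ n ih =>
      intro I hI h0
      have h1 : I ≠ ⊤ := by
        rintro rfl
        have : Subsingleton (L ⊗[R] A ⧸ (⊤ : Ideal (L ⊗[R] A))) :=
          Ideal.Quotient.subsingleton_iff.2 rfl
        rw [Module.finrank_zero_of_subsingleton] at h0
        omega
      obtain ⟨M, hM, hIM⟩ := Ideal.exists_le_maximal I h1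
      obtain ⟨J, hJ⟩ := Ideal.dvd_iff_le.2 hIM
      have hM0 : M ≠ ⊥ := by
        rintro rfl
        exact hI (le_bot_iff.1 hIM)
      have hJ0 : J ≠ ⊥ := by
        rintro rfl
        apply hI
        rw [hJ]
        exact mul_zero M
      obtain ⟨Q0, hQ0⟩ := exists_pt G M hM
      have h2 := finrank_quot_mul (G.baseChange L) hM0 hJ0
      rw [← hJ, hQ0, (ptI_props Q0).2] at h2
      obtain ⟨Q, hQ⟩ := ih J hJ0 (by omega)
      refine ⟨Fin.cons Q0 Q, ?_⟩
      rw [Fin.prod_univ_succ]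
      simp only [Fin.cons_zero, Fin.cons_succ]
      rw [← hQ, ← hQ0, ← cl_mul hM0 hJ0, ← hJ]
  obtain ⟨I, hI, hIc, hIg⟩ := exists_ideal (G.baseChange L) c
  obtain ⟨Q, hQ⟩ := key _ I hI rfl
  exact ⟨_, Q, hIg, by rw [← hIc, hQ]⟩

end

section

variable {L κ : Type*} [Field L] [Field κ] [Algebra R L] [Algebra R κ] (P : Pl R L κ)

/-- the reduction of the ideal of a finite point -/
theorem Pl.red_ptI (Q : A →ₐ[R] L) (Q' : A →ₐ[R] κ)
    (hQ : ∀ a : A, ∃ h : Q a ∈ P.W, P.π ⟨Q a, h⟩ = Q' a) :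
    P.red (ptI Q) = ptI Q' := by
  let _ := P.algW
  let _ := P.algWκ
  have := P.tower1
  have := P.tower2
  let QW : A →ₐ[R] P.W :=
    { toFun := fun a => ⟨Q a, (hQ a).1⟩
      map_one' := Subtype.ext (map_one Q)
      map_mul' := fun a b => Subtype.ext (map_mul Q a b)
      map_zero' := Subtype.ext (map_zero Q)
      map_add' := fun a b => Subtype.ext (map_add Q a b)
      commutes' := fun r => Subtype.ext (Q.commutes r) }
  have hL : (IsScalarTower.toAlgHom R P.W L).comp QW = Q := by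
    ext a
    rfl
  have hκ : (IsScalarTower.toAlgHom R P.W κ).comp QW = Q' := by
    ext a
    exact (hQ a).2
  have evL : ∀ f : P.WA A, ev Q (P.toLA A f) = algebraMap P.W L (ev QW f) := by
    intro f
    have := ev_bcm QW (IsScalarTower.toAlgHom R P.W L) f
    rw [hL] at this
    exact this
  have evκ : ∀ f : P.WA A, ev Q' (P.res A f) = P.π (ev QW f) := by
    intro f
    have := ev_bcm QW (IsScalarTower.toAlgHom R P.W κ) f
    rw [hκ] at this
    exact this
  ext x
  rw [P.mem_red, mem_ptI]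
  constructor
  · rintro ⟨f, hf, rfl⟩
    rw [mem_ptI, evL] at hf
    have h0 : ev QW f = 0 := by
      apply IsFractionRing.injective P.W L
      rw [hf, map_zero]
    rw [evκ, h0, map_zero]
  · intro hx
    obtain ⟨f, rfl⟩ := bcm_surjective (A := A) (IsScalarTower.toAlgHom R P.W κ) P.surj x
    refine ⟨f - algebraMap P.W (P.W ⊗[R] A) (ev QW f), ?_, ?_⟩
    · rw [mem_ptI, evL, map_sub, AlgHom.commutes]
      rw [Algebra.algebraMap_self, RingHom.id_apply, sub_self, map_zero]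
    · have h1 : P.π (ev QW f) = 0 := by
        rw [← evκ]
        exact hx
      change bcm A (IsScalarTower.toAlgHom R P.W κ) _ = _
      rw [map_sub, bcm_algebraMap]
      have h2 : (IsScalarTower.toAlgHom R P.W κ) (ev QW f) = 0 := h1
      rw [h2, map_zero, sub_zero]

/-- (SPF3) finite points -/
theorem Pl.sp_pt [IsDedekindDomain (L ⊗[R] A)] [IsDedekindDomain (κ ⊗[R] A)]
    (Q : A →ₐ[R] L) (Q' : A →ₐ[R] κ)
    (hQ : ∀ a : A, ∃ h : Q a ∈ P.W, P.π ⟨Q a, h⟩ = Q' a) :
    P.sp G (cl (ptI Q)) = cl (ptI Q') := by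
  rw [P.sp_cl G (ptI_ne_bot G Q), P.red_ptI Q Q' hQ]

theorem Pl.π_inv_eq_zero {x : L} (hx : x ∉ P.W) :
    ∃ h : x⁻¹ ∈ P.W, P.π ⟨x⁻¹, h⟩ = 0 := by
  have h1 : x⁻¹ ∈ P.W := by
    rcases P.W.mem_or_inv_mem x with h | h
    · exact absurd h hx
    · exact h
  refine ⟨h1, ?_⟩
  by_contra hne
  have hmax : (RingHom.ker P.π).IsMaximal := RingHom.ker_isMaximal_of_surjective _ P.surj
  have hu : IsUnit (⟨x⁻¹, h1⟩ : P.W) := by
    rw [← IsLocalRing.notMem_maximalIdeal, ← IsLocalRing.eq_maximalIdeal hmax, RingHom.mem_ker]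
    exact hne
  obtain ⟨y, hy⟩ := hu.exists_right_inv
  have h2 : x⁻¹ * (y : L) = 1 := congrArg Subtype.val hy
  have hx0 : x ≠ 0 := by
    rintro rfl
    exact hx P.W.zero_mem
  have h3 : (y : L) = x := by
    field_simp at h2
    exact h2
  exact hx (h3 ▸ y.2)

/-- (SPF4) points going to infinity -/
theorem Pl.sp_pt_inf [IsDedekindDomain (L ⊗[R] A)] [IsDedekindDomain (κ ⊗[R] A)]
    (Q : A →ₐ[R] L) (hQ : ∃ a : A, Q a ∉ P.W) :
    P.sp G (cl (ptI Q)) = 1 := by
  rw [P.sp_cl G (ptI_ne_bot G Q)]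
  have h1 : P.red (ptI Q) = ⊤ := by
    rw [Ideal.eq_top_iff_one, P.mem_red]
    let _ := P.algW
    let _ := P.algWκ
    have := P.tower1
    have := P.tower2
    obtain ⟨a, ha⟩ := hQ
    obtain ⟨hinv, h0⟩ := P.π_inv_eq_zero ha
    have ha0 : Q a ≠ 0 := by
      intro h
      rw [h] at ha
      exact ha P.W.zero_mem
    refine ⟨1 - (⟨(Q a)⁻¹, hinv⟩ : P.W) ⊗ₜ[R] a, ?_, ?_⟩
    · rw [mem_ptI, map_sub, map_sub, map_one, map_one]
      change 1 - ev Q ((Q a)⁻¹ ⊗ₜ[R] a) = 0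
      rw [ev_tmul, inv_mul_cancel₀ ha0, sub_self]
    · rw [map_sub, map_one]
      change 1 - (P.π ⟨(Q a)⁻¹, hinv⟩) ⊗ₜ[R] a = 1
      rw [h0, TensorProduct.zero_tmul, sub_zero]
  rw [h1, cl_top]

include G in
/-- (SPF4') either all values are finite, or every element with unit leading coefficient and
positive degree has infinite value -/
theorem Pl.pt_inf_iff (Q : A →ₐ[R] L) (hQ : ∃ a : A, Q a ∉ P.W) (u : A) (n : Γ)
    (hu : Lead R G.B u n) (hn : 0 < (n : ℕ)) : Q u ∉ P.W := by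
  intro h
  obtain ⟨a, ha⟩ := hQ
  let _ := P.algW
  have := P.tower1
  obtain ⟨p, hp, hp0⟩ := G.isIntegral_aeval hn hu a
  let φ : Polynomial R →+* P.W :=
    (Polynomial.aeval (⟨Q u, h⟩ : P.W) : Polynomial R →ₐ[R] P.W).toRingHom
  have hφ : (algebraMap P.W L).comp φ =
      (Q : A →+* L).comp (Polynomial.aeval u : Polynomial R →ₐ[R] A).toRingHom := by
    apply Polynomial.ringHom_ext
    · intro r
      simp [φ]
      rfl
    · simp [φ]
  have hint : IsIntegral P.W (Q a) := by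
    refine ⟨p.map φ, hp.map φ, ?_⟩
    have h2 := Polynomial.hom_eval₂ p (Polynomial.aeval u : Polynomial R →ₐ[R] A).toRingHom
      (Q : A →+* L) a
    rw [hp0, map_zero] at h2
    rw [Polynomial.eval₂_map, hφ]
    exact h2.symm
  obtain ⟨y, hy⟩ := IsIntegrallyClosed.isIntegral_iff.1 hint
  exact ha (hy ▸ y.2)

end

end

end PiCurve
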