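import Mathlib
import Pool.Agent.Pi2.SPF

/-! (ACT) The action of field automorphisms on ideal classes. -/

namespace PiCurve

open TensorProduct

theorem cmap_congr_aux {B B' : Type*} [CommRing B] [IsDedekindDomain B] [CommRing B']
    [IsDedekindDomain B'] {f g : B →+* B'} (hf : Function.Injective f)
    (hg : Function.Injective g) (h : f = g) (c : ClassGroup B) : cmap f hf c = cmap g hg c := by
  subst h
  rfl

section

variable {R A : Type*} [CommRing R] [CommRing A] [Algebra R A]
  {Γ : AddSubmonoid ℕ} (G : GamAlg Γ R A) {L κ : Type*} [Field L] [Algebra R L]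
  [Field κ] [Algebra R κ]

/-- The action of an automorphism of the coefficient field on ideal classes. -/
noncomputable def act [IsDedekindDomain (L ⊗[R] A)] (σ : L ≃ₐ[R] L) :
    ClassGroup (L ⊗[R] A) →* ClassGroup (L ⊗[R] A) :=
  cmap (bcm A σ.toAlgHom) (bcm_injective G _ σ.injective)

variable [IsDedekindDomain (L ⊗[R] A)] [IsDedekindDomain (κ ⊗[R] A)]

omit [IsDedekindDomain (κ ⊗[R] A)] [IsDedekindDomain (L ⊗[R] A)] in
theorem bcm_one_aux : bcm A (1 : L ≃ₐ[R] L).toAlgHom = RingHom.id (L ⊗[R] A) := by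
  have h : (1 : L ≃ₐ[R] L).toAlgHom = AlgHom.id R L := rfl
  rw [bcm, h, Algebra.TensorProduct.map_id]
  rfl

theorem act_one (c : ClassGroup (L ⊗[R] A)) : act G (1 : L ≃ₐ[R] L) c = c := by
  rw [act, cmap_congr_aux _ Function.injective_id bcm_one_aux, cmap_id]

theorem act_mul (σ τ : L ≃ₐ[R] L) (c : ClassGroup (L ⊗[R] A)) :
    act G (σ * τ) c = act G σ (act G τ c) := by
  rw [act, act, act, cmap_comp]
  refine cmap_congr_aux _ _ ?_ c
  rw [bcm_comp]
  rfl

/-- (ACT3) the action on the class of a point -/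
theorem act_pt (σ : L ≃ₐ[R] L) (Q : A →ₐ[R] L) :
    act G σ (cl (ptI Q)) = cl (ptI (σ.toAlgHom.comp Q)) := by
  rw [act, cmap_cl _ _ (ptI_ne_bot G Q), ptI_map G]

/-- (ACT4) the action commutes with specialisation -/
theorem act_sp (P P' : Pl R L κ) (σ : L ≃ₐ[R] L) (τ : κ ≃ₐ[R] κ)
    (h : P.Compat P' σ.toAlgHom τ.toAlgHom) (c : ClassGroup (L ⊗[R] A)) :
    P'.sp G (act G σ c) = act G τ (P.sp G c) :=
  Pl.sp_cmap G P P' h c

/-- (ACT5) every class has an open stabiliser -/
theorem act_open {F : Type*} [Field F] [Algebra F L] [Algebra.IsAlgebraic F L] [Algebra R F]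
    [IsScalarTower R F L] (c : ClassGroup (L ⊗[R] A)) :
    ∃ M : IntermediateField F L, FiniteDimensional F M ∧
      ∀ σ : L ≃ₐ[F] L, (∀ x ∈ M, σ x = x) → act G (σ.restrictScalars R) c = c := by
  classical
  obtain ⟨I, hI, rfl⟩ := cl_surjective c
  obtain ⟨s, hs⟩ : I.FG := IsNoetherian.noetherian I
  -- the coefficients of the generators
  let S : Set L := ⋃ f ∈ s, (fun c => (G.baseChange L).B.repr f c) '' ((G.baseChange L).B.repr f).support
  have hS : S.Finite := by
    refine Set.Finite.biUnion s.finite_toSet fun f _ => ?_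
    exact ((G.baseChange L).B.repr f).support.finite_toSet.image _
  refine ⟨IntermediateField.adjoin F S, ?_, fun σ hσ => ?_⟩
  · have : Finite S := hS.to_subtype
    exact IntermediateField.finiteDimensional_adjoin fun x _ =>
      (Algebra.IsAlgebraic.isAlgebraic x).isIntegral
  · have hfix : ∀ f ∈ s, bcm A (σ.restrictScalars R).toAlgHom f = f := by
      intro f hf
      apply (G.baseChange L).B.repr.injective
      ext c
      rw [G.repr_bcm]
      show σ ((G.baseChange L).B.repr f c) = _
      by_cases hc : (G.baseChange L).B.repr f c = 0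
      · rw [hc, map_zero]
      · refine hσ _ (IntermediateField.subset_adjoin F S ?_)
        refine Set.mem_biUnion (show f ∈ (s : Set (L ⊗[R] A)) from hf) ⟨c, ?_, rfl⟩
        exact Finsupp.mem_support_iff.2 hc
    have hmap : I.map (bcm A (σ.restrictScalars R).toAlgHom) = I := by
      rw [← hs]
      show Ideal.map _ (Ideal.span (s : Set (L ⊗[R] A))) = Ideal.span (s : Set (L ⊗[R] A))
      rw [Ideal.map_span]
      congr 1
      ext f
      constructor
      · rintro ⟨g, hg, rfl⟩
        rw [hfix g hg]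
        exact hg
      · intro hf
        exact ⟨f, hf, hfix f hf⟩
    rw [act, cmap_cl _ _ hI, hmap]

end

end PiCurve
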