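import Pool.Agent.Pi2.Tri

/-!
# Gamma-algebras: definition, counting of gaps, base change
-/

open Polynomial Module

namespace PiCurve

/-- A Gamma-algebra over the ring `R`: an `R`-algebra with a basis `B c` indexed by a cofinite
numerical semigroup `G`, with `B 0 = 1` and `B c * B d = unit * B (c + d) + lower terms`. -/
structure GamAlg (G : AddSubmonoid ℕ) (R A : Type*) [CommRing R] [CommRing A] [Algebra R A] where
  B : Basis G R A
  one : B 0 = 1
  mul : MulLead R B
  cofin : ((G : Set ℕ)ᶜ).Finite

section count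

variable {G : AddSubmonoid ℕ}

/-- The number of gaps. -/
noncomputable def genus (G : AddSubmonoid ℕ) : ℕ := ((G : Set ℕ)ᶜ).ncard

open Classical in
/-- The elements of `G` below `n`. -/
noncomputable def below (G : AddSubmonoid ℕ) (n : ℕ) : Finset ℕ :=
  (Finset.range n).filter (· ∈ G)

open Classical in
/-- The gaps below `n`. -/
noncomputable def gapsBelow (G : AddSubmonoid ℕ) (n : ℕ) : Finset ℕ :=
  (Finset.range n).filter (· ∉ G)

theorem card_below_add (G : AddSubmonoid ℕ) (n : ℕ) :
    (below G n).card + (gapsBelow G n).card = n := by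
  classical
  unfold below gapsBelow
  rw [Finset.card_filter_add_card_filter_not, Finset.card_range]

theorem card_gapsBelow_le (hG : ((G : Set ℕ)ᶜ).Finite) (n : ℕ) :
    (gapsBelow G n).card ≤ genus G := by
  classical
  unfold genus
  rw [← Set.ncard_coe_finset]
  apply Set.ncard_le_ncard _ hG
  intro x hx
  rw [Finset.mem_coe, gapsBelow, Finset.mem_filter] at hx
  exact hx.2

theorem mem_of_two_genus_le (hG : ((G : Set ℕ)ᶜ).Finite) {n : ℕ} (hn : 2 * genus G ≤ n) :
    n ∈ G := by
  classical
  by_contra h
  have h1 : (below G (n + 1)).card ≤ (gapsBelow G (n + 1)).card := by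
    apply Finset.card_le_card_of_injOn (fun i => n - i)
    · intro i hi
      rw [Finset.mem_coe, below, Finset.mem_filter, Finset.mem_range] at hi
      rw [Finset.mem_coe, gapsBelow, Finset.mem_filter, Finset.mem_range]
      refine ⟨by change n - i < n + 1; omega, fun h2 => h ?_⟩
      have h3 := G.add_mem hi.2 h2
      rwa [Nat.add_sub_cancel' (by omega)] at h3
    · intro i hi j hj hij
      rw [Finset.mem_coe, below, Finset.mem_filter, Finset.mem_range] at hi hj
      simp only at hij
      omega
  have h2 := card_below_add G (n + 1)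
  have h3 := card_gapsBelow_le hG (n + 1)
  omega

theorem card_below (hG : ((G : Set ℕ)ᶜ).Finite) {n : ℕ} (hn : 2 * genus G ≤ n) :
    (below G n).card + genus G = n := by
  classical
  have h1 : (gapsBelow G n).card = genus G := by
    unfold genus
    rw [← Set.ncard_coe_finset]
    congr 1
    ext x
    rw [Finset.mem_coe, gapsBelow, Finset.mem_filter, Finset.mem_range]
    constructor
    · exact fun hx => hx.2
    · intro hx
      refine ⟨?_, hx⟩
      by_contra hlt
      exact hx (mem_of_two_genus_le hG (by omega))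
  rw [← h1]
  exact card_below_add G n

theorem le_card_below (hG : ((G : Set ℕ)ᶜ).Finite) (n : ℕ) :
    n ≤ (below G n).card + genus G := by
  have h1 := card_below_add G n
  have h2 := card_gapsBelow_le hG n
  omega

end count

section span

variable {G : AddSubmonoid ℕ} {R A : Type*} [CommRing R] [CommRing A] [Algebra R A]

/-- The elements of degree `< n`. -/
noncomputable def GamAlg.lt (D : GamAlg G R A) (n : ℕ) : Submodule R A :=
  ltSpan (R := R) (G := (G : Set ℕ)) D.B n

theorem GamAlg.mem_lt_iff (D : GamAlg G R A) {n : ℕ} {x : A} :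
    x ∈ D.lt n ↔ ∀ c : G, n ≤ c → D.B.repr x c = 0 := by
  constructor
  · intro hx c hc
    exact repr_of_mem_ltSpan (G := (G : Set ℕ)) D.B hx c hc
  · intro h
    rw [← D.B.linearCombination_repr x, Finsupp.linearCombination_apply, Finsupp.sum]
    refine Submodule.sum_mem _ fun c hc => Submodule.smul_mem _ _ (Submodule.subset_span ?_)
    refine ⟨c, ?_, rfl⟩
    by_contra hlt
    exact (Finsupp.mem_support_iff.1 hc) (h c (not_lt.1 hlt))

theorem GamAlg.lt_mono (D : GamAlg G R A) {m n : ℕ} (h : m ≤ n) : D.lt m ≤ D.lt n :=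
  ltSpan_mono (G := (G : Set ℕ)) D.B h

theorem GamAlg.exists_mem_lt (D : GamAlg G R A) (x : A) : ∃ n, x ∈ D.lt n := by
  classical
  refine ⟨(D.B.repr x).support.sup (fun c : G => (c : ℕ)) + 1, ?_⟩
  rw [D.mem_lt_iff]
  intro c hc
  by_contra hne
  have h1 : (c : ℕ) ≤ (D.B.repr x).support.sup (fun c : G => (c : ℕ)) :=
    Finset.le_sup (f := fun c : G => (c : ℕ)) (Finsupp.mem_support_iff.2 hne)
  omega

theorem GamAlg.lt_zero (D : GamAlg G R A) : D.lt 0 = ⊥ := by
  unfold GamAlg.lt ltSpan
  have : {e : (G : Set ℕ) | (e : ℕ) < 0} = ∅ := by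
    ext e
    simp
  rw [this, Set.image_empty, Submodule.span_empty]

theorem GamAlg.mul_mem_lt (D : GamAlg G R A) {n : ℕ} {x y : A} {d : G}
    (hx : x ∈ D.lt n) (hy : Lead R D.B y d) : x * y ∈ D.lt (n + d) :=
  ltSpan_mul_lead D.mul hx hy

theorem mem_ltSpan_map {R' A' : Type*} [CommRing R'] [CommRing A'] [Algebra R' A']
    (σ : R →+* R') (φ : A →+* A') (hφ : ∀ r, φ (algebraMap R A r) = algebraMap R' A' (σ r))
    {b : G → A} {b' : G → A'} (hb : ∀ c, φ (b c) = b' c) {n : ℕ} {x : A}
    (hx : x ∈ ltSpan (R := R) (G := (G : Set ℕ)) b n) :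
    φ x ∈ ltSpan (R := R') (G := (G : Set ℕ)) b' n := by
  unfold ltSpan at hx
  induction hx using Submodule.span_induction with
  | mem x hx =>
    obtain ⟨e, he, rfl⟩ := hx
    refine Submodule.subset_span ⟨e, he, (hb e).symm⟩
  | zero => rw [map_zero]; exact Submodule.zero_mem _
  | add x y _ _ h1 h2 => rw [map_add]; exact Submodule.add_mem _ h1 h2
  | smul r x _ h =>
    rw [Algebra.smul_def, map_mul, hφ, ← Algebra.smul_def]
    exact Submodule.smul_mem _ _ h

theorem Lead.map {R' A' : Type*} [CommRing R'] [CommRing A'] [Algebra R' A']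
    (σ : R →+* R') (φ : A →+* A') (hφ : ∀ r, φ (algebraMap R A r) = algebraMap R' A' (σ r))
    {b : G → A} {b' : G → A'} (hb : ∀ c, φ (b c) = b' c) {x : A} {c : G}
    (hx : Lead R b x c) : Lead R' b' (φ x) c := by
  obtain ⟨r, hr⟩ := hx
  refine ⟨Units.map σ.toMonoidHom r, ?_⟩
  have h1 := mem_ltSpan_map σ φ hφ hb hr
  rw [map_sub, Algebra.smul_def, map_mul, hφ, hb, ← Algebra.smul_def] at h1
  exact h1

/-- Base change. -/
noncomputable def GamAlg.baseChange (D : GamAlg G R A) (S : Type*) [CommRing S] [Algebra R S] :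
    GamAlg G S (TensorProduct R S A) where
  B := D.B.baseChange S
  one := by
    rw [Module.Basis.baseChange_apply, D.one]
    rfl
  mul := by
    intro c d
    have h := Lead.map (algebraMap R S)
      (Algebra.TensorProduct.includeRight : A →ₐ[R] TensorProduct R S A).toRingHom
      (fun r => by
        rw [AlgHom.toRingHom_eq_coe, RingHom.coe_coe, AlgHom.commutes,
          IsScalarTower.algebraMap_apply R S (TensorProduct R S A)])
      (b' := D.B.baseChange S) (fun c => by
        rw [Module.Basis.baseChange_apply]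
        rfl) (D.mul c d)
    rw [map_mul] at h
    convert h using 1
    · simp [Module.Basis.baseChange_apply]
  cofin := D.cofin

end span

end PiCurve
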