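import Mathlib
import Pool.Agent.Pi2.Defs
import Pool.Agent.Pi2.Gam
import Pool.Agent.Pi2.R.Inst

/-! (BRIDGE) from function fields to Gamma-algebras. -/

universe u

namespace PiCurve

open TensorProduct

/-- (BRIDGE) the functions regular outside a rational place form a Gamma-algebra. -/
theorem exists_gamAlg {K E : Type u} [Field K] [Field E] [Algebra K E]
    (hE : IsFunctionField K E) {P : ValuationSubring E} (hP : IsRational K P) :
    ∃ (Γ : AddSubmonoid ℕ) (A : Subalgebra K E), Nonempty (GamAlg Γ K A) ∧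
      ((Γ : Set ℕ)ᶜ).Finite ∧ IsDedekindDomain A ∧
      (∀ x : E, ∃ a ∈ A, ∃ b ∈ A, b ≠ 0 ∧ x = a / b) ∧
      (∀ a ∈ A, a ∈ P → ∃ c : K, a = algebraMap K E c) ∧
      ∀ V : ValuationSubring E, IsPlace K V → V ≠ P → ∀ a ∈ A, a ∈ V := by
  refine ⟨poleMonoid hE hP, outAlg K P, ⟨gamOut hE hP⟩, finite_gaps hE hP,
    isDedekindDomain_outAlg hE hP, ?_, ?_, ?_⟩
  · intro x
    obtain ⟨a, ha, b, hb, hb0, h⟩ := exists_fraction_outAlg hE hP x
    exact ⟨a, ha, b, hb, hb0, by rw [← h]; field_simp⟩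
  · intro a ha haP
    exact const_of_regular hP ha haP
  · intro V hV hne a ha
    exact ha V hV hne

end PiCurve
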