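import Mathlib

/-!
# Normality from derivatives of characteristic polynomials

`B` integrally closed domain, `A` a domain, finite free over `B`, `y ∈ A`, `D = χ'(y)` with `χ` the
characteristic polynomial of multiplication by `y`. Then `D z ∈ A` for every `z ∈ Frac A` integral
over `B`.
-/

open Polynomial Module

namespace PiCurve

section Field

variable {K F : Type*} [Field K] [Field F] [Algebra K F] [FiniteDimensional K F]

theorem charpoly_blockDiagonal_const {R ι κ : Type*} [CommRing R] [Fintype ι] [DecidableEq ι]
    [Fintype κ] [DecidableEq κ] (N : Matrix ι ι R) :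
    (Matrix.blockDiagonal (fun _ : κ => N)).charpoly = N.charpoly ^ Fintype.card κ := by
  have h : (Matrix.blockDiagonal (fun _ : κ => N)).charmatrix =
      Matrix.blockDiagonal (fun _ : κ => N.charmatrix) := by
    ext ⟨i, k⟩ ⟨j, l⟩ : 1
    simp only [Matrix.charmatrix_apply, Matrix.blockDiagonal_apply, Matrix.diagonal_apply,
      Prod.mk.injEq]
    by_cases hk : k = l
    · subst hk
      simp
    · simp [hk]
  unfold Matrix.charpoly
  rw [h, Matrix.det_blockDiagonal]
  simp

theorem lmul_charpoly_eq_pow (y : F) :
    (Algebra.lmul K F y).charpoly =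
      minpoly K y ^ (finrank (IntermediateField.adjoin K {y}) F) := by
  classical
  have hy : IsIntegral K y := Algebra.IsIntegral.isIntegral y
  set E := IntermediateField.adjoin K {y} with hE
  let pb : PowerBasis K E := IntermediateField.adjoin.powerBasis hy
  let c : Basis (Fin (finrank E F)) E F := finBasis E F
  have h1 := Algebra.smulTower_leftMulMatrix_algebraMap pb.basis c pb.gen
  have hgen : algebraMap E F pb.gen = y := by
    rw [IntermediateField.adjoin.powerBasis_gen hy]
    exact IntermediateField.AdjoinSimple.algebraMap_gen K y
  rw [hgen] at h1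
  have h2 : (Algebra.leftMulMatrix (pb.basis.smulTower c) y).charpoly =
      (Algebra.lmul K F y).charpoly := by
    rw [← LinearMap.charpoly_toMatrix (Algebra.lmul K F y) (pb.basis.smulTower c)]
    rfl
  rw [← h2, h1, charpoly_blockDiagonal_const, charpoly_leftMulMatrix, Fintype.card_fin]
  congr 1
  rw [IntermediateField.adjoin.powerBasis_gen hy]
  exact IntermediateField.minpoly_gen K y

/-- if the derivative of the characteristic polynomial does not vanish, `y` generates and is
separable -/
theorem adjoin_eq_top_of_charpoly {y : F}
    (h : aeval y (derivative (Algebra.lmul K F y).charpoly) ≠ 0) :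
    IntermediateField.adjoin K {y} = ⊤ ∧ (Algebra.lmul K F y).charpoly = minpoly K y := by
  have h1 := lmul_charpoly_eq_pow (K := K) y
  have h2 : finrank (IntermediateField.adjoin K {y}) F = 1 := by
    by_contra hne
    apply h
    rw [h1, derivative_pow, map_mul, map_mul, map_pow, minpoly.aeval, zero_pow, mul_zero, zero_mul]
    have := finrank_pos (R := IntermediateField.adjoin K {y}) (M := F)
    omega
  refine ⟨IntermediateField.finrank_eq_one_iff_eq_top.1 h2, ?_⟩
  rw [h1, h2, pow_one]

end Field

section Main

variable {B A ι : Type*} [CommRing B] [IsDomain B] [IsIntegrallyClosed B] [CommRing A] [IsDomain A]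
  [Algebra B A] [Fintype ι] [DecidableEq ι]

/-- `χ'(y)` -/
noncomputable def DD (e : Basis ι B A) (y : A) : A :=
  aeval y (derivative (Algebra.leftMulMatrix e y).charpoly)

theorem DD_mul_mem (e : Basis ι B A) (y : A) (z : FractionRing A) (hz : IsIntegral B z) :
    ∃ a : A, algebraMap A (FractionRing A) a =
      algebraMap A (FractionRing A) (DD e y) * z := by
  classical
  by_cases hD : DD e y = 0
  · exact ⟨0, by rw [hD]; simp⟩
  have : Module.Free B A := Module.Free.of_basis e
  have : Module.Finite B A := Module.Finite.of_basis e
  have : FaithfulSMul B A := inferInstance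
  have : Algebra.IsIntegral B A := inferInstance
  have : Algebra.IsAlgebraic B A := inferInstance
  let K := FractionRing B
  let F := FractionRing A
  have : FaithfulSMul B F := by
    rw [faithfulSMul_iff_algebraMap_injective, IsScalarTower.algebraMap_eq B A F]
    exact (IsFractionRing.injective A F).comp (FaithfulSMul.algebraMap_injective B A)
  let : Algebra K F := FractionRing.liftAlgebra B F
  have : IsScalarTower B K F := FractionRing.isScalarTower_liftAlgebra B F
  let eF : Basis ι K F := e.localizationLocalization K (nonZeroDivisors B) F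
  have : FiniteDimensional K F := Module.Finite.of_basis eF
  set y' : F := algebraMap A F y with hy'
  have hmat : Algebra.leftMulMatrix eF y' =
      (Algebra.leftMulMatrix e y).map (algebraMap B K) := by
    ext i j
    rw [Algebra.leftMulMatrix_eq_repr_mul, Matrix.map_apply, Algebra.leftMulMatrix_eq_repr_mul,
      Basis.localizationLocalization_apply, hy', ← map_mul,
      Basis.localizationLocalization_repr_algebraMap]
  have hchar : (Algebra.lmul K F y').charpoly =
      (Algebra.leftMulMatrix e y).charpoly.map (algebraMap B K) := by
    rw [← LinearMap.charpoly_toMatrix (Algebra.lmul K F y') eF, ← Matrix.charpoly_map, ← hmat]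
    rfl
  have hDy : aeval y' (derivative (Algebra.lmul K F y').charpoly) =
      algebraMap A F (DD e y) := by
    rw [hchar, derivative_map, aeval_map_algebraMap, hy', aeval_algebraMap_apply]
    rfl
  have hDne : aeval y' (derivative (Algebra.lmul K F y').charpoly) ≠ 0 := by
    rw [hDy]
    exact fun h => hD ((IsFractionRing.injective A F) (by rw [h, map_zero]))
  obtain ⟨htop, hmin⟩ := adjoin_eq_top_of_charpoly hDne
  have hyint : IsIntegral B y' := (Algebra.IsIntegral.isIntegral (R := B) y).algebraMap
  have hsepy : IsSeparable K y' := by
    have : (minpoly K y').Separable := by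
      rw [Polynomial.separable_iff_derivative_ne_zero
        (minpoly.irreducible (Algebra.IsIntegral.isIntegral (R := K) y'))]
      intro h
      apply hDne
      rw [hmin, h, map_zero]
    exact this
  have hsep : Algebra.IsSeparable K F := by
    have h1 : Algebra.IsSeparable K (IntermediateField.adjoin K {y'}) :=
      (IntermediateField.isSeparable_adjoin_simple_iff_isSeparable K F).2 hsepy
    rw [htop] at h1
    exact Algebra.IsSeparable.of_algHom K _ (IntermediateField.topEquiv (F := K) (E := F)).symm.toAlgHom
  have hadj : Algebra.adjoin K {y'} = ⊤ := by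
    have := IntermediateField.adjoin_simple_toSubalgebra_of_isAlgebraic
      (Algebra.IsAlgebraic.isAlgebraic (R := K) y')
    rw [← this, htop]
    rfl
  have hdual := traceForm_dualSubmodule_adjoin B K hadj hyint
  have hz' : z ∈ (Algebra.traceForm K F).dualSubmodule
      (Subalgebra.toSubmodule (Algebra.adjoin B {y'})) := by
    rw [LinearMap.BilinForm.mem_dualSubmodule]
    intro w hw
    have hw' : IsIntegral B w := by
      have hle : Algebra.adjoin B {y'} ≤ integralClosure B F := by
        rw [Algebra.adjoin_le_iff]
        intro x hx
        rw [Set.mem_singleton_iff] at hx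
        rw [hx]
        exact hyint
      exact hle hw
    have h1 : IsIntegral B (Algebra.trace K F (z * w)) := Algebra.isIntegral_trace (hz.mul hw')
    obtain ⟨b, hb⟩ := IsIntegrallyClosed.isIntegral_iff.1 h1
    rw [Algebra.traceForm_apply, ← hb]
    exact ⟨b, by rw [LinearMap.toSpanSingleton_apply, Algebra.smul_def, mul_one]⟩
  rw [hdual] at hz'
  obtain ⟨w, hw, hwz⟩ := hz'
  have hle : Algebra.adjoin B {y'} ≤ (IsScalarTower.toAlgHom B A F).range := by
    rw [Algebra.adjoin_le_iff]
    intro x hx
    rw [Set.mem_singleton_iff] at hx
    rw [hx]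
    exact ⟨y, rfl⟩
  obtain ⟨a, ha⟩ := hle hw
  refine ⟨a, ?_⟩
  have hne' : aeval y' (derivative (minpoly K y')) ≠ 0 := by
    rw [← hmin]
    exact hDne
  rw [← hDy, hmin]
  have h2 : (aeval y' (derivative (minpoly K y')))⁻¹ * w = z := hwz
  rw [← h2, ← mul_assoc, mul_inv_cancel₀ hne', one_mul]
  exact ha

end Main

/-- criterion for normality -/
theorem isIntegrallyClosed_of_cert {A κ : Type*} [CommRing A] [IsDomain A] [Fintype κ]
    (a D : κ → A) (hsum : ∑ i, a i * D i = 1)
    (h : ∀ i (z : FractionRing A), IsIntegral A z →
      ∃ x : A, algebraMap A (FractionRing A) x = algebraMap A (FractionRing A) (D i) * z) :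
    IsIntegrallyClosed A := by
  rw [isIntegrallyClosed_iff (FractionRing A)]
  intro z hz
  choose x hx using fun i => h i z hz
  refine ⟨∑ i, a i * x i, ?_⟩
  rw [map_sum]
  have h1 : z = (algebraMap A (FractionRing A) (∑ i, a i * D i)) * z := by
    rw [hsum, map_one, one_mul]
  rw [h1, map_sum, Finset.sum_mul]
  apply Finset.sum_congr rfl
  intro i _
  rw [map_mul, map_mul, hx i, mul_assoc]

end PiCurve
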