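import Pool.Agent.Pi2.Cert1

/-!
# Smoothness certificates

`FreeOn R u e`: `A` is free over `R[u]` with basis `e`. `Cert R A`: finitely many pairs `(u,y)` such
that the elements `χ_y'(y)` generate the unit ideal. Stable under base change; over a field it
implies that `A` is a Dedekind domain.
-/

open Polynomial Module TensorProduct

namespace PiCurve

variable (R : Type*) {A : Type*} [CommRing R] [CommRing A] [Algebra R A]

/-- `A` is free over `R[u]` with basis `e` -/
def FreeOn {ι : Type*} (u : A) (e : ι → A) : Prop :=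
  ∃ b : Basis (ι × ℕ) R A, ∀ i m, b (i, m) = e i * u ^ m

/-- `χ'(y)` for a matrix `M` over `R[X]`, evaluated at `u`, `y` -/
noncomputable def DM {ι : Type*} [Fintype ι] [DecidableEq ι] (u y : A) (M : Matrix ι ι R[X]) : A :=
  eval₂ (aeval u : R[X] →ₐ[R] A).toRingHom y (derivative M.charpoly)

/-- the smoothness certificate -/
def Cert (A : Type*) [CommRing A] [Algebra R A] : Prop :=
  ∃ (N : ℕ) (u y a : Fin N → A) (r : Fin N → ℕ) (e : ∀ i, Fin (r i) → A)
    (M : ∀ i, Matrix (Fin (r i)) (Fin (r i)) R[X]),
    (∀ i, FreeOn R (u i) (e i)) ∧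
    (∀ i j, y i * e i j = ∑ k, aeval (u i) (M i k j) * e i k) ∧
    ∑ i, a i * DM R (u i) (y i) (M i) = 1

variable {R}

section Basis

variable {ι : Type*} [Fintype ι] {u : A} {e : ι → A}

/-- the sum `∑ p_i(u) e_i` in coordinates -/
theorem FreeOn.sum_eq {b : Basis (ι × ℕ) R A} (hb : ∀ i m, b (i, m) = e i * u ^ m)
    (p : ι → R[X]) : ∑ i, aeval u (p i) * e i =
      ∑ i, (p i).sum (fun m c => c • b (i, m)) := by
  apply Finset.sum_congr rfl
  intro i _
  rw [aeval_eq_sum_range, Polynomial.sum_over_range]
  · rw [Finset.sum_mul]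
    apply Finset.sum_congr rfl
    intro m _
    rw [hb, smul_mul_assoc, mul_comm (u ^ m)]
  · intro m
    exact zero_smul _ _

theorem FreeOn.repr_sum [DecidableEq ι] {b : Basis (ι × ℕ) R A} (hb : ∀ i m, b (i, m) = e i * u ^ m)
    (p : ι → R[X]) (i : ι) (m : ℕ) :
    b.repr (∑ i, aeval u (p i) * e i) (i, m) = (p i).coeff m := by
  rw [FreeOn.sum_eq hb, map_sum, Finsupp.finsetSum_apply, Finset.sum_eq_single i]
  · rw [Polynomial.sum_def, map_sum, Finsupp.finsetSum_apply]
    simp only [map_smul, Basis.repr_self, Finsupp.smul_single, smul_eq_mul, mul_one]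
    rw [Finset.sum_eq_single m]
    · simp
    · intro k _ hk
      rw [Finsupp.single_apply, if_neg]
      simpa using hk
    · intro hm
      rw [Polynomial.notMem_support_iff] at hm
      rw [hm]
      simp
  · intro j _ hj
    rw [Polynomial.sum_def, map_sum, Finsupp.finsetSum_apply]
    apply Finset.sum_eq_zero
    intro k _
    rw [map_smul, Basis.repr_self, Finsupp.smul_single, Finsupp.single_apply, if_neg]
    simp [hj]
  · intro h
    exact absurd (Finset.mem_univ i) h

theorem FreeOn.injective (h : FreeOn R u e) {p q : ι → R[X]}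
    (hpq : ∑ i, aeval u (p i) * e i = ∑ i, aeval u (q i) * e i) : p = q := by
  obtain ⟨b, hb⟩ := h
  classical
  ext i m
  rw [← FreeOn.repr_sum hb p i m, hpq, FreeOn.repr_sum hb]

theorem FreeOn.surjective (h : FreeOn R u e) (x : A) :
    ∃ p : ι → R[X], x = ∑ i, aeval u (p i) * e i := by
  classical
  obtain ⟨b, hb⟩ := h
  refine ⟨fun i => ⟨⟨(b.repr x).support.filter (fun q => q.1 = i) |>.image Prod.snd,
    fun m => b.repr x (i, m), ?_⟩⟩, ?_⟩
  · intro m
    simp only [Finset.mem_image, Finset.mem_filter, Finsupp.mem_support_iff]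
    constructor
    · rintro ⟨⟨j, k⟩, ⟨h1, h2⟩, h3⟩
      simp only at h2 h3
      rw [← h2, ← h3]
      exact h1
    · intro h
      exact ⟨(i, m), ⟨h, rfl⟩, rfl⟩
  · apply b.repr.injective
    ext ⟨i, m⟩
    rw [FreeOn.repr_sum hb]
    rfl

/-- the module structure over `R[X]` given by `u` -/
theorem FreeOn.exists_basis (h : FreeOn R u e) :
    letI := (aeval u : R[X] →ₐ[R] A).toRingHom.toAlgebra
    ∃ B : Basis ι R[X] A, ∀ i, B i = e i := by
  let _ := (aeval u : R[X] →ₐ[R] A).toRingHom.toAlgebra
  have hs : ∀ (p : R[X]) (x : A), p • x = aeval u p * x := fun p x => by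
    rw [Algebra.smul_def]
    rfl
  have hli : LinearIndependent R[X] e := by
    rw [Fintype.linearIndependent_iff]
    intro p hp i
    have h1 : p = 0 := by
      apply h.injective
      simp only [hs] at hp
      rw [hp]
      simp
    rw [h1]
    rfl
  have hsp : ⊤ ≤ Submodule.span R[X] (Set.range e) := by
    intro x _
    obtain ⟨p, hp⟩ := h.surjective x
    rw [hp]
    apply Submodule.sum_mem
    intro i _
    rw [← hs]
    exact Submodule.smul_mem _ _ (Submodule.subset_span ⟨i, rfl⟩)
  exact ⟨Basis.mk hli hsp, fun i => Basis.mk_apply hli hsp i⟩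

end Basis

section FieldCase

variable {L : Type*} [Field L] [IsDomain A] [Algebra L A]

theorem FreeOn.mul_mem {ι : Type*} [Fintype ι] [DecidableEq ι] {u : A} {e : ι → A}
    (h : FreeOn L u e) {y : A} {M : Matrix ι ι L[X]}
    (hM : ∀ j, y * e j = ∑ k, aeval u (M k j) * e k) (z : FractionRing A)
    (hz : IsIntegral A z) :
    ∃ a : A, algebraMap A (FractionRing A) a =
      algebraMap A (FractionRing A) (DM L u y M) * z := by
  let _ := (aeval u : L[X] →ₐ[L] A).toRingHom.toAlgebra
  obtain ⟨B, hB⟩ := h.exists_basis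
  have hs : ∀ (p : L[X]) (x : A), p • x = aeval u p * x := fun p x => by
    rw [Algebra.smul_def]
    rfl
  have hmat : Algebra.leftMulMatrix B y = M := by
    ext1 k j
    rw [Algebra.leftMulMatrix_eq_repr_mul, hB, hM]
    simp only [← hs, ← hB]
    rw [map_sum, Finsupp.finsetSum_apply, Finset.sum_eq_single k]
    · simp
    · intro l _ hl
      rw [map_smul, Basis.repr_self, Finsupp.smul_single, Finsupp.single_apply, if_neg hl]
    · intro hk
      exact absurd (Finset.mem_univ k) hk
  have : Module.Finite L[X] A := Module.Finite.of_basis B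
  have hint : Algebra.IsIntegral L[X] A := inferInstance
  have hz' : IsIntegral L[X] z := isIntegral_trans z hz
  obtain ⟨a, ha⟩ := DD_mul_mem B y z hz'
  refine ⟨a, ?_⟩
  have hDD : DD B y = DM L u y M := by
    unfold DD DM
    rw [hmat]
    rfl
  rw [← hDD]
  exact ha

/-- a certified algebra over a field, which is a domain, is a Dedekind domain -/
theorem Cert.isDedekindDomain (h : Cert L A) : IsDedekindDomain A := by
  obtain ⟨N, u, y, a, r, e, M, hF, hM, hsum⟩ := h
  have hN : ∃ i : Fin N, True := by
    by_contra hne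
    push Not at hne
    rw [Finset.sum_eq_zero (fun i _ => (hne i).elim)] at hsum
    exact zero_ne_one hsum
  obtain ⟨i0, -⟩ := hN
  have hic : IsIntegrallyClosed A :=
    isIntegrallyClosed_of_cert a (fun i => DM L (u i) (y i) (M i)) hsum
      (fun i z hz => (hF i).mul_mem (hM i) z hz)
  let _ := (aeval (u i0) : L[X] →ₐ[L] A).toRingHom.toAlgebra
  obtain ⟨B, hB⟩ := (hF i0).exists_basis
  have : Module.Finite L[X] A := Module.Finite.of_basis B
  have : IsNoetherianRing A := isNoetherian_of_tower L[X]
    (isNoetherian_of_isNoetherianRing_of_finite L[X] A)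
  have : Ring.DimensionLEOne A := Ring.DimensionLEOne.of_isIntegral L[X] A
  exact { }

end FieldCase

end PiCurve
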