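import Pool.Agent.Pi2.Cert2

/-!
# Base change of certificates
-/

open Polynomial Module TensorProduct

namespace PiCurve

section BaseChange

variable {R R' A A' : Type*} [CommRing R] [CommRing R'] [CommRing A] [CommRing A'] [Algebra R R']
  [Algebra R A] [Algebra R' A'] [Algebra R A'] [IsScalarTower R R' A'] (φ : A →ₐ[R] A')

theorem aeval_baseChange (u : A) (p : R[X]) :
    aeval (φ u) (p.map (algebraMap R R')) = φ (aeval u p) := by
  rw [aeval_map_algebraMap, aeval_algHom_apply]

theorem DM_baseChange {ι : Type*} [Fintype ι] [DecidableEq ι] (u y : A) (M : Matrix ι ι R[X]) :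
    DM R' (φ u) (φ y) (M.map (Polynomial.mapRingHom (algebraMap R R'))) = φ (DM R u y M) := by
  unfold DM
  rw [Matrix.charpoly_map, derivative_map, eval₂_map, AlgHom.toRingHom_eq_coe,
    ← AlgHom.coe_toRingHom φ, hom_eval₂]
  congr 1
  ext : 1
  · ext r
    simp only [RingHom.comp_apply, coe_mapRingHom, AlgHom.toRingHom_eq_coe, RingHom.coe_coe]
    rw [aeval_baseChange]
  · simp only [RingHom.comp_apply, coe_mapRingHom, AlgHom.toRingHom_eq_coe, RingHom.coe_coe]
    rw [aeval_baseChange]

theorem FreeOn.baseChange {ι : Type*} {u : A} {e : ι → A} (hφ : IsBaseChange R' φ.toLinearMap)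
    (h : FreeOn R u e) : FreeOn R' (φ u) (fun i => φ (e i)) := by
  obtain ⟨b, hb⟩ := h
  refine ⟨(b.baseChange R').map hφ.equiv, fun i m => ?_⟩
  rw [Basis.map_apply, Basis.baseChange_apply, IsBaseChange.equiv_tmul, one_smul, hb]
  simp

/-- certificates are stable under base change -/
theorem Cert.baseChange (hφ : IsBaseChange R' φ.toLinearMap) (h : Cert R A) : Cert R' A' := by
  obtain ⟨N, u, y, a, r, e, M, hF, hM, hsum⟩ := h
  refine ⟨N, fun i => φ (u i), fun i => φ (y i), fun i => φ (a i), r, fun i j => φ (e i j),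
    fun i => (M i).map (Polynomial.mapRingHom (algebraMap R R')),
    fun i => (hF i).baseChange φ hφ, fun i j => ?_, ?_⟩
  · rw [← map_mul, hM, map_sum]
    apply Finset.sum_congr rfl
    intro k _
    have h1 : ((M i).map (Polynomial.mapRingHom (algebraMap R R'))) k j =
      (M i k j).map (algebraMap R R') := rfl
    simp only [map_mul, h1, aeval_baseChange]
  · have := congrArg φ hsum
    rw [map_sum, map_one] at this
    rw [← this]
    apply Finset.sum_congr rfl
    intro i _
    rw [map_mul, DM_baseChange]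

end BaseChange

theorem Cert.tensor {R A : Type*} [CommRing R] [CommRing A] [Algebra R A] (h : Cert R A)
    (R' : Type*) [CommRing R'] [Algebra R R'] : Cert R' (R' ⊗[R] A) :=
  h.baseChange (Algebra.TensorProduct.includeRight : A →ₐ[R] R' ⊗[R] A)
    (TensorProduct.isBaseChange R A R')

theorem Cert.of_equiv {R A A' : Type*} [CommRing R] [CommRing A] [Algebra R A] [CommRing A']
    [Algebra R A'] (φ : A ≃ₐ[R] A') (h : Cert R A) : Cert R A' :=
  h.baseChange φ.toAlgHom (by
    have : (φ.toAlgHom.toLinearMap : A →ₗ[R] A') = φ.toLinearEquiv.toLinearMap := rfl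
    rw [this]
    exact IsBaseChange.ofEquiv φ.toLinearEquiv)

end PiCurve
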