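import Pool.Agent.Pi2.Cert3

/-!
# Existence of certificates over algebraically closed fields
-/

open Polynomial Module

namespace PiCurve

theorem deriv_charpoly_rank_one {k ι : Type*} [Field k] [Fintype ι] [DecidableEq ι]
    (Y Λ : ι → k) (h : ∑ i, Λ i * Y i = 1) (M : Matrix ι ι k) (hM : ∀ i j, M i j = Y i * Λ j) :
    eval 1 (derivative M.charpoly) = 1 := by
  have h1 := Matrix.charpoly_mul_comm' (Matrix.of fun i (_ : Fin 1) => Y i)
    (Matrix.of fun (_ : Fin 1) j => Λ j)
  have h2 : (Matrix.of fun i (_ : Fin 1) => Y i) * (Matrix.of fun (_ : Fin 1) j => Λ j) = M := by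
    ext i j
    rw [Matrix.mul_apply, hM]
    simp
  have h3 : (Matrix.of fun (_ : Fin 1) j => Λ j) * (Matrix.of fun i (_ : Fin 1) => Y i) = 1 := by
    ext i j
    rw [Matrix.mul_apply]
    simp only [Matrix.of_apply]
    rw [h, Subsingleton.elim i j, Matrix.one_apply_eq]
  rw [h2, h3, Matrix.charpoly_one] at h1
  simp only [Fintype.card_fin, pow_one] at h1
  have h4 := congrArg (fun p => eval 1 p) h1
  simp only [eval_mul, eval_X, one_mul, eval_pow, one_pow, eval_sub, eval_one, sub_self] at h4
  have h5 := congrArg (fun p => eval 1 (derivative p)) h1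
  simp only [derivative_mul, derivative_X, one_mul, derivative_X_pow, derivative_sub,
    derivative_one, sub_zero, mul_one, eval_add, eval_mul, eval_X, eval_sub, eval_one, sub_self,
    mul_zero, zero_add, eval_pow, one_pow, h4] at h5
  exact h5

section

variable {k A : Type*} [Field k] [CommRing A] [Algebra k A]

/-- the value of `D(u,y)` at a point where `u = 0` is simple and `y` is the idempotent of the
point in the fibre -/
theorem DM_at_point {ι : Type*} [Fintype ι] [DecidableEq ι] {u y : A} {e : ι → A}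
    (hF : FreeOn k u e) {M : Matrix ι ι k[X]}
    (hM : ∀ j, y * e j = ∑ k, aeval u (M k j) * e k) (Λ : A →ₐ[k] k) (hu : Λ u = 0) (hy : Λ y = 1)
    (hker : ∀ a : A, Λ a = 0 → u ∣ y * a) : Λ (DM k u y M) = 1 := by
  obtain ⟨p, hp⟩ := hF.surjective y
  have hcoeff : ∀ i j, (M i j).coeff 0 = (p i).coeff 0 * Λ (e j) := by
    intro i j
    have h1 : u ∣ y * (e j - algebraMap k A (Λ (e j))) := by
      apply hker
      rw [map_sub, AlgHom.commutes]
      simp
    obtain ⟨w, hw⟩ := h1
    obtain ⟨q, hq⟩ := hF.surjective w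
    have h2 : ∑ i, aeval u (M i j) * e i =
        ∑ i, aeval u (C (Λ (e j)) * p i + X * q i) * e i := by
      rw [← hM j]
      have h3 : ∀ i, aeval u (C (Λ (e j)) * p i + X * q i) * e i =
          algebraMap k A (Λ (e j)) * (aeval u (p i) * e i) + u * (aeval u (q i) * e i) := by
        intro i
        rw [map_add, map_mul, map_mul, aeval_C, aeval_X]
        ring
      simp only [h3]
      rw [Finset.sum_add_distrib, ← Finset.mul_sum, ← Finset.mul_sum, ← hp, ← hq, ← hw]
      ring
    have h4 := congrFun (hF.injective h2) i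
    rw [h4]
    simp [mul_comm]
  have hsum : ∑ i, Λ (e i) * (p i).coeff 0 = 1 := by
    have h1 := congrArg Λ hp
    rw [hy, map_sum] at h1
    rw [h1]
    apply Finset.sum_congr rfl
    intro i _
    rw [map_mul, ← Polynomial.aeval_algHom_apply, hu, coeff_zero_eq_aeval_zero, mul_comm]
  have hD : Λ (DM k u y M) = eval 1 (derivative (M.map (Polynomial.evalRingHom 0)).charpoly) := by
    unfold DM
    rw [Matrix.charpoly_map, derivative_map]
    rw [← AlgHom.coe_toRingHom Λ, hom_eval₂]
    rw [eval_map]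
    congr 1
    · ext r
      · simp
      · simp [hu]
  rw [hD]
  apply deriv_charpoly_rank_one (fun i => (p i).coeff 0) (fun j => Λ (e j)) hsum
  intro i j
  rw [Matrix.map_apply, coe_evalRingHom, ← coeff_zero_eq_eval_zero, hcoeff]

/-- existence of certificates -/
theorem exists_cert [IsAlgClosed k] [IsDedekindDomain A] [Algebra.FiniteType k A]
    (hA : ¬ IsField A)
    (H : ∀ u : A, (∀ c : k, algebraMap k A c ≠ u) → ∃ (r : ℕ) (e : Fin r → A), FreeOn k u e) :
    Cert k A := by
  classical
  -- the index type of all data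
  let T := {t : (A × A) × (Σ r : ℕ, (Fin r → A) × Matrix (Fin r) (Fin r) k[X]) //
    FreeOn k t.1.1 t.2.2.1 ∧
    ∀ j, t.1.2 * t.2.2.1 j = ∑ k, aeval t.1.1 (t.2.2.2 k j) * t.2.2.1 k}
  let D : T → A := fun t => DM k t.1.1.1 t.1.1.2 t.1.2.2.2
  have hspan : Ideal.span (Set.range D) = ⊤ := by
    by_contra hne
    obtain ⟨m, hm, hle⟩ := Ideal.exists_le_maximal _ hne
    have hm0 : m ≠ ⊥ := Ring.ne_bot_of_isMaximal_of_not_isField hm hA
    let _ : Field (A ⧸ m) := Ideal.Quotient.field m
    have hfin : Module.Finite k (A ⧸ m) := finite_of_finite_type_of_isJacobsonRing k (A ⧸ m)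
    have hbij : Function.Bijective (algebraMap k (A ⧸ m)) :=
      IsAlgClosed.algebraMap_bijective_of_isIntegral
    let ψ : k ≃ₐ[k] (A ⧸ m) := AlgEquiv.ofBijective (Algebra.ofId k (A ⧸ m)) hbij
    let Λ : A →ₐ[k] k := ψ.symm.toAlgHom.comp (Ideal.Quotient.mkₐ k m)
    have hΛ : ∀ a, Λ a = 0 ↔ a ∈ m := by
      intro a
      rw [← Ideal.Quotient.eq_zero_iff_mem]
      constructor
      · intro h
        exact (map_eq_zero_iff ψ.symm ψ.symm.injective).1 h
      · intro h
        have : Λ a = ψ.symm (Ideal.Quotient.mk m a) := rfl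
        rw [this, h, map_zero]
    obtain ⟨u, hu, hu2⟩ := Ideal.exists_mem_pow_notMem_pow_succ m hm0 hm.ne_top 1
    rw [pow_one] at hu
    have hu0 : u ≠ 0 := fun h => hu2 (by rw [h]; exact Ideal.zero_mem _)
    obtain ⟨J, hJ⟩ := (Ideal.dvd_iff_le.2 ((Ideal.span_singleton_le_iff_mem m).2 hu))
    have hJm : ¬ J ≤ m := by
      intro h
      apply hu2
      have h1 : u ∈ Ideal.span {u} := Ideal.mem_span_singleton_self u
      rw [hJ] at h1
      have h2 : m * J ≤ m ^ (1 + 1) := by
        rw [pow_add, pow_one]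
        exact Ideal.mul_mono_right h
      exact h2 h1
    have hsup : J ⊔ m = ⊤ := by
      by_contra hne'
      exact hJm (by
        have := hm.eq_of_le hne' le_sup_right
        rw [this]
        exact le_sup_left)
    obtain ⟨y, hyJ, w, hw, hyw⟩ := Submodule.mem_sup.1
      (show (1 : A) ∈ J ⊔ m by rw [hsup]; exact Submodule.mem_top)
    have hy1 : Λ y = 1 := by
      have h1 : Λ w = 0 := (hΛ w).2 hw
      have h2 := congrArg Λ hyw
      rw [map_add, h1, add_zero, map_one] at h2
      exact h2
    have hunc : ∀ c : k, algebraMap k A c ≠ u := by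
      intro c hc
      have h1 : Λ u = c := by rw [← hc, AlgHom.commutes]; rfl
      rw [(hΛ u).2 hu] at h1
      apply hu0
      rw [← hc, ← h1, map_zero]
    obtain ⟨r, e, hF⟩ := H u hunc
    have hM : ∃ M : Matrix (Fin r) (Fin r) k[X],
        ∀ j, y * e j = ∑ k, aeval u (M k j) * e k := by
      choose p hp using fun j => hF.surjective (y * e j)
      exact ⟨fun i j => p j i, hp⟩
    obtain ⟨M, hM⟩ := hM
    have hker : ∀ a : A, Λ a = 0 → u ∣ y * a := by
      intro a ha
      rw [← Ideal.mem_span_singleton, hJ]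
      have h1 := Ideal.mul_mem_mul ((hΛ a).1 ha) hyJ
      rwa [mul_comm a y] at h1
    have h1 := DM_at_point hF hM Λ ((hΛ u).2 hu) hy1 hker
    have h2 : DM k u y M ∈ m := by
      apply hle
      apply Ideal.subset_span
      exact ⟨⟨((u, y), ⟨r, (e, M)⟩), hF, hM⟩, rfl⟩
    rw [(hΛ _).2 h2] at h1
    exact zero_ne_one h1
  have h1 : (1 : A) ∈ Ideal.span (Set.range D) := by
    rw [hspan]
    exact Submodule.mem_top
  rw [Finsupp.mem_ideal_span_range_iff_exists_finsupp] at h1
  obtain ⟨c, hc⟩ := h1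
  let φ := c.support.equivFin
  let t : Fin c.support.card → T := fun i => (φ.symm i).1
  refine ⟨c.support.card, fun i => (t i).1.1.1, fun i => (t i).1.1.2, fun i => c (t i),
    fun i => (t i).1.2.1, fun i => (t i).1.2.2.1, fun i => (t i).1.2.2.2,
    fun i => (t i).2.1, fun i => (t i).2.2, ?_⟩
  rw [← hc, Finsupp.sum, ← Finset.sum_coe_sort c.support]
  exact Fintype.sum_equiv φ.symm (fun i => c (t i) * D (t i)) (fun i : c.support => c i.1 * D i.1)
    (fun i => rfl)

end

end PiCurve
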