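import Pool.Agent.Pi2.Tri

/-!
# Normality after algebraic extension of a perfect constant field
-/

open Polynomial Module TensorProduct

namespace PiCurve

section Finite

variable {K A L : Type*} [Field K] [CommRing A] [IsDomain A] [IsIntegrallyClosed A] [Algebra K A]
  [Field L] [Algebra K L] [FiniteDimensional K L] [Algebra.IsSeparable K L]

/-- finite separable extension of constants -/
theorem isIntegrallyClosed_tensor_finite [IsDomain (A ⊗[K] L)] : IsIntegrallyClosed (A ⊗[K] L) := by
  classical
  let pb := Field.powerBasisOfFiniteOfSeparable K L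
  let e : Basis (Fin pb.dim) A (A ⊗[K] L) := pb.basis.baseChange A
  set y : A ⊗[K] L := 1 ⊗ₜ pb.gen with hy
  have hmat : Algebra.leftMulMatrix e y = (Algebra.leftMulMatrix pb.basis pb.gen).map
      (algebraMap K A) := by
    ext i j
    rw [Algebra.leftMulMatrix_eq_repr_mul, Matrix.map_apply, Algebra.leftMulMatrix_eq_repr_mul]
    have h1 : y * e j = 1 ⊗ₜ (pb.gen * pb.basis j) := by
      rw [hy, Basis.baseChange_apply, Algebra.TensorProduct.tmul_mul_tmul, one_mul]
    rw [h1, Basis.baseChange_repr_tmul, Algebra.smul_def, mul_one]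
  have hD : DD e y = 1 ⊗ₜ (aeval pb.gen (derivative (minpoly K pb.gen))) := by
    unfold DD
    rw [hmat, Matrix.charpoly_map, charpoly_leftMulMatrix, derivative_map, aeval_map_algebraMap]
    have h2 : y = (Algebra.TensorProduct.includeRight : L →ₐ[K] A ⊗[K] L) pb.gen := rfl
    rw [h2, aeval_algHom_apply]
    rfl
  have hne : aeval pb.gen (derivative (minpoly K pb.gen)) ≠ 0 :=
    (Algebra.IsSeparable.isSeparable K pb.gen).aeval_derivative_ne_zero (minpoly.aeval _ _)
  apply isIntegrallyClosed_of_cert (κ := Unit)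
    (fun _ => (1 ⊗ₜ (aeval pb.gen (derivative (minpoly K pb.gen)))⁻¹ : A ⊗[K] L))
    (fun _ => DD e y)
  · rw [hD]
    simp only [Finset.univ_unique, Finset.sum_const, Finset.card_singleton, one_smul]
    rw [Algebra.TensorProduct.tmul_mul_tmul, inv_mul_cancel₀ hne, one_mul]
    rfl
  · intro _ z hz
    have : Module.Finite A (A ⊗[K] L) := Module.Finite.of_basis e
    have hz' : IsIntegral A z := isIntegral_trans z hz
    exact DD_mul_mem e y z hz'

end Finite

section Infinite

variable {K A L : Type*} [Field K] [CommRing A] [Algebra K A] [Field L] [Algebra K L]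

/-- the elements of `A ⊗ L` defined over the intermediate field `E` -/
def levelAlg (A : Type*) [CommRing A] [Algebra K A] (E : IntermediateField K L) :
    Subalgebra K (A ⊗[K] L) :=
  (Algebra.TensorProduct.map (AlgHom.id K A) E.val).range

theorem levelAlg_mono {E E' : IntermediateField K L} (h : E ≤ E') :
    levelAlg A E ≤ levelAlg A E' := by
  rintro _ ⟨x, rfl⟩
  refine ⟨Algebra.TensorProduct.map (AlgHom.id K A) (IntermediateField.inclusion h) x, ?_⟩
  have : (Algebra.TensorProduct.map (AlgHom.id K A) E'.val).comp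
      (Algebra.TensorProduct.map (AlgHom.id K A) (IntermediateField.inclusion h)) =
      Algebra.TensorProduct.map (AlgHom.id K A) E.val := by
    rw [← Algebra.TensorProduct.map_comp]
    rfl
  exact DFunLike.congr_fun this x

theorem exists_level (t : A ⊗[K] L) :
    ∃ F : Finset L, t ∈ levelAlg A (IntermediateField.adjoin K (F : Set L)) := by
  classical
  induction t using TensorProduct.induction_on with
  | zero => exact ⟨∅, Subalgebra.zero_mem _⟩
  | tmul a l =>
    refine ⟨{l}, ⟨a ⊗ₜ ⟨l, IntermediateField.subset_adjoin K _ (by simp)⟩, ?_⟩⟩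
    simp
  | add x y hx hy =>
    obtain ⟨F, hF⟩ := hx
    obtain ⟨F', hF'⟩ := hy
    refine ⟨F ∪ F', Subalgebra.add_mem _ ?_ ?_⟩
    · exact levelAlg_mono (IntermediateField.adjoin.mono K _ _ (by simp)) hF
    · exact levelAlg_mono (IntermediateField.adjoin.mono K _ _ (by simp)) hF'

theorem exists_level_finset (s : Finset (A ⊗[K] L)) :
    ∃ F : Finset L, ∀ t ∈ s, t ∈ levelAlg A (IntermediateField.adjoin K (F : Set L)) := by
  classical
  choose F hF using fun t : A ⊗[K] L => exists_level t
  refine ⟨s.biUnion F, fun t ht => ?_⟩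
  refine levelAlg_mono (IntermediateField.adjoin.mono K _ _ ?_) (hF t)
  intro x hx
  simp only [Finset.coe_biUnion, Set.mem_iUnion]
  exact ⟨t, ht, hx⟩

variable [IsDomain A] [IsIntegrallyClosed A] [PerfectField K] [Algebra.IsAlgebraic K L]

theorem isIntegrallyClosed_tensor_right [IsDomain (A ⊗[K] L)] :
    IsIntegrallyClosed (A ⊗[K] L) := by
  classical
  let T := A ⊗[K] L
  rw [isIntegrallyClosed_iff (FractionRing T)]
  rintro z ⟨P, hP, hPz⟩
  obtain ⟨n, d, hd, hz⟩ := IsFractionRing.div_surjective (A := T) z
  obtain ⟨F, hF⟩ := exists_level_finset (A := A) (K := K) ({n, d} ∪ P.coeffs)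
  set E := IntermediateField.adjoin K (F : Set L) with hE
  have hfd : FiniteDimensional K E :=
    IntermediateField.finiteDimensional_adjoin (fun x _ => Algebra.IsIntegral.isIntegral x)
  let ι : A ⊗[K] E →ₐ[K] T := Algebra.TensorProduct.map (AlgHom.id K A) E.val
  have hι : Function.Injective ι := by
    have : Function.Injective (LinearMap.lTensor A E.val.toLinearMap) :=
      Module.Flat.lTensor_preserves_injective_linearMap _ E.val.injective
    exact this
  have hdom : IsDomain (A ⊗[K] E) := hι.isDomain ι.toRingHom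
  have hsep : Algebra.IsSeparable K E := inferInstance
  have hic : IsIntegrallyClosed (A ⊗[K] E) := isIntegrallyClosed_tensor_finite
  obtain ⟨n', hn'⟩ := hF n (by simp)
  obtain ⟨d', hd'⟩ := hF d (by simp)
  have hn'' : ι n' = n := hn'
  have hd'' : ι d' = d := hd'
  have hd0 : d' ≠ 0 := fun h => by
    rw [h, map_zero] at hd''
    exact (nonZeroDivisors.ne_zero hd) hd''.symm
  have hlift : P ∈ lifts ι.toRingHom := by
    rw [lifts_iff_coeff_lifts]
    intro m
    by_cases hm : P.coeff m = 0
    · exact ⟨0, by rw [hm, map_zero]⟩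
    · exact hF (P.coeff m) (Finset.mem_union_right _ (coeff_mem_coeffs hm))
  obtain ⟨Q, hQ, -, hQm⟩ := lifts_and_natDegree_eq_and_monic hlift hP
  let g : A ⊗[K] E →+* FractionRing T := (algebraMap T (FractionRing T)).comp ι.toRingHom
  have hinj : Function.Injective g := (IsFractionRing.injective T (FractionRing T)).comp hι
  let φ : FractionRing (A ⊗[K] E) →+* FractionRing T := 
    IsFractionRing.lift (A := A ⊗[K] E) (K := FractionRing (A ⊗[K] E)) (L := FractionRing T)
      (g := g) hinj
  have hφ : ∀ x, φ (algebraMap _ _ x) = algebraMap T (FractionRing T) (ι x) :=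
    fun x => IsFractionRing.lift_algebraMap _ x
  let z' : FractionRing (A ⊗[K] E) := algebraMap _ _ n' / algebraMap _ _ d'
  have hz' : φ z' = z := by
    rw [map_div₀, hφ, hφ, hn'', hd'', hz]
  have hint : IsIntegral (A ⊗[K] E) z' := by
    refine ⟨Q, hQm, ?_⟩
    apply φ.injective
    rw [map_zero, hom_eval₂, hz', ← hPz, ← hQ, eval₂_map]
    congr 1
    exact RingHom.ext hφ
  obtain ⟨w, hw⟩ := IsIntegrallyClosed.isIntegral_iff.1 hint
  exact ⟨ι w, by rw [← hφ, hw, hz']⟩

/-- normality after an algebraic extension of a perfect field of constants -/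
theorem isIntegrallyClosed_tensor [IsDomain (L ⊗[K] A)] : IsIntegrallyClosed (L ⊗[K] A) := by
  have hdom : IsDomain (A ⊗[K] L) :=
    (Algebra.TensorProduct.comm K A L).toMulEquiv.isDomain (L ⊗[K] A)
  have := isIntegrallyClosed_tensor_right (K := K) (A := A) (L := L)
  exact IsIntegrallyClosed.of_equiv (Algebra.TensorProduct.comm K A L).toRingEquiv

end Infinite

end PiCurve
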