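import Pool.Agent.Pi2.Model3

/-!
# Gamma-algebras over fields: Dedekind domains and certificates
-/

open Polynomial Module TensorProduct

namespace PiCurve

section Field

variable {L A : Type*} [Field L] [CommRing A] [Algebra L A] {G : AddSubmonoid ℕ}

theorem GamAlg.exists_pos {R A : Type*} [CommRing R] [CommRing A] [Algebra R A]
    (D : GamAlg G R A) : ∃ n : G, 0 < (n : ℕ) :=
  ⟨⟨2 * genus G + 1, mem_of_two_genus_le D.cofin (by omega)⟩, by simp⟩

theorem GamAlg.exists_freeOn {R A : Type*} [CommRing R] [CommRing A] [Algebra R A]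
    (D : GamAlg G R A) : ∃ (u : A) (r : ℕ) (e : Fin r → A), FreeOn R u e := by
  obtain ⟨n, hn⟩ := D.exists_pos
  exact ⟨D.B n, exists_freeOn_of_lead D.B D.cofin D.mul D.one hn (Lead.self n)⟩

theorem FreeOn.finite {R A : Type*} [CommRing R] [CommRing A] [Algebra R A] {ι : Type*}
    [Fintype ι] {u : A} {e : ι → A} (h : FreeOn R u e) :
    letI := (aeval u : R[X] →ₐ[R] A).toRingHom.toAlgebra
    Module.Finite R[X] A := by
  let _ := (aeval u : R[X] →ₐ[R] A).toRingHom.toAlgebra
  obtain ⟨B, -⟩ := h.exists_basis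
  exact Module.Finite.of_basis B

theorem GamAlg.isNoetherianRing (D : GamAlg G L A) : IsNoetherianRing A := by
  obtain ⟨u, r, e, h⟩ := D.exists_freeOn
  let _ := (aeval u : L[X] →ₐ[L] A).toRingHom.toAlgebra
  have := h.finite
  exact isNoetherian_of_tower L[X] (isNoetherian_of_isNoetherianRing_of_finite L[X] A)

theorem GamAlg.finiteType {R A : Type*} [CommRing R] [CommRing A] [Algebra R A]
    (D : GamAlg G R A) : Algebra.FiniteType R A := by
  obtain ⟨u, r, e, h⟩ := D.exists_freeOn
  let _ := (aeval u : R[X] →ₐ[R] A).toRingHom.toAlgebra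
  have := h.finite
  have : IsScalarTower R R[X] A := IsScalarTower.of_algebraMap_eq fun c => by
    change algebraMap R A c = aeval u (C c)
    rw [aeval_C]
  exact Algebra.FiniteType.trans (S := R[X]) inferInstance inferInstance

theorem GamAlg.dimensionLEOne (D : GamAlg G L A) : Ring.DimensionLEOne A := by
  obtain ⟨u, r, e, h⟩ := D.exists_freeOn
  let _ := (aeval u : L[X] →ₐ[L] A).toRingHom.toAlgebra
  have := h.finite
  have := D.isDomain
  exact Ring.DimensionLEOne.of_isIntegral L[X] A

theorem GamAlg.isDedekindDomain_of_isIntegrallyClosed (D : GamAlg G L A) [IsIntegrallyClosed A] :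
    IsDedekindDomain A := by
  have := D.isDomain
  have := D.isNoetherianRing
  have := D.dimensionLEOne
  exact { }

theorem GamAlg.not_isField (D : GamAlg G L A) : ¬ IsField A := by
  intro hA
  obtain ⟨n, hn⟩ := D.exists_pos
  have hnt := D.nontrivial
  have h1 : D.B n ≠ 0 := D.B.ne_zero n
  obtain ⟨y, hy⟩ := hA.mul_inv_cancel h1
  have hy0 : y ≠ 0 := by
    rintro rfl
    rw [mul_zero] at hy
    exact zero_ne_one hy
  obtain ⟨c, hc⟩ := D.exists_lead hy0
  have h2 := (Lead.self (R := L) (b := D.B) n).mul D.mul hc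
  rw [hy, ← D.one] at h2
  have h3 := D.lead_unique h2 (Lead.self 0)
  have h4 : ((n + c : G) : ℕ) = (0 : G) := congrArg Subtype.val h3
  have h5 : ((n + c : G) : ℕ) = n + c := rfl
  have h6 : ((0 : G) : ℕ) = 0 := rfl
  omega

theorem GamAlg.eq_algebraMap_of_lead_zero (D : GamAlg G L A) {u : A} {c : G} (hc : (c : ℕ) = 0)
    (hu : Lead L D.B u c) : ∃ a : L, u = algebraMap L A a := by
  have h2 : c = 0 := Subtype.ext hc
  subst h2
  obtain ⟨t, ht⟩ := hu
  have h3 := D.lt_zero
  unfold GamAlg.lt at h3
  have h4 : u - (t : L) • D.B 0 ∈ (⊥ : Submodule L A) := by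
    rw [← h3]
    exact ht
  rw [Submodule.mem_bot, D.one, sub_eq_zero] at h4
  exact ⟨t, by rw [h4, Algebra.algebraMap_eq_smul_one]⟩

theorem GamAlg.exists_freeOn_of_ne (D : GamAlg G L A) {u : A} (hu : ∀ c : L, algebraMap L A c ≠ u) :
    ∃ (r : ℕ) (e : Fin r → A), FreeOn L u e := by
  have hu0 : u ≠ 0 := fun h => hu 0 (by rw [h, map_zero])
  obtain ⟨c, hc⟩ := D.exists_lead hu0
  have hpos : 0 < (c : ℕ) := by
    by_contra h0
    obtain ⟨a, ha⟩ := D.eq_algebraMap_of_lead_zero (by omega) hc
    exact hu a ha.symm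
  exact exists_freeOn_of_lead D.B D.cofin D.mul D.one hpos hc

/-- (CERT) over an algebraically closed field -/
theorem GamAlg.cert (D : GamAlg G L A) [IsAlgClosed L] [IsDedekindDomain A] : Cert L A := by
  have := D.finiteType
  exact exists_cert D.not_isField (fun u hu => D.exists_freeOn_of_ne hu)

end Field

/-- (PERF) base change along an algebraic extension of a perfect field -/
theorem GamAlg.isDedekindDomain_of_perfect {K L A : Type*} [Field K] [PerfectField K] [Field L]
    [Algebra K L] [Algebra.IsAlgebraic K L] [CommRing A] [Algebra K A] {G : AddSubmonoid ℕ}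
    (D : GamAlg G K A) [IsDedekindDomain A] : IsDedekindDomain (L ⊗[K] A) := by
  have := (D.baseChange L).isDomain
  have : IsIntegrallyClosed (L ⊗[K] A) := isIntegrallyClosed_tensor
  exact (D.baseChange L).isDedekindDomain_of_isIntegrallyClosed

/-- certificates after base change of base changes -/
theorem Cert.tensor_tower {R A k L : Type*} [CommRing R] [CommRing A] [Algebra R A] [CommRing k]
    [CommRing L] [Algebra k L] [Algebra R k] [Algebra R L] [IsScalarTower R k L]
    (h : Cert k (k ⊗[R] A)) : Cert L (L ⊗[R] A) :=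
  (h.tensor L).of_equiv (Algebra.TensorProduct.cancelBaseChange R k L L A)

/-- certificates give Dedekind domains over all larger fields -/
theorem Cert.isDedekindDomain_tensor {R A k L : Type*} [CommRing R] [CommRing A] [Algebra R A]
    [CommRing k] [Field L] [Algebra k L] [Algebra R k] [Algebra R L] [IsScalarTower R k L]
    {G : AddSubmonoid ℕ} (D : GamAlg G R A) (h : Cert k (k ⊗[R] A)) :
    IsDedekindDomain (L ⊗[R] A) := by
  have := (D.baseChange L).isDomain
  exact (h.tensor_tower (L := L)).isDedekindDomain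

end PiCurve
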