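import Mathlib
import Pool.Agent.Pi2.SPF
import Pool.Agent.Pi2.Dede

/-! (DO) certificates and Dedekind domains over all fields containing `k`. -/

universe u

namespace PiCurve

open TensorProduct

/-- All base changes of `A` to fields over `k` are Dedekind domains. -/
def DedOver (R k A : Type u) [CommRing R] [Field k] [CommRing A] [Algebra R k] [Algebra R A] :
    Prop :=
  ∀ (L : Type u) [Field L] [Algebra k L] [Algebra R L] [IsScalarTower R k L],
    IsDedekindDomain (L ⊗[R] A)

variable {R A k L : Type u} [CommRing R] [CommRing A] [Algebra R A] [Field k] [Field L]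
  [Algebra k L] [Algebra R k] [Algebra R L] [IsScalarTower R k L]
  {Γ : AddSubmonoid ℕ} (G : GamAlg Γ R A)

include G

/-- a certificate over `k` gives Dedekind domains over all fields containing `k` -/
theorem dedOver_of_cert (h : Cert k (k ⊗[R] A)) : DedOver R k A := by
  intro L _ _ _ _
  exact h.isDedekindDomain_tensor G

/-- (CERT) conversely, over an algebraically closed field -/
theorem cert_of_dedekind [IsAlgClosed k] [IsDedekindDomain (k ⊗[R] A)] :
    Cert k (k ⊗[R] A) :=
  (G.baseChange k).cert

end PiCurve
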