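import Mathlib
import Pool.Agent.Pi2.DO
import Pool.Agent.Pi2.T.ConstGam

/-! (TORS) torsion classes are constant. -/

universe u

namespace PiCurve

open TensorProduct

variable {R A k L : Type u} [CommRing R] [CommRing A] [Algebra R A] [Field k] [Field L]
  [Algebra k L] [Algebra R k] [Algebra R L] [IsScalarTower R k L]
  {Γ : AddSubmonoid ℕ} (G : GamAlg Γ R A)

include G

/-- Classes with a constant `n`-th power are constant. -/
theorem const_of_pow_const [IsAlgClosed k] [IsAlgClosed L] [IsDedekindDomain (k ⊗[R] A)]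
    [IsDedekindDomain (L ⊗[R] A)] (n : ℕ) (hn : n ≠ 0) (c : ClassGroup (L ⊗[R] A))
    (c1 : ClassGroup (k ⊗[R] A))
    (hc : cmap (kLA R A k L)
      (bcm_injective G _ (IsScalarTower.toAlgHom R k L).toRingHom.injective) c1 = c ^ n) :
    ∃ c0 : ClassGroup (k ⊗[R] A), cmap (kLA R A k L)
      (bcm_injective G _ (IsScalarTower.toAlgHom R k L).toRingHom.injective) c0 = c := by
  let _ : Algebra (k ⊗[R] A) (L ⊗[R] A) := (kLA R A k L).toAlgebra
  have htow : IsScalarTower k (k ⊗[R] A) (L ⊗[R] A) := by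
    refine IsScalarTower.of_algebraMap_eq fun x => ?_
    change (algebraMap k L x) ⊗ₜ[R] (1 : A) = (algebraMap k L x) ⊗ₜ[R] (1 : A)
    rfl
  have hpo : Algebra.IsPushout k L (k ⊗[R] A) (L ⊗[R] A) := by
    constructor
    refine IsBaseChange.of_equiv (AlgebraTensorModule.cancelBaseChange R k L L A) ?_
    intro x
    induction x using TensorProduct.induction_on with
    | zero => simp
    | tmul a b =>
      rw [AlgebraTensorModule.cancelBaseChange_tmul]
      change (a • (1 : L)) ⊗ₜ[R] b = (algebraMap k L a) ⊗ₜ[R] b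
      rw [Algebra.smul_def, mul_one]
    | add x y hx hy => rw [TensorProduct.tmul_add, map_add, hx, hy, map_add]
  exact Pi2T.const_main (k := k) (Ω := L) (A := k ⊗[R] A) (B := L ⊗[R] A) (G.baseChange k) n hn
    c c1 hc

/-- (TORS) `n`-torsion classes are constant, for all `n ≥ 1` (also `p ∣ n`). -/
theorem tors_const [IsAlgClosed k] [IsAlgClosed L] [IsDedekindDomain (k ⊗[R] A)]
    [IsDedekindDomain (L ⊗[R] A)] (n : ℕ) (hn : n ≠ 0) (c : ClassGroup (L ⊗[R] A))
    (hc : c ^ n = 1) :
    ∃ c0 : ClassGroup (k ⊗[R] A), cmap (kLA R A k L)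
      (bcm_injective G _ (IsScalarTower.toAlgHom R k L).toRingHom.injective) c0 = c :=
  const_of_pow_const G n hn c 1 (by rw [map_one, hc])

end PiCurve
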