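import Mathlib
import Pool.Agent.Pi2.TORS
import Pool.Agent.Helper99.PiP.Div

/-! (DIV) the class of a nonconstant point is divisible. -/

universe u

namespace PiCurve

open TensorProduct Polynomial

section data

variable {k A : Type u} [Field k] [CommRing A] [Algebra k A] {Γ : AddSubmonoid ℕ}

theorem cl_prod {B : Type*} [CommRing B] [IsDedekindDomain B] {ι : Type*} (s : Finset ι)
    (I : ι → Ideal B) (hI : ∀ i ∈ s, I i ≠ ⊥) : cl (∏ i ∈ s, I i) = ∏ i ∈ s, cl (I i) := by
  classical
  induction s using Finset.induction_on with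
  | empty => rw [Finset.prod_empty, Finset.prod_empty, Ideal.one_eq_top, cl_top]
  | insert a s ha ih =>
    have h1 : ∀ i ∈ s, I i ≠ ⊥ := fun i hi => hI i (Finset.mem_insert_of_mem hi)
    have h2 : ∏ i ∈ s, I i ≠ ⊥ := by
      rw [← Ideal.zero_eq_bot, Finset.prod_ne_zero_iff]
      exact h1
    rw [Finset.prod_insert ha, Finset.prod_insert ha, cl_mul (hI a (Finset.mem_insert_self _ _)) h2,
      ih h1]

/-- The place attached to `IsPlaceOver`. -/
theorem exists_pl {M N : Type u} [Field M] [Algebra k M] [Field N] [Algebra k N] {f : M →ₐ[k] N}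
    {V : ValuationSubring N} (h : PiP.IsPlaceOver f V) :
    ∃ P : Pl k N M, P.W = V ∧ ∀ x : M, ∃ hx : f x ∈ P.W, P.π ⟨f x, hx⟩ = x := by
  let _ : Algebra M N := f.toAlgebra
  have _ : IsScalarTower k M N := IsScalarTower.of_algebraMap_eq (fun x => (f.commutes x).symm)
  refine ⟨Pl.ofConst k V h.const_mem h.exists_const, Pl.ofConst_W k V _ _, fun x => ?_⟩
  have hx : f x ∈ (Pl.ofConst k V h.const_mem h.exists_const).W := by
    rw [Pl.ofConst_W]
    exact h.const_mem x
  refine ⟨hx, ?_⟩
  have h1 := Pl.ofConst_π k V h.const_mem h.exists_const (f x) hx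
  set a := (Pl.ofConst k V h.const_mem h.exists_const).π ⟨f x, hx⟩ with ha
  by_contra hne
  have h2 : f x - algebraMap M N a = f (x - a) := by
    rw [map_sub]
    rfl
  rw [h2] at h1
  have h3 : x - a ≠ 0 := fun h4 => hne (sub_eq_zero.1 h4).symm
  have h4 : V.valuation (f (x - a)⁻¹) ≤ 1 := (V.valuation_le_one_iff _).2 (h.const_mem _)
  have h5 : V.valuation (f (x - a)) * V.valuation (f (x - a)⁻¹) = 1 := by
    rw [← map_mul, ← map_mul, mul_inv_cancel₀ h3, map_one, map_one]
  have h6 : V.valuation (f (x - a)) * V.valuation (f (x - a)⁻¹) < 1 :=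
    lt_of_le_of_lt (mul_le_of_le_one_right' h4) h1
  rw [h5] at h6
  exact lt_irrefl _ h6

/-- The place attached to `IsPlaceOver`. -/
noncomputable def plOf {M N : Type u} [Field M] [Algebra k M] [Field N] [Algebra k N]
    {f : M →ₐ[k] N} {V : ValuationSubring N} (h : PiP.IsPlaceOver f V) : Pl k N M :=
  (exists_pl h).choose

theorem plOf_W {M N : Type u} [Field M] [Algebra k M] [Field N] [Algebra k N]
    {f : M →ₐ[k] N} {V : ValuationSubring N} (h : PiP.IsPlaceOver f V) : (plOf h).W = V :=
  (exists_pl h).choose_spec.1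

theorem plOf_π {M N : Type u} [Field M] [Algebra k M] [Field N] [Algebra k N]
    {f : M →ₐ[k] N} {V : ValuationSubring N} (h : PiP.IsPlaceOver f V) (x : M) :
    ∃ hx : f x ∈ (plOf h).W, (plOf h).π ⟨f x, hx⟩ = x :=
  (exists_pl h).choose_spec.2 x

/-- The class groups as `DivData`. -/
noncomputable def divData (G : GamAlg Γ k A) (hc : Cert k A) {n : Γ} (hn : 0 < (n : ℕ)) :
    PiP.DivData k A (genus Γ) (G.B n) where
  C := fun M _ _ => @ClassGroup (M ⊗[k] A) _ (isDomain_tensor G M)
  grp := fun M _ _ => by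
    have := isDomain_tensor G M
    infer_instance
  pt := fun {M} _ _ R => @cl (M ⊗[k] A) _ (isDedekindDomain_tensor G hc M) (ptI R)
  bc := fun {M N} _ _ _ _ f =>
    @cmap (M ⊗[k] A) (N ⊗[k] A) _ (isDedekindDomain_tensor G hc M) _
      (isDedekindDomain_tensor G hc N) (bcm A f) (bcm_injective G f f.toRingHom.injective)
  sp := fun {M N} _ _ _ _ _ _ h => by
    have dM := isDedekindDomain_tensor G hc M
    have dN := isDedekindDomain_tensor G hc N
    exact (plOf h).sp G
  bc_pt := fun {M N} _ _ _ _ f R => by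
    have dM := isDedekindDomain_tensor G hc M
    have dN := isDedekindDomain_tensor G hc N
    rw [cmap_cl _ _ (ptI_ne_bot G R), ptI_map G]
  sp_bc := fun {M N} _ _ _ _ f V h x => by
    have dM := isDedekindDomain_tensor G hc M
    have dN := isDedekindDomain_tensor G hc N
    have h1 := Pl.sp_const G (plOf h) f (AlgHom.id k M) (fun x => plOf_π h x) x
    refine h1.trans ?_
    have h2 : ∀ (φ : M ⊗[k] A →+* M ⊗[k] A) (hφ : Function.Injective φ),
        φ = RingHom.id _ → cmap φ hφ x = x := by
      rintro φ hφ rfl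
      exact cmap_id x
    exact h2 _ _ bcm_id
  sp_pt := fun {M N} _ _ _ _ f V h R hR => by
    have dM := isDedekindDomain_tensor G hc M
    have dN := isDedekindDomain_tensor G hc N
    refine Pl.sp_pt_inf G (plOf h) R ⟨G.B n, ?_⟩
    rw [plOf_W]
    exact hR
  rep := fun {M} _ _ _ x => by
    have dM := isDedekindDomain_tensor G hc M
    obtain ⟨r, Q, hr, hx⟩ := exists_pts G x
    exact ⟨r, hr, Q, hx⟩
  const := fun {M N} _ _ _ _ _ _ f n hn x hx => by
    have dM := isDedekindDomain_tensor G hc M
    have dN := isDedekindDomain_tensor G hc N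
    let _ : Algebra M N := f.toAlgebra
    have _ : IsScalarTower k M N := IsScalarTower.of_algebraMap_eq (fun x => (f.commutes x).symm)
    obtain ⟨c0, hc0⟩ := tors_const (k := M) G n hn.ne' x hx
    exact ⟨c0, hc0.symm⟩
  level := fun {M N} _ _ _ _ _ _ f x m hm η h => by
    have dM := isDedekindDomain_tensor G hc M
    have dN := isDedekindDomain_tensor G hc N
    obtain ⟨r, Q, hr, hx⟩ := exists_pts G x
    have hη0 : ∏ i, ptI (η i) ≠ ⊥ := prod_ptIdeal_ne_bot G _ _
    have hQ0 : ∏ j, ptI (f.comp (Q j)) ≠ ⊥ := prod_ptIdeal_ne_bot G _ _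
    have h1 : cl ((∏ i, ptI (η i)) * ∏ j, ptI (f.comp (Q j))) = 1 := by
      rw [cl_mul hη0 hQ0, cl_prod _ _ (fun i _ => ptI_ne_bot G (η i)),
        cl_prod _ _ (fun j _ => ptI_ne_bot G (f.comp (Q j)))]
      rw [← h, hx, map_prod]
      congr 1
      refine Finset.prod_congr rfl fun j _ => ?_
      rw [cmap_cl _ _ (ptI_ne_bot G (Q j)), ptI_map G]
    obtain ⟨f0, -, hf0⟩ := (cl_eq_one_iff (mul_ne_bot' hη0 hQ0)).1 h1
    exact level_field G hc hn (Lead.self n) f hm Q η f0 hf0

end data

section main

variable {R A k L : Type u} [CommRing R] [CommRing A] [Algebra R A] [Field k] [Field L]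
  [Algebra k L] [Algebra R k] [Algebra R L] [IsScalarTower R k L]
  {Γ : AddSubmonoid ℕ} (G : GamAlg Γ R A)

theorem exists_pos_mem (G : GamAlg Γ R A) : ∃ n : Γ, 0 < (n : ℕ) := by
  have h1 : 2 * genus Γ + 1 ∈ Γ := mem_of_two_genus_le G.cofin (by omega)
  exact ⟨⟨_, h1⟩, Nat.succ_pos _⟩

include G

/-- (DIV) the class of a nonconstant point over `L` is divisible by `n`, for all `n ≥ 1`. -/
theorem div_generic [IsAlgClosed k] [IsAlgClosed L] [IsDedekindDomain (k ⊗[R] A)]
    [IsDedekindDomain (L ⊗[R] A)] (η : A →ₐ[R] L)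
    (hη : Function.Injective (Algebra.TensorProduct.productMap (IsScalarTower.toAlgHom R k L) η))
    (hL : Algebra.IsAlgebraic
      (Algebra.TensorProduct.productMap (IsScalarTower.toAlgHom R k L) η).range L)
    (n : ℕ) (hn : n ≠ 0) : ∃ c : ClassGroup (L ⊗[R] A), c ^ n = cl (ptI η) := by
  by_cases hg : 1 ≤ genus Γ
  · have hc : Cert k (k ⊗[R] A) := cert_of_dedekind G
    obtain ⟨m, hm⟩ := exists_pos_mem G
    let G' := G.baseChange k
    let D := divData G' hc hm
    let η' : k ⊗[R] A →ₐ[k] L :=
      Algebra.TensorProduct.lift (Algebra.ofId k L) η (fun _ _ => Commute.all _ _)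
    have hη'eq : ∀ x, η' x = Algebra.TensorProduct.productMap (IsScalarTower.toAlgHom R k L) η x := by
      intro x
      induction x using TensorProduct.induction_on with
      | zero => simp
      | tmul a b => simp [η', Algebra.ofId_apply]
      | add x y hx hy => rw [map_add, map_add, hx, hy]
    have hη' : Function.Injective η' := by
      intro x y hxy
      apply hη
      rw [← hη'eq, ← hη'eq, hxy]
    have hL' : ∀ x : L, ∃ p : (k ⊗[R] A)[X], p ≠ 0 ∧ p.eval₂ η'.toRingHom x = 0 := by
      intro x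
      obtain ⟨p, hp, hp0⟩ := hL.isAlgebraic x
      let φ := Algebra.TensorProduct.productMap (IsScalarTower.toAlgHom R k L) η
      obtain ⟨q, hq⟩ := Polynomial.map_surjective φ.rangeRestrict.toRingHom
        (fun y => φ.rangeRestrict_surjective y) p
      refine ⟨q, ?_, ?_⟩
      · rintro rfl
        rw [Polynomial.map_zero] at hq
        exact hp hq.symm
      · have h1 : η'.toRingHom = (algebraMap φ.range L).comp φ.rangeRestrict.toRingHom := by
          refine RingHom.ext fun y => ?_
          exact hη'eq y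
        rw [h1, ← Polynomial.eval₂_map, hq]
        exact hp0
    obtain ⟨E, hE⟩ := D.exists_root (G'.transcendental hm (Lead.self m))
      (G'.isIntegral_aeval hm (Lead.self m)) hg η' hη' hL' n (Nat.pos_of_ne_zero hn)
    have dL := isDedekindDomain_tensor G' hc L
    let e : L ⊗[k] (k ⊗[R] A) ≃ₐ[L] L ⊗[R] A := Algebra.TensorProduct.cancelBaseChange R k L L A
    have hev : ∀ x, ev η (e x) = ev η' x := by
      intro x
      induction x using TensorProduct.induction_on with
      | zero => rw [map_zero, map_zero, map_zero]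
      | tmul a y =>
        induction y using TensorProduct.induction_on with
        | zero => rw [TensorProduct.tmul_zero, map_zero, map_zero, map_zero]
        | tmul s b =>
          have h1 : e (a ⊗ₜ (s ⊗ₜ b)) = (s • a) ⊗ₜ b :=
            Algebra.TensorProduct.cancelBaseChange_tmul R k L L A a s b
          rw [h1, ev_tmul, ev_tmul]
          simp only [η', Algebra.TensorProduct.lift_tmul, Algebra.ofId_apply, Algebra.smul_def]
          ring
        | add y z hy hz => rw [TensorProduct.tmul_add, map_add, map_add, map_add, hy, hz]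
      | add x y hx hy => rw [map_add, map_add, map_add, hx, hy]
    let φ : L ⊗[k] (k ⊗[R] A) →+* L ⊗[R] A := e.toRingEquiv.toRingHom
    have hφ : Function.Injective φ := e.injective
    have h1 : (ptI η').map φ = ptI η := by
      apply le_antisymm
      · rw [Ideal.map_le_iff_le_comap]
        intro x hx
        have hx' : ev η' x = 0 := hx
        change ev η (e x) = 0
        rw [hev, hx']
      · intro y hy
        obtain ⟨x, rfl⟩ := e.surjective y
        have hy' : ev η (e x) = 0 := hy
        rw [hev] at hy'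
        exact Ideal.mem_map_of_mem φ hy'
    obtain ⟨E', hE'⟩ : ∃ E' : ClassGroup (L ⊗[k] (k ⊗[R] A)), E' ^ n = cl (ptI η') := ⟨E, hE⟩
    refine ⟨cmap φ hφ E', ?_⟩
    rw [← map_pow, hE', cmap_cl _ _ (ptI_ne_bot G' η'), h1]
  · obtain ⟨r, Q, hr, hx⟩ := exists_pts G (cl (ptI η))
    have h0 : r = 0 := by omega
    subst h0
    refine ⟨1, ?_⟩
    rw [hx, one_pow]
    simp

end main

end PiCurve
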