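import Mathlib
import Pool.Agent.Pi2.ACT

/-! (FIN) finiteness of the invariant classes over a finite field. -/

universe u

namespace PiCurve

open TensorProduct

namespace FINAux

section

variable {R B κ0 κ : Type u} [CommRing R] [CommRing B] [Algebra R B] [Field κ0]
    [Field κ] [Algebra κ0 κ]
    [Algebra R κ0] [Algebra R κ] [IsScalarTower R κ0 κ] {Γ : AddSubmonoid ℕ} (G : GamAlg Γ R B)

/-- The ring automorphism of `κ ⊗ B` induced by an automorphism of `κ`. -/
noncomputable def bce (B : Type u) [CommRing B] [Algebra R B] (τ : κ ≃ₐ[R] κ) :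
    κ ⊗[R] B ≃+* κ ⊗[R] B :=
  (Algebra.TensorProduct.congr τ (AlgEquiv.refl : B ≃ₐ[R] B)).toRingEquiv

theorem bce_apply (τ : κ ≃ₐ[R] κ) (x : κ ⊗[R] B) : bce B τ x = bcm B τ.toAlgHom x := by
  rfl

theorem finrank_map (τ : κ ≃ₐ[R] κ) (I : Ideal (κ ⊗[R] B)) :
    Module.finrank κ (κ ⊗[R] B ⧸ I.map (bcm B τ.toAlgHom)) =
      Module.finrank κ (κ ⊗[R] B ⧸ I) := by
  symm
  refine Algebra.finrank_eq_of_equiv_equiv τ.toRingEquiv
    (Ideal.quotientEquiv I (I.map (bcm B τ.toAlgHom)) (bce B τ) rfl) ?_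
  ext l
  change Ideal.Quotient.mk _ (algebraMap κ (κ ⊗[R] B) (τ l)) =
    Ideal.Quotient.mk _ (bce B τ (algebraMap κ (κ ⊗[R] B) l))
  rw [bce_apply, bcm_algebraMap]
  rfl

theorem smul_eq (l : κ) (f : κ ⊗[R] B) : l • f = algebraMap κ (κ ⊗[R] B) l * f :=
  Algebra.smul_def l f

/-- Galois descent for a nonzero vector of small degree in a stable ideal. -/
theorem exists_rational [Algebra.IsAlgebraic κ0 κ] [IsGalois κ0 κ] (I : Ideal (κ ⊗[R] B)) (m : ℕ)
    (hst : ∀ τ : κ ≃ₐ[κ0] κ, I.map (bcm B (τ.restrictScalars R).toAlgHom) = I)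
    (hex : ∃ f ∈ I, f ≠ 0 ∧ f ∈ (G.baseChange κ).lt m) :
    ∃ f ∈ I, f ≠ 0 ∧ f ∈ (G.baseChange κ).lt m ∧
      ∀ c : Γ, (G.baseChange κ).B.repr f c ∈ Set.range (algebraMap κ0 κ) := by
  classical
  have hex' : ∃ n : ℕ, ∃ f ∈ I, f ≠ 0 ∧ f ∈ (G.baseChange κ).lt m ∧
      ((G.baseChange κ).B.repr f).support.card = n := by
    obtain ⟨f, h1, h2, h3⟩ := hex
    exact ⟨_, f, h1, h2, h3, rfl⟩
  obtain ⟨f, hfI, hf0, hfm, hcard⟩ := Nat.find_spec hex'
  have hmin := fun n (h : n < Nat.find hex') => Nat.find_min hex' h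
  have hr : (G.baseChange κ).B.repr f ≠ 0 := by
    intro h
    exact hf0 ((G.baseChange κ).B.repr.map_eq_zero_iff.1 h)
  obtain ⟨c, hc⟩ := Finsupp.support_nonempty_iff.2 hr
  rw [Finsupp.mem_support_iff] at hc
  set l : κ := (G.baseChange κ).B.repr f c with hl
  set f' : κ ⊗[R] B := l⁻¹ • f with hf'
  have hrepr' : ∀ e, (G.baseChange κ).B.repr f' e = l⁻¹ * (G.baseChange κ).B.repr f e := by
    intro e
    rw [hf', map_smul, Finsupp.smul_apply, smul_eq_mul]
  have hf'I : f' ∈ I := by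
    rw [hf', smul_eq]
    exact I.mul_mem_left _ hfI
  have hf'0 : f' ≠ 0 := by
    rw [hf']
    exact smul_ne_zero (inv_ne_zero hc) hf0
  have hf'm : f' ∈ (G.baseChange κ).lt m := Submodule.smul_mem _ _ hfm
  have hsupp' : ((G.baseChange κ).B.repr f').support = ((G.baseChange κ).B.repr f).support := by
    ext e
    rw [Finsupp.mem_support_iff, Finsupp.mem_support_iff, hrepr']
    simp [inv_ne_zero hc]
  refine ⟨f', hf'I, hf'0, hf'm, fun e => ?_⟩
  have hfix : ∀ τ : κ ≃ₐ[κ0] κ, bcm B (τ.restrictScalars R).toAlgHom f' = f' := by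
    intro τ
    by_contra hne
    set τ' := (τ.restrictScalars R) with hτ'
    set h : κ ⊗[R] B := bcm B τ'.toAlgHom f' - f' with hh
    have hh0 : h ≠ 0 := sub_ne_zero.2 hne
    have hhI : h ∈ I := by
      refine I.sub_mem ?_ hf'I
      have := Ideal.mem_map_of_mem (bcm B τ'.toAlgHom) hf'I
      rwa [hst τ] at this
    have hrh : ∀ e, (G.baseChange κ).B.repr h e =
        τ ((G.baseChange κ).B.repr f' e) - (G.baseChange κ).B.repr f' e := by
      intro e
      rw [hh, map_sub, Finsupp.sub_apply, GamAlg.repr_bcm]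
      rfl
    have hhm : h ∈ (G.baseChange κ).lt m := by
      rw [GamAlg.mem_lt_iff] at hf'm ⊢
      intro e he
      rw [hrh, hf'm e he, map_zero, sub_zero]
    have hlt : ((G.baseChange κ).B.repr h).support.card <
        ((G.baseChange κ).B.repr f).support.card := by
      apply Finset.card_lt_card
      rw [Finset.ssubset_iff_of_subset]
      · refine ⟨c, Finsupp.mem_support_iff.2 hc, ?_⟩
        rw [Finsupp.notMem_support_iff, hrh, hrepr', ← hl, inv_mul_cancel₀ hc, map_one, sub_self]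
      · intro e he
        rw [← hsupp', Finsupp.mem_support_iff]
        rw [Finsupp.mem_support_iff, hrh] at he
        intro h0
        apply he
        rw [h0, map_zero, sub_zero]
    rw [hcard] at hlt
    exact hmin _ hlt ⟨h, hhI, hh0, hhm, rfl⟩
  have hmem : (G.baseChange κ).B.repr f' e ∈ (⊥ : IntermediateField κ0 κ) := by
    rw [InfiniteGalois.mem_bot_iff_fixed]
    intro τ
    have := hfix τ
    have h2 : (G.baseChange κ).B.repr (bcm B (τ.restrictScalars R).toAlgHom f') e =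
        (G.baseChange κ).B.repr f' e := by rw [this]
    rw [GamAlg.repr_bcm] at h2
    exact h2
  rwa [IntermediateField.mem_bot] at hmem

omit [Algebra R κ0] [IsScalarTower R κ0 κ] in
/-- The set of rational elements of small degree is finite. -/
theorem finite_rational [Finite κ0] (m : ℕ) :
    {f : κ ⊗[R] B | f ∈ (G.baseChange κ).lt m ∧
      ∀ c : Γ, (G.baseChange κ).B.repr f c ∈ Set.range (algebraMap κ0 κ)}.Finite := by
  classical
  have hS : {c : Γ | (c : ℕ) < m}.Finite := by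
    refine Set.Finite.of_injOn (f := fun c : Γ => (c : ℕ)) (t := Set.Iio m) (fun c hc => hc)
      (fun a _ b _ h => Subtype.ext h) (Set.finite_Iio m)
  have hV : (Set.range (algebraMap κ0 κ)).Finite := Set.finite_range _
  have hF : {φ : Γ →₀ κ | φ.support ⊆ hS.toFinset ∧
      ∀ c, φ c ∈ Set.range (algebraMap κ0 κ)}.Finite := by
    refine Set.Finite.subset (hS.toFinset.finsupp (fun _ => hV.toFinset)).finite_toSet ?_
    rintro φ ⟨h1, h2⟩
    rw [Finset.mem_coe, Finset.mem_finsupp_iff]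
    exact ⟨h1, fun i _ => by rw [Set.Finite.mem_toFinset]; exact h2 i⟩
  refine Set.Finite.of_injOn (f := fun f => (G.baseChange κ).B.repr f) ?_
    (fun a _ b _ h => (G.baseChange κ).B.repr.injective h) hF
  rintro f ⟨h1, h2⟩
  refine ⟨?_, h2⟩
  intro c hc
  rw [Set.Finite.mem_toFinset]
  by_contra hlt
  have hlt' : m ≤ (c : ℕ) := not_lt.1 hlt
  rw [GamAlg.mem_lt_iff] at h1
  exact Finsupp.mem_support_iff.1 hc (h1 c hlt')

theorem finite_dvd {C : Type u} [CommRing C] [IsDedekindDomain C] (J : Ideal C) (hJ : J ≠ ⊥) :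
    {I : Ideal C | J ≤ I}.Finite := by
  have hfin : Finite {x : Ideal C // x ∣ J} := by
    have := UniqueFactorizationMonoid.fintypeSubtypeDvd J hJ
    infer_instance
  have h : (Set.range (Subtype.val : {x : Ideal C // x ∣ J} → Ideal C)).Finite :=
    Set.finite_range _
  refine h.subset (fun I hI => ?_)
  exact ⟨⟨I, Ideal.dvd_iff_le.2 hI⟩, rfl⟩

end

end FINAux

open FINAux

/-- (FIN) -/
theorem exists_exponent {R B κ0 κ : Type u} [CommRing R] [CommRing B] [Algebra R B] [Field κ0]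
    [Finite κ0] [Field κ] [Algebra κ0 κ] [IsAlgClosed κ] [Algebra.IsAlgebraic κ0 κ]
    [Algebra R κ0] [Algebra R κ] [IsScalarTower R κ0 κ] {Γ : AddSubmonoid ℕ} (G : GamAlg Γ R B)
    [IsDedekindDomain (κ ⊗[R] B)] :
    ∃ n : ℕ, n ≠ 0 ∧ ∀ c : ClassGroup (κ ⊗[R] B),
      (∀ τ : κ ≃ₐ[κ0] κ, act G (τ.restrictScalars R) c = c) → c ^ n = 1 := by
  classical
  have : IsAlgClosure κ0 κ := ⟨inferInstance, inferInstance⟩
  have : Normal κ0 κ := IsAlgClosure.normal κ0 κ
  have : IsGalois κ0 κ := ⟨⟩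
  set H : Subgroup (ClassGroup (κ ⊗[R] B)) :=
    { carrier := {c | ∀ τ : κ ≃ₐ[κ0] κ, act G (τ.restrictScalars R) c = c}
      one_mem' := fun τ => map_one _
      mul_mem' := fun {a b} ha hb τ => by rw [map_mul, ha τ, hb τ]
      inv_mem' := fun {a} ha τ => by rw [map_inv, ha τ] } with hH
  -- the finite set of ideals
  set m : ℕ := genus Γ + genus Γ + 1 with hm
  set 𝓘 : Set (Ideal (κ ⊗[R] B)) := ⋃ f ∈ {f : κ ⊗[R] B | f ≠ 0 ∧ (f ∈ (G.baseChange κ).lt m ∧
      ∀ c : Γ, (G.baseChange κ).B.repr f c ∈ Set.range (algebraMap κ0 κ))},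
      {I : Ideal (κ ⊗[R] B) | Ideal.span {f} ≤ I} with h𝓘
  have hfin : 𝓘.Finite := by
    refine Set.Finite.biUnion ?_ ?_
    · exact (finite_rational G m).subset (fun f hf => hf.2)
    · rintro f ⟨hf, -⟩
      refine finite_dvd _ ?_
      rw [Ne, Ideal.span_singleton_eq_bot]
      exact hf
  have key : ∀ c ∈ H, ∃ I ∈ 𝓘, cl I = c := by
    intro c hc
    have hex : ∃ d : ℕ, ∃ I : Ideal (κ ⊗[R] B), I ≠ ⊥ ∧ cl I = c ∧
        Module.finrank κ (κ ⊗[R] B ⧸ I) = d := by
      obtain ⟨I, h1, h2, -⟩ := exists_ideal (G.baseChange κ) c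
      exact ⟨_, I, h1, h2, rfl⟩
    obtain ⟨I, hI0, hIc, hId⟩ := Nat.find_spec hex
    have hmin : ∀ I' : Ideal (κ ⊗[R] B), I' ≠ ⊥ → cl I' = cl I →
        Module.finrank κ (κ ⊗[R] B ⧸ I) ≤ Module.finrank κ (κ ⊗[R] B ⧸ I') := by
      intro I' h1 h2
      rw [hId]
      exact Nat.find_min' hex ⟨I', h1, h2.trans hIc, rfl⟩
    have hsmall : Module.finrank κ (κ ⊗[R] B ⧸ I) ≤ genus Γ := by
      obtain ⟨I', h1, h2, h3⟩ := exists_ideal (G.baseChange κ) c
      exact (hmin I' h1 (h2.trans hIc.symm)).trans h3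
    have hst : ∀ τ : κ ≃ₐ[κ0] κ, I.map (bcm B (τ.restrictScalars R).toAlgHom) = I := by
      intro τ
      have hcl : cl (I.map (bcm B (τ.restrictScalars R).toAlgHom)) = cl I := by
        have h1 := hc τ
        rw [← hIc, act, cmap_cl _ _ hI0] at h1
        exact h1
      have hne : I.map (bcm B (τ.restrictScalars R).toAlgHom) ≠ ⊥ := by
        intro h0
        apply hI0
        rw [Ideal.map_eq_bot_iff_of_injective
          (bcm_injective G _ (τ.restrictScalars R).injective)] at h0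
        exact h0
      exact (min_unique (G.baseChange κ) hI0 hne hcl.symm hmin (finrank_map _ I)).symm
    have hfq : FiniteDimensional κ (κ ⊗[R] B ⧸ I) := (G.baseChange κ).finite_quot hI0
    obtain ⟨f, hf, hf0, hfd⟩ := (G.baseChange κ).exists_mem_lt_of_finrank I
    obtain ⟨f, hfI, hf0, hfm, hfr⟩ := exists_rational (κ0 := κ0) G I m hst
      ⟨f, hf, hf0, (G.baseChange κ).lt_mono (by omega) hfd⟩
    refine ⟨I, ?_, hIc⟩
    rw [h𝓘]
    simp only [Set.mem_iUnion]
    refine ⟨f, ⟨hf0, hfm, hfr⟩, ?_⟩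
    change Ideal.span {f} ≤ I
    rw [Ideal.span_singleton_le_iff_mem]
    exact hfI
  have hHfin : (H : Set (ClassGroup (κ ⊗[R] B))).Finite := by
    refine (hfin.image cl).subset (fun c hc => ?_)
    obtain ⟨I, h1, h2⟩ := key c hc
    exact ⟨I, h1, h2⟩
  have : Finite H := hHfin.to_subtype
  refine ⟨Nat.card H, Nat.card_pos.ne', fun c hc => ?_⟩
  have h1 := pow_card_eq_one' (x := (⟨c, hc⟩ : H))
  exact congrArg Subtype.val h1

end PiCurve
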