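import Mathlib
import Pool.Agent.Pi2.Defs

/-! (FVD) fields with many valuation rings with finite residue field. -/

universe u

namespace PiCurve

open TensorProduct

/-- (FV): finitely many nonzero elements of the algebraic closure `Kb` of `K` are units at some
valuation ring of `Kb` whose trace on `K` has finite residue field. -/
def FV (K Kb : Type u) [Field K] [Field Kb] [Algebra K Kb] : Prop :=
  ∀ T : Finset Kb, (∀ t ∈ T, t ≠ 0) → ∃ V : ValuationSubring Kb,
    (∀ t ∈ T, t ∈ V ∧ t⁻¹ ∈ V) ∧
    Finite (IsLocalRing.ResidueField (V.comap (algebraMap K Kb)))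

/-- (FV1) -/
theorem fv_finite {K Kb : Type u} [Field K] [Finite K] [Field Kb] [Algebra K Kb] : FV K Kb := by
  intro T _
  refine ⟨⊤, fun t _ => ⟨ValuationSubring.mem_top t, ValuationSubring.mem_top _⟩, ?_⟩
  have : Finite ((⊤ : ValuationSubring Kb).comap (algebraMap K Kb)) :=
    Finite.of_injective (fun x => (x : K)) Subtype.val_injective
  exact Finite.of_surjective _ IsLocalRing.residue_surjective

section PID

open Polynomial

/-- in a principal ideal domain, a nonzero polynomial has a multiple by a constant factor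
removed whose reduction modulo a given maximal ideal is nonzero -/
theorem exists_primitive {R : Type*} [CommRing R] [IsDomain R] [IsPrincipalIdealRing R]
    (f : R[X]) (hf : f ≠ 0) : ∃ (g : R) (f' : R[X]), g ≠ 0 ∧ f = C g * f' ∧
      f'.natDegree = f.natDegree ∧
      ∀ P : Ideal R, P.IsMaximal → f'.map (Ideal.Quotient.mk P) ≠ 0 := by
  classical
  letI : NormalizedGCDMonoid R := Classical.choice inferInstance
  refine ⟨f.content, f.primPart, by rwa [Ne, content_eq_zero_iff], f.eq_C_content_mul_primPart,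
    f.natDegree_primPart, ?_⟩
  intro P hP h0
  obtain ⟨π, hπ⟩ := (IsPrincipalIdealRing.principal P).principal
  have hprim := f.isPrimitive_primPart
  have hdvd : C π ∣ f.primPart := by
    rw [C_dvd_iff_dvd_coeff]
    intro i
    have h1 : (f.primPart.map (Ideal.Quotient.mk P)).coeff i = 0 := by rw [h0, coeff_zero]
    rw [coeff_map, Ideal.Quotient.eq_zero_iff_mem, hπ] at h1
    exact Ideal.mem_span_singleton.1 h1
  have hu := hprim π hdvd
  apply hP.ne_top
  rw [hπ]
  exact Ideal.span_singleton_eq_top.2 hu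

theorem finite_of_pow {κ : Type*} [Field κ] (S : Set κ) (hS : S.Finite) (q : ℕ)
    (hinj : ∀ n, Function.Injective (fun x : κ => x ^ (q ^ n)))
    (h : ∀ x : κ, ∃ n0, ∀ n ≥ n0, x ^ (q ^ n) ∈ S) : Finite κ := by
  classical
  by_contra hfin
  rw [not_finite_iff_infinite] at hfin
  obtain ⟨A, hA⟩ := Infinite.exists_subset_card_eq κ (hS.toFinset.card + 1)
  choose n0 hn0 using h
  have h1 : ∀ x ∈ A, (fun x : κ => x ^ (q ^ (A.sup n0))) x ∈ hS.toFinset := by
    intro x hx
    rw [Set.Finite.mem_toFinset]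
    exact hn0 x _ (Finset.le_sup hx)
  have h2 := Finset.card_le_card_of_injOn _ h1 (hinj _).injOn
  omega

theorem exists_poly_of_finite {R K00 K0 : Type*} [CommRing R] [IsDomain R] [Field K00]
    [Algebra R K00] [IsFractionRing R K00] [Field K0] [Algebra K00 K0] [Algebra R K0]
    [IsScalarTower R K00 K0] [FiniteDimensional K00 K0] (x : K0) :
    ∃ f : R[X], f ≠ 0 ∧ f.natDegree ≤ Module.finrank K00 K0 ∧
      f.eval₂ (algebraMap R K0) x = 0 := by
  have hx : IsIntegral K00 x := Algebra.IsIntegral.isIntegral x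
  refine ⟨IsLocalization.integerNormalization (nonZeroDivisors R) (minpoly K00 x), ?_, ?_, ?_⟩
  · rw [Ne, IsFractionRing.integerNormalization_eq_zero_iff]
    exact minpoly.ne_zero hx
  · refine le_trans ?_ (minpoly.natDegree_le x)
    rw [natDegree_le_iff_coeff_eq_zero]
    intro N hN
    by_contra h
    have h1 := IsLocalization.integerNormalization_support (nonZeroDivisors R) (minpoly K00 x)
      (mem_support_iff.2 h)
    rw [mem_support_iff] at h1
    exact h1 (coeff_eq_zero_of_natDegree_lt hN)
  · exact IsLocalization.integerNormalization_aeval_eq_zero _ _ (minpoly.aeval K00 x)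

theorem fv_of_pid {R : Type*} [CommRing R] [IsDomain R] [IsPrincipalIdealRing R]
    {K Kb : Type u} [Field K] [Field Kb] [Algebra K Kb] [Algebra.IsAlgebraic K Kb]
    (j : R →+* K) (hj : Function.Injective j)
    (hmax : ∀ s : R, s ≠ 0 → ∃ P : Ideal R, P.IsMaximal ∧ s ∉ P ∧ Finite (R ⧸ P))
    (q : ℕ) (hq : q = 1 ∨ (q.Prime ∧ (q : K) = 0)) (d : ℕ)
    (halg : ∀ x : K, ∃ n0, ∀ n ≥ n0, ∃ f : R[X], f ≠ 0 ∧ f.natDegree ≤ d ∧
      f.eval₂ j (x ^ (q ^ n)) = 0) : FV K Kb := by
  classical
  intro T hT
  have hq0 : q ≠ 0 := by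
    rcases hq with h | h
    · omega
    · exact h.1.ne_zero
  letI algRK : Algebra R K := j.toAlgebra
  letI algRKb : Algebra R Kb := ((algebraMap K Kb).comp j).toAlgebra
  haveI : IsScalarTower R K Kb := IsScalarTower.of_algebraMap_eq (fun _ => rfl)
  haveI algK : Algebra.IsAlgebraic R K := by
    constructor
    intro x
    obtain ⟨n0, hn0⟩ := halg x
    obtain ⟨f, hf0, -, hf⟩ := hn0 n0 le_rfl
    have h1 : IsAlgebraic R (x ^ (q ^ n0)) := ⟨f, hf0, hf⟩
    exact IsAlgebraic.of_pow (pow_pos (Nat.pos_of_ne_zero hq0) n0) h1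
  haveI algKb : Algebra.IsAlgebraic R Kb := Algebra.IsAlgebraic.trans R K Kb
  have hinjKb : Function.Injective (algebraMap R Kb) :=
    (algebraMap K Kb).injective.comp hj
  have hden : ∀ t : Kb, ∃ s : R, s ≠ 0 ∧ IsIntegral R (s • t) := fun t =>
    (algKb.isAlgebraic t).exists_integral_multiple
  choose den hden0 hdenI using hden
  obtain ⟨P, hP, hsP, hfin⟩ := hmax (∏ t ∈ T, (den t * den t⁻¹))
    (Finset.prod_ne_zero_iff.2 fun t _ => mul_ne_zero (hden0 t) (hden0 t⁻¹))
  have hdenP : ∀ t ∈ T, den t ∉ P ∧ den t⁻¹ ∉ P := by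
    intro t ht
    constructor
    · intro h
      exact hsP (Ideal.mem_of_dvd _ (Finset.dvd_prod_of_mem _ ht) (P.mul_mem_right _ h))
    · intro h
      exact hsP (Ideal.mem_of_dvd _ (Finset.dvd_prod_of_mem _ ht) (P.mul_mem_left _ h))
  -- the valuation ring
  have hsurj : Function.Surjective (algebraMap R Kb).rangeRestrict :=
    RingHom.rangeRestrict_surjective _
  have hItop : P.map (algebraMap R Kb).rangeRestrict ≠ ⊤ := by
    intro h
    have h1 : (1 : (algebraMap R Kb).range) ∈ P.map (algebraMap R Kb).rangeRestrict := by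
      rw [h]; trivial
    rw [Ideal.mem_map_iff_of_surjective _ hsurj] at h1
    obtain ⟨p, hp, hp1⟩ := h1
    have h2 : algebraMap R Kb p = algebraMap R Kb 1 := by
      rw [map_one]
      exact congrArg Subtype.val hp1
    rw [hinjKb h2] at hp
    exact hP.ne_top ((Ideal.eq_top_iff_one _).2 hp)
  obtain ⟨V, hVA, hVI⟩ := Ideal.image_subset_nonunits_valuationSubring _ hItop
  have hRV : ∀ r : R, algebraMap R Kb r ∈ V := fun r => hVA ⟨r, rfl⟩
  have hPV : ∀ p ∈ P, algebraMap R Kb p ∈ V.nonunits := by
    intro p hp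
    exact hVI ⟨(algebraMap R Kb).rangeRestrict p, Ideal.mem_map_of_mem _ hp, rfl⟩
  have hunit : ∀ r : R, r ∉ P → (algebraMap R Kb r)⁻¹ ∈ V := by
    intro r hr
    obtain ⟨y, p, hp, hyp⟩ := hP.exists_inv hr
    have h1 : V.valuation (algebraMap R Kb p) < 1 := hPV p hp
    have h2 : V.valuation (algebraMap R Kb (y * r)) = 1 := by
      have : algebraMap R Kb (y * r) = 1 - algebraMap R Kb p := by
        rw [eq_sub_iff_add_eq, ← map_add, hyp, map_one]
      rw [this, sub_eq_add_neg]
      have h3 : V.valuation (-(algebraMap R Kb p)) < V.valuation 1 := by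
        rw [Valuation.map_neg, map_one]; exact h1
      rw [Valuation.map_add_eq_of_lt_left _ h3, map_one]
    have h4 : V.valuation (algebraMap R Kb r) = 1 := by
      rw [map_mul, map_mul] at h2
      have h5 : V.valuation (algebraMap R Kb y) ≤ 1 := (V.valuation_le_one_iff _).2 (hRV y)
      have h6 : V.valuation (algebraMap R Kb r) ≤ 1 := (V.valuation_le_one_iff _).2 (hRV r)
      by_contra hne
      have h7 : V.valuation (algebraMap R Kb r) < 1 := lt_of_le_of_ne h6 hne
      have h8 : V.valuation (algebraMap R Kb y) * V.valuation (algebraMap R Kb r) < 1 := by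
        rw [mul_comm]
        exact mul_lt_one_of_lt_of_le h7 h5
      exact absurd h2 h8.ne
    rw [← V.valuation_le_one_iff, map_inv₀, h4, inv_one]
  have hint : ∀ x : Kb, IsIntegral R x → x ∈ V := by
    intro x hx
    have h1 : IsIntegral V x := by
      have h2 : (algebraMap R Kb) = (V.subtype).comp ((algebraMap R Kb).codRestrict V.toSubring hRV) :=
        rfl
      obtain ⟨f, hf, hf0⟩ := hx
      refine ⟨f.map ((algebraMap R Kb).codRestrict V.toSubring hRV), hf.map _, ?_⟩
      rw [eval₂_map]
      exact hf0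
    obtain ⟨y, hy⟩ := IsIntegrallyClosed.isIntegral_iff.1 h1
    rw [← hy]
    exact y.2
  have hmemV : ∀ t : Kb, den t ∉ P → t ∈ V := by
    intro t ht
    have h1 : den t • t ∈ V := hint _ (hdenI t)
    have h2 : algebraMap R Kb (den t) ≠ 0 := by
      rw [Ne, map_eq_zero_iff _ hinjKb]; exact hden0 t
    have h3 : t = (algebraMap R Kb (den t))⁻¹ * (den t • t) := by
      rw [Algebra.smul_def, ← mul_assoc, inv_mul_cancel₀ h2, one_mul]
    rw [h3]
    exact V.mul_mem _ _ (hunit _ ht) h1
  refine ⟨V, fun t ht => ⟨hmemV t (hdenP t ht).1, hmemV t⁻¹ (hdenP t ht).2⟩, ?_⟩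
  -- the residue field
  set W := V.comap (algebraMap K Kb) with hW
  have hRW : ∀ r : R, j r ∈ W := fun r => by
    rw [hW, ValuationSubring.mem_comap]; exact hRV r
  let jW : R →+* W := j.codRestrict W.toSubring hRW
  let ρ : R →+* IsLocalRing.ResidueField W := (IsLocalRing.residue W).comp jW
  have hρ : ∀ p ∈ P, ρ p = 0 := by
    intro p hp
    show IsLocalRing.residue W (jW p) = 0
    rw [IsLocalRing.residue_eq_zero_iff, IsLocalRing.mem_maximalIdeal, mem_nonunits_iff]
    intro hu
    have h1 : V.valuation (algebraMap R Kb p) < 1 := hPV p hp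
    obtain ⟨y, hy⟩ := hu.exists_right_inv
    have h2 : algebraMap R Kb p * algebraMap K Kb (y : K) = 1 := by
      have := congrArg (fun z : W => algebraMap K Kb (z : K)) hy
      simp only [MulMemClass.coe_mul, map_mul, OneMemClass.coe_one, map_one] at this
      exact this
    have h3 : V.valuation (algebraMap K Kb (y : K)) ≤ 1 :=
      (V.valuation_le_one_iff _).2 y.2
    have h4 : V.valuation (algebraMap R Kb p) * V.valuation (algebraMap K Kb (y : K)) < 1 :=
      mul_lt_one_of_lt_of_le h1 h3
    rw [← map_mul, h2, map_one] at h4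
    exact lt_irrefl _ h4
  let m : (R ⧸ P) →+* IsLocalRing.ResidueField W := Ideal.Quotient.lift P ρ hρ
  haveI := hfin
  have hS := Polynomial.bUnion_roots_finite m d (Set.finite_univ (α := R ⧸ P))
  letI : Field (R ⧸ P) := Ideal.Quotient.field P
  refine finite_of_pow _ hS q ?_ ?_
  · intro n
    rcases hq with h | ⟨h1, h2⟩
    · subst h
      intro a b hab
      simpa using hab
    · haveI := Fact.mk h1
      have hc : (q : IsLocalRing.ResidueField W) = 0 := by
        have h3 : (q : W) = 0 := by
          apply Subtype.val_injective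
          simpa using h2
        have := congrArg (IsLocalRing.residue W) h3
        simpa using this
      haveI : CharP (IsLocalRing.ResidueField W) q := by
        obtain ⟨p, hp⟩ := CharP.exists (IsLocalRing.ResidueField W)
        have hpq : p ∣ q := (CharP.cast_eq_zero_iff (IsLocalRing.ResidueField W) p q).1 hc
        rcases (Nat.dvd_prime h1).1 hpq with h | h
        · exact absurd h (CharP.char_ne_one (IsLocalRing.ResidueField W) p)
        · rwa [← h]
      exact iterateFrobenius_inj _ q n
  · intro x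
    obtain ⟨w, rfl⟩ := IsLocalRing.residue_surjective x
    obtain ⟨n0, hn0⟩ := halg (w : K)
    refine ⟨n0, fun n hn => ?_⟩
    obtain ⟨f, hf0, hfd, hf⟩ := hn0 n hn
    obtain ⟨g, f', hg, hff, hdeg, hprim⟩ := exists_primitive f hf0
    have h1 : f'.eval₂ j ((w : K) ^ (q ^ n)) = 0 := by
      rw [hff, eval₂_mul, eval₂_C] at hf
      rcases mul_eq_zero.1 hf with h | h
      · exact absurd ((map_eq_zero_iff _ hj).1 h) hg
      · exact h
    have h2 : f'.eval₂ jW (w ^ (q ^ n)) = 0 := by
      apply Subtype.val_injective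
      have := Polynomial.hom_eval₂ f' jW W.subtype (w ^ (q ^ n))
      rw [map_pow] at this
      exact this.trans h1
    have h3 : f'.eval₂ ρ (IsLocalRing.residue W w ^ (q ^ n)) = 0 := by
      have := Polynomial.hom_eval₂ f' jW (IsLocalRing.residue W) (w ^ (q ^ n))
      rw [map_pow, h2, map_zero] at this
      exact this.symm
    rw [Set.mem_iUnion₂]
    refine ⟨f'.map (Ideal.Quotient.mk P), ⟨(natDegree_map_le).trans (hdeg.le.trans hfd),
      fun i => Set.mem_univ _⟩, ?_⟩
    have h4 : (f'.map (Ideal.Quotient.mk P)).map m ≠ 0 := by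
      rw [Ne, Polynomial.map_eq_zero_iff m.injective]
      exact hprim P hP
    simp only [Finset.mem_coe, Multiset.mem_toFinset]
    rw [mem_roots h4, IsRoot.def, eval_map, eval₂_map]
    exact h3

end PID

/-- (FV2) -/
theorem fv_numberField {K Kb : Type u} [Field K] [NumberField K] [Field Kb] [Algebra K Kb]
    [Algebra.IsAlgebraic K Kb] [IsAlgClosed Kb] : FV K Kb := by
  refine fv_of_pid (algebraMap ℤ K) (RingHom.injective_int _) ?_ 1 (Or.inl rfl)
    (Module.finrank ℚ K) ?_
  · intro s hs
    obtain ⟨p, hp1, hp⟩ := Nat.exists_infinite_primes (s.natAbs + 1)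
    have hprime : Prime (p : ℤ) := Nat.prime_iff_prime_int.1 hp
    refine ⟨Ideal.span {(p : ℤ)}, PrincipalIdealRing.isMaximal_of_irreducible hprime.irreducible,
      ?_, ?_⟩
    · rw [Ideal.mem_span_singleton]
      intro h
      have h1 : p ∣ s.natAbs := Int.natCast_dvd.1 h
      have h2 := Nat.le_of_dvd (Int.natAbs_pos.2 hs) h1
      omega
    · haveI : NeZero p := ⟨hp.ne_zero⟩
      exact Finite.of_equiv _ (Int.quotientSpanNatEquivZMod p).symm.toEquiv
  · intro x
    refine ⟨0, fun n _ => ?_⟩
    rw [one_pow, pow_one]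
    exact exists_poly_of_finite (R := ℤ) (K00 := ℚ) x

open IntermediateField.algebraAdjoinAdjoin in
theorem exists_poly_adjoin {k0 K0 : Type*} [Field k0] [Field K0] [Algebra k0 K0] (t : K0)
    [FiniteDimensional (IntermediateField.adjoin k0 {t}) K0] (x : K0) :
    ∃ f : Polynomial (Algebra.adjoin k0 ({t} : Set K0)), f ≠ 0 ∧
      f.natDegree ≤ Module.finrank (IntermediateField.adjoin k0 {t}) K0 ∧
      f.eval₂ (Algebra.adjoin k0 ({t} : Set K0)).val.toRingHom x = 0 :=
  exists_poly_of_finite (R := Algebra.adjoin k0 ({t} : Set K0))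
    (K00 := IntermediateField.adjoin k0 {t}) x

/-- (FV3) `K` is a perfect field, purely inseparable over a global function field `K0` -/
theorem fv_functionField {k0 K0 K Kb : Type u} [Field k0] [Finite k0] [Field K0] [Algebra k0 K0]
    (hK0 : IsFunctionField k0 K0) [Field K] [Algebra K0 K] [IsPurelyInseparable K0 K]
    [Field Kb] [Algebra K Kb] [Algebra.IsAlgebraic K Kb] [IsAlgClosed Kb] : FV K Kb := by
  classical
  obtain ⟨t, -, hfd⟩ := hK0
  haveI := hfd
  let R := Algebra.adjoin k0 ({t} : Set K0)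
  obtain ⟨p, hp⟩ := CharP.exists k0
  have hp0 : p ≠ 0 := CharP.char_ne_zero_of_finite k0 p
  have hprime : p.Prime := CharP.char_prime_of_ne_zero k0 hp0
  haveI := Fact.mk hprime
  haveI : CharP K0 p := charP_of_injective_algebraMap (algebraMap k0 K0).injective p
  haveI : CharP K p := charP_of_injective_algebraMap (algebraMap K0 K).injective p
  let tR : R := ⟨t, Algebra.subset_adjoin rfl⟩
  have hsurj : Function.Surjective (Polynomial.aeval (R := k0) tR) := by
    rintro ⟨y, hy⟩
    have hy' : y ∈ Algebra.adjoin k0 ({t} : Set K0) := hy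
    rw [Algebra.adjoin_singleton_eq_range_aeval] at hy'
    obtain ⟨g, hg⟩ := hy'
    refine ⟨g, Subtype.ext ?_⟩
    rw [Polynomial.aeval_subalgebra_coe]
    exact hg
  haveI : IsPrincipalIdealRing R :=
    IsPrincipalIdealRing.of_surjective (Polynomial.aeval (R := k0) tR).toRingHom hsurj
  haveI : Algebra.FiniteType k0 R := Algebra.FiniteType.of_surjective _ hsurj
  refine fv_of_pid (R := R) ((algebraMap K0 K).comp R.val.toRingHom)
    ((algebraMap K0 K).injective.comp Subtype.val_injective) ?_ p
    (Or.inr ⟨hprime, CharP.cast_eq_zero K p⟩)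
    (Module.finrank (IntermediateField.adjoin k0 {t}) K0) ?_
  · intro s hs
    haveI : IsJacobsonRing R := isJacobsonRing_of_finiteType (A := k0)
    have h1 : (⊥ : Ideal R).jacobson = ⊥ := by
      have := (Ideal.radical_eq_jacobson (⊥ : Ideal R)).symm
      rw [this]
      exact (Ideal.isPrime_bot).radical
    have h2 : s ∉ (⊥ : Ideal R).jacobson := by rw [h1]; exact hs
    rw [Ideal.jacobson, Ideal.mem_sInf] at h2
    push Not at h2
    obtain ⟨P, ⟨-, hP⟩, hsP⟩ := h2
    refine ⟨P, hP, hsP, ?_⟩
    letI : Field (R ⧸ P) := Ideal.Quotient.field P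
    haveI : Algebra.FiniteType k0 (R ⧸ P) :=
      Algebra.FiniteType.of_surjective (Ideal.Quotient.mkₐ k0 P) (Ideal.Quotient.mkₐ_surjective k0 P)
    haveI : Module.Finite k0 (R ⧸ P) := finite_of_finite_type_of_isJacobsonRing k0 (R ⧸ P)
    exact Module.finite_of_finite k0
  · intro x
    obtain ⟨n0, hn0⟩ := (isPurelyInseparable_iff_pow_mem K0 p).1 inferInstance x
    refine ⟨n0, fun n hn => ?_⟩
    have h1 : x ^ (p ^ n) ∈ (algebraMap K0 K).range := by
      obtain ⟨k, rfl⟩ := Nat.exists_eq_add_of_le hn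
      rw [pow_add, pow_mul]
      exact Subring.pow_mem _ hn0 _
    obtain ⟨y, hy⟩ := h1
    obtain ⟨f, hf0, hfd, hf⟩ := exists_poly_adjoin (k0 := k0) t y
    refine ⟨f, hf0, hfd, ?_⟩
    rw [← hy]
    have := Polynomial.hom_eval₂ f R.val.toRingHom (algebraMap K0 K) y
    rw [hf, map_zero] at this
    exact this.symm

end PiCurve
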