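import Mathlib
import Pool.Agent.Pi2.FVD
import Pool.Agent.Helper10.Pi2.Gen0Main

/-! (GEN0) the genus zero case. -/

universe u

namespace PiCurve

open TensorProduct

/-- (GEN0) the genus zero case -/
theorem genus_zero_false {K F Ω : Type u} [Field K] [PerfectField K] [Field F] [Algebra K F]
    [Field Ω] [Algebra F Ω] [Algebra K Ω] [IsScalarTower K F Ω] [IsAlgClosed Ω]
    [Algebra.IsAlgebraic F Ω] (hFV : FV K (algebraicClosure K Ω)) (hF : IsFunctionField K F)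
    {S : Finset (ValuationSubring F)} {W : ValuationSubring Ω} (hW : IsPlace K W)
    (hS : W.comap (algebraMap F Ω) ∉ S) (hr : IsRational K (W.comap (algebraMap F Ω)))
    {γ : Ω ≃ₐ[F] Ω} (hγ : ∀ a : Ω, IsAlgebraic K a → γ a = a)
    (hcomm : ∀ δ ∈ decomp (F := F) W, γ * δ * γ⁻¹ * δ⁻¹ ∈ ramSubgroup K Ω S)
    (E : IntermediateField F Ω) (hE : FiniteDimensional F E)
    (hγE : ∀ x ∈ E, γ x ∈ E) (hγE' : ∀ x ∈ E, γ⁻¹ x ∈ E)
    (hDE : ∀ δ ∈ decomp (F := F) W, ∀ x ∈ E, δ x = x)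
    (hNE : ∀ ν ∈ ramSubgroup K Ω S, ∀ x ∈ E, ν x = x)
    (hr1 : IsRational K (W.comap (algebraMap E Ω)))
    (hr2 : IsRational K ((W.comap (γ⁻¹ : Ω ≃ₐ[F] Ω)).comap (algebraMap E Ω)))
    (hne : W.comap (algebraMap E Ω) ≠ (W.comap (γ⁻¹ : Ω ≃ₐ[F] Ω)).comap (algebraMap E Ω))
    (s : Ω) (hs : s ∈ E) (hgen : ∀ x ∈ E, x ∈ IntermediateField.adjoin K {s}) (hsW : s ∉ W) :
    False :=
  (Reduced.mk hW hS hr hγ hcomm hE hγE hγE' hDE hNE hr1 hr2 hne :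
    Reduced K S W γ E).genus_zero_false hF hFV hs hgen hsW

end PiCurve
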