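import Mathlib
import Pool.Agent.Pi2.DO

/-! (PERF) base change to the algebraic closure of a perfect field. -/

universe u

namespace PiCurve

open TensorProduct

/-- (PERF) base change to the algebraic closure of a perfect field. -/
theorem dedekind_of_perfect {K Kb A : Type u} [Field K] [PerfectField K] [Field Kb] [Algebra K Kb]
    [Algebra.IsAlgebraic K Kb] [CommRing A] [Algebra K A] {Γ : AddSubmonoid ℕ}
    (G : GamAlg Γ K A) (hA : IsDedekindDomain A) :
    IsDedekindDomain (Kb ⊗[K] A) :=
  G.isDedekindDomain_of_perfect

end PiCurve
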