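import Mathlib
import Pool.Agent.Pi2.Defs

/-! (FROB) residue fields of valuation rings of algebraically closed fields, lifting of
automorphisms. -/

universe u

namespace PiCurve

open TensorProduct Polynomial

namespace FROBAux

section basic

variable {K L : Type u} [Field K] [Field L] [Algebra K L] (V : ValuationSubring L)

/-- A nonzero polynomial can be scaled so that it has coefficients in the valuation ring, one of
them being one. -/
theorem exists_scale (W : ValuationSubring K) (p : K[X]) (hp : p ≠ 0) :
    ∃ (c : K) (q : W[X]), c ≠ 0 ∧ q.map (algebraMap W K) = C c * p ∧ ∃ i, q.coeff i = 1 := by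
  classical
  obtain ⟨i, hi, hmax⟩ := Finset.exists_max_image p.support (fun i => W.valuation (p.coeff i))
    (Polynomial.support_nonempty.2 hp)
  have hi0 : p.coeff i ≠ 0 := Polynomial.mem_support_iff.1 hi
  have hmem : ∀ j, (p.coeff i)⁻¹ * p.coeff j ∈ W := by
    intro j
    rw [← W.valuation_le_one_iff, map_mul, map_inv₀]
    by_cases hj : p.coeff j = 0
    · rw [hj, map_zero, mul_zero]
      exact zero_le_one
    · have h1 := hmax j (Polynomial.mem_support_iff.2 hj)
      have h2 : W.valuation (p.coeff i) ≠ 0 := (Valuation.ne_zero_iff _).2 hi0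
      calc (W.valuation (p.coeff i))⁻¹ * W.valuation (p.coeff j)
          ≤ (W.valuation (p.coeff i))⁻¹ * W.valuation (p.coeff i) := by
            exact mul_le_mul_right h1 _
        _ = 1 := inv_mul_cancel₀ h2
  have hlift : C (p.coeff i)⁻¹ * p ∈ Polynomial.lifts (algebraMap W K) := by
    rw [Polynomial.lifts_iff_coeff_lifts]
    intro j
    rw [Polynomial.coeff_C_mul]
    exact ⟨⟨_, hmem j⟩, rfl⟩
  obtain ⟨q, hq⟩ := hlift
  refine ⟨(p.coeff i)⁻¹, q, inv_ne_zero hi0, hq, i, ?_⟩
  have h1 : algebraMap W K (q.coeff i) = 1 := by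
    rw [← Polynomial.coeff_map]
    have : Polynomial.map (algebraMap W K) q = C (p.coeff i)⁻¹ * p := hq
    rw [this, Polynomial.coeff_C_mul, inv_mul_cancel₀ hi0]
  exact Subtype.ext h1

/-- The restriction of the structure map to valuation rings. -/
noncomputable def resMap : V.comap (algebraMap K L) →+* V where
  toFun r := ⟨algebraMap K L r, r.2⟩
  map_one' := Subtype.ext (by simp)
  map_mul' x y := Subtype.ext (by simp)
  map_zero' := Subtype.ext (by simp)
  map_add' x y := Subtype.ext (by simp)

theorem resMap_coe (r : V.comap (algebraMap K L)) : (resMap V r : L) = algebraMap K L r := rfl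

instance : IsLocalHom (resMap (K := K) V) := by
  constructor
  intro r hr
  have h0 : (resMap V r : L) ≠ 0 := by
    intro h
    have : resMap V r = 0 := Subtype.ext h
    rw [this] at hr
    exact not_isUnit_zero hr
  obtain ⟨s, hs⟩ := hr.exists_right_inv
  have hs' : (algebraMap K L r) * (s : L) = 1 := congrArg Subtype.val hs
  have hr0 : (r : K) ≠ 0 := by
    intro h
    rw [resMap_coe, h, map_zero] at h0
    exact h0 rfl
  have hinv : (r : K)⁻¹ ∈ V.comap (algebraMap K L) := by
    rw [ValuationSubring.mem_comap, map_inv₀]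
    have : (s : L) = (algebraMap K L r)⁻¹ := by
      rw [resMap_coe] at h0
      exact eq_inv_of_mul_eq_one_right hs'
    rw [← this]
    exact s.2
  exact IsUnit.of_mul_eq_one ⟨_, hinv⟩ (Subtype.ext (mul_inv_cancel₀ hr0))

end basic

end FROBAux

open FROBAux

/-- (FROB) the residue field of a valuation ring of an algebraically closed field -/
theorem residue_algClosed {Kb : Type u} [Field Kb] [IsAlgClosed Kb] (V : ValuationSubring Kb) :
    IsAlgClosed (IsLocalRing.ResidueField V) := by
  apply IsAlgClosed.of_exists_root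
  intro p hp hirr
  have hlift : p ∈ Polynomial.lifts (IsLocalRing.residue V) := by
    rw [Polynomial.lifts_iff_coeff_lifts]
    intro j
    exact IsLocalRing.residue_surjective _
  obtain ⟨q, hq, hdeg, hmon⟩ := Polynomial.lifts_and_natDegree_eq_and_monic hlift hp
  have hq0 : (q.map (algebraMap V Kb)).degree ≠ 0 := by
    intro h
    have h1 := Polynomial.natDegree_eq_of_degree_eq_some h
    rw [hmon.natDegree_map, hdeg] at h1
    exact hirr.natDegree_pos.ne' h1
  obtain ⟨y, hy⟩ := IsAlgClosed.exists_root _ hq0
  have hint : IsIntegral V y := ⟨q, hmon, by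
    rw [← Polynomial.eval_map]; exact hy⟩
  obtain ⟨z, rfl⟩ := IsIntegrallyClosed.isIntegral_iff.1 hint
  refine ⟨IsLocalRing.residue V z, ?_⟩
  have h1 : q.eval z = 0 := by
    have h2 : algebraMap V Kb (q.eval z) = 0 := by
      rw [← Polynomial.eval₂_at_apply, ← Polynomial.eval_map]
      exact hy
    exact (map_eq_zero_iff _ (IsFractionRing.injective V Kb)).1 h2
  rw [← hq, Polynomial.eval_map, Polynomial.eval₂_at_apply, h1, map_zero]

/-- (FROB) the residue field extension is algebraic -/
theorem exists_residue_hom {K Kb : Type u} [Field K] [Field Kb] [Algebra K Kb]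
    [Algebra.IsAlgebraic K Kb] (V : ValuationSubring Kb) :
    ∃ j : IsLocalRing.ResidueField (V.comap (algebraMap K Kb)) →+* IsLocalRing.ResidueField V,
      (∀ r : V.comap (algebraMap K Kb),
        j (IsLocalRing.residue _ r) = IsLocalRing.residue V ⟨algebraMap K Kb r, r.2⟩) ∧
      ∀ x : IsLocalRing.ResidueField V,
        ∃ p : Polynomial (IsLocalRing.ResidueField (V.comap (algebraMap K Kb))),
          p ≠ 0 ∧ p.eval₂ j x = 0 := by
  refine ⟨IsLocalRing.ResidueField.map (resMap V), fun r => rfl, fun x => ?_⟩
  obtain ⟨y, rfl⟩ := IsLocalRing.residue_surjective x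
  obtain ⟨p, hp0, hp⟩ := Algebra.IsAlgebraic.isAlgebraic (R := K) (y : Kb)
  obtain ⟨c, q, hc, hq, i, hi⟩ := exists_scale (V.comap (algebraMap K Kb)) p hp0
  refine ⟨q.map (IsLocalRing.residue _), ?_, ?_⟩
  · intro h
    have h1 : (q.map (IsLocalRing.residue (V.comap (algebraMap K Kb)))).coeff i = 0 := by
      rw [h, Polynomial.coeff_zero]
    rw [Polynomial.coeff_map, hi, map_one] at h1
    exact one_ne_zero h1
  · rw [Polynomial.eval₂_map]
    have hcomp : (IsLocalRing.ResidueField.map (resMap V)).comp
        (IsLocalRing.residue (V.comap (algebraMap K Kb))) =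
        (IsLocalRing.residue V).comp (resMap V) := rfl
    rw [hcomp, ← Polynomial.eval₂_map, Polynomial.eval₂_at_apply, Polynomial.eval_map]
    have h1 : q.eval₂ (resMap V) y = 0 := by
      apply Subtype.ext
      change V.subtype (q.eval₂ (resMap V) y) = V.subtype 0
      rw [Polynomial.hom_eval₂, map_zero]
      have h2 : V.subtype.comp (resMap V) = (algebraMap K Kb).comp
          (algebraMap (V.comap (algebraMap K Kb)) K) := rfl
      rw [h2, ← Polynomial.eval₂_map, hq, Polynomial.eval₂_mul]
      have h3 : Polynomial.eval₂ (algebraMap K Kb) (V.subtype y) p = 0 := hp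
      rw [h3, mul_zero]
    rw [h1, map_zero]


namespace FROBAux

section frac

variable {K L : Type u} [Field K] [Field L] [Algebra K L] (V : ValuationSubring L)

theorem isIntegral_of_forall (W : ValuationSubring K) {y : L}
    (h : ∀ V' : ValuationSubring L, (∀ r : W, algebraMap K L r ∈ V') → y ∈ V') :
    IsIntegral W y := by
  have h1 : y ∈ (⨅ V : {V : ValuationSubring L // (Set.range (fun r : W => algebraMap K L r)) ⊆
      V.toSubring}, V.1.toSubring) := by
    rw [Subring.mem_iInf]
    rintro ⟨V', hV'⟩
    exact h V' (fun r => hV' ⟨r, rfl⟩)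
  rw [iInf_valuationSubring_superset] at h1
  have h2 : IsIntegral (Subring.closure (Set.range (fun r : W => algebraMap K L r))) y := h1
  have hcl : Subring.closure (Set.range (fun r : W => algebraMap K L r)) =
      (algebraMap W L).range := by
    have : Set.range (fun r : W => algebraMap K L r) = ((algebraMap W L).range : Set L) := by
      ext z
      constructor
      · rintro ⟨r, rfl⟩
        exact ⟨r, rfl⟩
      · rintro ⟨r, rfl⟩
        exact ⟨r, rfl⟩
    rw [this, Subring.closure_eq]
  rw [hcl] at h2
  obtain ⟨p, hp, hpy⟩ := h2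
  have hlift : p ∈ Polynomial.lifts (algebraMap W L).rangeRestrict := by
    rw [Polynomial.lifts_iff_coeff_lifts]
    intro j
    exact (algebraMap W L).rangeRestrict_surjective _
  obtain ⟨q, hq, hdeg, hmon⟩ := Polynomial.lifts_and_natDegree_eq_and_monic hlift hp
  refine ⟨q, hmon, ?_⟩
  rw [← hq, Polynomial.eval₂_map] at hpy
  exact hpy

/-- Every element of a valuation ring of an algebraic extension is a quotient of integral
elements, the denominator being a unit. -/
theorem exists_frac [Algebra.IsAlgebraic K L] {x : L} (hx : x ∈ V) :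
    ∃ s : L, IsIntegral (V.comap (algebraMap K L)) s ∧
      IsIntegral (V.comap (algebraMap K L)) (x * s) ∧ V.valuation s = 1 := by
  classical
  by_cases hx0 : x = 0
  · refine ⟨1, isIntegral_one, ?_, map_one _⟩
    rw [hx0, zero_mul]
    exact isIntegral_zero
  set W := V.comap (algebraMap K L) with hW
  obtain ⟨p, hp0, hp⟩ := Algebra.IsAlgebraic.isAlgebraic (R := K) x
  obtain ⟨c, q, hc, hq, i, hi⟩ := exists_scale W p hp0
  have hqx : q.eval₂ (algebraMap W L) x = 0 := by
    have h2 : algebraMap W L = (algebraMap K L).comp (algebraMap W K) := rfl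
    rw [h2, ← Polynomial.eval₂_map, hq, Polynomial.eval₂_mul]
    have h3 : Polynomial.eval₂ (algebraMap K L) x p = 0 := hp
    rw [h3, mul_zero]
  -- the largest index with a unit coefficient
  have hne : (q.support.filter (fun j => IsUnit (q.coeff j))).Nonempty :=
    ⟨i, Finset.mem_filter.2 ⟨Polynomial.mem_support_iff.2 (by rw [hi]; exact one_ne_zero), by
      rw [hi]; exact isUnit_one⟩⟩
  obtain ⟨m, hm, hmax⟩ := Finset.exists_max_image _ (fun j : ℕ => j) hne
  rw [Finset.mem_filter] at hm
  set y : L := ∑ j ∈ q.support.filter (fun j => m ≤ j), algebraMap W L (q.coeff j) * x ^ (j - m)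
    with hy
  set z : L := ∑ j ∈ q.support.filter (fun j => ¬ m ≤ j),
    algebraMap W L (q.coeff j) * (x⁻¹) ^ (m - 1 - j) with hz
  have hsum : x * y = - z ∨ y = 0 := by
    rcases Nat.eq_zero_or_pos m with h0 | hpos
    · right
      rw [hy, h0]
      rw [Polynomial.eval₂_eq_sum, Polynomial.sum] at hqx
      rw [← hqx]
      rw [Finset.filter_true_of_mem (fun _ _ => Nat.zero_le _)]
      exact Finset.sum_congr rfl (fun j _ => by rw [Nat.sub_zero])
    · left
      rw [Polynomial.eval₂_eq_sum, Polynomial.sum,
        ← Finset.sum_filter_add_sum_filter_not q.support (fun j => m ≤ j)] at hqx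
      have h1 : ∑ j ∈ q.support.filter (fun j => m ≤ j), algebraMap W L (q.coeff j) * x ^ j =
          x ^ (m - 1) * (x * y) := by
        rw [hy, Finset.mul_sum, Finset.mul_sum]
        refine Finset.sum_congr rfl (fun j hj => ?_)
        rw [Finset.mem_filter] at hj
        have : x ^ j = x ^ (m - 1) * (x * x ^ (j - m)) := by
          rw [← pow_succ', ← pow_add]
          congr 1
          omega
        rw [this]
        ring
      have h2 : ∑ j ∈ q.support.filter (fun j => ¬ m ≤ j), algebraMap W L (q.coeff j) * x ^ j =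
          x ^ (m - 1) * z := by
        rw [hz, Finset.mul_sum]
        refine Finset.sum_congr rfl (fun j hj => ?_)
        rw [Finset.mem_filter] at hj
        have : x ^ j = x ^ (m - 1) * (x⁻¹) ^ (m - 1 - j) := by
          have h3 : x ^ (m - 1) = x ^ j * x ^ (m - 1 - j) := by
            rw [← pow_add]
            congr 1
            omega
          rw [h3, mul_assoc, ← mul_pow, mul_inv_cancel₀ hx0, one_pow, mul_one]
        rw [this]
        ring
      rw [h1, h2, ← mul_add] at hqx
      rcases mul_eq_zero.1 hqx with h3 | h3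
      · exact absurd h3 (pow_ne_zero _ hx0)
      · exact eq_neg_of_add_eq_zero_left h3
  -- membership in all valuation rings
  have hyV : ∀ V' : ValuationSubring L, (∀ r : W, algebraMap K L r ∈ V') → x ∈ V' → y ∈ V' := by
    intro V' h1 h2
    exact sum_mem (fun j _ => mul_mem (h1 _) (pow_mem h2 _))
  have hzV : ∀ V' : ValuationSubring L, (∀ r : W, algebraMap K L r ∈ V') → x⁻¹ ∈ V' → z ∈ V' := by
    intro V' h1 h2
    exact sum_mem (fun j _ => mul_mem (h1 _) (pow_mem h2 _))
  have hWV : ∀ r : W, algebraMap K L r ∈ V := fun r => r.2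
  -- the valuation of y
  have hyval : V.valuation y = 1 := by
    have hsplit : y = algebraMap W L (q.coeff m) +
        ∑ j ∈ (q.support.filter (fun j => m ≤ j)).erase m,
          algebraMap W L (q.coeff j) * x ^ (j - m) := by
      rw [hy, ← Finset.add_sum_erase _ _ (Finset.mem_filter.2 ⟨hm.1, le_refl m⟩)]
      rw [Nat.sub_self, pow_zero, mul_one]
    have h1 : V.valuation (algebraMap W L (q.coeff m)) = 1 := by
      have h2 : IsUnit (resMap (K := K) V (q.coeff m)) := hm.2.map _
      exact (V.valuation_eq_one_iff _).1 h2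
    have h2 : V.valuation (∑ j ∈ (q.support.filter (fun j => m ≤ j)).erase m,
          algebraMap W L (q.coeff j) * x ^ (j - m)) < 1 := by
      apply Valuation.map_sum_lt _ one_ne_zero
      intro j hj
      rw [Finset.mem_erase, Finset.mem_filter] at hj
      have h3 : ¬ IsUnit (q.coeff j) := by
        intro h4
        have := hmax j (Finset.mem_filter.2 ⟨hj.2.1, h4⟩)
        exact hj.1 (le_antisymm this hj.2.2)
      have h4 : ¬ IsUnit (resMap (K := K) V (q.coeff j)) := fun h5 =>
        h3 (isUnit_of_map_unit _ _ h5)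
      have h5 : V.valuation (algebraMap W L (q.coeff j)) < 1 := by
        have := (V.valuation_lt_one_iff (resMap (K := K) V (q.coeff j))).1
          ((IsLocalRing.mem_maximalIdeal _).2 h4)
        exact this
      rw [map_mul, map_pow]
      have h6 : V.valuation x ^ (j - m) ≤ 1 := pow_le_one₀ zero_le ((V.valuation_le_one_iff x).2 hx)
      calc V.valuation (algebraMap W L (q.coeff j)) * V.valuation x ^ (j - m)
          ≤ V.valuation (algebraMap W L (q.coeff j)) * 1 := mul_le_mul_right h6 _
        _ < 1 := by rw [mul_one]; exact h5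
    rw [hsplit, Valuation.map_add_eq_of_lt_left, h1]
    rw [h1]
    exact h2
  have hy0 : y ≠ 0 := by
    intro h
    rw [h, map_zero] at hyval
    exact zero_ne_one hyval
  have hxy : x * y = - z := hsum.resolve_right hy0
  have hboth : ∀ V' : ValuationSubring L, (∀ r : W, algebraMap K L r ∈ V') →
      y ∈ V' ∧ x * y ∈ V' := by
    intro V' h1
    rcases V'.mem_or_inv_mem x with h2 | h2
    · exact ⟨hyV V' h1 h2, mul_mem h2 (hyV V' h1 h2)⟩
    · have h3 : x * y ∈ V' := by
        rw [hxy]
        exact neg_mem (hzV V' h1 h2)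
      refine ⟨?_, h3⟩
      have h4 : y = x⁻¹ * (x * y) := by
        rw [← mul_assoc, inv_mul_cancel₀ hx0, one_mul]
      rw [h4]
      exact mul_mem h2 h3
  exact ⟨y, isIntegral_of_forall W (fun V' h => (hboth V' h).1),
    isIntegral_of_forall W (fun V' h => (hboth V' h).2), hyval⟩

end frac


theorem charP_of_expChar_aux {K : Type u} [Field K] (q : ℕ) (h : ExpChar K q) (hq : q ≠ 1) :
    CharP K q := by
  cases h with
  | zero => exact absurd rfl hq
  | prime _ => assumption

section galois

variable {K L : Type u} [Field K] [Field L] [Algebra K L] (V : ValuationSubring L)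

/-- The Galois group acts on the integral closure. -/
@[implicit_reducible]
noncomputable def actB : MulSemiringAction Gal(L/K) (integralClosure (V.comap (algebraMap K L)) L) where
  smul g b := ⟨g b, (b.2 : IsIntegral (V.comap (algebraMap K L)) (b : L)).map
    (g.toAlgHom.restrictScalars (V.comap (algebraMap K L)))⟩
  one_smul _ := rfl
  mul_smul _ _ _ := rfl
  smul_zero g := Subtype.ext (map_zero g)
  smul_add g _ _ := Subtype.ext (map_add g _ _)
  smul_one g := Subtype.ext (map_one g)
  smul_mul g _ _ := Subtype.ext (map_mul g _ _)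

/-- Integral elements lie in the valuation ring. -/
noncomputable def incl : integralClosure (V.comap (algebraMap K L)) L →+* V where
  toFun b := ⟨b, by
    have h1 : IsIntegral V (b : L) := by
      obtain ⟨p, hp, hpb⟩ := b.2
      refine ⟨p.map (resMap V), hp.map _, ?_⟩
      rw [Polynomial.eval₂_map]
      exact hpb
    obtain ⟨z, hz⟩ := IsIntegrallyClosed.isIntegral_iff.1 h1
    rw [← hz]
    exact z.2⟩
  map_one' := rfl
  map_mul' x y := rfl
  map_zero' := rfl
  map_add' x y := rfl

/-- The residue map on the integral closure. -/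
noncomputable def resB : integralClosure (V.comap (algebraMap K L)) L →+*
    IsLocalRing.ResidueField V := (IsLocalRing.residue V).comp (incl V)

theorem resB_surjective [IsAlgClosed L] [Algebra.IsAlgebraic K L] :
    Function.Surjective (resB (K := K) V) := by
  intro x
  obtain ⟨j, hj, hjalg⟩ := exists_residue_hom (K := K) V
  obtain ⟨p, hp0, hp⟩ := hjalg x
  -- monic
  set p' := C (p.leadingCoeff)⁻¹ * p with hp'
  have hmon : p'.Monic := by
    rw [hp', mul_comm]
    exact Polynomial.monic_mul_leadingCoeff_inv hp0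
  have hp'x : p'.eval₂ j x = 0 := by
    rw [hp', Polynomial.eval₂_mul, hp, mul_zero]
  have hlift : p' ∈ Polynomial.lifts (IsLocalRing.residue (V.comap (algebraMap K L))) := by
    rw [Polynomial.lifts_iff_coeff_lifts]
    intro j
    exact IsLocalRing.residue_surjective _
  obtain ⟨q, hq, hdeg, hqmon⟩ := Polynomial.lifts_and_natDegree_eq_and_monic hlift hmon
  set B := integralClosure (V.comap (algebraMap K L)) L with hB
  have hsplit := IsAlgClosed.splits (q.map (algebraMap (V.comap (algebraMap K L)) L))
  have hprod := hsplit.eq_prod_roots_of_monic (hqmon.map _)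
  have hint : ∀ r ∈ (q.map (algebraMap (V.comap (algebraMap K L)) L)).roots, r ∈ B := by
    intro r hr
    rw [Polynomial.mem_roots (hqmon.map _).ne_zero, Polynomial.IsRoot.def, Polynomial.eval_map] at hr
    exact ⟨q, hqmon, hr⟩
  -- lift the factorisation to B
  obtain ⟨s, hs⟩ : ∃ s : Multiset B, s.map (fun b : B => (b : L)) =
      (q.map (algebraMap (V.comap (algebraMap K L)) L)).roots := by
    have : ∀ t : Multiset L, (∀ r ∈ t, r ∈ B) → ∃ s : Multiset B, s.map (fun b : B => (b : L)) = t := by
      intro t ht
      exact ⟨t.pmap Subtype.mk ht, by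
        rw [Multiset.map_pmap]
        exact (Multiset.pmap_eq_map _ (fun a : L => a) _ _).trans (Multiset.map_id' t)⟩
    exact this _ hint
  have hqB : q.map (algebraMap (V.comap (algebraMap K L)) B) =
      (s.map (fun b => X - C b)).prod := by
    apply Polynomial.map_injective (algebraMap B L) Subtype.val_injective
    rw [Polynomial.map_map, Polynomial.map_multiset_prod, Multiset.map_map]
    have h1 : (algebraMap B L).comp (algebraMap (V.comap (algebraMap K L)) B) =
        algebraMap (V.comap (algebraMap K L)) L := rfl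
    rw [h1, hprod, ← hs, Multiset.map_map]
    congr 1
    refine Multiset.map_congr rfl (fun b _ => ?_)
    simp
  have hfin : ((s.map (fun b => X - C b)).prod).eval₂ (resB V) x = 0 := by
    rw [← hqB, Polynomial.eval₂_map]
    have h1 : (resB (K := K) V).comp (algebraMap (V.comap (algebraMap K L)) B) =
        j.comp (IsLocalRing.residue _) := by
      ext r
      exact (hj r).symm
    rw [h1, ← Polynomial.eval₂_map, hq, hp'x]
  rw [← Polynomial.coe_eval₂RingHom, map_multiset_prod, Multiset.map_map,
    Multiset.prod_eq_zero_iff, Multiset.mem_map] at hfin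
  obtain ⟨b, -, hb⟩ := hfin
  refine ⟨b, ?_⟩
  simp only [Function.comp_apply, Polynomial.coe_eval₂RingHom, Polynomial.eval₂_sub,
    Polynomial.eval₂_X, Polynomial.eval₂_C] at hb
  exact (sub_eq_zero.1 hb).symm


theorem exists_lift_galois [IsAlgClosed L] [IsGalois K L]
    (τ : IsLocalRing.ResidueField V ≃+* IsLocalRing.ResidueField V)
    (hτ : ∀ (a : K) (ha : algebraMap K L a ∈ V),
      τ (IsLocalRing.residue V ⟨_, ha⟩) = IsLocalRing.residue V ⟨_, ha⟩) :
    ∃ σ : Gal(L/K), ∀ (x : L) (hx : x ∈ V), ∃ hx' : σ x ∈ V,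
      IsLocalRing.residue V ⟨σ x, hx'⟩ = τ (IsLocalRing.residue V ⟨x, hx⟩) := by
  classical
  set W := V.comap (algebraMap K L) with hW
  set B := integralClosure W L with hB
  let : MulSemiringAction Gal(L/K) B := actB V
  have hsm : ∀ (g : Gal(L/K)) (b : B), ((g • b : B) : L) = g (b : L) := fun _ _ => rfl
  have : SMulCommClass Gal(L/K) W B := by
    constructor
    intro g w b
    apply Subtype.ext
    rw [hsm]
    change g ((w : K) • (b : L)) = (w : K) • (g (b : L))
    rw [map_smul]
  let : TopologicalSpace B := ⊥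
  have : DiscreteTopology B := ⟨rfl⟩
  have : ContinuousSMul Gal(L/K) B := by
    rw [continuousSMul_iff_stabilizer_isOpen]
    intro b
    have h1 := stabilizer_isOpen_of_isIntegral (K := K) (b : L)
    convert h1 using 2
    ext g
    rw [MulAction.mem_stabilizer_iff, MulAction.mem_stabilizer_iff, Subtype.ext_iff]
    rfl
  have : Algebra.IsInvariant W B Gal(L/K) := by
    constructor
    intro b hb
    have h1 : (b : L) ∈ (⊥ : IntermediateField K L) := by
      rw [InfiniteGalois.mem_bot_iff_fixed]
      intro g
      exact congrArg Subtype.val (hb g)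
    rw [IntermediateField.mem_bot] at h1
    obtain ⟨k, hk⟩ := h1
    have h2 : IsIntegral W (algebraMap K L k) := by
      rw [hk]
      exact b.2
    have h3 : IsIntegral W k := (isIntegral_algebraMap_iff (algebraMap K L).injective).1 h2
    obtain ⟨w, hw⟩ := IsIntegrallyClosed.isIntegral_iff.1 h3
    refine ⟨w, Subtype.ext ?_⟩
    rw [← hk, ← hw]
    rfl
  set Q : Ideal B := RingHom.ker (resB (K := K) V) with hQ
  set P : Ideal W := IsLocalRing.maximalIdeal W with hP
  have : Q.IsPrime := RingHom.ker_isPrime _
  have : Q.LiesOver P := by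
    constructor
    ext r
    rw [Ideal.mem_comap, hQ, RingHom.mem_ker]
    have h1 : resB (K := K) V (algebraMap W B r) = IsLocalRing.residue V (resMap V r) := rfl
    rw [h1, IsLocalRing.residue_eq_zero_iff, hP, IsLocalRing.mem_maximalIdeal,
      IsLocalRing.mem_maximalIdeal, mem_nonunits_iff, mem_nonunits_iff, not_iff_not]
    exact ⟨fun h => h.map _, fun h => isUnit_of_map_unit _ _ h⟩
  have hsurj := Ideal.Quotient.stabilizerHom_surjective_of_profinite (G := Gal(L/K)) P Q
  -- the automorphism of the quotient
  set e : B ⧸ Q ≃+* IsLocalRing.ResidueField V :=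
    RingHom.quotientKerEquivOfSurjective (resB_surjective (K := K) V) with he
  have he1 : ∀ b : B, e (Ideal.Quotient.mk Q b) = resB (K := K) V b := fun b => rfl
  set τ' : (B ⧸ Q) ≃ₐ[W ⧸ P] (B ⧸ Q) :=
    AlgEquiv.ofRingEquiv (f := (e.trans τ).trans e.symm) (by
      intro w
      obtain ⟨w, rfl⟩ := Ideal.Quotient.mk_surjective w
      have h1 : algebraMap (W ⧸ P) (B ⧸ Q) (Ideal.Quotient.mk P w) =
          Ideal.Quotient.mk Q (algebraMap W B w) := rfl
      rw [h1, RingEquiv.trans_apply, RingEquiv.trans_apply, RingEquiv.symm_apply_eq, he1]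
      exact hτ w w.2) with hτ'
  obtain ⟨⟨g, hg⟩, hgτ⟩ := hsurj τ'
  have key : ∀ b : B, resB (K := K) V (g • b) = τ (resB (K := K) V b) := by
    intro b
    have h1 := DFunLike.congr_fun hgτ (Ideal.Quotient.mk Q b)
    have h2 : (Ideal.Quotient.stabilizerHom Q P Gal(L/K) ⟨g, hg⟩) (Ideal.Quotient.mk Q b) =
        Ideal.Quotient.mk Q (g • b) := rfl
    rw [h2] at h1
    have h3 : τ' (Ideal.Quotient.mk Q b) = e.symm (τ (e (Ideal.Quotient.mk Q b))) := rfl
    rw [h3] at h1
    have h4 := congrArg e h1
    rw [he1, RingEquiv.apply_symm_apply, he1] at h4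
    exact h4
  refine ⟨g, fun x hx => ?_⟩
  obtain ⟨s, hs, hxs, hsv⟩ := exists_frac (K := K) V hx
  set s' : B := ⟨s, hs⟩ with hs'
  set a' : B := ⟨x * s, hxs⟩ with ha'
  have hsu : resB (K := K) V s' ≠ 0 := by
    intro h
    have h1 : IsLocalRing.residue V (incl (K := K) V s') = 0 := h
    rw [IsLocalRing.residue_eq_zero_iff] at h1
    have h2 := (V.valuation_lt_one_iff _).1 h1
    have h3 : V.valuation s < 1 := h2
    rw [hsv] at h3
    exact lt_irrefl _ h3
  have hgs : V.valuation (g s) = 1 := by
    have h1 : resB (K := K) V (g • s') ≠ 0 := by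
      rw [key]
      exact (map_ne_zero τ).2 hsu
    have h2 : IsLocalRing.residue V (incl (K := K) V (g • s')) ≠ 0 := h1
    rw [Ne, IsLocalRing.residue_eq_zero_iff, IsLocalRing.mem_maximalIdeal, mem_nonunits_iff,
      not_not] at h2
    exact (V.valuation_eq_one_iff _).1 h2
  have hgs0 : g s ≠ 0 := by
    intro h
    rw [h, map_zero] at hgs
    exact zero_ne_one hgs
  have hga : g (x * s) ∈ V := (incl (K := K) V (g • a')).2
  have hgx : g x ∈ V := by
    rw [← V.valuation_le_one_iff]
    have h1 := (V.valuation_le_one_iff _).2 hga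
    rw [map_mul, map_mul, hgs, mul_one] at h1
    exact h1
  refine ⟨hgx, ?_⟩
  have h1 : IsLocalRing.residue V ⟨g x, hgx⟩ * resB (K := K) V (g • s') =
      resB (K := K) V (g • a') := by
    have h2 : (⟨g x, hgx⟩ : V) * incl (K := K) V (g • s') = incl (K := K) V (g • a') := by
      apply Subtype.ext
      exact (map_mul g x s).symm
    change IsLocalRing.residue V ⟨g x, hgx⟩ * IsLocalRing.residue V (incl (K := K) V (g • s')) =
      IsLocalRing.residue V (incl (K := K) V (g • a'))
    rw [← map_mul, h2]
  have h3 : IsLocalRing.residue V ⟨x, hx⟩ * resB (K := K) V s' = resB (K := K) V a' := by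
    have h2 : (⟨x, hx⟩ : V) * incl (K := K) V s' = incl (K := K) V a' := rfl
    change IsLocalRing.residue V ⟨x, hx⟩ * IsLocalRing.residue V (incl (K := K) V s') =
      IsLocalRing.residue V (incl (K := K) V a')
    rw [← map_mul, h2]
  rw [key, key, ← h3, map_mul] at h1
  exact mul_right_cancel₀ ((map_ne_zero τ).2 hsu) h1

end galois

end FROBAux

/-- (FROB) automorphisms of the residue field lift -/
theorem exists_lift {K Kb : Type u} [Field K] [Field Kb] [Algebra K Kb] [IsAlgClosed Kb]
    [Algebra.IsAlgebraic K Kb] (V : ValuationSubring Kb)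
    (hfin : Finite (IsLocalRing.ResidueField (V.comap (algebraMap K Kb))))
    (τ : IsLocalRing.ResidueField V ≃+* IsLocalRing.ResidueField V)
    (hτ : ∀ (a : K) (ha : algebraMap K Kb a ∈ V),
      τ (IsLocalRing.residue V ⟨_, ha⟩) = IsLocalRing.residue V ⟨_, ha⟩) :
    ∃ σ : Kb ≃ₐ[K] Kb, ∀ (x : Kb) (hx : x ∈ V), ∃ hx' : σ x ∈ V,
      IsLocalRing.residue V ⟨σ x, hx'⟩ = τ (IsLocalRing.residue V ⟨x, hx⟩) := by
  classical
  set K' := perfectClosure K Kb with hK'
  have : PerfectField K' := perfectClosure.perfectField K Kb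
  have : IsAlgClosure K' Kb := ⟨inferInstance, inferInstance⟩
  have : Normal K' Kb := IsAlgClosure.normal K' Kb
  have : IsGalois K' Kb := ⟨⟩
  have hτ' : ∀ (a : K') (ha : algebraMap K' Kb a ∈ V),
      τ (IsLocalRing.residue V ⟨_, ha⟩) = IsLocalRing.residue V ⟨_, ha⟩ := by
    intro a ha
    obtain ⟨n, b, hb⟩ := mem_perfectClosure_iff.1 a.2
    set q := ringExpChar K with hq
    have hbV : algebraMap K Kb b ∈ V := by
      rw [hb]
      exact pow_mem ha _
    have h1 := hτ b hbV
    have h2 : (⟨algebraMap K Kb b, hbV⟩ : V) = ⟨algebraMap K' Kb a, ha⟩ ^ (q ^ n) :=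
      Subtype.ext hb
    rw [h2, map_pow, map_pow] at h1
    have hE : ExpChar K q := ringExpChar.expChar K
    by_cases hq1 : q = 1
    · rw [hq1, one_pow, pow_one, pow_one] at h1
      exact h1
    · have hp : q.Prime := (expChar_is_prime_or_one K q).resolve_right hq1
      have : Fact q.Prime := ⟨hp⟩
      have hK : CharP K q := charP_of_expChar_aux q hE hq1
      have h0 : (q : IsLocalRing.ResidueField V) = 0 := by
        have h4 : (q : Kb) = 0 := by
          have h5 : algebraMap K Kb (q : K) = 0 := by rw [CharP.cast_eq_zero, map_zero]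
          rwa [map_natCast] at h5
        have h5 : (q : V) = 0 := Subtype.ext (by push_cast; exact h4)
        have h6 : IsLocalRing.residue V (q : V) = 0 := by rw [h5, map_zero]
        rwa [map_natCast] at h6
      have : CharP (IsLocalRing.ResidueField V) q := (CharP.charP_iff_prime_eq_zero hp).2 h0
      have hinj := iterateFrobenius_inj (IsLocalRing.ResidueField V) q n
      apply hinj
      rw [iterateFrobenius_def, iterateFrobenius_def]
      exact h1
  obtain ⟨σ, hσ⟩ := exists_lift_galois (K := K') V τ hτ'
  exact ⟨σ.restrictScalars K, hσ⟩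

end PiCurve
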