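import Pool.Agent.Pi2.Dede

/-!
# Spreading out: models over two valuation rings
-/

universe u

open Polynomial Module TensorProduct

namespace PiCurve

section Two

variable {O V K Kb A : Type*} [CommRing O] [CommRing V] [Field K] [Field Kb] [CommRing A]
  [Algebra O V] [Algebra O K] [Algebra V Kb] [Algebra K Kb] [Algebra K A] [Algebra O A]
  [IsScalarTower O K A]
  [FaithfulSMul O K] [FaithfulSMul V Kb] {G : AddSubmonoid ℕ} (D : GamAlg G K A) (n : G)
  (hn : 0 < (n : ℕ))

omit [CommRing O] [CommRing V] [Algebra O V] [Algebra O K] [Algebra V Kb] [Algebra O A] [IsScalarTower O K A]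
  [FaithfulSMul O K] [FaithfulSMul V Kb] in
theorem nb_baseChange (c : G) : nb (D.baseChange Kb) n hn c = 1 ⊗ₜ nb D n hn c := by
  have h1 : ∀ c : G, (D.baseChange Kb).B c = 1 ⊗ₜ D.B c := fun c => Basis.baseChange_apply _ _ _
  unfold nb
  rw [h1, h1, Algebra.TensorProduct.tmul_pow, one_pow, Algebra.TensorProduct.tmul_mul_tmul,
    one_mul]

/-- certificates over the big model give certificates of the base change of the small model -/
theorem Cert.of_model (hcomm : ∀ r : O, algebraMap V Kb (algebraMap O V r) =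
      algebraMap K Kb (algebraMap O K r))
    (hO : UnitsIn O (structConsts D n hn)) (hV : UnitsIn V (structConsts (D.baseChange Kb) n hn))
    (h : Cert V (modelAlg (D.baseChange Kb) n hn hV)) :
    Cert V (V ⊗[O] modelAlg D n hn hO) := by
  let _ : Algebra O (Kb ⊗[K] A) := ((algebraMap V (Kb ⊗[K] A)).comp (algebraMap O V)).toAlgebra
  have hOV : IsScalarTower O V (Kb ⊗[K] A) := IsScalarTower.of_algebraMap_eq fun _ => rfl
  let g : modelAlg D n hn hO →ₐ[O] Kb ⊗[K] A :=
    { ((Algebra.TensorProduct.includeRight : A →ₐ[K] Kb ⊗[K] A).toRingHom.comp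
        (modelAlg D n hn hO).val.toRingHom) with
      commutes' := fun r => by
        change (1 : Kb) ⊗ₜ[K] (algebraMap O A r) = algebraMap V (Kb ⊗[K] A) (algebraMap O V r)
        rw [IsScalarTower.algebraMap_apply O K A, IsScalarTower.algebraMap_apply V Kb (Kb ⊗[K] A),
          hcomm, ← IsScalarTower.algebraMap_apply K Kb (Kb ⊗[K] A)]
        exact (Algebra.TensorProduct.includeRight : A →ₐ[K] Kb ⊗[K] A).commutes _ }
  let Φ : V ⊗[O] modelAlg D n hn hO →ₐ[V] Kb ⊗[K] A :=
    Algebra.TensorProduct.lift (Algebra.ofId V (Kb ⊗[K] A)) g (fun _ _ => Commute.all _ _)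
  have hΦB : ∀ c : G, Φ (((modelGam hO).B.baseChange V) c) = nb (D.baseChange Kb) n hn c := by
    intro c
    rw [Basis.baseChange_apply, nb_baseChange]
    change Algebra.TensorProduct.lift _ _ _ _ = _
    rw [Algebra.TensorProduct.lift_tmul, map_one, one_mul]
    change (1 : Kb) ⊗ₜ[K] (((modelGam hO).B c : modelAlg D n hn hO) : A) = _
    rw [modelGam_B]
  let e : V ⊗[O] modelAlg D n hn hO ≃ₗ[V] modelAlg (D.baseChange Kb) n hn hV :=
    ((modelGam hO).B.baseChange V).equiv (modelGam hV).B (Equiv.refl G)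
  have he : ∀ x, Φ x = ((e x : modelAlg (D.baseChange Kb) n hn hV) : Kb ⊗[K] A) := by
    have h1 : Φ.toLinearMap = (modelAlg (D.baseChange Kb) n hn hV).val.toLinearMap.comp
        e.toLinearMap := by
      apply ((modelGam hO).B.baseChange V).ext
      intro c
      rw [LinearMap.comp_apply, AlgHom.toLinearMap_apply, hΦB]
      have h2 : e (((modelGam hO).B.baseChange V) c) = (modelGam hV).B c := by
        rw [Basis.equiv_apply]
        rfl
      rw [LinearEquiv.coe_coe, h2]
      exact (modelGam_B hV c).symm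
    exact fun x => LinearMap.congr_fun h1 x
  have hinj : Function.Injective Φ := by
    intro x y hxy
    rw [he, he] at hxy
    exact e.injective (Subtype.ext hxy)
  have hrange : Φ.range = modelAlg (D.baseChange Kb) n hn hV := by
    ext x
    constructor
    · rintro ⟨y, rfl⟩
      change Φ y ∈ _
      rw [he]
      exact (e y).2
    · intro hx
      obtain ⟨y, hy⟩ := e.surjective ⟨x, hx⟩
      exact ⟨y, (he y).trans (congrArg Subtype.val hy)⟩
  exact h.of_equiv ((Subalgebra.equivOfEq _ _ hrange.symm).trans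
    (AlgEquiv.ofInjective Φ hinj).symm)

end Two

section Val

open Classical in
/-- (SPREAD) Good reduction of a Gamma-algebra and of a rational point. -/
theorem exists_goodModel {K Kb A : Type u} [Field K] [Field Kb] [Algebra K Kb]
    [CommRing A] [Algebra K A] {G : AddSubmonoid ℕ} (D : GamAlg G K A)
    (hC : Cert Kb (Kb ⊗[K] A)) (z' : A →ₐ[K] K) :
    ∃ T : Finset Kb, (∀ t ∈ T, t ≠ 0) ∧ ∀ V : ValuationSubring Kb, (∀ t ∈ T, t ∈ V ∧ t⁻¹ ∈ V) →
      ∃ (B : Subalgebra (V.comap (algebraMap K Kb)) A)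
        (GB : GamAlg G (V.comap (algebraMap K Kb)) B) (G' : GamAlg G K A),
        (∀ c, G'.B c = (GB.B c : A)) ∧ (∀ b ∈ B, z' b ∈ V.comap (algebraMap K Kb)) ∧
        ∀ (κ : Type u) [Field κ] [Algebra (V.comap (algebraMap K Kb)) κ] (f : V →+* κ),
          (∀ r : V.comap (algebraMap K Kb), f ⟨algebraMap K Kb r, r.2⟩ =
            algebraMap (V.comap (algebraMap K Kb)) κ r) →
          IsDedekindDomain (κ ⊗[V.comap (algebraMap K Kb)] B) := by
  obtain ⟨n, hn⟩ := D.exists_pos
  obtain ⟨s, hs0, hs⟩ := exists_cert_model.{u, u, u} (D.baseChange Kb) n hn hC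
  have hApf : Finite (Ap G n) := Ap_finite (n := n) D.cofin
  have hfin : (Set.range (fun a : Ap G n => z' (D.B ⟨a, a.2.1⟩))).Finite := Set.finite_range _
  let Z : Finset K := insert (z' (D.B n)) hfin.toFinset
  let T : Finset Kb := (((structConsts D n hn) ∪ Z).image (algebraMap K Kb) ∪
    structConsts (D.baseChange Kb) n hn ∪ s).filter (fun t => t ≠ 0)
  refine ⟨T, fun t ht => (Finset.mem_filter.1 ht).2, ?_⟩
  intro V hV
  have hmem : ∀ t : Kb, t ∈ ((structConsts D n hn) ∪ Z).image (algebraMap K Kb) ∪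
      structConsts (D.baseChange Kb) n hn ∪ s → t ≠ 0 → t ∈ V ∧ t⁻¹ ∈ V :=
    fun t ht h0 => hV t (Finset.mem_filter.2 ⟨ht, h0⟩)
  have hcoords : ∀ {k' A' : Type u} [Field k'] [CommRing A'] [Algebra k' A'] (B : Basis G k' A')
      (s : Finset A'), ∀ x ∈ coords B s, x ≠ 0 := by
    intro k' A' _ _ _ B s x hx
    unfold coords at hx
    rw [Finset.mem_biUnion] at hx
    obtain ⟨z, -, hz⟩ := hx
    rw [Finset.mem_image] at hz
    obtain ⟨c, hc, rfl⟩ := hz
    exact Finsupp.mem_support_iff.1 hc
  have hunit : ∀ t : Kb, t ≠ 0 → t ∈ V → t⁻¹ ∈ V → ∃ r : Vˣ, algebraMap V Kb r = t := by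
    intro t h0 h1 h2
    exact ⟨⟨⟨t, h1⟩, ⟨t⁻¹, h2⟩, Subtype.ext (mul_inv_cancel₀ h0),
      Subtype.ext (inv_mul_cancel₀ h0)⟩, rfl⟩
  have hUV : UnitsIn V (structConsts (D.baseChange Kb) n hn) := by
    intro x hx
    have h0 := hcoords _ _ x hx
    obtain ⟨h1, h2⟩ := hmem x (by simp [hx]) h0
    exact hunit x h0 h1 h2
  have hUs : UnitsIn V s := by
    intro x hx
    have h0 := hs0 x hx
    obtain ⟨h1, h2⟩ := hmem x (by simp [hx]) h0
    exact hunit x h0 h1 h2
  have hUO : UnitsIn (V.comap (algebraMap K Kb)) (structConsts D n hn) := by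
    intro x hx
    have h0 := hcoords _ _ x hx
    have h0' : algebraMap K Kb x ≠ 0 := (_root_.map_ne_zero _).2 h0
    obtain ⟨h1, h2⟩ := hmem (algebraMap K Kb x) (by
      rw [Finset.mem_union, Finset.mem_union]
      exact Or.inl (Or.inl (Finset.mem_image_of_mem _ (Finset.mem_union_left _ hx)))) h0'
    have h3 : x ∈ V.comap (algebraMap K Kb) := h1
    have h4 : x⁻¹ ∈ V.comap (algebraMap K Kb) := by
      change algebraMap K Kb x⁻¹ ∈ V
      rw [map_inv₀]
      exact h2
    exact ⟨⟨⟨x, h3⟩, ⟨x⁻¹, h4⟩, Subtype.ext (mul_inv_cancel₀ h0),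
      Subtype.ext (inv_mul_cancel₀ h0)⟩, rfl⟩
  have hZ : ∀ x ∈ Z, x ∈ V.comap (algebraMap K Kb) := by
    intro x hx
    by_cases h0 : x = 0
    · rw [h0]
      exact zero_mem _
    have h0' : algebraMap K Kb x ≠ 0 := (_root_.map_ne_zero _).2 h0
    exact (hmem (algebraMap K Kb x) (by
      rw [Finset.mem_union, Finset.mem_union]
      exact Or.inl (Or.inl (Finset.mem_image_of_mem _ (Finset.mem_union_right _ hx)))) h0').1
  refine ⟨modelAlg D n hn hUO, modelGam hUO, D.normal n hn, ?_, ?_, ?_⟩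
  · intro c
    rw [modelGam_B]
    exact nbB_apply D n hn c
  · intro b hb
    have hb' : b ∈ Submodule.span (V.comap (algebraMap K Kb)) (Set.range (nb D n hn)) := hb
    induction hb' using Submodule.span_induction with
    | mem x hx =>
      obtain ⟨c, rfl⟩ := hx
      unfold nb
      rw [map_mul, map_pow]
      refine mul_mem (hZ _ ?_) (pow_mem (hZ _ ?_) _)
      · exact Finset.mem_insert_of_mem ((Set.Finite.mem_toFinset _).2 ⟨_, rfl⟩)
      · exact Finset.mem_insert_self _ _
    | zero => rw [map_zero]; exact zero_mem _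
    | add x y hx hy h1 h2 =>
      rw [map_add]
      exact add_mem (h1 hx) (h2 hy)
    | smul r x hx h =>
      have h3 : z' (r • x) = (r : K) * z' x := by
        have : (r • x : A) = (r : K) • x := rfl
        rw [this, map_smul, smul_eq_mul]
      rw [h3]
      exact mul_mem r.2 (h hx)
  · intro κ _ _ f hf
    let _ : Algebra (V.comap (algebraMap K Kb)) V :=
      RingHom.toAlgebra
        { toFun := fun r => ⟨algebraMap K Kb r, r.2⟩
          map_one' := Subtype.ext (map_one _)
          map_zero' := Subtype.ext (map_zero _)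
          map_mul' := fun _ _ => Subtype.ext (map_mul _ _ _)
          map_add' := fun _ _ => Subtype.ext (map_add _ _ _) }
    let _ : Algebra V κ := f.toAlgebra
    have : IsScalarTower (V.comap (algebraMap K Kb)) V κ :=
      IsScalarTower.of_algebraMap_eq fun r => (hf r).symm
    have h1 : Cert V (modelAlg (D.baseChange Kb) n hn hUV) := hs V hUV hUs
    have h2 : Cert V (V ⊗[V.comap (algebraMap K Kb)] modelAlg D n hn hUO) :=
      Cert.of_model (O := V.comap (algebraMap K Kb)) (V := V) (K := K) (Kb := Kb) D n hn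
        (fun r => rfl) hUO hUV h1
    exact h2.isDedekindDomain_tensor (modelGam hUO)

end Val

end PiCurve
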