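import Mathlib
import Pool.Agent.Pi2.DO
import Pool.Agent.Pi2.Model4

/-! (SPREAD) good reduction. -/

universe u

namespace PiCurve

open TensorProduct

/-- (SPREAD) Good reduction of a Gamma-algebra and of a rational point. -/
theorem exists_model {K Kb A : Type u} [Field K] [Field Kb] [Algebra K Kb] [IsAlgClosed Kb]
    [CommRing A] [Algebra K A] {Γ : AddSubmonoid ℕ} (G : GamAlg Γ K A)
    (hC : Cert Kb (Kb ⊗[K] A)) (z' : A →ₐ[K] K) :
    ∃ T : Finset Kb, (∀ t ∈ T, t ≠ 0) ∧ ∀ V : ValuationSubring Kb, (∀ t ∈ T, t ∈ V ∧ t⁻¹ ∈ V) →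
      ∃ (B : Subalgebra (V.comap (algebraMap K Kb)) A)
        (GB : GamAlg Γ (V.comap (algebraMap K Kb)) B) (G' : GamAlg Γ K A),
        (∀ c, G'.B c = (GB.B c : A)) ∧ (∀ b ∈ B, z' b ∈ V.comap (algebraMap K Kb)) ∧
        ∀ (κ : Type u) [Field κ] [Algebra (V.comap (algebraMap K Kb)) κ] (f : V →+* κ),
          (∀ r : V.comap (algebraMap K Kb), f ⟨algebraMap K Kb r, r.2⟩ =
            algebraMap (V.comap (algebraMap K Kb)) κ r) →
          IsDedekindDomain (κ ⊗[V.comap (algebraMap K Kb)] B) :=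
  exists_goodModel G hC z'

end PiCurve
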