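import Mathlib
import Pool.Agent.Pi2.FVD
import Pool.Agent.Pi2.SPREAD
import Pool.Agent.Pi2.FIN
import Pool.Agent.Pi2.FROB

/-! (RED) Reduction at a place with finite residue field. -/

universe u

namespace PiCurve

open TensorProduct

section model

variable {K A L : Type u} [Field K] [CommRing A] [Algebra K A] [Field L] [Algebra K L]
  {R : ValuationSubring K} {B : Subalgebra R A} {Γ : AddSubmonoid ℕ} (GB : GamAlg Γ R B)
  (G' : GamAlg Γ K A) (hb : ∀ c, G'.B c = (GB.B c : A))

/-- the map `L ⊗_R B → L ⊗_K A` -/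
noncomputable def modelMap (L : Type u) [Field L] [Algebra K L] {R : ValuationSubring K}
    (B : Subalgebra R A) : L ⊗[R] B →ₐ[L] L ⊗[K] A :=
  Algebra.TensorProduct.lift (Algebra.ofId L (L ⊗[K] A))
    (((Algebra.TensorProduct.includeRight : A →ₐ[K] L ⊗[K] A).restrictScalars R).comp B.val)
    (fun _ _ => Commute.all _ _)

theorem modelMap_tmul (x : L) (b : B) : modelMap L B (x ⊗ₜ b) = x ⊗ₜ (b : A) := by
  unfold modelMap
  rw [Algebra.TensorProduct.lift_tmul]
  change algebraMap L (L ⊗[K] A) x * ((1 : L) ⊗ₜ[K] (b : A)) = _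
  rw [Algebra.TensorProduct.algebraMap_apply, Algebra.TensorProduct.tmul_mul_tmul, mul_one, one_mul]
  rfl

include GB G' hb in
theorem modelMap_bijective : Function.Bijective (modelMap L B) := by
  have h : ∀ c, modelMap L B ((GB.baseChange L).B c) = (G'.baseChange L).B c := by
    intro c
    change modelMap L B ((GB.B.baseChange L) c) = (G'.B.baseChange L) c
    rw [Module.Basis.baseChange_apply, Module.Basis.baseChange_apply, modelMap_tmul, hb]
  have h2 : (modelMap L B).toLinearMap =
      ((GB.baseChange L).B.equiv (G'.baseChange L).B (Equiv.refl _)).toLinearMap := by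
    refine (GB.baseChange L).B.ext fun c => ?_
    rw [AlgHom.toLinearMap_apply, h, LinearEquiv.coe_coe, Module.Basis.equiv_apply]
    rfl
  have h3 : (modelMap L B : L ⊗[R] B → L ⊗[K] A) =
      ((GB.baseChange L).B.equiv (G'.baseChange L).B (Equiv.refl _)) :=
    congrArg DFunLike.coe h2
  rw [h3]
  exact LinearEquiv.bijective _

end model

section core

variable {K Kb A : Type u} [Field K] [Field Kb] [Algebra K Kb] [CommRing A] [Algebra K A]
  (V : ValuationSubring Kb)

/-- the algebra structure of `V` over its trace `R` on `K` -/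
abbrev algRV : Algebra (ValuationSubring.comap V (algebraMap K Kb)) V := RingHom.toAlgebra
    { toFun := fun r => (⟨algebraMap K Kb r, r.2⟩ : V)
      map_one' := Subtype.ext (map_one _)
      map_zero' := Subtype.ext (map_zero _)
      map_mul' := fun _ _ => Subtype.ext (map_mul _ _ _)
      map_add' := fun _ _ => Subtype.ext (map_add _ _ _) }

theorem red_core [IsAlgClosed Kb] [Algebra.IsAlgebraic K Kb]
    (hfin : Finite (IsLocalRing.ResidueField (V.comap (algebraMap K Kb))))
    {Γ : AddSubmonoid ℕ} [IsDedekindDomain (Kb ⊗[K] A)] (z' : A →ₐ[K] K)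
    (h : ∀ n : ℕ, n ≠ 0 → ∃ c : ClassGroup (Kb ⊗[K] A),
      (∀ (G : GamAlg Γ K A) (τ : Kb ≃ₐ[K] Kb), act G τ c = c) ∧
        c ^ n = cl (ptI ((Algebra.ofId K Kb).comp z')))
    (B : Subalgebra (V.comap (algebraMap K Kb)) A) (GB : GamAlg Γ (V.comap (algebraMap K Kb)) B) (G' : GamAlg Γ K A)
    (hb : ∀ c, G'.B c = (GB.B c : A)) (hz : ∀ b ∈ B, z' b ∈ (V.comap (algebraMap K Kb)))
    (hDed : ∀ (κ : Type u) [Field κ] [Algebra (V.comap (algebraMap K Kb)) κ] (f : V →+* κ),
          (∀ r : (V.comap (algebraMap K Kb)), f ⟨algebraMap K Kb r, r.2⟩ = algebraMap (V.comap (algebraMap K Kb)) κ r) →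
          IsDedekindDomain (κ ⊗[V.comap (algebraMap K Kb)] B)) : 1 ∈ Γ := by
  letI algRV : Algebra (V.comap (algebraMap K Kb)) V := algRV V
  have hκ : IsAlgClosed (IsLocalRing.ResidueField V) := residue_algClosed V
  obtain ⟨j, hj, hjalg⟩ := exists_residue_hom (K := K) V
  letI algκ : Algebra (IsLocalRing.ResidueField (V.comap (algebraMap K Kb))) (IsLocalRing.ResidueField V) := j.toAlgebra
  have halg : Algebra.IsAlgebraic (IsLocalRing.ResidueField (V.comap (algebraMap K Kb))) (IsLocalRing.ResidueField V) :=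
    ⟨fun x => by
      obtain ⟨p, hp, hpx⟩ := hjalg x
      exact ⟨p, hp, hpx⟩⟩
  have htower : IsScalarTower (V.comap (algebraMap K Kb)) (IsLocalRing.ResidueField (V.comap (algebraMap K Kb))) (IsLocalRing.ResidueField V) :=
    IsScalarTower.of_algebraMap_eq fun r => (hj r).symm
  have hD1 : IsDedekindDomain (IsLocalRing.ResidueField V ⊗[V.comap (algebraMap K Kb)] B) :=
    hDed _ (IsLocalRing.residue V) fun r => rfl
  have hD2 : IsDedekindDomain (Kb ⊗[V.comap (algebraMap K Kb)] B) := hDed Kb V.subtype fun r => rfl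
  obtain ⟨n, hn0, hn⟩ := exists_exponent (κ0 := IsLocalRing.ResidueField (V.comap (algebraMap K Kb)))
    (κ := IsLocalRing.ResidueField V) GB
  obtain ⟨c, hc, hcn⟩ := h n hn0
  -- transport to the model
  set e : Kb ⊗[V.comap (algebraMap K Kb)] B ≃+* Kb ⊗[K] A :=
    RingEquiv.ofBijective (modelMap Kb B) (modelMap_bijective GB G' hb) with he
  set c' := cmap (e.symm : Kb ⊗[K] A →+* Kb ⊗[V.comap (algebraMap K Kb)] B) e.symm.injective c with hc'
  have hinv : ∀ σ : Kb ≃ₐ[K] Kb, act GB (σ.restrictScalars (V.comap (algebraMap K Kb))) c' = c' := by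
    intro σ
    conv_rhs => rw [hc', ← hc G' σ]
    rw [hc', act, act, cmap_comp, cmap_comp]
    refine cmap_congr_aux _ _ ?_ c
    have h1 : (e : Kb ⊗[V.comap (algebraMap K Kb)] B →+* Kb ⊗[K] A).comp (bcm B (σ.restrictScalars (V.comap (algebraMap K Kb))).toAlgHom) =
        (bcm A σ.toAlgHom).comp (e : Kb ⊗[V.comap (algebraMap K Kb)] B →+* Kb ⊗[K] A) := by
      have h2 : ∀ x, modelMap Kb B (bcm B (σ.restrictScalars (V.comap (algebraMap K Kb))).toAlgHom x) =
          bcm A σ.toAlgHom (modelMap Kb B x) := by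
        intro x
        induction x using TensorProduct.induction_on with
        | zero => simp
        | tmul x b =>
          rw [bcm_tmul, modelMap_tmul, modelMap_tmul, bcm_tmul]
          rfl
        | add x y hx hy => rw [map_add, map_add, map_add, map_add, hx, hy]
      exact RingHom.ext h2
    refine RingHom.ext fun x => ?_
    have h3 := congrArg (fun f => e.symm (f (e.symm x))) h1
    simp only [RingHom.comp_apply] at h3
    simpa using h3
  -- the point of the model
  set QB : B →ₐ[V.comap (algebraMap K Kb)] Kb := ((Algebra.ofId K Kb).comp z').restrictScalars (V.comap (algebraMap K Kb)) |>.comp B.val with hQB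
  have hcn' : c' ^ n = cl (ptI QB) := by
    rw [hc', ← map_pow, hcn, cmap_cl _ _ (ptI_ne_bot G' _)]
    congr 1
    ext x
    rw [Ideal.mem_map_iff_of_surjective (e.symm : Kb ⊗[K] A →+* Kb ⊗[V.comap (algebraMap K Kb)] B) e.symm.surjective]
    have h2 : ∀ x, ev ((Algebra.ofId K Kb).comp z') (modelMap Kb B x) = ev QB x := by
      intro x
      induction x using TensorProduct.induction_on with
      | zero => simp
      | tmul x b => rw [modelMap_tmul, ev_tmul, ev_tmul]; rfl
      | add x y hx hy => rw [map_add, map_add, map_add, hx, hy]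
    constructor
    · rintro ⟨y, hy, rfl⟩
      have h3 : ev QB (e.symm y) = ev ((Algebra.ofId K Kb).comp z') y := by
        rw [← h2]
        exact congrArg _ (e.apply_symm_apply y)
      rw [ptI, RingHom.mem_ker]
      exact h3.trans hy
    · intro hx
      refine ⟨e x, ?_, e.symm_apply_apply x⟩
      rw [ptI, RingHom.mem_ker]
      exact (h2 x).trans hx
  -- specialisation
  set P : Pl (V.comap (algebraMap K Kb)) Kb (IsLocalRing.ResidueField V) := Pl.ofVal V (fun r => r.2) (fun r => rfl) with hP
  set c'' := P.sp GB c' with hc''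
  have hinv' : ∀ τ : IsLocalRing.ResidueField V ≃ₐ[IsLocalRing.ResidueField (V.comap (algebraMap K Kb))]
      IsLocalRing.ResidueField V, act GB (τ.restrictScalars (V.comap (algebraMap K Kb))) c'' = c'' := by
    intro τ
    obtain ⟨σ, hσ⟩ := exists_lift (K := K) V hfin τ.toRingEquiv (by
      intro a ha
      have h1 := τ.commutes (IsLocalRing.residue (V.comap (algebraMap K Kb)) ⟨a, ha⟩)
      have h2 : algebraMap (IsLocalRing.ResidueField (V.comap (algebraMap K Kb))) (IsLocalRing.ResidueField V)
          (IsLocalRing.residue (V.comap (algebraMap K Kb)) ⟨a, ha⟩) = IsLocalRing.residue V ⟨algebraMap K Kb a, ha⟩ :=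
        hj ⟨a, ha⟩
      rw [h2] at h1
      exact h1)
    rw [hc'', ← act_sp GB P P (σ.restrictScalars (V.comap (algebraMap K Kb))) (τ.restrictScalars (V.comap (algebraMap K Kb))) (fun x hx => hσ x hx),
      hinv]
  set QV : B →ₐ[V.comap (algebraMap K Kb)] IsLocalRing.ResidueField V :=
    { toFun := fun b => algebraMap (V.comap (algebraMap K Kb)) (IsLocalRing.ResidueField V) ⟨z' b, hz b b.2⟩
      map_one' := by
        rw [← map_one (algebraMap (V.comap (algebraMap K Kb)) (IsLocalRing.ResidueField V))]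
        congr 1
        exact Subtype.ext (map_one z')
      map_zero' := by
        rw [← map_zero (algebraMap (V.comap (algebraMap K Kb)) (IsLocalRing.ResidueField V))]
        congr 1
        exact Subtype.ext (map_zero z')
      map_mul' := fun a b => by
        rw [← map_mul]
        congr 1
        exact Subtype.ext (map_mul z' _ _)
      map_add' := fun a b => by
        rw [← map_add]
        congr 1
        exact Subtype.ext (map_add z' _ _)
      commutes' := fun r => by
        congr 1
        exact Subtype.ext (z'.commutes r) } with hQV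
  have hcn'' : c'' ^ n = cl (ptI QV) := by
    rw [hc'', ← map_pow, hcn']
    exact P.sp_pt GB QB QV fun b => ⟨hz b b.2, rfl⟩
  have h1 : cl (ptI QV) = 1 := by rw [← hcn'', hn c'' hinv']
  exact one_mem_of_cl (GB.baseChange _) (ptI_ne_bot GB QV) h1 (ptI_props QV).2

end core


/-- (RED) -/
theorem one_mem_of_invariant {K Kb A : Type u} [Field K] [Field Kb] [Algebra K Kb]
    [IsAlgClosed Kb] [Algebra.IsAlgebraic K Kb] (hFV : FV K Kb) [CommRing A] [Algebra K A]
    {Γ : AddSubmonoid ℕ} (G : GamAlg Γ K A)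
    [IsDedekindDomain (Kb ⊗[K] A)] (z' : A →ₐ[K] K)
    (h : ∀ n : ℕ, n ≠ 0 → ∃ c : ClassGroup (Kb ⊗[K] A),
      (∀ τ : Kb ≃ₐ[K] Kb, act G τ c = c) ∧ c ^ n = cl (ptI ((Algebra.ofId K Kb).comp z'))) :
    1 ∈ Γ := by
  have hC : Cert Kb (Kb ⊗[K] A) := cert_of_dedekind G
  obtain ⟨T, hT, hmodel⟩ := exists_model G hC z'
  obtain ⟨V, hVT, hfin⟩ := hFV T hT
  obtain ⟨B, GB, G', hb, hz, hDed⟩ := hmodel V hVT
  refine red_core V hfin z' (fun n hn => ?_) B GB G' hb hz hDed
  obtain ⟨c, hc, hcn⟩ := h n hn
  exact ⟨c, fun G1 τ => hc τ, hcn⟩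

end PiCurve
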