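import Mathlib
import Pool.Agent.Pi2.Defs
import Pool.Agent.Pi2.ACT
import Pool.Agent.Pi2.DIV
import Pool.Agent.Helper10.Pi2.Sep

/-! (SEPM) The separation argument: an invariant class `c` over the algebraic closure of `K` with
`c ^ n = [z']`. -/

universe u

namespace PiCurve

open TensorProduct Topology

section Sys

variable {K E Ω A : Type u} [Field K] [Field E] [Algebra K E] [Field Ω] [Algebra E Ω]
  [Algebra K Ω] [IsScalarTower K E Ω] [CommRing A] [Algebra K A] {Γ : AddSubmonoid ℕ}
  (G : GamAlg Γ K A)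

/-- The action of the automorphism group on the ideal classes over `Ω`. -/
noncomputable abbrev actionC (E : Type u) [Field E] [Algebra K E] [Algebra E Ω]
    [IsScalarTower K E Ω] [IsDedekindDomain (Ω ⊗[K] A)] :
    MulDistribMulAction (Ω ≃ₐ[E] Ω) (ClassGroup (Ω ⊗[K] A)) where
  smul σ c := act G (σ.restrictScalars K) c
  one_smul c := act_one G c
  mul_smul σ τ c := act_mul G (σ.restrictScalars K) (τ.restrictScalars K) c
  smul_one σ := map_one (act G (σ.restrictScalars K))
  smul_mul σ c d := map_mul (act G (σ.restrictScalars K)) c d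

/-- The action of the Galois group on the ideal classes over the field of constants. -/
noncomputable abbrev actionC₀ {k : Type u} [Field k] [Algebra K k] [IsDedekindDomain (k ⊗[K] A)] :
    MulDistribMulAction (k ≃ₐ[K] k) (ClassGroup (k ⊗[K] A)) where
  smul σ c := act G σ c
  one_smul c := act_one G c
  mul_smul σ τ c := act_mul G σ τ c
  smul_one σ := map_one (act G σ)
  smul_mul σ c d := map_mul (act G σ) c d

variable (hconst : ∀ V : ValuationSubring Ω, IsPlace K V → ∀ f ∈ V,
  ∃ c : algebraicClosure K Ω, V.valuation (f - algebraMap (algebraicClosure K Ω) Ω c) < 1)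

/-- The place with values in the constants defined by a valuation ring. -/
noncomputable def constPl (V : ValuationSubring Ω) (hV : IsPlace K V) :
    Pl K Ω (algebraicClosure K Ω) :=
  Pl.ofConst K V (fun a => mem_of_isAlgebraic hV.1 (mem_algebraicClosure_iff.1 a.2))
    (hconst V hV)

theorem constPl_W (V : ValuationSubring Ω) (hV : IsPlace K V) :
    (constPl hconst V hV).W = V := Pl.ofConst_W _ _ _ _

theorem constPl_π_eq (V : ValuationSubring Ω) (hV : IsPlace K V) {x : Ω}
    {c : algebraicClosure K Ω}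
    (h : V.valuation (x - algebraMap (algebraicClosure K Ω) Ω c) < 1) :
    ∃ hx : x ∈ (constPl hconst V hV).W, (constPl hconst V hV).π ⟨x, hx⟩ = c := by
  have hcV : algebraMap (algebraicClosure K Ω) Ω c ∈ V :=
    mem_of_isAlgebraic hV.1 (mem_algebraicClosure_iff.1 c.2)
  have hx : x ∈ (constPl hconst V hV).W := by
    rw [constPl_W]
    have h1 := add_mem ((V.valuation_le_one_iff _).1 h.le) hcV
    rwa [sub_add_cancel] at h1
  refine ⟨hx, ?_⟩
  apply Subtype.ext
  exact const_unique hV.1 (mem_algebraicClosure_iff.1 (Subtype.prop _))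
    (mem_algebraicClosure_iff.1 c.2)
    (Pl.ofConst_π K V (fun a => mem_of_isAlgebraic hV.1 (mem_algebraicClosure_iff.1 a.2))
      (hconst V hV) x hx) h

variable [IsDedekindDomain (Ω ⊗[K] A)] [IsDedekindDomain (algebraicClosure K Ω ⊗[K] A)]

open Classical in
/-- The specialisation system of ideal classes. -/
noncomputable def classSystem (E : Type u) [Field E] [Algebra K E] [Algebra E Ω]
    [IsScalarTower K E Ω] [Algebra.IsAlgebraic E Ω] :
    letI := actionC (Ω := Ω) G E
    letI := actionC₀ (k := algebraicClosure K Ω) G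
    SpSystem K E Ω (ClassGroup (Ω ⊗[K] A)) (ClassGroup (algebraicClosure K Ω ⊗[K] A)) :=
  letI := actionC (Ω := Ω) G E
  letI := actionC₀ (k := algebraicClosure K Ω) G
  { ι := cmap (kLA K A (algebraicClosure K Ω) Ω)
      (bcm_injective G _ (IsScalarTower.toAlgHom K (algebraicClosure K Ω) Ω).toRingHom.injective)
    ι_smul := by
      intro σ c
      change act G (σ.restrictScalars K) (cmap _ _ c) = cmap _ _ (act G (constRes K σ) c)
      rw [act, act, cmap_comp, cmap_comp]
      refine cmap_congr_aux _ _ ?_ c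
      rw [bcm_comp, bcm_comp]
      rfl
    sp := fun V => if hV : IsPlace K V then (constPl hconst V hV).sp G else 1
    sp_ι := by
      intro V hV c
      rw [dif_pos hV]
      have h1 := (constPl hconst V hV).sp_const G
        (IsScalarTower.toAlgHom K (algebraicClosure K Ω) Ω) (AlgHom.id K _) (fun x =>
          constPl_π_eq hconst V hV (by
            change V.valuation (algebraMap (algebraicClosure K Ω) Ω x -
              algebraMap (algebraicClosure K Ω) Ω x) < 1
            rw [sub_self, map_zero]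
            exact zero_lt_one)) c
      refine Eq.trans h1 ?_
      rw [cmap_congr_aux _ Function.injective_id (g := RingHom.id _) ?_, cmap_id]
      rw [bcm, Algebra.TensorProduct.map_id]
      rfl
    sp_smul := by
      intro V hV σ c
      have hV' := hV.comap_aut (F := E) (σ⁻¹ : Ω ≃ₐ[E] Ω)
      rw [dif_pos hV, dif_pos hV']
      refine act_sp G (constPl hconst V hV) (constPl hconst _ hV') (σ.restrictScalars K)
        (constRes K σ) ?_ c
      intro x hx
      set c₀ := (constPl hconst V hV).π ⟨x, hx⟩ with hc₀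
      have h1 : V.valuation (x - algebraMap (algebraicClosure K Ω) Ω c₀) < 1 :=
        Pl.ofConst_π K V (fun a => mem_of_isAlgebraic hV.1 (mem_algebraicClosure_iff.1 a.2))
          (hconst V hV) x hx
      apply constPl_π_eq hconst _ hV'
      rw [comap_aut_val_lt_one, map_sub]
      have h2 : (σ⁻¹ : Ω ≃ₐ[E] Ω) ((σ.restrictScalars K).toAlgHom x) = x := by
        change (σ⁻¹ : Ω ≃ₐ[E] Ω) (σ x) = x
        rw [← AlgEquiv.mul_apply, inv_mul_cancel, AlgEquiv.one_apply]
      have h3 : (σ⁻¹ : Ω ≃ₐ[E] Ω) (algebraMap (algebraicClosure K Ω) Ω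
          ((constRes K σ).toAlgHom c₀)) = algebraMap (algebraicClosure K Ω) Ω c₀ := by
        change (σ⁻¹ : Ω ≃ₐ[E] Ω) (σ (c₀ : Ω)) = (c₀ : Ω)
        rw [← AlgEquiv.mul_apply, inv_mul_cancel, AlgEquiv.one_apply]
      rw [h2, h3]
      exact h1
    isOpen_stabilizer := by
      intro c
      obtain ⟨M, hM, hMc⟩ := act_open G (F := E) c
      refine Subgroup.isOpen_mono (H₁ := M.fixingSubgroup) ?_
        (IntermediateField.fixingSubgroup_isOpen M)
      intro σ hσ
      rw [MulAction.mem_stabilizer_iff]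
      exact hMc σ ((IntermediateField.mem_fixingSubgroup_iff _ _).1 hσ) }

end Sys

theorem exists_invariant {K F Ω A : Type u} [Field K] [PerfectField K] [Field F] [Algebra K F]
    [Field Ω] [Algebra F Ω] [Algebra K Ω] [IsScalarTower K F Ω] [IsAlgClosed Ω]
    [Algebra.IsAlgebraic F Ω] (hF : IsFunctionField K F) {S : Finset (ValuationSubring F)}
    {W : ValuationSubring Ω} (hW : IsPlace K W) (hr : IsRational K (W.comap (algebraMap F Ω)))
    {γ : Ω ≃ₐ[F] Ω} (hγ : ∀ a : Ω, IsAlgebraic K a → γ a = a)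
    (hcomm : ∀ δ ∈ decomp (F := F) W, γ * δ * γ⁻¹ * δ⁻¹ ∈ ramSubgroup K Ω S)
    (E : IntermediateField F Ω)
    (hDE : ∀ δ ∈ decomp (F := F) W, ∀ x ∈ E, δ x = x)
    (hNE : ∀ ν ∈ ramSubgroup K Ω S, ∀ x ∈ E, ν x = x)
    (hγE : ∀ x ∈ E, γ x ∈ E) (hγE' : ∀ x ∈ E, γ⁻¹ x ∈ E)
    [CommRing A] [Algebra K A] {Γ : AddSubmonoid ℕ} (G : GamAlg Γ K A)
    [IsDedekindDomain (algebraicClosure K Ω ⊗[K] A)]
    (η : A →ₐ[K] Ω) (hηE : ∀ a, η a ∈ E) (hη : Function.Injective η)
    (hΩ : Algebra.IsAlgebraic η.range Ω) (hinf : ∃ a, η a ∉ W)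
    (z' : A →ₐ[K] K)
    (hz' : ∀ a, (W.comap ((γ⁻¹ : Ω ≃ₐ[F] Ω) : Ω →+* Ω)).valuation
      (η a - algebraMap K Ω (z' a)) < 1) (n : ℕ) (hn : n ≠ 0) :
    ∃ c : ClassGroup (algebraicClosure K Ω ⊗[K] A),
      (∀ τ : algebraicClosure K Ω ≃ₐ[K] algebraicClosure K Ω, act G τ c = c) ∧
      c ^ n = cl (ptI ((Algebra.ofId K (algebraicClosure K Ω)).comp z')) := by
  have hcl : IsAlgClosed (algebraicClosure K Ω) := (algebraicClosure.isAlgClosure K Ω).isAlgClosed
  have htow : IsScalarTower K E Ω := isScalarTower_intermediate (K := K) E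
  have hded : IsDedekindDomain (Ω ⊗[K] A) :=
    dedOver_of_cert (R := K) (k := algebraicClosure K Ω) G (cert_of_dedekind G) Ω
  have hconst : ∀ V : ValuationSubring Ω, IsPlace K V → ∀ f ∈ V,
      ∃ c : algebraicClosure K Ω, V.valuation (f - algebraMap (algebraicClosure K Ω) Ω c) < 1 := by
    intro V hV f hf
    obtain ⟨c, hc, h⟩ := exists_const_of_isPlace hF hV hf
    exact ⟨⟨c, mem_algebraicClosure_iff.2 hc⟩, h⟩
  -- the generic point is nonconstant
  have hinj : Function.Injective (Algebra.TensorProduct.productMap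
      (IsScalarTower.toAlgHom K (algebraicClosure K Ω) Ω) η) := by
    set φ := Algebra.TensorProduct.productMap
      (IsScalarTower.toAlgHom K (algebraicClosure K Ω) Ω) η with hφ
    rw [injective_iff_map_eq_zero]
    intro x hx
    by_contra hx0
    have hker : RingHom.ker φ ≠ ⊥ := fun h => hx0 (by
      have : x ∈ RingHom.ker φ := hx
      rwa [h, Ideal.mem_bot] at this)
    have hprime : (RingHom.ker φ).IsPrime := RingHom.ker_isPrime φ
    have hmax : (RingHom.ker φ).IsMaximal := hprime.isMaximal hker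
    obtain ⟨Q, hQ⟩ := exists_pt G (RingHom.ker φ) hmax
    obtain ⟨a, ha⟩ := hinf
    apply ha
    have h1 : (1 : algebraicClosure K Ω) ⊗ₜ[K] a - Q a ⊗ₜ[K] (1 : A) ∈ RingHom.ker φ := by
      rw [hQ]
      change ev Q (1 ⊗ₜ[K] a - Q a ⊗ₜ[K] (1 : A)) = 0
      simp [ev]
    have h2 : η a = algebraMap (algebraicClosure K Ω) Ω (Q a) := by
      have h3 : φ ((1 : algebraicClosure K Ω) ⊗ₜ[K] a - Q a ⊗ₜ[K] (1 : A)) = 0 := h1
      rw [map_sub, hφ, Algebra.TensorProduct.productMap_apply_tmul,
        Algebra.TensorProduct.productMap_apply_tmul, map_one, map_one, one_mul, mul_one] at h3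
      exact sub_eq_zero.1 h3
    rw [h2]
    exact mem_of_isAlgebraic hW.1 (mem_algebraicClosure_iff.1 (Q a).2)
  have halg : Algebra.IsAlgebraic (Algebra.TensorProduct.productMap
      (IsScalarTower.toAlgHom K (algebraicClosure K Ω) Ω) η).range Ω := by
    have hle : η.range ≤ (Algebra.TensorProduct.productMap
      (IsScalarTower.toAlgHom K (algebraicClosure K Ω) Ω) η).range := by
      rintro _ ⟨a, rfl⟩
      exact ⟨1 ⊗ₜ a, by simp⟩
    let : Algebra η.range (Algebra.TensorProduct.productMap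
      (IsScalarTower.toAlgHom K (algebraicClosure K Ω) Ω) η).range :=
      (Subalgebra.inclusion hle).toRingHom.toAlgebra
    have : IsScalarTower η.range (Algebra.TensorProduct.productMap
      (IsScalarTower.toAlgHom K (algebraicClosure K Ω) Ω) η).range Ω :=
      IsScalarTower.of_algebraMap_eq fun x => rfl
    exact Algebra.IsAlgebraic.extendScalars (R := η.range) (Subalgebra.inclusion_injective hle)
  obtain ⟨y, hy⟩ := div_generic (k := algebraicClosure K Ω) G η hinj halg n hn
  let := actionC (Ω := Ω) G E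
  let := actionC₀ (k := algebraicClosure K Ω) G
  let P := classSystem (K := K) (Ω := Ω) G hconst E
  have hspP : ∀ (V : ValuationSubring Ω) (hV : IsPlace K V) (c : ClassGroup (Ω ⊗[K] A)),
      P.sp V c = (constPl hconst V hV).sp G c := by
    intro V hV c
    classical
    change (if hV : IsPlace K V then (constPl hconst V hV).sp G else 1) c = _
    rw [dif_pos hV]
  obtain ⟨c₀, h1, h2⟩ := P.exists_invariant hW hr hγ hcomm E hDE hNE
    (powMonoidHom n) (powMonoidHom n)
    (fun σ c => (map_pow (act G (σ.restrictScalars K)) c n).symm)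
    (fun c => (map_pow P.ι c n).symm)
    (fun V _ c => map_pow (P.sp V) c n)
    (fun c hc => by
      obtain ⟨c0, h⟩ := tors_const (k := algebraicClosure K Ω) G n hn c hc
      exact ⟨c0, h.symm⟩)
    (x := cl (ptI η)) (y := y)
    (fun σ => by
      change act G (σ.restrictScalars K) (cl (ptI η)) = cl (ptI η)
      rw [act_pt]
      congr 2
      ext a
      change σ (η a) = η a
      exact σ.commutes ⟨η a, hηE a⟩)
    (by
      rw [hspP W hW]
      refine Pl.sp_pt_inf G _ η ?_
      obtain ⟨a, ha⟩ := hinf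
      exact ⟨a, by rwa [constPl_W]⟩)
    hy
  refine ⟨c₀, h2, ?_⟩
  have h3 : c₀ ^ n = P.sp (W.comap ((γ⁻¹ : Ω ≃ₐ[F] Ω) : Ω →+* Ω)) (cl (ptI η)) := h1
  have hW' : IsPlace K (W.comap ((γ⁻¹ : Ω ≃ₐ[F] Ω) : Ω →+* Ω)) := hW.comap_aut (γ⁻¹ : Ω ≃ₐ[F] Ω)
  rw [h3, hspP _ hW']
  refine Pl.sp_pt G _ η _ fun a => ?_
  exact constPl_π_eq hconst _ hW' (hz' a)

end PiCurve
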