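import Mathlib
import Pool.Agent.Pi2.SEPM
import Pool.Agent.Pi2.RED
import Pool.Agent.Pi2.BRIDGE
import Pool.Agent.Pi2.PERF
import Pool.Agent.Pi2.GEN0

/-! (FINP) assembly over perfect fields. -/

universe u

namespace PiCurve

open TensorProduct

/-- constants in a place: values -/
theorem val_const {K E : Type u} [Field K] [Field E] [Algebra K E] {V : ValuationSubring E}
    (hV : ∀ a : K, algebraMap K E a ∈ V) {a : K} (h : V.valuation (algebraMap K E a) < 1) :
    a = 0 := by
  by_contra h0
  have h1 : V.valuation (algebraMap K E a⁻¹) ≤ 1 := (V.valuation_le_one_iff _).2 (hV _)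
  have h2 : V.valuation (algebraMap K E a) * V.valuation (algebraMap K E a⁻¹) = 1 := by
    rw [← map_mul, ← map_mul, mul_inv_cancel₀ h0, map_one, map_one]
  have h3 : V.valuation (algebraMap K E a) * V.valuation (algebraMap K E a⁻¹) < 1 := by
    calc V.valuation (algebraMap K E a) * V.valuation (algebraMap K E a⁻¹)
        ≤ V.valuation (algebraMap K E a) * 1 := mul_le_mul_right h1 _
      _ < 1 := by rwa [mul_one]
  exact h3.ne h2

/-- evaluation at a rational place of functions regular there -/
theorem exists_eval {K E : Type u} [Field K] [Field E] [Algebra K E] {V : ValuationSubring E}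
    (hV : IsRational K V) (A : Subalgebra K E) (hA : ∀ a ∈ A, a ∈ V) :
    ∃ z : A →ₐ[K] K, ∀ a : A, V.valuation ((a : E) - algebraMap K E (z a)) < 1 := by
  have hc : ∀ a : A, ∃ c : K, V.valuation ((a : E) - algebraMap K E c) < 1 := by
    intro a
    obtain ⟨c, g, hg, hg1⟩ := hV.2 a (hA a a.2)
    exact ⟨c, by rw [hg]; exact hg1⟩
  choose z hz using hc
  have huniq : ∀ (a : E) (c d : K), V.valuation (a - algebraMap K E c) < 1 →
      V.valuation (a - algebraMap K E d) < 1 → c = d := by
    intro a c d h1 h2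
    have h3 : V.valuation (algebraMap K E (c - d)) < 1 := by
      have h4 : algebraMap K E (c - d) = (a - algebraMap K E d) - (a - algebraMap K E c) := by
        rw [map_sub]; ring
      rw [h4]
      exact (Valuation.map_sub_lt _ h2 h1)
    exact sub_eq_zero.1 (val_const hV.1.1 h3)
  refine ⟨{ toFun := z, map_one' := ?_, map_mul' := ?_, map_zero' := ?_, map_add' := ?_,
            commutes' := ?_ }, hz⟩
  · exact huniq _ _ _ (hz 1) (by simp)
  · intro a b
    refine huniq _ _ _ (hz (a * b)) ?_
    have h1 : ((a * b : A) : E) - algebraMap K E (z a * z b) =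
        ((a : E) - algebraMap K E (z a)) * b + algebraMap K E (z a) *
          ((b : E) - algebraMap K E (z b)) := by
      rw [map_mul]
      push_cast
      ring
    rw [h1]
    refine Valuation.map_add_lt _ ?_ ?_
    · rw [map_mul]
      calc V.valuation ((a : E) - algebraMap K E (z a)) * V.valuation (b : E)
          ≤ V.valuation ((a : E) - algebraMap K E (z a)) * 1 :=
            mul_le_mul_right ((V.valuation_le_one_iff _).2 (hA b b.2)) _
        _ < 1 := by rw [mul_one]; exact hz a
    · rw [map_mul]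
      calc V.valuation (algebraMap K E (z a)) * V.valuation ((b : E) - algebraMap K E (z b))
          ≤ 1 * V.valuation ((b : E) - algebraMap K E (z b)) :=
            mul_le_mul_left ((V.valuation_le_one_iff _).2 (hV.1.1 _)) _
        _ < 1 := by rw [one_mul]; exact hz b
  · exact huniq _ _ _ (hz 0) (by simp)
  · intro a b
    refine huniq _ _ _ (hz (a + b)) ?_
    have h1 : ((a + b : A) : E) - algebraMap K E (z a + z b) =
        ((a : E) - algebraMap K E (z a)) + ((b : E) - algebraMap K E (z b)) := by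
      rw [map_add]
      push_cast
      ring
    rw [h1]
    exact Valuation.map_add_lt _ (hz a) (hz b)
  · intro r
    refine huniq _ _ _ (hz _) ?_
    change V.valuation (algebraMap K E r - algebraMap K E r) < 1
    simp

/-- a Gamma-algebra of genus zero is generated by an element of degree one -/
theorem mem_adjoin_of_one_mem {Γ : AddSubmonoid ℕ} {K A : Type*} [Field K] [CommRing A]
    [Algebra K A] (G : GamAlg Γ K A) (h1 : 1 ∈ Γ) (a : A) :
    a ∈ Algebra.adjoin K {G.B ⟨1, h1⟩} := by
  have key : ∀ c : Γ, Lead K G.B ((G.B ⟨1, h1⟩) ^ (c : ℕ)) c := by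
    intro c
    have h := (Lead.self (R := K) (A := A) (b := (G.B : Γ → A)) (⟨1, h1⟩ : Γ)).pow G.mul G.one (c : ℕ)
    have hc : (c : ℕ) • (⟨1, h1⟩ : Γ) = c := by
      apply Subtype.ext
      simp
    rwa [hc] at h
  obtain ⟨b', hb'⟩ := exists_basis_of_triangular (R := K) (G := (Γ : Set ℕ)) G.B
    (fun c => (G.B ⟨1, h1⟩) ^ (c : ℕ)) key
  have h2 := b'.mem_span a
  have h3 : Submodule.span K (Set.range b') ≤
      Subalgebra.toSubmodule (Algebra.adjoin K {G.B ⟨1, h1⟩}) := by
    rw [Submodule.span_le]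
    rintro _ ⟨c, rfl⟩
    rw [hb']
    exact pow_mem (Algebra.subset_adjoin (Set.mem_singleton _)) _
  exact h3 h2

/-- (FINP) the theorem over perfect fields satisfying (FV) -/
theorem noFixed_perfect {K F Ω : Type u} [Field K] [PerfectField K] [Field F] [Algebra K F]
    [Field Ω] [Algebra F Ω] [Algebra K Ω] [IsScalarTower K F Ω] [IsAlgClosed Ω]
    [Algebra.IsAlgebraic F Ω] (hFV : FV K (algebraicClosure K Ω)) (hF : IsFunctionField K F)
    (S : Finset (ValuationSubring F)) : NoFixed (F := F) K Ω S := by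
  intro W hW hS hr γ hγ hcomm
  by_contra hγN
  obtain ⟨E, hEfin, hγE, hγE', hDE, hNE, hr1, hr2, hne⟩ :=
    exists_reduction hW hS hr hγ hcomm hγN
  have hE : IsFunctionField K E := IsFunctionField.of_finite K hF E
  have hst : IsScalarTower K E Ω := isScalarTower_intermediate E
  have hclosed : IsAlgClosed (algebraicClosure K Ω) :=
    (algebraicClosure.isAlgClosure K Ω).isAlgClosed
  obtain ⟨Γ, A, ⟨G⟩, -, hDed, hfrac, hconst, hreg⟩ := exists_gamAlg hE hr1
  have hDedKb : IsDedekindDomain (algebraicClosure K Ω ⊗[K] A) :=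
    dedekind_of_perfect G hDed
  -- the rational point z'
  obtain ⟨z', hz'⟩ := exists_eval hr2 A (hreg _ hr2.1 (fun h => hne h.symm))
  -- the tautological point
  set η : A →ₐ[K] Ω := (IsScalarTower.toAlgHom K E Ω).comp A.val with hη
  have hηE : ∀ a, η a ∈ E := fun a => (a : E).2
  have hηinj : Function.Injective η := by
    intro a b hab
    exact Subtype.ext (Subtype.ext hab)
  have hηalg : Algebra.IsAlgebraic η.range Ω := by
    have hmem : ∀ b : η.range, (b : Ω) ∈ E := by
      rintro ⟨_, a, rfl⟩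
      exact hηE a
    letI : Algebra η.range E :=
      RingHom.toAlgebra
        { toFun := fun b => ⟨b, hmem b⟩
          map_one' := rfl
          map_zero' := rfl
          map_mul' := fun _ _ => rfl
          map_add' := fun _ _ => rfl }
    have : IsScalarTower η.range E Ω := IsScalarTower.of_algebraMap_eq fun _ => rfl
    have hfaith : FaithfulSMul η.range E := by
      rw [faithfulSMul_iff_algebraMap_injective]
      intro a b hab
      exact Subtype.ext (congrArg (algebraMap E Ω) hab)
    have : IsFractionRing η.range E := by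
      refine IsFractionRing.of_field _ _ fun z => ?_
      obtain ⟨a, ha, b, hb, hb0, hzab⟩ := hfrac z
      exact ⟨⟨η ⟨a, ha⟩, ⟨a, ha⟩, rfl⟩, ⟨η ⟨b, hb⟩, ⟨b, hb⟩, rfl⟩, hzab⟩
    have : Algebra.IsAlgebraic E Ω := Algebra.IsAlgebraic.tower_top (K := F) E
    exact (IsFractionRing.comap_isAlgebraic_iff (A := η.range) (K := E) (C := Ω)).2 this
  have hinf : ∃ a, η a ∉ W := by
    by_contra hcon
    push Not at hcon
    obtain ⟨t, ht, -⟩ := hE
    obtain ⟨a, ha, b, hb, hb0, htab⟩ := hfrac t
    obtain ⟨c, hc⟩ := hconst a ha (hcon ⟨a, ha⟩)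
    obtain ⟨d, hd⟩ := hconst b hb (hcon ⟨b, hb⟩)
    apply ht
    rw [htab, hc, hd, ← map_div₀]
    exact isAlgebraic_algebraMap _
  have hz'' : ∀ a, (W.comap ((γ⁻¹ : Ω ≃ₐ[F] Ω) : Ω →+* Ω)).valuation
      (η a - algebraMap K Ω (z' a)) < 1 := by
    intro a
    have h1 := (comap_val_lt_one _ _).1 (hz' a)
    rw [map_sub, ← IsScalarTower.algebraMap_apply K E Ω] at h1
    exact h1
  have h1Γ : 1 ∈ Γ := one_mem_of_invariant (K := K) (Kb := algebraicClosure K Ω) hFV G z'
    fun n hn => exists_invariant hF hW hr hγ hcomm E hDE hNE hγE hγE' G η hηE hηinj hηalg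
      hinf z' hz'' n hn
  refine genus_zero_false hFV hF hW hS hr hγ hcomm E hEfin hγE hγE' hDE hNE hr1 hr2 hne
    (η (G.B ⟨1, h1Γ⟩)) (hηE _) ?_ ?_
  · intro x hx
    have hA : ∀ a : A, (η a) ∈ IntermediateField.adjoin K {η (G.B ⟨1, h1Γ⟩)} := by
      intro a
      have h2 := mem_adjoin_of_one_mem G h1Γ a
      have h3 : η a ∈ (Algebra.adjoin K {G.B ⟨1, h1Γ⟩}).map η := ⟨a, h2, rfl⟩
      rw [AlgHom.map_adjoin, Set.image_singleton] at h3
      exact IntermediateField.algebra_adjoin_le_adjoin K _ h3
    obtain ⟨a, ha, b, hb, hb0, hxab⟩ := hfrac ⟨x, hx⟩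
    have h4 : x = η ⟨a, ha⟩ / η ⟨b, hb⟩ := congrArg (algebraMap E Ω) hxab
    rw [h4]
    exact div_mem (hA _) (hA _)
  · intro hsW
    obtain ⟨c, hc⟩ := hconst _ (G.B ⟨1, h1Γ⟩).2 hsW
    have h5 : G.B ⟨1, h1Γ⟩ = c • G.B 0 := by
      rw [G.one]
      apply Subtype.ext
      rw [hc]
      change _ = c • (1 : E)
      rw [Algebra.algebraMap_eq_smul_one]
    have h6 := congrArg (fun x => G.B.repr x ⟨1, h1Γ⟩) h5
    have h7 : (⟨1, h1Γ⟩ : Γ) ≠ 0 := fun h => by
      have := congrArg Subtype.val h
      simp at this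
    simp only [Module.Basis.repr_self, map_smul, Finsupp.single_eq_same, Finsupp.smul_apply] at h6
    rw [Finsupp.single_eq_of_ne (by exact h7)] at h6
    simp at h6

end PiCurve
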