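import Pool.Agent.Pi2.Gam
import Pool.Agent.Helper99.PiP.Codim

/-!
# Gamma-algebras over a field
-/

open Polynomial Module

namespace PiCurve

section field

variable {G : AddSubmonoid ℕ} {L A : Type*} [Field L] [CommRing A] [Algebra L A]

theorem GamAlg.exists_lead (D : GamAlg G L A) {x : A} (hx : x ≠ 0) : ∃ c : G, Lead L D.B x c := by
  classical
  have hsupp : (D.B.repr x).support.Nonempty := by
    rw [Finsupp.support_nonempty_iff]
    exact fun h => hx ((LinearEquiv.map_eq_zero_iff D.B.repr).1 h)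
  obtain ⟨c, hc, hmax⟩ := Finset.exists_max_image (D.B.repr x).support (fun c : G => (c : ℕ)) hsupp
  have hne : D.B.repr x c ≠ 0 := Finsupp.mem_support_iff.1 hc
  refine ⟨c, Units.mk0 _ hne, ?_⟩
  change _ ∈ D.lt c
  rw [D.mem_lt_iff]
  intro d hd
  rw [map_sub, map_smul, Basis.repr_self, Finsupp.sub_apply, Finsupp.smul_apply,
    Finsupp.single_apply, Units.val_mk0]
  by_cases h : c = d
  · subst h
    simp
  · rw [if_neg h, smul_zero, sub_zero]
    by_contra h2
    exact h (Subtype.ext (le_antisymm hd (hmax d (Finsupp.mem_support_iff.2 h2))))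

theorem GamAlg.lead_repr (D : GamAlg G L A) {x : A} {c : G} (hx : Lead L D.B x c) :
    D.B.repr x c ≠ 0 ∧ ∀ d : G, (c : ℕ) < d → D.B.repr x d = 0 := by
  obtain ⟨r, hr⟩ := hx
  have hr' : x - (r : L) • D.B c ∈ D.lt c := hr
  rw [D.mem_lt_iff] at hr'
  constructor
  · have h1 := hr' c le_rfl
    rw [map_sub, map_smul, Basis.repr_self, Finsupp.sub_apply, Finsupp.smul_apply,
      Finsupp.single_eq_same, smul_eq_mul, mul_one, sub_eq_zero] at h1
    rw [h1]
    exact r.ne_zero
  · intro d hd
    have h1 := hr' d hd.le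
    rw [map_sub, map_smul, Basis.repr_self, Finsupp.sub_apply, Finsupp.smul_apply,
      Finsupp.single_apply, if_neg (fun h => by rw [h] at hd; exact lt_irrefl _ hd), smul_zero,
      sub_zero] at h1
    exact h1

theorem GamAlg.lead_ne_zero (D : GamAlg G L A) {x : A} {c : G} (hx : Lead L D.B x c) : x ≠ 0 := by
  rintro rfl
  exact (D.lead_repr hx).1 (by simp)

theorem GamAlg.lead_unique (D : GamAlg G L A) {x : A} {c d : G} (hc : Lead L D.B x c)
    (hd : Lead L D.B x d) : c = d := by
  apply Subtype.ext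
  rcases lt_trichotomy (c : ℕ) d with h | h | h
  · exact absurd ((D.lead_repr hc).2 d h) (D.lead_repr hd).1
  · exact h
  · exact absurd ((D.lead_repr hd).2 c h) (D.lead_repr hc).1

theorem GamAlg.nontrivial (D : GamAlg G L A) : Nontrivial A := by
  refine ⟨1, 0, ?_⟩
  rw [← D.one]
  exact D.B.ne_zero 0

theorem GamAlg.isDomain (D : GamAlg G L A) : IsDomain A := by
  have h1 := D.nontrivial
  have h2 : NoZeroDivisors A := ⟨fun {a b} hab => by
    by_contra h
    push Not at h
    obtain ⟨c, hc⟩ := D.exists_lead h.1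
    obtain ⟨d, hd⟩ := D.exists_lead h.2
    exact D.lead_ne_zero (hc.mul D.mul hd) hab⟩
  exact NoZeroDivisors.to_isDomain A

/-- The lead of an element of `lt n` is `< n`. -/
theorem GamAlg.lead_lt (D : GamAlg G L A) {x : A} {c : G} (hx : Lead L D.B x c) {n : ℕ}
    (hn : x ∈ D.lt n) : (c : ℕ) < n := by
  by_contra h
  exact (D.lead_repr hx).1 ((D.mem_lt_iff.1 hn) c (not_lt.1 h))

instance (D : GamAlg G L A) (n : ℕ) : FiniteDimensional L (D.lt n) := by
  unfold GamAlg.lt ltSpan
  apply FiniteDimensional.span_of_finite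
  apply Set.Finite.image
  exact Set.Finite.preimage (Subtype.val_injective.injOn) (Set.finite_Iio n)

theorem GamAlg.finrank_lt (D : GamAlg G L A) (n : ℕ) :
    finrank L (D.lt n) = (below G n).card := by
  classical
  have h1 : (D.B '' {e : (G : Set ℕ) | (e : ℕ) < n}) =
      Set.range (fun e : below G n => D.B ⟨e.1, (Finset.mem_filter.1 e.2).2⟩) := by
    ext x
    constructor
    · rintro ⟨e, he, rfl⟩
      exact ⟨⟨e, Finset.mem_filter.2 ⟨Finset.mem_range.2 he, e.2⟩⟩, rfl⟩
    · rintro ⟨e, rfl⟩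
      exact ⟨⟨e.1, (Finset.mem_filter.1 e.2).2⟩,
        Finset.mem_range.1 (Finset.mem_filter.1 e.2).1, rfl⟩
  have h2 : D.lt n = Submodule.span L
      (Set.range (fun e : below G n => D.B ⟨e.1, (Finset.mem_filter.1 e.2).2⟩)) := by
    rw [← h1]
    rfl
  rw [h2, finrank_span_eq_card]
  · exact Fintype.card_coe _
  · exact D.B.linearIndependent.comp (fun e : below G n => (⟨e.1, (Finset.mem_filter.1 e.2).2⟩ : G))
      (fun e e' h => Subtype.ext (congrArg (fun t : G => (t : ℕ)) h))

/-- Reduction modulo `f`. -/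
theorem GamAlg.exists_red (D : GamAlg G L A) {f : A} {n : G} (hf : Lead L D.B f n) (x : A) :
    ∃ y ∈ D.lt (n + 2 * genus G), ∃ z : A, x = y + z * f := by
  have key : ∀ N : ℕ, ∀ x ∈ D.lt N, ∃ y ∈ D.lt (n + 2 * genus G), ∃ z : A, x = y + z * f := by
    intro N
    induction N with
    | zero =>
      intro x hx
      exact ⟨x, D.lt_mono (Nat.zero_le _) hx, 0, by simp⟩
    | succ N ih =>
      intro x hx
      by_cases hN : N + 1 ≤ n + 2 * genus G
      · exact ⟨x, D.lt_mono hN hx, 0, by simp⟩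
      · have hd : N - n ∈ G := mem_of_two_genus_le D.cofin (by omega)
        let d : G := ⟨N - n, hd⟩
        have hdn : ((d + n : G) : ℕ) = N := by
          change N - n + n = N
          omega
        have hlead : Lead L D.B (D.B d * f) (d + n) := (Lead.self d).mul D.mul hf
        have hr := D.lead_repr hlead
        set a : L := D.B.repr x (d + n) / D.B.repr (D.B d * f) (d + n) with ha
        have hx' : x - a • (D.B d * f) ∈ D.lt N := by
          rw [D.mem_lt_iff]
          intro c hc
          rw [map_sub, map_smul, Finsupp.sub_apply, Finsupp.smul_apply, smul_eq_mul]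
          by_cases h : c = d + n
          · rw [h, ha, div_mul_cancel₀ _ hr.1, sub_self]
          · have hlt : N < (c : ℕ) := by
              refine lt_of_le_of_ne hc fun h2 => h (Subtype.ext ?_)
              rw [hdn, h2]
            rw [(D.mem_lt_iff.1 hx) c hlt, hr.2 c (by rw [hdn]; exact hlt), mul_zero, sub_zero]
        obtain ⟨y, hy, z, hz⟩ := ih _ hx'
        refine ⟨y, hy, z + a • D.B d, ?_⟩
        rw [add_mul, smul_mul_assoc, ← add_assoc, ← hz]
        abel
  obtain ⟨N, hN⟩ := D.exists_mem_lt x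
  exact key N x hN

/-- The map from the elements of degree `< N` to the quotient by an ideal. -/
noncomputable def GamAlg.toQuot (D : GamAlg G L A) (I : Ideal A) (N : ℕ) :
    D.lt N →ₗ[L] A ⧸ I :=
  (Ideal.Quotient.mkₐ L I).toLinearMap.comp (D.lt N).subtype

theorem GamAlg.toQuot_surjective (D : GamAlg G L A) {I : Ideal A} {f : A} {n : G}
    (hf : Lead L D.B f n) (hfI : f ∈ I) {N : ℕ} (hN : n + 2 * genus G ≤ N) :
    Function.Surjective (D.toQuot I N) := by
  intro q
  obtain ⟨x, rfl⟩ := Ideal.Quotient.mk_surjective q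
  obtain ⟨y, hy, z, rfl⟩ := D.exists_red hf x
  refine ⟨⟨y, D.lt_mono hN hy⟩, ?_⟩
  change Ideal.Quotient.mk I y = Ideal.Quotient.mk I (y + z * f)
  rw [Ideal.Quotient.eq]
  have : y - (y + z * f) = -(z * f) := by ring
  rw [this]
  exact I.neg_mem (I.mul_mem_left z hfI)

theorem GamAlg.finite_quot (D : GamAlg G L A) {I : Ideal A} (hI : I ≠ ⊥) :
    FiniteDimensional L (A ⧸ I) := by
  obtain ⟨f, hfI, hf0⟩ := Submodule.exists_mem_ne_zero_of_ne_bot hI
  obtain ⟨n, hn⟩ := D.exists_lead hf0
  exact Module.Finite.of_surjective _ (D.toQuot_surjective hn hfI le_rfl)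

/-- The elements of degree `< N` of an ideal. -/
noncomputable def GamAlg.cut (D : GamAlg G L A) (I : Ideal A) (N : ℕ) : Submodule L A :=
  D.lt N ⊓ I.restrictScalars L

theorem GamAlg.mem_cut (D : GamAlg G L A) {I : Ideal A} {N : ℕ} {x : A} :
    x ∈ D.cut I N ↔ x ∈ D.lt N ∧ x ∈ I := Iff.rfl

instance (D : GamAlg G L A) (I : Ideal A) (N : ℕ) : FiniteDimensional L (D.cut I N) :=
  Submodule.finiteDimensional_of_le (inf_le_left : D.cut I N ≤ D.lt N)

theorem GamAlg.map_ker_toQuot (D : GamAlg G L A) (I : Ideal A) (N : ℕ) :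
    (LinearMap.ker (D.toQuot I N)).map (D.lt N).subtype = D.cut I N := by
  ext x
  constructor
  · rintro ⟨y, hy, rfl⟩
    refine D.mem_cut.2 ⟨y.2, ?_⟩
    have h1 : Ideal.Quotient.mk I (y : A) = 0 := hy
    exact Ideal.Quotient.eq_zero_iff_mem.1 h1
  · intro hx
    obtain ⟨h1, h2⟩ := D.mem_cut.1 hx
    exact ⟨⟨x, h1⟩, Ideal.Quotient.eq_zero_iff_mem.2 h2, rfl⟩

theorem GamAlg.finrank_cut (D : GamAlg G L A) {I : Ideal A} {f : A} {n : G}
    (hf : Lead L D.B f n) (hfI : f ∈ I) {N : ℕ} (hN : n + 2 * genus G ≤ N) :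
    finrank L (A ⧸ I) + finrank L (D.cut I N) = finrank L (D.lt N) := by
  have h1 := LinearMap.finrank_range_add_finrank_ker (D.toQuot I N)
  rw [LinearMap.range_eq_top.2 (D.toQuot_surjective hf hfI hN), finrank_top] at h1
  rw [← h1, ← D.map_ker_toQuot I N]
  congr 1
  exact LinearEquiv.finrank_eq (Submodule.equivMapOfInjective _ (Submodule.injective_subtype _) _).symm

/-- A finite-dimensional quotient forces small elements in the ideal. -/
theorem GamAlg.exists_mem_lt_of_finrank (D : GamAlg G L A) (I : Ideal A)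
    [FiniteDimensional L (A ⧸ I)] :
    ∃ f ∈ I, f ≠ 0 ∧ f ∈ D.lt (finrank L (A ⧸ I) + genus G + 1) := by
  by_contra hcon
  push Not at hcon
  set N := finrank L (A ⧸ I) + genus G + 1 with hN
  have hinj : Function.Injective (D.toQuot I N) := by
    rw [injective_iff_map_eq_zero]
    intro y hy
    have h1 : Ideal.Quotient.mk I (y : A) = 0 := hy
    by_contra h0
    exact hcon y (Ideal.Quotient.eq_zero_iff_mem.1 h1) (fun h => h0 (Subtype.ext h)) y.2
  have h2 := LinearMap.finrank_le_finrank_of_injective hinj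
  rw [D.finrank_lt] at h2
  have h3 := le_card_below D.cofin N
  omega

theorem GamAlg.finrank_quot_span (D : GamAlg G L A) {f : A} {n : G} (hf : Lead L D.B f n) :
    finrank L (A ⧸ Ideal.span {f}) = n := by
  have h1 := D.finrank_cut hf (Ideal.mem_span_singleton_self f)
    (N := n + 2 * genus G) le_rfl
  have hdom := D.isDomain
  have hf0 := D.lead_ne_zero hf
  have h2 : D.cut (Ideal.span {f}) (n + 2 * genus G) =
      (D.lt (2 * genus G)).map (LinearMap.mulRight L f) := by
    ext x
    constructor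
    · intro hx
      obtain ⟨hx1, hx2⟩ := D.mem_cut.1 hx
      obtain ⟨z, rfl⟩ := Ideal.mem_span_singleton'.1 hx2
      refine ⟨z, ?_, rfl⟩
      by_cases hz : z = 0
      · rw [hz]
        exact Submodule.zero_mem _
      · obtain ⟨c, hc⟩ := D.exists_lead hz
        have h3 := D.lead_lt (hc.mul D.mul hf) hx1
        have h4 : ((c + n : G) : ℕ) = c + n := rfl
        exact hc.mem_ltSpan (by omega)
    · rintro ⟨z, hz, rfl⟩
      refine D.mem_cut.2 ⟨?_, Ideal.mem_span_singleton'.2 ⟨z, rfl⟩⟩
      have h3 := D.mul_mem_lt hz hf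
      rw [add_comm] at h3
      exact h3
  have h3 : finrank L (D.cut (Ideal.span {f}) (n + 2 * genus G)) =
      finrank L (D.lt (2 * genus G)) := by
    rw [h2]
    refine (LinearEquiv.finrank_eq (Submodule.equivMapOfInjective _ ?_ _)).symm
    exact fun x y h => mul_right_cancel₀ hf0 h
  rw [h3, D.finrank_lt, D.finrank_lt] at h1
  have h4 := card_below D.cofin (n := 2 * genus G) le_rfl
  have h5 := card_below D.cofin (n := n + 2 * genus G) (by omega)
  omega

/-- The dimension formula. -/
theorem GamAlg.finrank_cut_eq (D : GamAlg G L A) {I : Ideal A} [FiniteDimensional L (A ⧸ I)]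
    {N : ℕ} (hN : finrank L (A ⧸ I) + 3 * genus G ≤ N) :
    finrank L (D.cut I N) + finrank L (A ⧸ I) + genus G = N := by
  obtain ⟨f, hfI, hf0, hf⟩ := D.exists_mem_lt_of_finrank I
  obtain ⟨n, hn⟩ := D.exists_lead hf0
  have h1 := D.lead_lt hn hf
  have h2 := D.finrank_cut hn hfI (N := N) (by omega)
  rw [D.finrank_lt] at h2
  have h3 := card_below D.cofin (n := N) (by omega)
  omega

end field

end PiCurve
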