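import Mathlib
import Pool.Agent.Pi2.Defs
import Pool.Agent.Helper10.Pi2.Const

/-!
# The etale fundamental group of a curve, its geometric part, the section of a rational point

`F/K` is a function field of one variable, `S` a finite set of places of `F/K`, `X` the complement
of `S` in the regular proper model of `F/K`, `Ω` an algebraic closure of `F`.
-/

universe u

namespace PiCurve

/-- `K` is a global function field: a function field of one variable over a finite field. -/
def IsGlobalFunctionField (K : Type u) [Field K] : Prop :=
  ∃ (k : Type u) (_ : Field k) (_ : Finite k) (_ : Algebra k K), IsFunctionField k K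

/-- The absolute Galois group of `K`: the automorphism group of the algebraic closure of `K`
inside `Ω`. -/
abbrev GalK (K Ω : Type u) [Field K] [Field Ω] [Algebra K Ω] : Type u :=
  algebraicClosure K Ω ≃ₐ[K] algebraicClosure K Ω

variable (K : Type u) [Field K] {F : Type u} [Field F] [Algebra K F]
  (Ω : Type u) [Field Ω] [Algebra F Ω] [Algebra K Ω] [IsScalarTower K F Ω]
  (S : Finset (ValuationSubring F))

theorem ramSubgroup_normal' : (ramSubgroup K Ω S).Normal := Subgroup.is_normal_topologicalClosure _

/-- The fundamental group of `X`: the automorphism group of `Ω/F` modulo the closed normal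
subgroup generated by the inertia groups of all places of `Ω` above `X`. -/
def PiOne : Type u := (Ω ≃ₐ[F] Ω) ⧸ ramSubgroup K Ω S

noncomputable instance : Group (PiOne K Ω S) :=
  haveI := ramSubgroup_normal' K Ω S
  QuotientGroup.Quotient.group (ramSubgroup K Ω S)

/-- The class in the fundamental group of `X` of an automorphism of `Ω/F`. -/
noncomputable def PiOne.mk : (Ω ≃ₐ[F] Ω) →* PiOne K Ω S :=
  haveI := ramSubgroup_normal' K Ω S
  QuotientGroup.mk' (ramSubgroup K Ω S)

/-- The restriction of an automorphism of `Ω/F` to the algebraic closure of `K` in `Ω`. -/
noncomputable def resConst : (Ω ≃ₐ[F] Ω) →* GalK K Ω where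
  toFun σ := algebraicClosure.algEquivOfAlgEquiv (σ.restrictScalars K)
  map_one' := by
    ext x
    rfl
  map_mul' σ τ := by
    ext x
    rfl

/-- The projection of the fundamental group of `X` onto the absolute Galois group of `K`. -/
noncomputable def toGal [Algebra.IsAlgebraic F Ω] : PiOne K Ω S →* GalK K Ω :=
  haveI := ramSubgroup_normal' K Ω S
  QuotientGroup.lift (ramSubgroup K Ω S) (resConst K Ω) (by
    intro σ hσ
    ext c
    exact ramSubgroup_fix S hσ c (mem_algebraicClosure_iff.1 c.2))

/-- The geometric fundamental group: the kernel of the projection onto the Galois group of `K`. -/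
noncomputable def PiGeom [Algebra.IsAlgebraic F Ω] : Subgroup (PiOne K Ω S) := (toGal K Ω S).ker

/-- `s` is the section attached to the place `W` of `Ω` above a rational point of `X`: for every
`δ` in the decomposition group of `W` it maps the restriction of `δ` to the constants to the class
of `δ`. -/
def IsSectionOf (W : ValuationSubring Ω) (s : GalK K Ω →* PiOne K Ω S) : Prop :=
  ∀ δ ∈ decomp (F := F) W, s (resConst K Ω δ) = PiOne.mk K Ω S δ

end PiCurve
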