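import Mathlib
import Pool.Agent.Pi2.GroupDefs
import Pool.Agent.Helper10.Pi2.FF

/-!
# The section of a rational point; translation of `NoFixed`
-/

universe u

namespace PiCurve

variable {K : Type u} [Field K] {F : Type u} [Field F] [Algebra K F]
  {Ω : Type u} [Field Ω] [Algebra F Ω] [Algebra K Ω] [IsScalarTower K F Ω]
  {S : Finset (ValuationSubring F)}

theorem PiOne.mk_eq_one {σ : Ω ≃ₐ[F] Ω} : PiOne.mk K Ω S σ = 1 ↔ σ ∈ ramSubgroup K Ω S :=
  haveI := ramSubgroup_normal' K Ω S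
  QuotientGroup.eq_one_iff σ

theorem PiOne.mk_surjective : Function.Surjective (PiOne.mk (F := F) K Ω S) :=
  haveI := ramSubgroup_normal' K Ω S
  QuotientGroup.mk'_surjective _

theorem toGal_mk [Algebra.IsAlgebraic F Ω] (σ : Ω ≃ₐ[F] Ω) :
    toGal K Ω S (PiOne.mk K Ω S σ) = resConst K Ω σ := rfl

theorem resConst_eq_constRes (σ : Ω ≃ₐ[F] Ω) : resConst K Ω σ = constRes K σ := rfl

/-- The section attached to a place above a rational point of `X` exists and is unique. -/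
theorem existsUnique_section [Algebra.IsAlgebraic F Ω] [IsAlgClosed Ω] {W : ValuationSubring Ω}
    (hW : IsPlace K W) (hS : W.comap (algebraMap F Ω) ∉ S)
    (hr : IsRational K (W.comap (algebraMap F Ω))) :
    ∃ s : GalK K Ω →* PiOne K Ω S, IsSectionOf (F := F) K Ω S W s ∧
      ∀ s' : GalK K Ω →* PiOne K Ω S, IsSectionOf (F := F) K Ω S W s' → s' = s := by
  choose δ hδ hδr using fun θ : GalK K Ω => exists_decomp_constRes_eq (F := F) hr θ
  have key : ∀ α ∈ decomp (F := F) W, ∀ β ∈ decomp (F := F) W, constRes K α = constRes K β →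
      PiOne.mk K Ω S α = PiOne.mk K Ω S β := by
    intro α hα β hβ h
    rw [← inv_mul_eq_one, ← map_inv, ← map_mul, PiOne.mk_eq_one]
    apply inertia_le_ramSubgroup hW hS
    apply mem_inertia_of_decomp hr
    · intro f
      have h2 : (α⁻¹ * β) f ∈ W ↔ α ((α⁻¹ * β) f) ∈ W := (hα _).symm
      rw [h2]
      have h3 : α ((α⁻¹ * β) f) = β f := by
        change α (α⁻¹ (β f)) = β f
        exact α.apply_symm_apply _
      rw [h3]
      exact hβ f
    · rw [← constRes_eq_one_iff, map_mul, map_inv, h, inv_mul_cancel]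
  have hmul : ∀ α ∈ decomp (F := F) W, ∀ β ∈ decomp (F := F) W, α * β ∈ decomp (F := F) W := by
    intro α hα β hβ f
    exact (hα (β f)).trans (hβ f)
  have hone : (1 : Ω ≃ₐ[F] Ω) ∈ decomp (F := F) W := fun f => Iff.rfl
  refine ⟨{ toFun := fun θ => PiOne.mk K Ω S (δ θ), map_one' := ?_, map_mul' := ?_ }, ?_, ?_⟩
  · rw [← map_one (PiOne.mk (F := F) K Ω S)]
    exact key _ (hδ 1) 1 hone (by rw [hδr, map_one])
  · intro a b
    rw [← map_mul]
    exact key _ (hδ _) _ (hmul _ (hδ a) _ (hδ b)) (by rw [hδr, map_mul, hδr, hδr])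
  · intro α hα
    exact key _ (hδ _) _ hα (hδr _)
  · intro s hs
    refine MonoidHom.ext fun θ => ?_
    have h1 := hs (δ θ) (hδ θ)
    rw [resConst_eq_constRes, hδr] at h1
    exact h1

/-- The section is a section. -/
theorem toGal_section [Algebra.IsAlgebraic F Ω] [IsAlgClosed Ω] {W : ValuationSubring Ω}
    (hr : IsRational K (W.comap (algebraMap F Ω))) {s : GalK K Ω →* PiOne K Ω S}
    (hs : IsSectionOf (F := F) K Ω S W s) (θ : GalK K Ω) : toGal K Ω S (s θ) = θ := by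
  obtain ⟨δ, hδ, hδr⟩ := exists_decomp_constRes_eq (F := F) hr θ
  have h1 := hs δ hδ
  rw [resConst_eq_constRes, hδr] at h1
  rw [h1, toGal_mk, resConst_eq_constRes, hδr]

/-- translation of `NoFixed` -/
theorem NoFixed.section [Algebra.IsAlgebraic F Ω] [IsAlgClosed Ω] (h : NoFixed (F := F) K Ω S)
    {W : ValuationSubring Ω} (hW : IsPlace K W) (hS : W.comap (algebraMap F Ω) ∉ S)
    (hr : IsRational K (W.comap (algebraMap F Ω))) {s : GalK K Ω →* PiOne K Ω S}
    (hs : IsSectionOf (F := F) K Ω S W s) {γ : PiOne K Ω S} (hγ : γ ∈ PiGeom K Ω S)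
    (hfix : ∀ σ : GalK K Ω, s σ * γ * (s σ)⁻¹ = γ) : γ = 1 := by
  obtain ⟨γ, rfl⟩ := PiOne.mk_surjective γ
  rw [PiOne.mk_eq_one]
  have hγ' : constRes K γ = 1 := hγ
  refine h W hW hS hr γ ((constRes_eq_one_iff γ).1 hγ') fun δ hδ => ?_
  have h1 := hfix (resConst K Ω δ)
  rw [hs δ hδ] at h1
  have h3 : PiOne.mk K Ω S δ * PiOne.mk K Ω S γ = PiOne.mk K Ω S γ * PiOne.mk K Ω S δ :=
    mul_inv_eq_iff_eq_mul.1 h1
  rw [← PiOne.mk_eq_one (K := K) (S := S), map_mul, map_mul, map_mul, map_inv, map_inv, ← h3]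
  group

end PiCurve
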