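import Mathlib
import Pool.Agent.Pi2.FINP
import Pool.Agent.Helper10.Pi2.Sep

/-! (IMP) global function fields as constant fields. -/

universe u

namespace PiCurve

open TensorProduct

section insep

variable {K F Ω : Type u} [Field K] [Field F] [Algebra K F] [Field Ω] [Algebra F Ω] [Algebra K Ω]
  [IsScalarTower K F Ω]

variable (K Ω) in
/-- The perfect closure of the constant field. -/
noncomputable abbrev KP : IntermediateField K Ω := perfectClosure K Ω

variable (K F Ω) in
/-- The compositum of `F` and the perfect closure of the constant field. -/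
noncomputable abbrev FP : IntermediateField F Ω := IntermediateField.adjoin F (KP K Ω : Set Ω)

theorem fp_le : FP K F Ω ≤ perfectClosure F Ω := by
  rw [IntermediateField.adjoin_le_iff]
  intro x hx
  obtain ⟨n, a, ha⟩ := mem_perfectClosure_iff.1 hx
  have h1 : ExpChar K (ringExpChar K) := inferInstance
  have h2 : ExpChar F (ringExpChar K) :=
    expChar_of_injective_algebraMap (algebraMap K F).injective (ringExpChar K)
  refine (mem_perfectClosure_iff_pow_mem (ringExpChar K)).2 ⟨n, algebraMap K F a, ?_⟩
  rw [← IsScalarTower.algebraMap_apply K F Ω, ha]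

instance : IsPurelyInseparable F (FP K F Ω) := (le_perfectClosure_iff _ _ _).1 fp_le

variable (K F Ω) in
/-- The inclusion of the constants. -/
noncomputable def kpToFp : KP K Ω →+* FP K F Ω :=
  (KP K Ω).toSubring.subtype.codRestrict (FP K F Ω).toSubring
    (fun x => IntermediateField.subset_adjoin F _ x.2)

noncomputable instance instAlgKPFP : Algebra (KP K Ω) (FP K F Ω) := (kpToFp K F Ω).toAlgebra

omit [Algebra K F] [IsScalarTower K F Ω] in
theorem algebraMap_kp_fp (x : KP K Ω) : ((algebraMap (KP K Ω) (FP K F Ω) x : FP K F Ω) : Ω) = x :=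
  rfl

instance : IsScalarTower (KP K Ω) (FP K F Ω) Ω := IsScalarTower.of_algebraMap_eq fun _ => rfl

theorem fp_pow_mem {x : Ω} (hx : x ∈ FP K F Ω) :
    ∃ (n : ℕ) (a : F), x ^ (ringExpChar K) ^ n = algebraMap F Ω a := by
  have h2 : ExpChar F (ringExpChar K) :=
    expChar_of_injective_algebraMap (algebraMap K F).injective (ringExpChar K)
  obtain ⟨n, a, ha⟩ := (mem_perfectClosure_iff_pow_mem (ringExpChar K)).1 (fp_le hx)
  exact ⟨n, a, ha.symm⟩

theorem expChar_pow_pos (n : ℕ) : 0 < (ringExpChar K) ^ n :=
  pow_pos (expChar_pos K (ringExpChar K)) n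

theorem mem_iff_pow_mem (W : ValuationSubring Ω) {x : Ω} {n : ℕ} (hn : 0 < n) :
    x ^ n ∈ W ↔ x ∈ W := by
  constructor
  · intro h
    rw [← W.valuation_le_one_iff] at h ⊢
    rw [map_pow] at h
    exact (pow_le_one_iff hn.ne').1 h
  · exact fun h => pow_mem h n

/-- An automorphism over `F` fixes the compositum. -/
theorem fix_fp (σ : Ω ≃ₐ[F] Ω) : ∀ x ∈ FP K F Ω, σ x = x := by
  intro x hx
  obtain ⟨n, a, ha⟩ := fp_pow_mem hx
  have h2 : ExpChar Ω (ringExpChar K) :=
    expChar_of_injective_algebraMap (algebraMap K Ω).injective (ringExpChar K)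
  have h3 : (σ x) ^ (ringExpChar K) ^ n = x ^ (ringExpChar K) ^ n := by
    rw [← map_pow, ha, σ.commutes]
  exact iterateFrobenius_inj Ω (ringExpChar K) n h3

theorem isPlace_kp_iff {W : ValuationSubring Ω} : IsPlace (KP K Ω) W ↔ IsPlace K W := by
  constructor
  · intro h
    refine ⟨fun a => ?_, h.2⟩
    exact h.1 (algebraMap K (KP K Ω) a)
  · intro h
    refine ⟨fun a => ?_, h.2⟩
    exact mem_of_isAlgebraic h.1 ((isAlgebraic_algebraMap_iff
      (algebraMap (KP K Ω) Ω).injective).2 (Algebra.IsAlgebraic.isAlgebraic a))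

omit [Algebra K F] [IsScalarTower K F Ω] in
theorem comap_comap_fp (W : ValuationSubring Ω) :
    (W.comap (algebraMap (FP K F Ω) Ω)).comap (algebraMap F (FP K F Ω)) =
      W.comap (algebraMap F Ω) := by
  ext x
  rfl

theorem comap_fp_injective : Function.Injective
    (fun V : ValuationSubring (FP K F Ω) => V.comap (algebraMap F (FP K F Ω))) := by
  intro V V' h
  ext x
  obtain ⟨n, a, ha⟩ := fp_pow_mem x.2
  have h1 : x ^ (ringExpChar K) ^ n = algebraMap F (FP K F Ω) a := Subtype.ext ha
  have h2 : ∀ U : ValuationSubring (FP K F Ω), x ∈ U ↔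
      a ∈ U.comap (algebraMap F (FP K F Ω)) := by
    intro U
    rw [ValuationSubring.mem_comap, ← h1, mem_iff_pow_mem U (expChar_pow_pos n)]
  rw [h2 V, h2 V']
  exact iff_of_eq (congrArg (fun U : ValuationSubring F => a ∈ U) h)

theorem isRational_fp {W : ValuationSubring Ω} [PerfectField Ω]
    (hW : IsPlace K W) (hr : IsRational K (W.comap (algebraMap F Ω))) :
    IsRational (KP K Ω) (W.comap (algebraMap (FP K F Ω) Ω)) := by
  have hΩ : ExpChar Ω (ringExpChar K) :=
    expChar_of_injective_algebraMap (algebraMap K Ω).injective (ringExpChar K)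
  refine ⟨⟨fun a => ?_, fun htop => hr.1.2 ?_⟩, ?_⟩
  · rw [ValuationSubring.mem_comap, ← IsScalarTower.algebraMap_apply]
    exact (isPlace_kp_iff.2 hW).1 a
  · rw [← comap_comap_fp (K := K), htop]
    ext x
    simp
  · intro f hf
    obtain ⟨n, b, hb⟩ := fp_pow_mem f.2
    have hbW : b ∈ W.comap (algebraMap F Ω) := by
      rw [ValuationSubring.mem_comap, ← hb]
      exact pow_mem hf _
    obtain ⟨a, g, hg, hg1⟩ := hr.2 b hbW
    obtain ⟨c, hc⟩ : ∃ c : KP K Ω, (c : Ω) ^ (ringExpChar K) ^ n = algebraMap K Ω a := by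
      have hp : PerfectRing Ω (ringExpChar K) := PerfectField.toPerfectRing _
      obtain ⟨c, hc⟩ := (bijective_iterateFrobenius Ω (ringExpChar K) n).2 (algebraMap K Ω a)
      exact ⟨⟨c, (mem_perfectClosure_iff_pow_mem (ringExpChar K)).2 ⟨n, a, hc.symm⟩⟩, hc⟩
    refine ⟨c, f - algebraMap (KP K Ω) (FP K F Ω) c, rfl, ?_⟩
    rw [comap_val_lt_one] at hg1 ⊢
    have h1 : (algebraMap (FP K F Ω) Ω (f - algebraMap (KP K Ω) (FP K F Ω) c)) ^
        (ringExpChar K) ^ n = algebraMap F Ω g := by
      rw [map_sub, sub_pow_expChar_pow, ← hg, map_sub]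
      congr 1
      · rw [← IsScalarTower.algebraMap_apply K F Ω, ← hc]
        rfl
    rw [← h1, map_pow] at hg1
    exact (pow_lt_one_iff (expChar_pow_pos n).ne').1 hg1

/-- The lift of automorphisms. -/
noncomputable def liftFP (K : Type u) {F Ω : Type u} [Field K] [Field F] [Algebra K F] [Field Ω]
    [Algebra F Ω] [Algebra K Ω] [IsScalarTower K F Ω] : (Ω ≃ₐ[F] Ω) →* (Ω ≃ₐ[FP K F Ω] Ω) where
  toFun := fun σ => liftScalars σ (fix_fp σ)
  map_one' := rfl
  map_mul' := fun _ _ => rfl

theorem liftFP_apply (σ : Ω ≃ₐ[F] Ω) (x : Ω) : liftFP K σ x = σ x := rfl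

theorem resScalars_liftFP (σ : Ω ≃ₐ[F] Ω) : resScalars (FP K F Ω) (liftFP K σ) = σ := rfl

theorem liftFP_resScalars (σ : Ω ≃ₐ[FP K F Ω] Ω) : liftFP K (resScalars (FP K F Ω) σ) = σ := rfl

theorem continuous_liftFP [Algebra.IsAlgebraic F Ω] : Continuous (liftFP K (F := F) (Ω := Ω)) := by
  apply continuous_of_continuousAt_one
  rw [continuousAt_def, map_one]
  intro s hs
  obtain ⟨L, hL, hLs⟩ := (krullTopology_mem_nhds_one_iff (FP K F Ω) Ω s).1 hs
  rw [krullTopology_mem_nhds_one_iff]
  obtain ⟨t, ht⟩ := IntermediateField.fg_def.1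
    (IntermediateField.essFiniteType_iff.1 (inferInstance : Algebra.EssFiniteType (FP K F Ω) L))
  refine ⟨IntermediateField.adjoin F t, ?_, ?_⟩
  · have := ht.1.to_subtype
    exact IntermediateField.finiteDimensional_adjoin fun x _ => Algebra.IsIntegral.isIntegral x
  · intro σ hσ
    apply hLs
    rw [SetLike.mem_coe, IntermediateField.mem_fixingSubgroup_iff] at hσ ⊢
    rw [← ht.2]
    intro x hx
    rw [liftFP_apply]
    induction hx using IntermediateField.adjoin_induction with
    | mem x hx => exact hσ x (IntermediateField.subset_adjoin F t hx)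
    | algebraMap x => exact fix_fp σ _ x.2
    | add x y _ _ h1 h2 => rw [map_add, h1, h2]
    | inv x _ h1 => rw [map_inv₀, h1]
    | mul x y _ _ h1 h2 => rw [map_mul, h1, h2]

variable (K) in
/-- The places of the compositum above `S`. -/
noncomputable def liftS (Ω : Type u) [Field Ω] [Algebra F Ω] [Algebra K Ω] [IsScalarTower K F Ω]
    (S : Finset (ValuationSubring F)) : Finset (ValuationSubring (FP K F Ω)) :=
  S.preimage (fun V => V.comap (algebraMap F (FP K F Ω))) comap_fp_injective.injOn

theorem comap_mem_liftS {S : Finset (ValuationSubring F)} {W : ValuationSubring Ω} :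
    W.comap (algebraMap (FP K F Ω) Ω) ∈ liftS K Ω S ↔ W.comap (algebraMap F Ω) ∈ S := by
  unfold liftS
  rw [Finset.mem_preimage, comap_comap_fp]

theorem ram_le_ram {S : Finset (ValuationSubring F)} [Algebra.IsAlgebraic F Ω] :
    ramSubgroup K Ω S ≤
      (ramSubgroup (KP K Ω) Ω (liftS K Ω S)).comap (liftFP K (F := F) (Ω := Ω)) := by
  apply Subgroup.topologicalClosure_minimal
  · have h1 : ((ramSubgroup (KP K Ω) Ω (liftS K Ω S)).comap
        (liftFP K (F := F) (Ω := Ω))).Normal := inferInstance
    apply Subgroup.normalClosure_le_normal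
    intro σ hσ
    simp only [Set.mem_iUnion] at hσ
    obtain ⟨W, ⟨hW, hS⟩, hσ⟩ := hσ
    rw [SetLike.mem_coe, Subgroup.mem_comap]
    refine inertia_le_ramSubgroup (isPlace_kp_iff.2 hW) (fun h => hS (comap_mem_liftS.1 h)) ?_
    exact hσ
  · exact (ramSubgroup_isClosed _).preimage continuous_liftFP

theorem ram_le_ram' {S : Finset (ValuationSubring F)} [Algebra.IsAlgebraic F Ω] :
    ramSubgroup (KP K Ω) Ω (liftS K Ω S) ≤
      (ramSubgroup K Ω S).comap (resScalars (FP K F Ω)) := by
  apply Subgroup.topologicalClosure_minimal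
  · have h1 : ((ramSubgroup K Ω S).comap (resScalars (FP K F Ω))).Normal := inferInstance
    apply Subgroup.normalClosure_le_normal
    intro σ hσ
    simp only [Set.mem_iUnion] at hσ
    obtain ⟨W, ⟨hW, hS⟩, hσ⟩ := hσ
    rw [SetLike.mem_coe, Subgroup.mem_comap]
    refine inertia_le_ramSubgroup (isPlace_kp_iff.1 hW) (fun h => hS (comap_mem_liftS.2 h)) ?_
    exact hσ
  · exact (ramSubgroup_isClosed _).preimage (continuous_resScalars _)

theorem algebraMap_kp_fp_comp (a : K) : algebraMap (KP K Ω) (FP K F Ω) (algebraMap K (KP K Ω) a) =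
    algebraMap F (FP K F Ω) (algebraMap K F a) := by
  apply Subtype.ext
  change algebraMap K Ω a = algebraMap F Ω (algebraMap K F a)
  rw [← IsScalarTower.algebraMap_apply K F Ω]

theorem algebraMap_mem_of_mem_adjoin {t : F} {c : F} (hc : c ∈ IntermediateField.adjoin K {t}) :
    algebraMap F (FP K F Ω) c ∈
      IntermediateField.adjoin (KP K Ω) {algebraMap F (FP K F Ω) t} := by
  induction hc using IntermediateField.adjoin_induction with
  | mem x hx =>
    rw [Set.mem_singleton_iff] at hx
    rw [hx]
    exact IntermediateField.mem_adjoin_simple_self _ _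
  | algebraMap x =>
    rw [← algebraMap_kp_fp_comp]
    exact IntermediateField.algebraMap_mem _ _
  | add x y _ _ h1 h2 => rw [map_add]; exact add_mem h1 h2
  | inv x _ h1 => rw [map_inv₀]; exact inv_mem h1
  | mul x y _ _ h1 h2 => rw [map_mul]; exact mul_mem h1 h2

theorem isFunctionField_fp (hF : IsFunctionField K F) : IsFunctionField (KP K Ω) (FP K F Ω) := by
  obtain ⟨t, ht, hfin⟩ := hF
  refine ⟨algebraMap F (FP K F Ω) t, ?_, ?_⟩
  · intro h
    apply ht
    have h1 : IsAlgebraic (KP K Ω) (algebraMap F Ω t) := by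
      have := h.algebraMap (A := Ω)
      exact this
    have h2 : IsAlgebraic K (algebraMap F Ω t) := h1.restrictScalars K
    exact (isAlgebraic_algebraMap_iff (algebraMap F Ω).injective).1 h2
  · set M := IntermediateField.adjoin (KP K Ω) {algebraMap F (FP K F Ω) t} with hM
    let φ : IntermediateField.adjoin K {t} →+* M :=
      ((algebraMap F (FP K F Ω)).comp (algebraMap (IntermediateField.adjoin K {t}) F)).codRestrict
        M.toSubring (fun c => algebraMap_mem_of_mem_adjoin c.2)
    obtain ⟨b, hb⟩ := Module.Finite.fg_top (R := IntermediateField.adjoin K {t}) (M := F)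
    have hint : ∀ x ∈ (algebraMap F (FP K F Ω)) '' (b : Set F), IsIntegral M x := by
      rintro _ ⟨y, -, rfl⟩
      refine IsIntegral.map_of_comp_eq φ (algebraMap F (FP K F Ω)) ?_
        (Algebra.IsIntegral.isIntegral (R := IntermediateField.adjoin K {t}) y)
      rfl
    have hfb : Finite ((algebraMap F (FP K F Ω)) '' (b : Set F)) :=
      (b.finite_toSet.image _).to_subtype
    have hN : FiniteDimensional M
        (IntermediateField.adjoin M ((algebraMap F (FP K F Ω)) '' (b : Set F))) :=
      IntermediateField.finiteDimensional_adjoin hint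
    set N := IntermediateField.adjoin M ((algebraMap F (FP K F Ω)) '' (b : Set F)) with hNdef
    have hF1 : ∀ f : F, algebraMap F (FP K F Ω) f ∈ N := by
      intro f
      have hf : f ∈ Submodule.span (IntermediateField.adjoin K {t}) (b : Set F) := by
        rw [hb]; trivial
      induction hf using Submodule.span_induction with
      | mem x hx => exact IntermediateField.subset_adjoin _ _ ⟨x, hx, rfl⟩
      | zero => rw [map_zero]; exact zero_mem _
      | add x y _ _ h1 h2 => rw [map_add]; exact add_mem h1 h2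
      | smul c x _ h1 =>
        rw [Algebra.smul_def, map_mul]
        refine mul_mem ?_ h1
        exact IntermediateField.algebraMap_mem N (φ c)
    have htop : N = ⊤ := by
      rw [eq_top_iff]
      rintro ⟨x, hx⟩ -
      induction hx using IntermediateField.adjoin_induction with
      | mem x hx =>
        have h1 := IntermediateField.algebraMap_mem N
          (algebraMap (KP K Ω) M ⟨x, hx⟩)
        exact h1
      | algebraMap x => exact hF1 x
      | add x y _ _ h1 h2 => exact add_mem h1 h2
      | inv x _ h1 => exact inv_mem h1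
      | mul x y _ _ h1 h2 => exact mul_mem h1 h2
    rw [htop] at hN
    exact LinearEquiv.finiteDimensional
      (IntermediateField.topEquiv (F := M) (E := FP K F Ω)).toLinearEquiv

/-- The passage to the perfect closure of the constant field. -/
theorem noFixed_of_perfectClosure [IsAlgClosed Ω] [Algebra.IsAlgebraic F Ω]
    (S : Finset (ValuationSubring F))
    (h : NoFixed (F := FP K F Ω) (KP K Ω) Ω (liftS K Ω S)) : NoFixed (F := F) K Ω S := by
  intro W hW hS hr γ hγ hcomm
  have h1 := h W (isPlace_kp_iff.2 hW) (fun h => hS (comap_mem_liftS.1 h)) (isRational_fp hW hr)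
    (liftFP K γ) ?_ ?_
  · exact ram_le_ram' h1
  · intro a ha
    rw [liftFP_apply]
    apply hγ
    exact ha.restrictScalars K
  · intro δ hδ
    have h2 := hcomm (resScalars (FP K F Ω) δ) hδ
    have h3 := ram_le_ram (K := K) h2
    rw [Subgroup.mem_comap] at h3
    exact h3

end insep

/-- (IMP) the reduction to a perfect constant field: global function fields -/
theorem noFixed_functionField {k0 K F Ω : Type u} [Field k0] [Finite k0] [Field K] [Algebra k0 K]
    (hK : IsFunctionField k0 K) [Field F] [Algebra K F]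
    [Field Ω] [Algebra F Ω] [Algebra K Ω] [IsScalarTower K F Ω] [IsAlgClosed Ω]
    [Algebra.IsAlgebraic F Ω] (hF : IsFunctionField K F)
    (S : Finset (ValuationSubring F)) : NoFixed (F := F) K Ω S := by
  apply noFixed_of_perfectClosure
  have hKb : IsAlgClosed (algebraicClosure (KP K Ω) Ω) :=
    (algebraicClosure.isAlgClosure (KP K Ω) Ω).isAlgClosed
  have hFV : FV (KP K Ω) (algebraicClosure (KP K Ω) Ω) := fv_functionField hK
  exact noFixed_perfect hFV (isFunctionField_fp hF) _

end PiCurve
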