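import Pool.Agent.Pi2.Gam
import Pool.Agent.Pi2.Cert5

/-!
# Integral models of Gamma-algebras over subrings containing finitely many elements
-/

open Polynomial Module

namespace PiCurve

section LeadEquiv

variable {R A : Type*} [CommRing R] [CommRing A] [Algebra R A] {G : AddSubmonoid ℕ}
  {b v : G → A}

theorem ltSpan_le_of_lead (hv : ∀ c, Lead R b (v c) c) (n : ℕ) :
    ltSpan (R := R) (G := (G : Set ℕ)) v n ≤ ltSpan (R := R) (G := (G : Set ℕ)) b n := by
  rw [ltSpan, Submodule.span_le]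
  rintro _ ⟨e, he, rfl⟩
  exact (hv e).mem_ltSpan he

theorem le_ltSpan_of_lead (hv : ∀ c, Lead R b (v c) c) (n : ℕ) :
    ltSpan (R := R) (G := (G : Set ℕ)) b n ≤ ltSpan (R := R) (G := (G : Set ℕ)) v n := by
  induction n using Nat.strong_induction_on with
  | _ n ih =>
    rw [ltSpan, Submodule.span_le]
    rintro _ ⟨e, he, rfl⟩
    have he' : (e : ℕ) < n := he
    obtain ⟨r, hr⟩ := hv e
    have h1 := ltSpan_mono (R := R) (G := (G : Set ℕ)) v he'.le (ih e he' hr)
    have h2 : (r : R) • b e ∈ ltSpan (R := R) (G := (G : Set ℕ)) v n := by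
      have h3 : (r : R) • b e = v e - (v e - (r : R) • b e) := by abel
      rw [h3]
      exact Submodule.sub_mem _ (Submodule.subset_span ⟨e, he, rfl⟩) h1
    have h4 := Submodule.smul_mem _ ((r⁻¹ : Rˣ) : R) h2
    rwa [smul_smul, Units.inv_mul, one_smul] at h4

theorem ltSpan_eq_of_lead (hv : ∀ c, Lead R b (v c) c) (n : ℕ) :
    ltSpan (R := R) (G := (G : Set ℕ)) v n = ltSpan (R := R) (G := (G : Set ℕ)) b n :=
  le_antisymm (ltSpan_le_of_lead hv n) (le_ltSpan_of_lead hv n)

/-- leading terms do not depend on the triangular basis -/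
theorem Lead.change (hv : ∀ c, Lead R b (v c) c) {x : A} {c : G} (hx : Lead R b x c) :
    Lead R v x c := by
  obtain ⟨r, hr⟩ := hx
  obtain ⟨s, hs⟩ := hv c
  refine ⟨r * s⁻¹, ?_⟩
  rw [ltSpan_eq_of_lead hv]
  have h1 : x - ((r * s⁻¹ : Rˣ) : R) • v c =
      (x - (r : R) • b c) - ((r * s⁻¹ : Rˣ) : R) • (v c - (s : R) • b c) := by
    rw [smul_sub, smul_smul, ← Units.val_mul, inv_mul_cancel_right]
    abel
  rw [h1]
  exact Submodule.sub_mem _ hr (Submodule.smul_mem _ _ hs)

end LeadEquiv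

section Normal

variable {R A : Type*} [CommRing R] [CommRing A] [Algebra R A] {G : AddSubmonoid ℕ}
  (D : GamAlg G R A) (n : G) (hn : 0 < (n : ℕ))

/-- `(a, m) ↦ a + m n` -/
noncomputable def apEquiv (hn : 0 < (n : ℕ)) : Ap G n × ℕ ≃ G :=
  Equiv.ofBijective _ (Ap_bij hn n.2)

theorem apEquiv_apply (a : Ap G n) (m : ℕ) :
    (apEquiv n hn (a, m) : G) = ⟨a, a.2.1⟩ + m • n := by
  apply Subtype.ext
  have h3 : ((⟨a, a.2.1⟩ + m • n : G) : ℕ) = (a : ℕ) + m * (n : ℕ) := by
    simp
  rw [h3]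
  rfl

/-- the normalised basis `b_a u^m`, `u = b_n` -/
noncomputable def nb (c : G) : A :=
  D.B ⟨((apEquiv n hn).symm c).1, ((apEquiv n hn).symm c).1.2.1⟩ *
    D.B n ^ ((apEquiv n hn).symm c).2

theorem nb_ap (a : Ap G n) (m : ℕ) :
    nb D n hn (⟨a, a.2.1⟩ + m • n) = D.B ⟨a, a.2.1⟩ * D.B n ^ m := by
  rw [← apEquiv_apply n hn]
  unfold nb
  simp only [Equiv.symm_apply_apply]

theorem nb_lead (c : G) : Lead R D.B (nb D n hn c) c := by
  obtain ⟨⟨a, m⟩, rfl⟩ := (apEquiv n hn).surjective c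
  rw [apEquiv_apply, nb_ap]
  exact (Lead.self _).mul D.mul ((Lead.self n).pow D.mul D.one m)

theorem nb_mul_pow (c : G) (j : ℕ) :
    nb D n hn c * D.B n ^ j = nb D n hn (c + j • n) := by
  obtain ⟨⟨a, m⟩, rfl⟩ := (apEquiv n hn).surjective c
  rw [apEquiv_apply, nb_ap, add_assoc, ← add_smul, nb_ap, mul_assoc, pow_add]

theorem exists_nb_basis : ∃ b' : Basis G R A, ∀ c, b' c = nb D n hn c :=
  exists_basis_of_triangular (G := (G : Set ℕ)) D.B _ (nb_lead D n hn)

/-- the normalised basis as a basis -/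
noncomputable def nbB : Basis G R A := (exists_nb_basis D n hn).choose

theorem nbB_apply (c : G) : nbB D n hn c = nb D n hn c := (exists_nb_basis D n hn).choose_spec c

theorem nb_mulLead : MulLead R (nb D n hn) := by
  intro c d
  exact ((nb_lead D n hn c).mul D.mul (nb_lead D n hn d)).change (nb_lead D n hn)

theorem nbB_one : nbB D n hn 0 = 1 := by
  rw [nbB_apply]
  have h0 : (0 : ℕ) ∈ Ap G n := by
    refine ⟨G.zero_mem, fun d _ => ?_⟩
    omega
  have h1 := nb_ap D n hn ⟨0, h0⟩ 0
  rw [zero_smul, add_zero, pow_zero, mul_one] at h1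
  have h2 : (⟨(⟨0, h0⟩ : Ap G n), (⟨0, h0⟩ : Ap G n).2.1⟩ : G) = 0 := rfl
  rw [h2, D.one] at h1
  exact h1

/-- the normalised structure -/
noncomputable def GamAlg.normal : GamAlg G R A where
  B := nbB D n hn
  one := nbB_one D n hn
  mul := by
    have h : ((nbB D n hn : Basis G R A) : G → A) = nb D n hn := funext (nbB_apply D n hn)
    rw [h]
    exact nb_mulLead D n hn
  cofin := D.cofin

end Normal

section Model

variable {k A : Type*} [Field k] [CommRing A] [Algebra k A] {G : AddSubmonoid ℕ}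

/-- the elements of `s` come from units of `R` -/
def UnitsIn (R : Type*) {k : Type*} [CommRing R] [Field k] [Algebra R k] (s : Finset k) : Prop :=
  ∀ x ∈ s, ∃ r : Rˣ, algebraMap R k r = x

/-- the nonzero coordinates of finitely many elements -/
noncomputable def coords (B : Basis G k A) (s : Finset A) : Finset k := by
  classical
  exact s.biUnion (fun x => (B.repr x).support.image (fun c => B.repr x c))

theorem UnitsIn.mem_span {R : Type*} [CommRing R] [Algebra R k] [Algebra R A] [IsScalarTower R k A]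
    (B : Basis G k A) {s : Finset A} (h : UnitsIn R (coords B s)) {x : A} (hx : x ∈ s) :
    x ∈ Submodule.span R (Set.range B) := by
  classical
  rw [← B.linearCombination_repr x, Finsupp.linearCombination_apply, Finsupp.sum]
  refine Submodule.sum_mem _ fun c hc => ?_
  obtain ⟨r, hr⟩ := h (B.repr x c) (by
    unfold coords
    rw [Finset.mem_biUnion]
    exact ⟨x, hx, Finset.mem_image_of_mem _ hc⟩)
  rw [← hr, algebraMap_smul]
  exact Submodule.smul_mem _ _ (Submodule.subset_span ⟨c, rfl⟩)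

/-- leading terms with units of `R` -/
theorem UnitsIn.lead {R : Type*} [CommRing R] [Algebra R k] [Algebra R A] [IsScalarTower R k A]
    (B : Basis G k A) {s : Finset A} (h : UnitsIn R (coords B s)) {x : A} (hx : x ∈ s) {c : G}
    (hc : Lead k B x c) : Lead R B x c := by
  classical
  obtain ⟨r, hr⟩ := hc
  have hcoeff : ∀ d : G, B.repr x d ≠ 0 → ∃ r : Rˣ, algebraMap R k r = B.repr x d := by
    intro d hd
    apply h
    unfold coords
    rw [Finset.mem_biUnion]
    exact ⟨x, hx, Finset.mem_image_of_mem _ (Finsupp.mem_support_iff.2 hd)⟩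
  have h1 : B.repr x c = r := by
    have h2 := repr_of_mem_ltSpan (G := (G : Set ℕ)) B hr c le_rfl
    rw [map_sub, map_smul, Basis.repr_self] at h2
    simp only [Finsupp.coe_sub, Finsupp.coe_smul, Pi.sub_apply, Pi.smul_apply,
      Finsupp.single_eq_same, smul_eq_mul, mul_one] at h2
    exact sub_eq_zero.1 h2
  have h3 : ∀ d : G, (c : ℕ) < d → B.repr x d = 0 := by
    intro d hd
    have h2 := repr_of_mem_ltSpan (G := (G : Set ℕ)) B hr d hd.le
    rw [map_sub, map_smul, Basis.repr_self] at h2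
    simp only [Finsupp.coe_sub, Finsupp.coe_smul, Pi.sub_apply, Pi.smul_apply, smul_eq_mul] at h2
    rw [Finsupp.single_apply, if_neg (by rintro rfl; exact lt_irrefl _ hd), mul_zero,
      sub_zero] at h2
    exact h2
  obtain ⟨t, ht⟩ := hcoeff c (by rw [h1]; exact r.ne_zero)
  refine ⟨t, ?_⟩
  have h4 : x - (t : R) • B c = ∑ d ∈ (B.repr x).support.erase c, B.repr x d • B d := by
    have h5 : x = ∑ d ∈ (B.repr x).support, B.repr x d • B d := by
      conv_lhs => rw [← B.linearCombination_repr x, Finsupp.linearCombination_apply, Finsupp.sum]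
    have hcs : c ∈ (B.repr x).support := Finsupp.mem_support_iff.2 (by rw [h1]; exact r.ne_zero)
    conv_lhs => rw [h5, ← Finset.add_sum_erase _ _ hcs, ← algebraMap_smul k (t : R) (B c), ht]
    abel
  rw [h4]
  refine Submodule.sum_mem _ fun d hd => ?_
  rw [Finset.mem_erase, Finsupp.mem_support_iff] at hd
  obtain ⟨r', hr'⟩ := hcoeff d hd.2
  rw [← hr', algebraMap_smul]
  refine Submodule.smul_mem _ _ (Submodule.subset_span ⟨d, ?_, rfl⟩)
  by_contra hlt
  have hlt' : (c : ℕ) ≤ d := not_lt.1 hlt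
  rcases lt_or_eq_of_le hlt' with h5 | h5
  · exact hd.2 (h3 d h5)
  · exact hd.1 (Subtype.ext h5.symm)

end Model

end PiCurve
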