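import Pool.Agent.Pi2.Model

/-!
# Integral models: the lattice spanned by the normalised basis
-/

open Polynomial Module TensorProduct

namespace PiCurve

section Model

variable {k A : Type*} [Field k] [CommRing A] [Algebra k A] {G : AddSubmonoid ℕ}
  (D : GamAlg G k A) (n : G) (hn : 0 < (n : ℕ))

/-- the finitely many structure constants -/
noncomputable def structConsts : Finset k := by
  classical
  exact coords (nbB D n hn) (((Ap_finite (n := n) D.cofin).toFinset.attach.product
    (Ap_finite (n := n) D.cofin).toFinset.attach).image (fun p =>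
      nbB D n hn ⟨p.1.1, ((Set.Finite.mem_toFinset _).1 p.1.2).1⟩ *
        nbB D n hn ⟨p.2.1, ((Set.Finite.mem_toFinset _).1 p.2.2).1⟩))

variable {R : Type*} [CommRing R] [Algebra R k] [Algebra R A] [IsScalarTower R k A]

variable {D n hn}

theorem lead_mul_pow {x : A} {c : G} (hx : Lead R (nb D n hn) x c) (j : ℕ) :
    Lead R (nb D n hn) (x * D.B n ^ j) (c + j • n) := by
  obtain ⟨r, hr⟩ := hx
  refine ⟨r, ?_⟩
  have h1 : x * D.B n ^ j - (r : R) • nb D n hn (c + j • n) =
      (x - (r : R) • nb D n hn c) * D.B n ^ j := by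
    rw [← nb_mul_pow, sub_mul, smul_mul_assoc]
  rw [h1]
  have h2 : ∀ y ∈ ltSpan (R := R) (G := (G : Set ℕ)) (nb D n hn) c,
      y * D.B n ^ j ∈ ltSpan (R := R) (G := (G : Set ℕ)) (nb D n hn) ((c + j • n : G) : ℕ) := by
    intro y hy
    unfold ltSpan at hy
    induction hy using Submodule.span_induction with
    | mem x hx =>
      obtain ⟨e, he, rfl⟩ := hx
      have he' : (e : ℕ) < c := he
      rw [nb_mul_pow]
      refine Submodule.subset_span ⟨e + j • n, ?_, rfl⟩
      have h3 : ((e + j • n : G) : ℕ) = e + j * n := by simp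
      have h4 : ((c + j • n : G) : ℕ) = c + j * n := by simp
      rw [Set.mem_ofPred_eq, h3, h4]
      omega
    | zero => rw [zero_mul]; exact Submodule.zero_mem _
    | add x y _ _ h1 h2 => rw [add_mul]; exact Submodule.add_mem _ h1 h2
    | smul r x _ h => rw [smul_mul_assoc]; exact Submodule.smul_mem _ _ h
  exact h2 _ hr

/-- the multiplication rule over `R` -/
theorem mulLead_model (h : UnitsIn R (structConsts D n hn)) : MulLead R (nb D n hn) := by
  classical
  intro c d
  obtain ⟨⟨a, m⟩, rfl⟩ := (apEquiv n hn).surjective c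
  obtain ⟨⟨a', m'⟩, rfl⟩ := (apEquiv n hn).surjective d
  rw [apEquiv_apply, apEquiv_apply]
  set α : G := ⟨a, a.2.1⟩ with hα
  set β : G := ⟨a', a'.2.1⟩ with hβ
  have h1 : nb D n hn (α + m • n) * nb D n hn (β + m' • n) =
      (nb D n hn α * nb D n hn β) * D.B n ^ (m + m') := by
    rw [← nb_mul_pow, ← nb_mul_pow, pow_add]
    ring
  have h2 : α + m • n + (β + m' • n) = (α + β) + (m + m') • n := by
    rw [add_smul]
    abel
  rw [h1, h2]
  apply lead_mul_pow
  have h3 : Lead k (nb D n hn) (nb D n hn α * nb D n hn β) (α + β) := nb_mulLead D n hn α β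
  have hfun : ((nbB D n hn : Basis G k A) : G → A) = nb D n hn := funext (nbB_apply D n hn)
  rw [← hfun] at h3 ⊢
  refine UnitsIn.lead (nbB D n hn) h ?_ h3
  rw [Finset.mem_image]
  refine ⟨(⟨a, (Set.Finite.mem_toFinset _).2 a.2⟩, ⟨a', (Set.Finite.mem_toFinset _).2 a'.2⟩), ?_, rfl⟩
  exact Finset.mem_product.2 ⟨Finset.mem_attach _ _, Finset.mem_attach _ _⟩

theorem mul_mem_span_of_mulLead {b : G → A} (h : MulLead R b) {x y : A}
    (hx : x ∈ Submodule.span R (Set.range b)) (hy : y ∈ Submodule.span R (Set.range b)) :
    x * y ∈ Submodule.span R (Set.range b) := by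
  have hle : ∀ m, ltSpan (R := R) (G := (G : Set ℕ)) b m ≤ Submodule.span R (Set.range b) :=
    fun m => Submodule.span_mono (Set.image_subset_range _ _)
  have h1 : ∀ c d : G, b c * b d ∈ Submodule.span R (Set.range b) := by
    intro c d
    obtain ⟨r, hr⟩ := h c d
    have h2 : b c * b d = (r : R) • b (c + d) + (b c * b d - (r : R) • b (c + d)) := by abel
    rw [h2]
    exact Submodule.add_mem _ (Submodule.smul_mem _ _ (Submodule.subset_span ⟨_, rfl⟩)) (hle _ hr)
  have h2 : Submodule.span R (Set.range b) * Submodule.span R (Set.range b) ≤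
      Submodule.span R (Set.range b) := by
    rw [Submodule.span_mul_span, Submodule.span_le]
    rintro _ ⟨_, ⟨c, rfl⟩, _, ⟨d, rfl⟩, rfl⟩
    exact h1 c d
  exact h2 (Submodule.mul_mem_mul hx hy)

variable (D n hn) in
/-- the integral model -/
noncomputable def modelAlg (h : UnitsIn R (structConsts D n hn)) : Subalgebra R A :=
  (Submodule.span R (Set.range (nb D n hn))).toSubalgebra
    (Submodule.subset_span ⟨0, by rw [← nbB_apply, nbB_one]⟩)
    (fun _ _ hx hy => mul_mem_span_of_mulLead (mulLead_model h) hx hy)

theorem mem_modelAlg (h : UnitsIn R (structConsts D n hn)) {x : A} :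
    x ∈ modelAlg D n hn h ↔ x ∈ Submodule.span R (Set.range (nb D n hn)) := Iff.rfl

/-- basis elements in the model -/
noncomputable def mb (h : UnitsIn R (structConsts D n hn)) (c : G) : modelAlg D n hn h :=
  ⟨nb D n hn c, Submodule.subset_span ⟨c, rfl⟩⟩

theorem map_ltSpan_model (h : UnitsIn R (structConsts D n hn)) (m : ℕ) :
    (ltSpan (R := R) (G := (G : Set ℕ)) (mb h) m).map (modelAlg D n hn h).val.toLinearMap =
      ltSpan (R := R) (G := (G : Set ℕ)) (nb D n hn) m := by
  unfold ltSpan
  rw [Submodule.map_span, ← Set.image_comp]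
  rfl

theorem lead_model_iff (h : UnitsIn R (structConsts D n hn)) {x : modelAlg D n hn h} {c : G} :
    Lead R (mb h) x c ↔ Lead R (nb D n hn) (x : A) c := by
  unfold Lead
  apply exists_congr
  intro r
  rw [← map_ltSpan_model h, Submodule.mem_map]
  constructor
  · intro hx
    exact ⟨_, hx, by simp [mb]⟩
  · rintro ⟨y, hy, hyx⟩
    have : y = x - (r : R) • mb h c := by
      apply Subtype.ext
      exact hyx
    rwa [← this]

variable [FaithfulSMul R k]

theorem exists_mbB (h : UnitsIn R (structConsts D n hn)) :
    ∃ B : Basis G R (modelAlg D n hn h), ∀ c, B c = mb h c := by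
  have hli : LinearIndependent R (mb h) := by
    apply LinearIndependent.of_comp (modelAlg D n hn h).val.toLinearMap
    have h1 : LinearIndependent k (nbB D n hn) := (nbB D n hn).linearIndependent
    have h2 : ((modelAlg D n hn h).val.toLinearMap ∘ mb h) = nbB D n hn := by
      ext c
      rw [nbB_apply]
      rfl
    rw [h2]
    exact h1.restrict_scalars ((faithfulSMul_iff_injective_smul_one R k).1 inferInstance)
  have hsp : ⊤ ≤ Submodule.span R (Set.range (mb h)) := by
    rintro ⟨x, hx⟩ -
    have h1 : (Submodule.span R (Set.range (mb h))).map (modelAlg D n hn h).val.toLinearMap =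
        Submodule.span R (Set.range (nb D n hn)) := by
      rw [Submodule.map_span, ← Set.range_comp]
      rfl
    have h2 : x ∈ (Submodule.span R (Set.range (mb h))).map
        (modelAlg D n hn h).val.toLinearMap := by
      rw [h1]
      exact hx
    obtain ⟨y, hy, hyx⟩ := h2
    have : y = ⟨x, hx⟩ := Subtype.ext hyx
    rwa [← this]
  exact ⟨Basis.mk hli hsp, fun c => Basis.mk_apply hli hsp c⟩

/-- the model is a Gamma-algebra over `R` -/
noncomputable def modelGam (h : UnitsIn R (structConsts D n hn)) :
    GamAlg G R (modelAlg D n hn h) where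
  B := (exists_mbB h).choose
  one := by
    rw [(exists_mbB h).choose_spec 0]
    apply Subtype.ext
    exact (nbB_apply D n hn 0).symm.trans (nbB_one D n hn)
  mul := by
    have hfun : (((exists_mbB h).choose : Basis G R (modelAlg D n hn h)) :
      G → modelAlg D n hn h) = mb h := funext (exists_mbB h).choose_spec
    rw [hfun]
    intro c d
    rw [lead_model_iff]
    exact mulLead_model h c d
  cofin := D.cofin

theorem modelGam_B (h : UnitsIn R (structConsts D n hn)) (c : G) :
    (((modelGam h).B c : modelAlg D n hn h) : A) = nb D n hn c :=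
  congrArg Subtype.val ((exists_mbB h).choose_spec c)

theorem model_isBaseChange (h : UnitsIn R (structConsts D n hn)) :
    IsBaseChange k (modelAlg D n hn h).val.toLinearMap := by
  let e : k ⊗[R] (modelAlg D n hn h) ≃ₗ[k] A :=
    (((modelGam h).B).baseChange k).equiv (nbB D n hn) (Equiv.refl G)
  refine IsBaseChange.of_equiv e ?_
  have h1 : ((e.toLinearMap.restrictScalars R).comp
      (TensorProduct.mk R k (modelAlg D n hn h) 1)) = (modelAlg D n hn h).val.toLinearMap := by
    apply (modelGam h).B.ext
    intro c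
    have h2 : (TensorProduct.mk R k (modelAlg D n hn h) 1) ((modelGam h).B c) =
        ((modelGam h).B).baseChange k c := by
      rw [Basis.baseChange_apply]
      rfl
    rw [LinearMap.comp_apply, h2]
    have h3 : e (((modelGam h).B).baseChange k c) = nbB D n hn c := by
      rw [Basis.equiv_apply]
      rfl
    have h4 := modelGam_B h c
    rw [nbB_apply] at h3
    exact h3.trans h4.symm
  intro x
  exact LinearMap.congr_fun h1 x

end Model

end PiCurve
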