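import Pool.Agent.Pi2.Model2
import Pool.Agent.Pi2.GamF

/-!
# Certificates of integral models
-/

open Polynomial Module TensorProduct

namespace PiCurve

section Indep

variable {R A : Type*} [CommRing R] [CommRing A] [Algebra R A]

theorem FreeOn.exists_charpoly {u : A} (y : A) {ι : Type*} [Fintype ι] [DecidableEq ι] {e : ι → A}
    (h : FreeOn R u e) {M : Matrix ι ι R[X]}
    (hM : ∀ j, y * e j = ∑ k, aeval u (M k j) * e k) :
    letI := (aeval u : R[X] →ₐ[R] A).toRingHom.toAlgebra
    ∃ B : Basis ι R[X] A, (LinearMap.toMatrix B B (LinearMap.mulLeft R[X] y)).charpoly =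
      M.charpoly := by
  let _ := (aeval u : R[X] →ₐ[R] A).toRingHom.toAlgebra
  obtain ⟨B, hB⟩ := h.exists_basis
  have hs : ∀ (p : R[X]) (x : A), p • x = aeval u p * x := fun p x => by
    rw [Algebra.smul_def]
    rfl
  refine ⟨B, ?_⟩
  congr 1
  ext1 k j
  rw [LinearMap.toMatrix_apply, LinearMap.mulLeft_apply, hB, hM]
  simp only [← hs, ← hB]
  rw [map_sum, Finsupp.finsetSum_apply, Finset.sum_eq_single k]
  · simp
  · intro l _ hl
    rw [map_smul, Basis.repr_self, Finsupp.smul_single, Finsupp.single_apply, if_neg hl]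
  · intro hk
    exact absurd (Finset.mem_univ k) hk

/-- `χ'(y)` does not depend on the basis -/
theorem FreeOn.DM_eq {u : A} (y : A) {ι κ : Type*} [Fintype ι] [DecidableEq ι] [Fintype κ]
    [DecidableEq κ] {e : ι → A} {e' : κ → A} (h : FreeOn R u e) (h' : FreeOn R u e')
    {M : Matrix ι ι R[X]} (hM : ∀ j, y * e j = ∑ k, aeval u (M k j) * e k)
    {M' : Matrix κ κ R[X]} (hM' : ∀ j, y * e' j = ∑ k, aeval u (M' k j) * e' k) :
    DM R u y M = DM R u y M' := by
  let _ := (aeval u : R[X] →ₐ[R] A).toRingHom.toAlgebra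
  obtain ⟨B, hB⟩ := h.exists_charpoly y hM
  obtain ⟨B', hB'⟩ := h'.exists_charpoly y hM'
  have : Module.Free R[X] A := Module.Free.of_basis B
  have : Module.Finite R[X] A := Module.Finite.of_basis B
  rw [LinearMap.charpoly_toMatrix] at hB hB'
  unfold DM
  rw [← hB, ← hB']

end Indep

section Model

variable {k A : Type*} [Field k] [CommRing A] [Algebra k A] {G : AddSubmonoid ℕ}

/-- a generator of a free structure has positive degree -/
theorem GamAlg.pos_of_freeOn (D : GamAlg G k A) {u : A} {r : ℕ} {e : Fin r → A}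
    (h : FreeOn k u e) : ∃ c : G, 0 < (c : ℕ) ∧ Lead k D.B u c := by
  have hnt := D.nontrivial
  obtain ⟨b, hb⟩ := h
  have hr : 0 < r := by
    by_contra h0
    have h1 : r = 0 := by omega
    subst h1
    have h2 : b.repr (1 : A) = 0 := by
      ext ⟨i, m⟩
      exact i.elim0
    exact one_ne_zero ((map_eq_zero_iff _ b.repr.injective).1 h2)
  have hconst : ∀ c : k, u ≠ algebraMap k A c := by
    intro c hc
    have h1 := hb ⟨0, hr⟩ 0
    have h2 := hb ⟨0, hr⟩ 1
    rw [pow_zero, mul_one] at h1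
    rw [pow_one, hc, ← h1, mul_comm, ← Algebra.smul_def] at h2
    have h3 := congrArg b.repr h2
    rw [map_smul, Basis.repr_self, Basis.repr_self] at h3
    have h4 := DFunLike.congr_fun h3 (⟨0, hr⟩, 1)
    simp at h4
  have hu0 : u ≠ 0 := fun h => hconst 0 (by rw [h, map_zero])
  obtain ⟨c, hc⟩ := D.exists_lead hu0
  refine ⟨c, ?_, hc⟩
  by_contra h0
  have h1 : (c : ℕ) = 0 := by omega
  have h2 : c = 0 := Subtype.ext h1
  subst h2
  obtain ⟨t, ht⟩ := hc
  have h3 := D.lt_zero
  unfold GamAlg.lt at h3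
  have h4 : u - (t : k) • D.B 0 ∈ (⊥ : Submodule k A) := by
    rw [← h3]
    exact ht
  rw [Submodule.mem_bot, D.one, sub_eq_zero] at h4
  apply hconst t
  rw [h4, Algebra.algebraMap_eq_smul_one]

variable (D : GamAlg G k A) (n : G) (hn : 0 < (n : ℕ))

theorem UnitsIn.mono {R : Type*} [CommRing R] [Algebra R k] {s t : Finset k}
    (h : UnitsIn R t) (hst : s ⊆ t) : UnitsIn R s := fun x hx => h x (hst hx)

/-- certificates of integral models -/
theorem exists_cert_model (hC : Cert k A) :
    ∃ s : Finset k, (∀ x ∈ s, x ≠ 0) ∧ ∀ (R : Type*) [CommRing R] [Algebra R k] [Algebra R A]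
      [IsScalarTower R k A] [FaithfulSMul R k] (h : UnitsIn R (structConsts D n hn)),
      UnitsIn R s → Cert R (modelAlg D n hn h) := by
  classical
  have hnt := D.nontrivial
  obtain ⟨N, u, y, a, r, e, M, hF, hM, hsum⟩ := hC
  let S : Finset A := Finset.univ.image u ∪ Finset.univ.image y ∪ Finset.univ.image a
  refine ⟨coords (nbB D n hn) S, ?_, ?_⟩
  · intro x hx
    unfold coords at hx
    rw [Finset.mem_biUnion] at hx
    obtain ⟨z, -, hz⟩ := hx
    rw [Finset.mem_image] at hz
    obtain ⟨c, hc, rfl⟩ := hz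
    exact Finsupp.mem_support_iff.1 hc
  intro R _ _ _ _ _ h hs
  have hfun : ((nbB D n hn : Basis G k A) : G → A) = nb D n hn := funext (nbB_apply D n hn)
  have hmem : ∀ x ∈ S, x ∈ modelAlg D n hn h := by
    intro x hx
    have h1 := UnitsIn.mem_span (nbB D n hn) hs hx
    rw [hfun] at h1
    exact h1
  have hu : ∀ i, u i ∈ modelAlg D n hn h := fun i => hmem _ (by simp [S])
  have hy : ∀ i, y i ∈ modelAlg D n hn h := fun i => hmem _ (by simp [S])
  have ha : ∀ i, a i ∈ modelAlg D n hn h := fun i => hmem _ (by simp [S])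
  have hlead : ∀ i, ∃ c : G, 0 < (c : ℕ) ∧
      Lead R (modelGam h).B (⟨u i, hu i⟩ : modelAlg D n hn h) c := by
    intro i
    obtain ⟨c, hc, hl⟩ := (D.normal n hn).pos_of_freeOn (hF i)
    refine ⟨c, hc, ?_⟩
    have h1 : Lead R (nbB D n hn) (u i) c := UnitsIn.lead (nbB D n hn) hs (by simp [S]) hl
    have hfun' : (((modelGam h).B : Basis G R (modelAlg D n hn h)) :
        G → modelAlg D n hn h) = mb h := funext (exists_mbB h).choose_spec
    rw [hfun', lead_model_iff, ← hfun]
    exact h1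
  choose c hc hl using hlead
  choose r' e' hF' using fun i => exists_freeOn_of_lead (modelGam h).B D.cofin (modelGam h).mul
    (modelGam h).one (hc i) (hl i)
  have hM' : ∀ i, ∃ M' : Matrix (Fin (r' i)) (Fin (r' i)) R[X], ∀ j,
      (⟨y i, hy i⟩ : modelAlg D n hn h) * e' i j =
        ∑ l, aeval (⟨u i, hu i⟩ : modelAlg D n hn h) (M' l j) * e' i l := by
    intro i
    choose p hp using fun j => (hF' i).surjective ((⟨y i, hy i⟩ : modelAlg D n hn h) * e' i j)
    exact ⟨fun l j => p j l, hp⟩
  choose M' hM' using hM'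
  refine ⟨N, fun i => ⟨u i, hu i⟩, fun i => ⟨y i, hy i⟩, fun i => ⟨a i, ha i⟩, r', e', M', hF', hM', ?_⟩
  have hinj : Function.Injective (modelAlg D n hn h).val := Subtype.val_injective
  apply hinj
  rw [map_sum, map_one, ← hsum]
  apply Finset.sum_congr rfl
  intro i _
  rw [map_mul, ← DM_baseChange (R' := k) (modelAlg D n hn h).val]
  congr 1
  refine FreeOn.DM_eq (R := k) (u := u i) (y i)
    ((hF' i).baseChange (R' := k) (modelAlg D n hn h).val (model_isBaseChange h)) (hF i) ?_ (hM i)
  intro j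
  have h1 := congrArg (modelAlg D n hn h).val (hM' i j)
  rw [map_mul, map_sum] at h1
  refine h1.trans ?_
  apply Finset.sum_congr rfl
  intro l _
  have h2 : ((M' i).map (Polynomial.mapRingHom (algebraMap R k))) l j =
    (M' i l j).map (algebraMap R k) := rfl
  rw [map_mul, h2, ← aeval_baseChange (R' := k) (modelAlg D n hn h).val]
  rfl

end Model

end PiCurve
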