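import Pool.Agent.Pi2.Cert4

/-!
# Triangular families; algebras with a basis indexed by pole orders
-/

open Polynomial Module

namespace PiCurve

section Tri

variable {R A : Type*} [CommRing R] [AddCommGroup A] [Module R A] {G : Set ℕ}

/-- span of the basis elements of index `< n` -/
def ltSpan (b : G → A) (n : ℕ) : Submodule R A := Submodule.span R (b '' {e | (e : ℕ) < n})

theorem ltSpan_mono (b : G → A) {m n : ℕ} (h : m ≤ n) : ltSpan (R := R) b m ≤ ltSpan b n :=
  Submodule.span_mono (Set.image_mono (fun _ he => lt_of_lt_of_le he h))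

theorem repr_of_mem_ltSpan (b : Basis G R A) {n : ℕ} {x : A} (hx : x ∈ ltSpan (R := R) b n)
    (c : G) (hc : n ≤ c) : b.repr x c = 0 := by
  unfold ltSpan at hx
  induction hx using Submodule.span_induction with
  | mem x hx =>
    obtain ⟨e, he, rfl⟩ := hx
    rw [Basis.repr_self, Finsupp.single_apply, if_neg]
    rintro rfl
    exact absurd he (not_lt.2 hc)
  | zero => simp
  | add x y _ _ h1 h2 => rw [map_add, Finsupp.add_apply, h1, h2, add_zero]
  | smul r x _ h => rw [map_smul, Finsupp.smul_apply, h, smul_zero]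

/-- a unitriangular family is a basis -/
theorem exists_basis_of_triangular (b : Basis G R A) (v : G → A)
    (hv : ∀ c : G, ∃ r : Rˣ, v c - (r : R) • b c ∈ ltSpan (R := R) b c) :
    ∃ b' : Basis G R A, ∀ c, b' c = v c := by
  classical
  choose r hr using hv
  have hli : LinearIndependent R v := by
    rw [linearIndependent_iff]
    intro l hl
    by_contra hne
    have hsupp : l.support.Nonempty := Finsupp.support_nonempty_iff.2 hne
    obtain ⟨c, hc, hmax⟩ := Finset.exists_max_image l.support (fun c : G => (c : ℕ)) hsupp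
    have h1 : b.repr (Finsupp.linearCombination R v l) c = l c * r c := by
      rw [Finsupp.linearCombination_apply, Finsupp.sum, map_sum, Finsupp.finsetSum_apply,
        Finset.sum_eq_single c]
      · have h2 : v c = (r c : R) • b c + (v c - (r c : R) • b c) := by abel
        rw [map_smul, h2, map_add, Finsupp.smul_apply, Finsupp.add_apply,
          repr_of_mem_ltSpan b (hr c) c le_rfl, map_smul, Basis.repr_self]
        simp
      · intro d hd hdc
        have hlt : (d : ℕ) < c := lt_of_le_of_ne (hmax d hd) (fun h => hdc (Subtype.ext h))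
        have h2 : v d ∈ ltSpan (R := R) b c := by
          have h3 : v d = (r d : R) • b d + (v d - (r d : R) • b d) := by abel
          rw [h3]
          exact Submodule.add_mem _ (Submodule.smul_mem _ _ (Submodule.subset_span ⟨d, hlt, rfl⟩))
            (ltSpan_mono b hlt.le (hr d))
        rw [map_smul, Finsupp.smul_apply, repr_of_mem_ltSpan b h2 c le_rfl, smul_zero]
      · intro h
        exact absurd hc h
    rw [hl, map_zero] at h1
    have h2 : l c = 0 := by
      have := congrArg (fun x => x * ((r c)⁻¹ : Rˣ).val) h1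
      simpa [mul_assoc] using this.symm
    exact (Finsupp.mem_support_iff.1 hc) h2
  have hsp : ⊤ ≤ Submodule.span R (Set.range v) := by
    have h1 : ∀ n : ℕ, ∀ c : G, (c : ℕ) = n → b c ∈ Submodule.span R (Set.range v) := by
      intro n
      induction n using Nat.strong_induction_on with
      | _ n ih =>
        intro c hc
        have hlt : ltSpan (R := R) b c ≤ Submodule.span R (Set.range v) := by
          unfold ltSpan
          rw [Submodule.span_le]
          rintro _ ⟨e, he, rfl⟩
          exact ih e (by rw [← hc]; exact he) e rfl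
        have h2 : (r c : R) • b c ∈ Submodule.span R (Set.range v) := by
          have h3 : (r c : R) • b c = v c - (v c - (r c : R) • b c) := by abel
          rw [h3]
          exact Submodule.sub_mem _ (Submodule.subset_span ⟨c, rfl⟩) (hlt (hr c))
        have h4 := Submodule.smul_mem _ (((r c)⁻¹ : Rˣ) : R) h2
        rwa [smul_smul, Units.inv_mul, one_smul] at h4
    rw [← b.span_eq, Submodule.span_le]
    rintro _ ⟨c, rfl⟩
    exact h1 c c rfl
  exact ⟨Basis.mk hli hsp, fun c => Basis.mk_apply hli hsp c⟩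

end Tri

section Gam

variable {R A : Type*} [CommRing R] [CommRing A] [Algebra R A] {G : AddSubmonoid ℕ}

/-- `x` has leading term (unit) `b c` -/
def Lead (R : Type*) {A : Type*} [CommRing R] [CommRing A] [Algebra R A] {G : AddSubmonoid ℕ}
    (b : G → A) (x : A) (c : G) : Prop :=
  ∃ r : Rˣ, x - (r : R) • b c ∈ ltSpan (R := R) (G := (G : Set ℕ)) b c

/-- the multiplication of basis elements: `b c * b d = unit * b (c + d) + lower terms` -/
def MulLead (R : Type*) {A : Type*} [CommRing R] [CommRing A] [Algebra R A] {G : AddSubmonoid ℕ}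
    (b : G → A) : Prop :=
  ∀ c d : G, Lead R b (b c * b d) (c + d)

variable {b : G → A}

theorem ltSpan_mul_basis (hb : MulLead R b) {n : ℕ} {x : A}
    (hx : x ∈ ltSpan (R := R) (G := (G : Set ℕ)) b n) (d : G) :
    x * b d ∈ ltSpan (R := R) (G := (G : Set ℕ)) b (n + d) := by
  unfold ltSpan at hx
  induction hx using Submodule.span_induction with
  | mem x hx =>
    obtain ⟨e, he, rfl⟩ := hx
    obtain ⟨r, hr⟩ := hb e d
    have he' : (e : ℕ) < n := he
    have h1 : b e * b d = (r : R) • b (e + d) + (b e * b d - (r : R) • b (e + d)) := by abel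
    rw [h1]
    refine Submodule.add_mem _ (Submodule.smul_mem _ _ (Submodule.subset_span ⟨e + d, ?_, rfl⟩))
      (ltSpan_mono (G := (G : Set ℕ)) b ?_ hr)
    · have : ((e + d : G) : ℕ) = e + d := rfl
      simp only [Set.mem_ofPred_eq, this]
      omega
    · have : ((e + d : G) : ℕ) = e + d := rfl
      omega
  | zero => rw [zero_mul]; exact Submodule.zero_mem _
  | add x y _ _ h1 h2 => rw [add_mul]; exact Submodule.add_mem _ h1 h2
  | smul r x _ h => rw [smul_mul_assoc]; exact Submodule.smul_mem _ _ h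

theorem Lead.mem_ltSpan {x : A} {c : G} (hx : Lead R b x c) {n : ℕ} (hn : (c : ℕ) < n) :
    x ∈ ltSpan (R := R) (G := (G : Set ℕ)) b n := by
  obtain ⟨r, hr⟩ := hx
  have h1 : x = (r : R) • b c + (x - (r : R) • b c) := by abel
  rw [h1]
  exact Submodule.add_mem _ (Submodule.smul_mem _ _ (Submodule.subset_span ⟨c, hn, rfl⟩))
    (ltSpan_mono (G := (G : Set ℕ)) b hn.le hr)

theorem ltSpan_mul_lead (hb : MulLead R b) {n : ℕ} {x y : A} {d : G}
    (hx : x ∈ ltSpan (R := R) (G := (G : Set ℕ)) b n) (hy : Lead R b y d) :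
    x * y ∈ ltSpan (R := R) (G := (G : Set ℕ)) b (n + d) := by
  unfold ltSpan at hx
  induction hx using Submodule.span_induction with
  | mem x hx =>
    obtain ⟨e, he, rfl⟩ := hx
    have he' : (e : ℕ) < n := he
    obtain ⟨r, hr⟩ := hy
    have h1 : b e * y = (r : R) • (b e * b d) + (y - (r : R) • b d) * b e := by
      rw [Algebra.smul_def, Algebra.smul_def]
      ring
    rw [h1]
    refine Submodule.add_mem _ (Submodule.smul_mem _ _ ((hb e d).mem_ltSpan ?_))
      (ltSpan_mono (G := (G : Set ℕ)) b ?_ (ltSpan_mul_basis hb hr e))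
    · have : ((e + d : G) : ℕ) = e + d := rfl
      omega
    · omega
  | zero => rw [zero_mul]; exact Submodule.zero_mem _
  | add x y _ _ h1 h2 => rw [add_mul]; exact Submodule.add_mem _ h1 h2
  | smul r x _ h => rw [smul_mul_assoc]; exact Submodule.smul_mem _ _ h

theorem Lead.mul (hb : MulLead R b) {x y : A} {c d : G} (hx : Lead R b x c) (hy : Lead R b y d) :
    Lead R b (x * y) (c + d) := by
  obtain ⟨r, hr⟩ := hx
  have hy' := hy
  obtain ⟨s, hs⟩ := hy
  obtain ⟨t, ht⟩ := hb c d
  refine ⟨r * s * t, ?_⟩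
  have h1 : x * y - ((r * s * t : Rˣ) : R) • b (c + d) =
      (x - (r : R) • b c) * y + (r : R) • ((y - (s : R) • b d) * b c) +
        ((r : R) * s) • (b c * b d - (t : R) • b (c + d)) := by
    simp only [Units.val_mul, Algebra.smul_def, map_mul]
    ring
  rw [h1]
  have hcd : ((c + d : G) : ℕ) = c + d := rfl
  refine Submodule.add_mem _ (Submodule.add_mem _ ?_ ?_) (Submodule.smul_mem _ _ ht)
  · exact ltSpan_mul_lead hb hr hy'
  · apply Submodule.smul_mem
    have := ltSpan_mul_basis hb hs c
    rw [hcd, add_comm]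
    exact this

theorem Lead.pow (hb : MulLead R b) (h1 : b 0 = 1) {x : A} {c : G} (hx : Lead R b x c) (m : ℕ) :
    Lead R b (x ^ m) (m • c) := by
  induction m with
  | zero => exact ⟨1, by rw [zero_smul, h1]; simp⟩
  | succ m ih =>
    rw [pow_succ, succ_nsmul]
    exact ih.mul hb hx

theorem Lead.self (c : G) : Lead R b (b c) c := ⟨1, by simp⟩

/-- the elements of `G` that are not `n` plus an element of `G` -/
def Ap (G : AddSubmonoid ℕ) (n : ℕ) : Set ℕ := {a | a ∈ G ∧ ∀ d ∈ G, a ≠ d + n}

theorem Ap_bij {n : ℕ} (hn : 0 < n) (hnG : n ∈ G) :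
    Function.Bijective (fun p : Ap G n × ℕ => (⟨p.1 + p.2 * n, G.add_mem p.1.2.1
      (by rw [← smul_eq_mul]; exact G.nsmul_mem hnG p.2)⟩ : G)) := by
  constructor
  · have key : ∀ (a a' : Ap G n) (m m' : ℕ), m < m' → (a : ℕ) + m * n ≠ a' + m' * n := by
      intro a a' m m' hm h
      obtain ⟨k, rfl⟩ := Nat.exists_eq_add_of_lt hm
      apply a.2.2 (a' + k * n) (G.add_mem a'.2.1
        (by rw [← smul_eq_mul]; exact G.nsmul_mem hnG k))
      have h2 : (m + k + 1) * n = m * n + k * n + n := by ring
      rw [h2] at h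
      omega
    rintro ⟨a, m⟩ ⟨a', m'⟩ h
    have h' : (a : ℕ) + m * n = a' + m' * n := congrArg Subtype.val h
    rcases lt_trichotomy m m' with hlt | heq | hgt
    · exact absurd h' (key a a' m m' hlt)
    · subst heq
      have : (a : ℕ) = a' := by omega
      rw [Subtype.ext this]
    · exact absurd h'.symm (key a' a m' m hgt)
  · have key : ∀ c : ℕ, c ∈ G → ∃ a ∈ Ap G n, ∃ m : ℕ, c = a + m * n := by
      intro c
      induction c using Nat.strong_induction_on with
      | _ c ih =>
        intro hc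
        by_cases h : ∃ d ∈ G, c = d + n
        · obtain ⟨d, hd, rfl⟩ := h
          obtain ⟨a, ha, m, rfl⟩ := ih d (by omega) hd
          exact ⟨a, ha, m + 1, by ring⟩
        · push Not at h
          exact ⟨c, ⟨hc, h⟩, 0, by simp⟩
    rintro ⟨c, hc⟩
    obtain ⟨a, ha, m, rfl⟩ := key c hc
    exact ⟨(⟨a, ha⟩, m), rfl⟩

/-- freeness over `R[u]` for `u` with unit leading coefficient -/
theorem freeOn_of_lead (B : Basis G R A) (hb : MulLead R B) (h1 : B 0 = 1) {u : A} {n : G}
    (hn : 0 < (n : ℕ)) (hu : Lead R B u n) :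
    FreeOn R u (fun a : Ap G n => B ⟨a, a.2.1⟩) := by
  let φ := Equiv.ofBijective _ (Ap_bij hn n.2)
  have hv : ∀ c : G, ∃ r : Rˣ, (fun c : G => B ⟨(φ.symm c).1, (φ.symm c).1.2.1⟩ *
      u ^ (φ.symm c).2) c - (r : R) • B c ∈ ltSpan (R := R) (G := (G : Set ℕ)) B c := by
    intro c
    obtain ⟨⟨a, m⟩, rfl⟩ := φ.surjective c
    simp only [Equiv.symm_apply_apply]
    have h2 : (φ (a, m) : G) = ⟨a, a.2.1⟩ + m • n := by
      apply Subtype.ext
      have h3 : ((⟨a, a.2.1⟩ + m • n : G) : ℕ) = (a : ℕ) + m * (n : ℕ) := by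
        simp
      rw [h3]
      rfl
    have h4 : Lead R B (B ⟨a, a.2.1⟩ * u ^ m) (φ (a, m)) := by
      rw [h2]
      exact (Lead.self _).mul hb (hu.pow hb h1 m)
    exact h4
  obtain ⟨b', hb'⟩ := exists_basis_of_triangular (G := (G : Set ℕ)) B _ hv
  refine ⟨b'.reindex φ.symm, fun a m => ?_⟩
  rw [Basis.reindex_apply, Equiv.symm_symm, hb']
  simp only [Equiv.symm_apply_apply]

theorem Ap_finite {n : ℕ} (hG : (G : Set ℕ)ᶜ.Finite) : (Ap G n).Finite := by
  have h1 : Ap G n ⊆ Set.Iio n ∪ (fun x => x + n) '' (G : Set ℕ)ᶜ := by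
    intro a ha
    by_cases h : a < n
    · exact Or.inl h
    · right
      refine ⟨a - n, fun h2 => ha.2 (a - n) h2 (by omega), by simp only; omega⟩
  exact ((Set.finite_Iio n).union (hG.image _)).subset h1

theorem FreeOn.reindex {ι κ : Type*} {u : A} {e : ι → A} (h : FreeOn R u e) (f : ι ≃ κ) :
    FreeOn R u (e ∘ f.symm) := by
  obtain ⟨b, hb⟩ := h
  exact ⟨b.reindex (f.prodCongr (Equiv.refl ℕ)), fun i m => by
    rw [Basis.reindex_apply]
    exact hb _ _⟩

theorem exists_freeOn_of_lead (B : Basis G R A) (hG : (G : Set ℕ)ᶜ.Finite) (hb : MulLead R B)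
    (h1 : B 0 = 1) {u : A} {n : G} (hn : 0 < (n : ℕ)) (hu : Lead R B u n) :
    ∃ (r : ℕ) (e : Fin r → A), FreeOn R u e := by
  have hfin := Ap_finite (n := n) hG
  have : Finite (Ap G n) := hfin
  exact ⟨_, _, (freeOn_of_lead B hb h1 hn hu).reindex (Finite.equivFin (Ap G n))⟩

end Gam

end PiCurve
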